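import Pool.Agent.Work.MP_92f640_nt.HS.Defs
import Pool.Agent.Work.MP_92f640_nt.HL.TypeIG
import Pool.Agent.Work.MP_92f640_nt.HL.TypeII
import Pool.Agent.Work.MP_92f640_nt.HL.Dual
import Pool.Agent.Work.MP_92f640_nt.HL.Minor
import Pool.Agent.Work.MP_92f640_nt.HT.Coef
import Pool.Agent.Work.MP_92f640_nt.HT.IIMinor

/-! # Module CtlMinor: controlled functions on the minor arcs

`VV_le` (HL/Dual) for the function `FA q f` on `[1, y]`; `φ` vanishes off the integers coprime to `q`. Type I: `typeIG` at `y` with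
`W = 1` (coefficients cut at `min D y`); type II for each `j`: dyadic blocks as in HL/Minor, `typeII` with the short variable `c` as inner one:
`X₁ X₂ ((X₂/s + 1)(X₁/q + 1 + s (1 + log s))) ≤ C L (x²/q)(1/s + 1/w₁ + q w₂/x + q s/x)` (`X₁ X₂ ≤ x`, `X₂ ≤ w₂`, `X₁ ≤ x/w₁`), coefficient sums by
`tau_sum 4`, Cauchy over `j`; error: `≤ √(∑ err²) √(∑_{n ≤ x} ‖φ n‖²)`, `∑_{n ≤ x} ‖φ n‖² ≤ x/q + 1`. -/

namespace Pool.Agent.HS

open Finset Pool.Agent.BV Pool.Agent.HL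
open Pool.Agent.HT (tau_sum)
open Pool.Agent.HT.IIMinor (tm decomp tgt tgt_nonneg tgt_eq calc_block one_le_log log_le'
  log2_le sq_sum_le norm_tw)

namespace CtlMinor

lemma expandG (y : ℕ) (φ : ℕ → ℂ) (α : ℝ) (a g : ℕ → ℂ) :
    ∑ n ∈ Icc 1 y, (∑ p ∈ n.divisorsAntidiagonal, g p.1 * a p.2) * (φ n * e (n * α)) =
      ∑ k ∈ Icc 1 y, ∑ c ∈ Icc 1 y, tm y φ α a g k c := by
  have h1 : ∀ n ∈ Icc 1 y,
      (∑ p ∈ n.divisorsAntidiagonal, g p.1 * a p.2) * (φ n * e (n * α)) =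
      ∑ p ∈ (Icc 1 y ×ˢ Icc 1 y).filter (fun p : ℕ × ℕ => p.1 * p.2 = n),
        tm y φ α a g p.2 p.1 := by
    intro n hn
    obtain ⟨hn1, hn2⟩ := mem_Icc.mp hn
    have hset : (Icc 1 y ×ˢ Icc 1 y).filter (fun p : ℕ × ℕ => p.1 * p.2 = n) =
        n.divisorsAntidiagonal := by
      ext p
      simp only [mem_filter, mem_product, mem_Icc, Nat.mem_divisorsAntidiagonal]
      constructor
      · rintro ⟨_, h⟩
        exact ⟨h, by omega⟩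
      · rintro ⟨h, _⟩
        have h1 : p.1 ≠ 0 := by
          intro h0
          rw [h0, zero_mul] at h
          omega
        have h2 : p.2 ≠ 0 := by
          intro h0
          rw [h0, mul_zero] at h
          omega
        refine ⟨⟨⟨by omega, ?_⟩, ⟨by omega, ?_⟩⟩, h⟩
        · exact le_trans (Nat.le_mul_of_pos_right _ (by omega)) (h.le.trans hn2)
        · exact le_trans (Nat.le_mul_of_pos_left _ (by omega)) (h.le.trans hn2)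
    rw [hset, sum_mul]
    refine sum_congr rfl fun p hp => ?_
    have h2 := (Nat.mem_divisorsAntidiagonal.mp hp).1
    unfold tm
    rw [if_pos (by rw [h2]; exact hn2), h2]
    ring
  rw [sum_congr rfl h1]
  simp only [sum_filter]
  rw [sum_comm]
  have h2 : ∀ p ∈ Icc 1 y ×ˢ Icc 1 y, ∑ n ∈ Icc 1 y,
      (if p.1 * p.2 = n then tm y φ α a g p.2 p.1 else 0) =
      tm y φ α a g p.2 p.1 := by
    intro p hp
    rw [sum_ite_eq]
    obtain ⟨hp1, hp2⟩ := mem_product.mp hp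
    rw [mem_Icc] at hp1 hp2
    by_cases h : p.1 * p.2 ≤ y
    · rw [if_pos]
      exact mem_Icc.mpr ⟨Nat.mul_pos hp1.1 hp2.1, h⟩
    · rw [if_neg]
      · unfold tm
        rw [if_neg h]
      · intro h3
        exact h (mem_Icc.mp h3).2
  rw [sum_congr rfl h2, sum_product_right]

/-- a type II block -/
lemma block2 {C₀ : ℝ} (hC₀ : 0 < C₀) (hτ : ∀ x N : ℕ, 3 ≤ x → N ≤ x →
      ∑ n ∈ Icc 1 N, (n.divisors.card : ℝ) ^ 4 ≤ C₀ * N * (Real.log x) ^ (2 ^ 4))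
    {A B : ℕ → ℝ} (hA : ∀ c, |A c| ≤ 1) (hB : ∀ l, |B l| ≤ (l.divisors.card : ℝ) ^ 2)
    {x y q s w U : ℕ} {φ : ℕ → ℂ} {α : ℝ} {b : ℤ} (hx : 3 ≤ x) (hyx : y ≤ x) (hq : 1 ≤ q)
    (hU : 1 ≤ U) (hAs : ∀ c, w < c → A c = 0)
    (hqs : q * s ≤ y) (hφ : Tw q φ) (hs : 1 ≤ s)
    (hbs : IsCoprime b (s : ℤ)) (hα : |q * α - b / s| ≤ 1 / (s : ℝ) ^ 2) (i j : ℕ) :
    ‖∑ k ∈ Ioc (2 ^ j) (2 * 2 ^ j), ∑ c ∈ Ioc (2 ^ i * U) (2 * (2 ^ i * U)),
      tm y φ α (fun l => ((B l : ℝ) : ℂ)) (fun c => ((A c : ℝ) : ℂ)) k c‖ ^ 2 ≤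
      64 * C₀ * (Real.log x) ^ 17 * tgt x q s w U := by
  have hL := one_le_log hx
  have ht := tgt_nonneg x q s w U
  set X₁ : ℕ := 2 ^ j with hX₁
  set X₂ : ℕ := 2 ^ i * U with hX₂
  have hX₁1 : 1 ≤ X₁ := Nat.one_le_two_pow
  have hUX : U ≤ X₂ := Nat.le_mul_of_pos_left _ (by positivity)
  have hpos : 0 ≤ 64 * C₀ * (Real.log x) ^ 17 * tgt x q s w U := by positivity
  by_cases h1 : w ≤ X₂
  · rw [sum_eq_zero]
    · rw [norm_zero, zero_pow two_ne_zero]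
      exact hpos
    · intro k _
      apply sum_eq_zero
      intro c hc
      rw [mem_Ioc] at hc
      unfold tm
      simp [hAs c (by omega)]
  by_cases h2 : y < (X₂ + 1) * (X₁ + 1)
  · rw [sum_eq_zero]
    · rw [norm_zero, zero_pow two_ne_zero]
      exact hpos
    · intro k hk
      apply sum_eq_zero
      intro c hc
      rw [mem_Ioc] at hc hk
      unfold tm
      rw [if_neg]
      have : (X₂ + 1) * (X₁ + 1) ≤ c * k := Nat.mul_le_mul (by omega) (by omega)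
      omega
  push Not at h1 h2
  have h3 : 2 * X₁ ≤ x := by nlinarith
  have h4 : X₁ * X₂ ≤ x := by nlinarith
  have h5 := typeII y q X₁ X₂ s φ α b (fun l => ((B l : ℝ) : ℂ)) (fun c => ((A c : ℝ) : ℂ)) hq hφ
    hs hbs hα
  refine h5.trans ?_
  have h6 : ∑ c ∈ Ioc X₂ (2 * X₂), ‖((A c : ℝ) : ℂ)‖ ^ 2 ≤ X₂ := by
    have h7 : ∀ c ∈ Ioc X₂ (2 * X₂), ‖((A c : ℝ) : ℂ)‖ ^ 2 ≤ 1 := by
      intro c _
      rw [Complex.norm_real, Real.norm_eq_abs]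
      exact pow_le_one₀ (abs_nonneg _) (hA c)
    refine (sum_le_sum h7).trans (le_of_eq ?_)
    rw [sum_const, Nat.card_Ioc, nsmul_eq_mul, mul_one]
    have : 2 * X₂ - X₂ = X₂ := by omega
    rw [this]
  have h7 : ∑ k ∈ Ioc X₁ (2 * X₁), ‖((B k : ℝ) : ℂ)‖ ^ 2 ≤ 2 * C₀ * X₁ * (Real.log x) ^ 16 := by
    have h8 : ∀ k ∈ Ioc X₁ (2 * X₁), ‖((B k : ℝ) : ℂ)‖ ^ 2 ≤ (k.divisors.card : ℝ) ^ 4 := by
      intro k _
      rw [Complex.norm_real, Real.norm_eq_abs]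
      calc |B k| ^ 2 ≤ ((k.divisors.card : ℝ) ^ 2) ^ 2 :=
            pow_le_pow_left₀ (abs_nonneg _) (hB k) 2
        _ = _ := by ring
    refine (sum_le_sum h8).trans ?_
    have h9 : ∑ k ∈ Ioc X₁ (2 * X₁), (k.divisors.card : ℝ) ^ 4 ≤
        C₀ * ((2 * X₁ : ℕ) : ℝ) * (Real.log x) ^ (2 ^ 4) := by
      refine le_trans ?_ (hτ x (2 * X₁) hx h3)
      apply sum_le_sum_of_subset_of_nonneg
      · intro k hk
        rw [mem_Ioc] at hk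
        rw [mem_Icc]
        omega
      · intro k _ _
        positivity
    refine h9.trans (le_of_eq ?_)
    push_cast
    ring
  have hs1 : (1 : ℝ) ≤ s := by exact_mod_cast hs
  have hsx : s ≤ x := (le_trans (Nat.le_mul_of_pos_left _ hq) hqs).trans hyx
  have hlog : 0 ≤ Real.log s := Real.log_nonneg hs1
  have hΛ : 1 + Real.log s ≤ 2 * Real.log x := by
    have := log_le' hs hsx
    linarith
  have h8 : 0 ≤ ((X₂ : ℝ) / s + 1) * ((X₁ : ℝ) / q + 1 + s * (1 + Real.log s)) := by positivity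
  have h9 : (X₁ : ℝ) * X₂ * (((X₂ : ℝ) / s + 1) * ((X₁ : ℝ) / q + 1 + s * (1 + Real.log s))) ≤
      4 * Real.log x * tgt x q s w U := by
    refine calc_block hx hq hs hU (by omega) ?_ ?_ ?_ ?_ hL hΛ
    · exact_mod_cast hX₁1
    · exact_mod_cast hUX
    · exact_mod_cast h1.le
    · exact_mod_cast h4
  calc 8 * (∑ k ∈ Ioc X₁ (2 * X₁), ‖((B k : ℝ) : ℂ)‖ ^ 2) *
        (∑ c ∈ Ioc X₂ (2 * X₂), ‖((A c : ℝ) : ℂ)‖ ^ 2) *
        (((X₂ : ℝ) / s + 1) * ((X₁ : ℝ) / q + 1 + s * (1 + Real.log s)))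
      ≤ 8 * (2 * C₀ * X₁ * (Real.log x) ^ 16) * X₂ *
        (((X₂ : ℝ) / s + 1) * ((X₁ : ℝ) / q + 1 + s * (1 + Real.log s))) := by
        apply mul_le_mul_of_nonneg_right _ h8
        apply mul_le_mul _ h6 (sum_nonneg fun _ _ => by positivity) (by positivity)
        exact mul_le_mul_of_nonneg_left h7 (by norm_num)
    _ = 16 * C₀ * (Real.log x) ^ 16 * ((X₁ : ℝ) * X₂ *
        (((X₂ : ℝ) / s + 1) * ((X₁ : ℝ) / q + 1 + s * (1 + Real.log s)))) := by ring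
    _ ≤ 16 * C₀ * (Real.log x) ^ 16 *
        (4 * Real.log x * tgt x q s w U) := mul_le_mul_of_nonneg_left h9 (by positivity)
    _ = _ := by ring

/-- the part with the long variable equal to `1` -/
lemma first2 {A B : ℕ → ℝ} (hA : ∀ c, |A c| ≤ 1) (hB : ∀ l, |B l| ≤ (l.divisors.card : ℝ) ^ 2)
    {x y q s w U : ℕ} {φ : ℕ → ℂ} {α : ℝ} (hx : 3 ≤ x) (hq : 1 ≤ q)
    (hU : 1 ≤ U) (hwx : w ≤ x) (hAs : ∀ c, w < c → A c = 0) (hφ : Tw q φ) (hs : 1 ≤ s) :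
    ‖∑ c ∈ Icc 1 y, tm y φ α (fun l => ((B l : ℝ) : ℂ)) (fun c => ((A c : ℝ) : ℂ)) 1 c‖ ^ 2 ≤
      tgt x q s w U := by
  have h1 : ∀ c ∈ Icc 1 y,
      ‖tm y φ α (fun l => ((B l : ℝ) : ℂ)) (fun c => ((A c : ℝ) : ℂ)) 1 c‖ ≤
      if c ≤ w then 1 else 0 := by
    intro c _
    have hB1 : |B 1| ≤ 1 := (hB 1).trans (by simp)
    unfold tm
    split_ifs with h2 h3 h3
    · rw [norm_mul, norm_mul, norm_mul, add_norm_e, mul_one, Complex.norm_real, Real.norm_eq_abs,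
        Complex.norm_real, Real.norm_eq_abs]
      exact mul_le_one₀ (mul_le_one₀ hB1 (abs_nonneg _) (hA c)) (norm_nonneg _) (norm_tw hq hφ _)
    · simp [hAs c (by omega)]
    · rw [norm_zero]
      norm_num
    · rw [norm_zero]
  have h5 : ‖∑ c ∈ Icc 1 y,
      tm y φ α (fun l => ((B l : ℝ) : ℂ)) (fun c => ((A c : ℝ) : ℂ)) 1 c‖ ≤ w := by
    refine (norm_sum_le _ _).trans ((sum_le_sum h1).trans ?_)
    rw [← sum_filter, sum_const, nsmul_eq_mul, mul_one]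
    have : ((Icc 1 y).filter (fun c => c ≤ w)).card ≤ w := by
      calc _ ≤ (Icc 1 w).card := by
            apply card_le_card
            intro c hc
            rw [mem_filter, mem_Icc] at hc
            rw [mem_Icc]
            exact ⟨hc.1.1, hc.2⟩
        _ = w := by simp
    exact_mod_cast this
  have h6 : (x : ℝ) * w ≤ tgt x q s w U := by
    rw [tgt_eq hx hq hs hU]
    have h7 : (0 : ℝ) ≤ (x : ℝ) ^ 2 / (s * q) := by positivity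
    have h8 : (0 : ℝ) ≤ (x : ℝ) ^ 2 / (U * q) := by positivity
    have h9 : (0 : ℝ) ≤ (x : ℝ) * s := by positivity
    linarith
  have h7 : (w : ℝ) * w ≤ x * w := by
    apply mul_le_mul_of_nonneg_right _ (Nat.cast_nonneg w)
    exact_mod_cast hwx
  calc _ ≤ (w : ℝ) ^ 2 := pow_le_pow_left₀ (norm_nonneg _) h5 2
    _ = (w : ℝ) * w := by ring
    _ ≤ _ := h7.trans h6

/-- the twisted sum of a type II product, short variable at least `2` -/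
lemma prod2 {C₀ : ℝ} (hC₀ : 0 < C₀) (hτ : ∀ x N : ℕ, 3 ≤ x → N ≤ x →
      ∑ n ∈ Icc 1 N, (n.divisors.card : ℝ) ^ 4 ≤ C₀ * N * (Real.log x) ^ (2 ^ 4))
    {A B : ℕ → ℝ} (hA : ∀ c, |A c| ≤ 1) (hB : ∀ l, |B l| ≤ (l.divisors.card : ℝ) ^ 2)
    {x y q s w U : ℕ} {φ : ℕ → ℂ} {α : ℝ} {b : ℤ} (hx : 3 ≤ x) (hy : 3 ≤ y) (hyx : y ≤ x)
    (hq : 1 ≤ q) (hU : 1 ≤ U) (hwx : w ≤ x) (hAs : ∀ c, w < c → A c = 0)
    (hAU : ∀ c, c ≤ U → A c = 0) (hqs : q * s ≤ y) (hφ : Tw q φ) (hs : 1 ≤ s)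
    (hbs : IsCoprime b (s : ℤ)) (hα : |q * α - b / s| ≤ 1 / (s : ℝ) ^ 2) :
    ‖∑ n ∈ Icc 1 y, (∑ p ∈ n.divisorsAntidiagonal, ((A p.1 : ℝ) : ℂ) * ((B p.2 : ℝ) : ℂ)) *
      (φ n * e (n * α))‖ ^ 2 ≤ (2 + 10368 * C₀) * (Real.log x) ^ 21 * tgt x q s w U := by
  have hL := one_le_log hx
  have ht := tgt_nonneg x q s w U
  set J := Nat.log 2 x + 1 with hJ
  have hJx : y ≤ 2 ^ J := hyx.trans (Nat.lt_pow_succ_log_self (by norm_num) x).le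
  have hJL : (J : ℝ) ≤ 3 * Real.log x := log2_le hx
  have hexp := expandG y φ α (fun l => ((B l : ℝ) : ℂ)) (fun c => ((A c : ℝ) : ℂ))
  rw [hexp, decomp (x := y) (U := U) (J := J) (by omega) hU hJx]
  · set E := 64 * C₀ * (Real.log x) ^ 17 * tgt x q s w U with hE
    have hE0 : 0 ≤ E := by positivity
    have h1 := first2 hA hB hx hq hU hwx hAs hφ hs (α := α) (U := U) (y := y)
    set S₁ := ∑ c ∈ Icc 1 y,
      tm y φ α (fun l => ((B l : ℝ) : ℂ)) (fun c => ((A c : ℝ) : ℂ)) 1 c with hS₁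
    have h2 : ‖∑ j ∈ range J, ∑ i ∈ range J, ∑ k ∈ Ioc (2 ^ j) (2 * 2 ^ j),
        ∑ c ∈ Ioc (2 ^ i * U) (2 * (2 ^ i * U)),
          tm y φ α (fun l => ((B l : ℝ) : ℂ)) (fun c => ((A c : ℝ) : ℂ)) k c‖ ^ 2 ≤
        (J : ℝ) ^ 4 * E := by
      refine (sq_sum_le _ _).trans ?_
      rw [card_range]
      have h3 : ∀ j ∈ range J, ‖∑ i ∈ range J, ∑ k ∈ Ioc (2 ^ j) (2 * 2 ^ j),
          ∑ c ∈ Ioc (2 ^ i * U) (2 * (2 ^ i * U)),
            tm y φ α (fun l => ((B l : ℝ) : ℂ)) (fun c => ((A c : ℝ) : ℂ)) k c‖ ^ 2 ≤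
          (J : ℝ) ^ 2 * E := by
        intro j _
        refine (sq_sum_le _ _).trans ?_
        rw [card_range]
        calc (J : ℝ) * ∑ i ∈ range J, ‖∑ k ∈ Ioc (2 ^ j) (2 * 2 ^ j),
              ∑ c ∈ Ioc (2 ^ i * U) (2 * (2 ^ i * U)),
                tm y φ α (fun l => ((B l : ℝ) : ℂ)) (fun c => ((A c : ℝ) : ℂ)) k c‖ ^ 2
            ≤ J * ∑ _i ∈ range J, E := by
              apply mul_le_mul_of_nonneg_left _ (Nat.cast_nonneg _)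
              exact sum_le_sum fun i _ =>
                block2 hC₀ hτ hA hB hx hyx hq hU hAs hqs hφ hs hbs hα i j
          _ = _ := by
              rw [sum_const, card_range, nsmul_eq_mul]
              ring
      calc (J : ℝ) * ∑ j ∈ range J, ‖∑ i ∈ range J, ∑ k ∈ Ioc (2 ^ j) (2 * 2 ^ j),
            ∑ c ∈ Ioc (2 ^ i * U) (2 * (2 ^ i * U)),
              tm y φ α (fun l => ((B l : ℝ) : ℂ)) (fun c => ((A c : ℝ) : ℂ)) k c‖ ^ 2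
          ≤ J * ∑ _j ∈ range J, (J : ℝ) ^ 2 * E :=
            mul_le_mul_of_nonneg_left (sum_le_sum h3) (Nat.cast_nonneg _)
        _ = _ := by
            rw [sum_const, card_range, nsmul_eq_mul]
            ring
    set S₂ := ∑ j ∈ range J, ∑ i ∈ range J, ∑ k ∈ Ioc (2 ^ j) (2 * 2 ^ j),
        ∑ c ∈ Ioc (2 ^ i * U) (2 * (2 ^ i * U)),
          tm y φ α (fun l => ((B l : ℝ) : ℂ)) (fun c => ((A c : ℝ) : ℂ)) k c with hS₂
    have h3 : ‖S₁ + S₂‖ ^ 2 ≤ 2 * ‖S₁‖ ^ 2 + 2 * ‖S₂‖ ^ 2 := by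
      have h4 := norm_add_le S₁ S₂
      have h5 : ‖S₁ + S₂‖ ^ 2 ≤ (‖S₁‖ + ‖S₂‖) ^ 2 := pow_le_pow_left₀ (norm_nonneg _) h4 2
      nlinarith [sq_nonneg (‖S₁‖ - ‖S₂‖)]
    have h4 : (J : ℝ) ^ 4 ≤ (3 * Real.log x) ^ 4 := pow_le_pow_left₀ (Nat.cast_nonneg _) hJL 4
    have h5 : (J : ℝ) ^ 4 * E ≤ 5184 * C₀ * (Real.log x) ^ 21 * tgt x q s w U := by
      calc (J : ℝ) ^ 4 * E ≤ (3 * Real.log x) ^ 4 * E := mul_le_mul_of_nonneg_right h4 hE0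
        _ = _ := by
            rw [hE]
            ring
    have h6 : tgt x q s w U ≤ (Real.log x) ^ 21 * tgt x q s w U :=
      le_mul_of_one_le_left ht (one_le_pow₀ hL)
    calc ‖S₁ + S₂‖ ^ 2 ≤ 2 * ‖S₁‖ ^ 2 + 2 * ‖S₂‖ ^ 2 := h3
      _ ≤ 2 * ((Real.log x) ^ 21 * tgt x q s w U) +
          2 * (5184 * C₀ * (Real.log x) ^ 21 * tgt x q s w U) := by
          have := h1.trans h6
          have := h2.trans h5
          linarith
      _ = _ := by ring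
  · intro k c h
    unfold tm
    rw [if_neg (by omega)]
  · intro k c h
    unfold tm
    simp [hAU c h]

/-- `∑ ‖φ n‖²` -/
lemma sum_sq_tw {q : ℕ} (hq : 1 ≤ q) {φ : ℕ → ℂ} (hφ : Tw q φ) (y : ℕ) :
    ∑ n ∈ Icc 1 y, ‖φ n‖ ^ 2 ≤ y / q + 1 := by
  have h1 : ∑ n ∈ Icc 1 y, ‖φ n‖ ^ 2 ≤ ∑ n ∈ range ((y / q + 1) * q), ‖φ n‖ ^ 2 := by
    refine sum_le_sum_of_subset_of_nonneg ?_ fun _ _ _ => by positivity
    intro n hn
    rw [mem_range]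
    have h2 := Nat.lt_div_mul_add (a := y) (b := q) hq
    have h3 := (mem_Icc.mp hn).2
    rw [add_mul, one_mul]
    omega
  have h3 : ∑ n ∈ range ((y / q + 1) * q), ‖φ n‖ ^ 2 =
      ((y / q + 1 : ℕ) : ℝ) * ∑ a ∈ range q, ‖φ a‖ ^ 2 :=
    Minor.sum_periodic q (fun n => ‖φ n‖ ^ 2) (fun n => by rw [hφ.per n]) _
  have h4 : ((y / q : ℕ) : ℝ) ≤ (y : ℝ) / q := Nat.cast_div_le
  calc _ ≤ _ := h1
    _ = _ := h3
    _ ≤ ((y / q + 1 : ℕ) : ℝ) * 1 := mul_le_mul_of_nonneg_left hφ.l2 (Nat.cast_nonneg _)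
    _ ≤ _ := by push_cast; linarith

/-- the trivial bound -/
lemma trivial_le {q : ℕ} (hq : 1 ≤ q) {φ : ℕ → ℂ} (hφ : Tw q φ) (y : ℕ) (α : ℝ) (f : ℕ → ℂ)
    (M : ℝ) (hM : ∑ n ∈ Icc 1 y, ‖f n‖ ^ 2 ≤ M) :
    ‖∑ n ∈ Icc 1 y, f n * (φ n * e (n * α))‖ ^ 2 ≤ M * (y / q + 1) := by
  have h1 : ‖∑ n ∈ Icc 1 y, f n * (φ n * e (n * α))‖ ≤ ∑ n ∈ Icc 1 y, ‖f n‖ * ‖φ n‖ := by
    refine (norm_sum_le _ _).trans (sum_le_sum fun n _ => ?_)
    rw [norm_mul, norm_mul, add_norm_e, mul_one]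
  calc _ ≤ (∑ n ∈ Icc 1 y, ‖f n‖ * ‖φ n‖) ^ 2 := pow_le_pow_left₀ (norm_nonneg _) h1 2
    _ ≤ (∑ n ∈ Icc 1 y, ‖f n‖ ^ 2) * ∑ n ∈ Icc 1 y, ‖φ n‖ ^ 2 := sum_mul_sq_le_sq_mul_sq _ _ _
    _ ≤ M * (y / q + 1) := by
      refine mul_le_mul hM (sum_sq_tw hq hφ y) (sum_nonneg fun _ _ => by positivity) ?_
      exact (sum_nonneg fun _ _ => by positivity).trans hM

/-- type I part -/
lemma partI {C₁ : ℝ} (hC₁ : 0 < C₁)
    (hI : ∀ (x q D s : ℕ) (φ : ℕ → ℂ) (α : ℝ) (b : ℤ) (w : ℕ → ℂ) (W : ℝ),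
    3 ≤ x → 1 ≤ q → q ≤ x → Tw q φ → D ≤ x → 1 ≤ s → s ≤ x → IsCoprime b (s : ℤ) →
    |q * α - b / s| ≤ 1 / (s : ℝ) ^ 2 → 0 ≤ W → (∀ d ∈ Icc 1 D, ‖w d‖ ≤ W) →
    ‖∑ d ∈ Icc 1 D, w d * ∑ k ∈ Icc 1 (x / d), φ (d * k) * e ((d * k : ℕ) * α)‖ ≤
      C₁ * W * ((x : ℝ) / Real.sqrt q) *
        (1 / Real.sqrt s + Real.sqrt (q * s / x) + Real.sqrt q * D / x) * (Real.log x) ^ 3)
    {x y q s D : ℕ} {β : ℕ → ℝ} (hβ : ∀ m, |β m| ≤ 1) (hβD : ∀ m, D < m → β m = 0)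
    {φ : ℕ → ℂ} {α : ℝ} {b : ℤ} (hy : 3 ≤ y) (hyx : y ≤ x)
    (hq : 1 ≤ q) (hqs : q * s ≤ y) (hφ : Tw q φ) (hs : 1 ≤ s)
    (hbs : IsCoprime b (s : ℤ)) (hα : |q * α - b / s| ≤ 1 / (s : ℝ) ^ 2) :
    ‖∑ n ∈ Icc 1 y, ((∑ m ∈ n.divisors, β m : ℝ) : ℂ) * (φ n * e (n * α))‖ ^ 2 ≤
      3 * C₁ ^ 2 * (Real.log x) ^ 6 *
        (((x : ℝ) ^ 2 / q) * (1 / s + q * s / x + q * D ^ 2 / x ^ 2)) := by
  have hx : 3 ≤ x := hy.trans hyx
  have h1 : ∑ n ∈ Icc 1 y, ((∑ m ∈ n.divisors, β m : ℝ) : ℂ) * (φ n * e (n * α)) =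
      ∑ d ∈ Icc 1 (min D y), ((β d : ℝ) : ℂ) *
        ∑ k ∈ Icc 1 (y / d), φ (d * k) * e ((d * k : ℕ) * α) := by
    have h2 : ∀ n ∈ Icc 1 y, ((∑ m ∈ n.divisors, β m : ℝ) : ℂ) * (φ n * e (n * α)) =
        (∑ p ∈ n.divisorsAntidiagonal, ((β p.1 : ℝ) : ℂ) * (1 : ℂ)) * (φ n * e (n * α)) := by
      intro n _
      congr 1
      simp only [mul_one]
      rw [Nat.sum_divisorsAntidiagonal (f := fun i _ => ((β i : ℝ) : ℂ))]
      push_cast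
      rfl
    rw [sum_congr rfl h2]
    have h3 := expandG y φ α (fun _ => (1 : ℂ)) (fun c => ((β c : ℝ) : ℂ))
    rw [h3]
    have h4 := Minor.rearr y (min D y) φ α (fun _ => 1) (fun c => ((β c : ℝ) : ℂ))
      (min_le_right _ _) (by
        intro d hd hdy
        have : D < d := by
          rcases le_total D y with h | h
          · rwa [min_eq_left h] at hd
          · rw [min_eq_right h] at hd
            omega
        simp [hβD d this])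
    simp only [one_mul] at h4
    rw [← h4]
    refine sum_congr rfl fun k _ => sum_congr rfl fun c _ => ?_
    unfold tm
    rw [mul_comm c k]
    split_ifs <;> simp
  rw [h1]
  have hqy : q ≤ y := le_trans (Nat.le_mul_of_pos_right _ hs) hqs
  have hsy : s ≤ y := le_trans (Nat.le_mul_of_pos_left _ hq) hqs
  have h2 := hI y q (min D y) s φ α b (fun c => ((β c : ℝ) : ℂ)) 1 hy hq hqy hφ
    (min_le_right _ _) hs hsy hbs hα zero_le_one (fun d _ => by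
      rw [Complex.norm_real, Real.norm_eq_abs]
      exact hβ d)
  set S := ∑ d ∈ Icc 1 (min D y), ((β d : ℝ) : ℂ) *
        ∑ k ∈ Icc 1 (y / d), φ (d * k) * e ((d * k : ℕ) * α) with hS
  have hq0 : (0 : ℝ) < q := by exact_mod_cast hq
  have hs0 : (0 : ℝ) < s := by exact_mod_cast hs
  have hy0 : (0 : ℝ) < y := by exact_mod_cast (by omega : 0 < y)
  have hx0 : (0 : ℝ) < x := by exact_mod_cast (by omega : 0 < x)
  have hyxr : (y : ℝ) ≤ x := by exact_mod_cast hyx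
  have hL : 1 ≤ Real.log y := one_le_log hy
  have hLL : Real.log y ≤ Real.log x := log_le' (by omega) hyx
  have hD : ((min D y : ℕ) : ℝ) ≤ D := by exact_mod_cast min_le_left _ _
  have h3 : (y : ℝ) ^ 2 / q * (1 / Real.sqrt s + Real.sqrt (q * s / y) +
      Real.sqrt q * (min D y : ℕ) / y) ^ 2 ≤
      3 * (((x : ℝ) ^ 2 / q) * (1 / s + q * s / x + q * D ^ 2 / x ^ 2)) := by
    have e1 : (1 / Real.sqrt s) ^ 2 = 1 / s := by
      rw [div_pow, one_pow, Real.sq_sqrt hs0.le]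
    have e2 : Real.sqrt (q * s / y) ^ 2 = q * s / y := Real.sq_sqrt (by positivity)
    have e3 : (Real.sqrt q * (min D y : ℕ) / y) ^ 2 = q * ((min D y : ℕ) : ℝ) ^ 2 / y ^ 2 := by
      rw [div_pow, mul_pow, Real.sq_sqrt hq0.le]
    have h4 : (1 / Real.sqrt s + Real.sqrt (q * s / y) + Real.sqrt q * (min D y : ℕ) / y) ^ 2 ≤
        3 * (1 / s + q * s / y + q * ((min D y : ℕ) : ℝ) ^ 2 / y ^ 2) := by
      have key : ∀ a b c : ℝ, (a + b + c) ^ 2 ≤ 3 * (a ^ 2 + b ^ 2 + c ^ 2) := by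
        intro a b c
        nlinarith [sq_nonneg (a - b), sq_nonneg (a - c), sq_nonneg (b - c)]
      have h5 := key (1 / Real.sqrt s) (Real.sqrt (q * s / y)) (Real.sqrt q * (min D y : ℕ) / y)
      rw [e1, e2, e3] at h5
      exact h5
    have h5 : (y : ℝ) ^ 2 / q * (1 / s + q * s / y + q * ((min D y : ℕ) : ℝ) ^ 2 / y ^ 2) =
        y ^ 2 / (q * s) + y * s + ((min D y : ℕ) : ℝ) ^ 2 := by
      field_simp
    have h6 : (x : ℝ) ^ 2 / q * (1 / s + q * s / x + q * D ^ 2 / x ^ 2) =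
        x ^ 2 / (q * s) + x * s + D ^ 2 := by
      field_simp
    calc _ ≤ (y : ℝ) ^ 2 / q * (3 * (1 / s + q * s / y +
          q * ((min D y : ℕ) : ℝ) ^ 2 / y ^ 2)) := mul_le_mul_of_nonneg_left h4 (by positivity)
      _ = 3 * ((y : ℝ) ^ 2 / q * (1 / s + q * s / y +
          q * ((min D y : ℕ) : ℝ) ^ 2 / y ^ 2)) := by ring
      _ = 3 * (y ^ 2 / (q * s) + y * s + ((min D y : ℕ) : ℝ) ^ 2) := by rw [h5]
      _ ≤ 3 * (x ^ 2 / (q * s) + x * s + (D : ℝ) ^ 2) := by gcongr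
      _ = _ := by rw [h6]
  have hfac : 0 ≤ 1 / Real.sqrt s + Real.sqrt (q * s / y) + Real.sqrt q * (min D y : ℕ) / y := by
    positivity
  calc ‖S‖ ^ 2 ≤ (C₁ * 1 * ((y : ℝ) / Real.sqrt q) *
        (1 / Real.sqrt s + Real.sqrt (q * s / y) + Real.sqrt q * (min D y : ℕ) / y) *
          (Real.log y) ^ 3) ^ 2 := pow_le_pow_left₀ (norm_nonneg _) h2 2
    _ = C₁ ^ 2 * ((Real.log y) ^ 6) * ((y : ℝ) ^ 2 / q * (1 / Real.sqrt s +
        Real.sqrt (q * s / y) + Real.sqrt q * (min D y : ℕ) / y) ^ 2) := by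
      have : ((y : ℝ) / Real.sqrt q) ^ 2 = y ^ 2 / q := by rw [div_pow, Real.sq_sqrt hq0.le]
      rw [← this]
      ring
    _ ≤ C₁ ^ 2 * ((Real.log x) ^ 6) *
        (3 * (((x : ℝ) ^ 2 / q) * (1 / s + q * s / x + q * D ^ 2 / x ^ 2))) := by
      refine mul_le_mul ?_ h3 (by positivity) (by positivity)
      exact mul_le_mul_of_nonneg_left (pow_le_pow_left₀ (by linarith) hLL 6) (by positivity)
    _ = _ := by ring

/-- type II part -/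
lemma partII {C₀ C₂ : ℝ} (hC₀ : 0 < C₀) (hC₂ : 0 < C₂) (hτ : ∀ x N : ℕ, 3 ≤ x → N ≤ x →
      ∑ n ∈ Icc 1 N, (n.divisors.card : ℝ) ^ 4 ≤ C₀ * N * (Real.log x) ^ (2 ^ 4))
    (hτ6 : ∀ x N : ℕ, 3 ≤ x → N ≤ x →
      ∑ n ∈ Icc 1 N, (n.divisors.card : ℝ) ^ 6 ≤ C₂ * N * (Real.log x) ^ (2 ^ 6))
    {A B : ℕ → ℝ} (hA : ∀ c, |A c| ≤ 1) (hB : ∀ l, |B l| ≤ (l.divisors.card : ℝ) ^ 2)
    {x y q s w₁ w₂ : ℕ} {φ : ℕ → ℂ} {α : ℝ} {b : ℤ} (hy : 3 ≤ y) (hyx : y ≤ x)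
    (hq : 1 ≤ q) (hw₁ : 1 ≤ w₁) (hw₂ : w₂ ≤ x) (hAs : ∀ c, A c ≠ 0 → w₁ ≤ c ∧ c ≤ w₂)
    (hqs : q * s ≤ y) (hφ : Tw q φ) (hs : 1 ≤ s)
    (hbs : IsCoprime b (s : ℤ)) (hα : |q * α - b / s| ≤ 1 / (s : ℝ) ^ 2) :
    ‖∑ n ∈ Icc 1 y, (∑ p ∈ n.divisorsAntidiagonal, ((A p.1 : ℝ) : ℂ) * ((B p.2 : ℝ) : ℂ)) *
      (φ n * e (n * α))‖ ^ 2 ≤
      (4 + 20736 * C₀ + C₂) * (Real.log x) ^ 64 * tgt x q s w₂ w₁ := by
  have hx : 3 ≤ x := hy.trans hyx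
  have hL := one_le_log hx
  have hq0 : (0 : ℝ) < q := by exact_mod_cast hq
  have hs0 : (0 : ℝ) < s := by exact_mod_cast hs
  have hx0 : (0 : ℝ) < x := by exact_mod_cast (by omega : 0 < x)
  have ht := tgt_nonneg x q s w₂ w₁
  rcases Nat.lt_or_ge w₁ 2 with h | h
  · have hw : w₁ = 1 := by omega
    subst hw
    have h1 : ∀ n ∈ Icc 1 y, ‖∑ p ∈ n.divisorsAntidiagonal, ((A p.1 : ℝ) : ℂ) *
        ((B p.2 : ℝ) : ℂ)‖ ^ 2 ≤ (n.divisors.card : ℝ) ^ 6 := by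
      intro n hn
      have hn1 := (mem_Icc.mp hn).1
      have h2 : ‖∑ p ∈ n.divisorsAntidiagonal, ((A p.1 : ℝ) : ℂ) * ((B p.2 : ℝ) : ℂ)‖ ≤
          (n.divisors.card : ℝ) ^ 3 := by
        refine (norm_sum_le _ _).trans ?_
        have h3 : ∀ p ∈ n.divisorsAntidiagonal, ‖((A p.1 : ℝ) : ℂ) * ((B p.2 : ℝ) : ℂ)‖ ≤
            (n.divisors.card : ℝ) ^ 2 := by
          intro p hp
          rw [norm_mul, Complex.norm_real, Real.norm_eq_abs, Complex.norm_real, Real.norm_eq_abs]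
          have h4 := Nat.mem_divisorsAntidiagonal.mp hp
          have h5 : (p.2.divisors.card : ℝ) ≤ n.divisors.card := by
            exact_mod_cast card_le_card (Nat.divisors_subset_of_dvd h4.2
              ⟨p.1, by rw [mul_comm]; exact h4.1.symm⟩)
          calc |A p.1| * |B p.2| ≤ 1 * (p.2.divisors.card : ℝ) ^ 2 :=
                mul_le_mul (hA _) (hB _) (abs_nonneg _) zero_le_one
            _ ≤ 1 * (n.divisors.card : ℝ) ^ 2 := by gcongr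
            _ = _ := one_mul _
        refine (sum_le_sum h3).trans (le_of_eq ?_)
        have h6 : (n.divisorsAntidiagonal.card : ℝ) = n.divisors.card := by
          rw [DivSum_tau]
          simp
        rw [sum_const, nsmul_eq_mul, h6]
        ring
      calc _ ≤ ((n.divisors.card : ℝ) ^ 3) ^ 2 := pow_le_pow_left₀ (norm_nonneg _) h2 2
        _ = _ := by ring
    have h2 := trivial_le hq hφ y α (fun n => ∑ p ∈ n.divisorsAntidiagonal,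
      ((A p.1 : ℝ) : ℂ) * ((B p.2 : ℝ) : ℂ)) (C₂ * x * (Real.log x) ^ 64) (by
        refine (sum_le_sum h1).trans ((hτ6 x y hx hyx).trans ?_)
        have : (y : ℝ) ≤ x := by exact_mod_cast hyx
        gcongr
        norm_num)
    refine h2.trans ?_
    have h3 : (x : ℝ) * ((y : ℝ) / q + 1) ≤ tgt x q s w₂ 1 := by
      rw [tgt_eq hx hq hs le_rfl]
      have h4 : (y : ℝ) ≤ x := by exact_mod_cast hyx
      have h5 : (x : ℝ) * (y / q) ≤ (x : ℝ) ^ 2 / ((1 : ℕ) * q) := by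
        rw [Nat.cast_one, one_mul, sq, mul_div_assoc]
        gcongr
      have h6 : (0 : ℝ) ≤ (x : ℝ) ^ 2 / (s * q) := by positivity
      have h7 : (0 : ℝ) ≤ (x : ℝ) * w₂ := by positivity
      have h8 : (x : ℝ) * 1 ≤ x * s := by
        apply mul_le_mul_of_nonneg_left _ hx0.le
        exact_mod_cast hs
      linarith
    calc C₂ * x * (Real.log x) ^ 64 * ((y : ℝ) / q + 1) =
          C₂ * (Real.log x) ^ 64 * ((x : ℝ) * ((y : ℝ) / q + 1)) := by ring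
      _ ≤ C₂ * (Real.log x) ^ 64 * tgt x q s w₂ 1 := by gcongr
      _ ≤ (4 + 20736 * C₀ + C₂) * (Real.log x) ^ 64 * tgt x q s w₂ 1 := by
        gcongr
        linarith
  · obtain ⟨U, rfl⟩ : ∃ U, w₁ = U + 1 := ⟨w₁ - 1, by omega⟩
    have hU : 1 ≤ U := by omega
    have h1 := prod2 hC₀ hτ hA hB hx hy hyx hq hU hw₂ (w := w₂)
      (fun c hc => by
        by_contra h0
        have := (hAs c h0).2
        omega)
      (fun c hc => by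
        by_contra h0
        have := (hAs c h0).1
        omega) hqs hφ hs hbs hα
    refine h1.trans ?_
    have h2 : tgt x q s w₂ U ≤ 2 * tgt x q s w₂ (U + 1) := by
      rw [tgt_eq hx hq hs hU, tgt_eq hx hq hs (by omega)]
      have hU0 : (1 : ℝ) ≤ U := by exact_mod_cast hU
      have h3 : (x : ℝ) ^ 2 / (U * q) ≤ 2 * ((x : ℝ) ^ 2 / ((U + 1 : ℕ) * q)) := by
        rw [← mul_div_assoc, div_le_div_iff₀ (by positivity) (by positivity)]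
        push_cast
        have : (U : ℝ) + 1 ≤ 2 * U := by linarith
        calc (x : ℝ) ^ 2 * ((U + 1) * q) ≤ (x : ℝ) ^ 2 * ((2 * U) * q) := by gcongr
          _ = _ := by ring
      have h6 : (0 : ℝ) ≤ (x : ℝ) ^ 2 / (s * q) := by positivity
      have h7 : (0 : ℝ) ≤ (x : ℝ) * w₂ := by positivity
      have h8 : (0 : ℝ) ≤ (x : ℝ) * s := by positivity
      linarith
    calc (2 + 10368 * C₀) * (Real.log x) ^ 21 * tgt x q s w₂ U
        ≤ (2 + 10368 * C₀) * (Real.log x) ^ 64 * (2 * tgt x q s w₂ (U + 1)) := by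
          have := tgt_nonneg x q s w₂ U
          have h9 : (Real.log x) ^ 21 ≤ (Real.log x) ^ 64 := pow_le_pow_right₀ hL (by norm_num)
          gcongr
      _ = (4 + 20736 * C₀) * ((Real.log x) ^ 64 * tgt x q s w₂ (U + 1)) := by ring
      _ ≤ (4 + 20736 * C₀ + C₂) * ((Real.log x) ^ 64 * tgt x q s w₂ (U + 1)) :=
        mul_le_mul_of_nonneg_right (by linarith)
          (mul_nonneg (pow_nonneg (by linarith) _) ht)
      _ = _ := by ring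

end CtlMinor

theorem ctl_minor : ∃ (C : ℝ) (c : ℕ), 0 < C ∧ ∀ (x y q s D w₁ w₂ J : ℕ) (A B : ℕ → ℕ → ℝ)
    (β err f : ℕ → ℝ) (M α : ℝ) (b : ℤ), Ctl x D w₁ w₂ J A B β err f →
    ∑ n ∈ Icc 1 x, (err n) ^ 2 ≤ M → 3 ≤ y → y ≤ x → 1 ≤ q → 1 ≤ w₁ → w₂ ≤ x → D ≤ x → 1 ≤ s →
    q * s ≤ y → IsCoprime b (s : ℤ) → |q * α - b / s| ≤ 1 / (s : ℝ) ^ 2 →
    VV q y (FA q f) α ≤ C * (Real.log x) ^ c *
      (((x : ℝ) ^ 2 / q) * (1 / s + q * s / x + q * D ^ 2 / x ^ 2) +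
        (J : ℝ) ^ 2 * ((x : ℝ) ^ 2 / q) * (1 / s + 1 / w₁ + q * w₂ / x + q * s / x) +
        (x / q + 1) * M) := by
  obtain ⟨C₁, hC₁, hI⟩ := typeIG
  obtain ⟨C₀, hC₀, hτ⟩ := tau_sum 4
  obtain ⟨C₂, hC₂, hτ6⟩ := tau_sum 6
  refine ⟨9 * C₁ ^ 2 + 3 * (4 + 20736 * C₀ + C₂) + 3, 64, by positivity, ?_⟩
  intro x y q s D w₁ w₂ J A B β err f M α b hctl hM hy hyx hq hw₁ hw₂ hDx hs hqs hbs hα
  have hx : 3 ≤ x := hy.trans hyx
  have hL := one_le_log hx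
  have hq0 : (0 : ℝ) < q := by exact_mod_cast hq
  have hs0 : (0 : ℝ) < s := by exact_mod_cast hs
  have hx0 : (0 : ℝ) < x := by exact_mod_cast (by omega : 0 < x)
  have hM0 : 0 ≤ M := (sum_nonneg fun _ _ => sq_nonneg _).trans hM
  set T₁ := ((x : ℝ) ^ 2 / q) * (1 / s + q * s / x + q * D ^ 2 / x ^ 2) with hT₁
  set C₃ := 4 + 20736 * C₀ + C₂ with hC₃
  have hC₃0 : 0 < C₃ := by positivity
  have hT₁0 : 0 ≤ T₁ := by positivity
  have hT₂0 := tgt_nonneg x q s w₂ w₁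
  set K2 := 3 * (3 * C₁ ^ 2 * (Real.log x) ^ 6 * T₁ +
    (J : ℝ) ^ 2 * (C₃ * (Real.log x) ^ 64 * tgt x q s w₂ w₁) + M * (x / q + 1)) with hK2
  have hK0 : 0 ≤ K2 := by positivity
  have h1 : VV q y (FA q f) α ≤ (Real.sqrt K2) ^ 2 := by
    refine VV_le q y hq (FA q f) (fun n hn => by unfold FA; rw [if_neg hn]) α _
      (Real.sqrt_nonneg _) ?_
    intro φ hφ
    refine Real.le_sqrt_of_sq_le ?_
    have h2 : ∑ n ∈ Icc 1 y, FA q f n * φ n * e (n * α) =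
        ∑ n ∈ Icc 1 y, ((∑ m ∈ n.divisors, β m : ℝ) : ℂ) * (φ n * e (n * α)) +
        ∑ j ∈ range J, ∑ n ∈ Icc 1 y, (∑ p ∈ n.divisorsAntidiagonal,
          ((A j p.1 : ℝ) : ℂ) * ((B j p.2 : ℝ) : ℂ)) * (φ n * e (n * α)) +
        ∑ n ∈ Icc 1 y, ((err n : ℝ) : ℂ) * (φ n * e (n * α)) := by
      rw [sum_comm (s := range J), ← sum_add_distrib, ← sum_add_distrib]
      refine sum_congr rfl fun n hn => ?_
      obtain ⟨hn1, hn2⟩ := mem_Icc.mp hn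
      have h3 : FA q f n * φ n = ((f n : ℝ) : ℂ) * φ n := by
        unfold FA
        split_ifs with h
        · rfl
        · rw [hφ.cop n h]
          simp
      rw [h3, hctl.eq n hn1 (hn2.trans hyx), ← sum_mul]
      push_cast
      ring
    rw [h2]
    set SI := ∑ n ∈ Icc 1 y, ((∑ m ∈ n.divisors, β m : ℝ) : ℂ) * (φ n * e (n * α)) with hSI
    set SE := ∑ n ∈ Icc 1 y, ((err n : ℝ) : ℂ) * (φ n * e (n * α)) with hSE
    set SJ := ∑ j ∈ range J, ∑ n ∈ Icc 1 y, (∑ p ∈ n.divisorsAntidiagonal,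
          ((A j p.1 : ℝ) : ℂ) * ((B j p.2 : ℝ) : ℂ)) * (φ n * e (n * α)) with hSJ
    have a1 : ‖SI‖ ^ 2 ≤ 3 * C₁ ^ 2 * (Real.log x) ^ 6 * T₁ :=
      CtlMinor.partI hC₁ hI hctl.hβ hctl.hβD hy hyx hq hqs hφ hs hbs hα
    have a2 : ‖SJ‖ ^ 2 ≤ (J : ℝ) ^ 2 * (C₃ * (Real.log x) ^ 64 * tgt x q s w₂ w₁) := by
      refine (sq_sum_le _ _).trans ?_
      rw [card_range]
      calc (J : ℝ) * ∑ j ∈ range J, ‖∑ n ∈ Icc 1 y, (∑ p ∈ n.divisorsAntidiagonal,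
            ((A j p.1 : ℝ) : ℂ) * ((B j p.2 : ℝ) : ℂ)) * (φ n * e (n * α))‖ ^ 2
          ≤ J * ∑ _j ∈ range J, C₃ * (Real.log x) ^ 64 * tgt x q s w₂ w₁ := by
            refine mul_le_mul_of_nonneg_left (sum_le_sum fun j _ => ?_) (Nat.cast_nonneg _)
            exact CtlMinor.partII hC₀ hC₂ hτ hτ6 (hctl.hA j) (hctl.hB j) hy hyx hq hw₁ hw₂
              (hctl.hAs j) hqs hφ hs hbs hα
        _ = _ := by
            rw [sum_const, card_range, nsmul_eq_mul]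
            ring
    have a3 : ‖SE‖ ^ 2 ≤ M * (x / q + 1) := by
      have a4 := CtlMinor.trivial_le hq hφ y α (fun n => ((err n : ℝ) : ℂ)) M (by
        refine le_trans ?_ hM
        calc ∑ n ∈ Icc 1 y, ‖((err n : ℝ) : ℂ)‖ ^ 2 = ∑ n ∈ Icc 1 y, (err n) ^ 2 := by
              refine sum_congr rfl fun n _ => ?_
              rw [Complex.norm_real, Real.norm_eq_abs, sq_abs]
          _ ≤ _ := sum_le_sum_of_subset_of_nonneg (Icc_subset_Icc_right hyx)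
              (fun _ _ _ => sq_nonneg _))
      refine a4.trans ?_
      have : (y : ℝ) ≤ x := by exact_mod_cast hyx
      gcongr
    have a5 : ‖SI + SJ + SE‖ ^ 2 ≤ 3 * (‖SI‖ ^ 2 + ‖SJ‖ ^ 2 + ‖SE‖ ^ 2) := by
      have b1 : ‖SI + SJ + SE‖ ≤ ‖SI‖ + ‖SJ‖ + ‖SE‖ :=
        (norm_add_le _ _).trans (add_le_add_left (norm_add_le _ _) _)
      have b2 := pow_le_pow_left₀ (norm_nonneg _) b1 2
      nlinarith [sq_nonneg (‖SI‖ - ‖SJ‖), sq_nonneg (‖SI‖ - ‖SE‖), sq_nonneg (‖SJ‖ - ‖SE‖)]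
    refine a5.trans ?_
    rw [hK2]
    linarith
  refine h1.trans ?_
  rw [Real.sq_sqrt hK0, hK2]
  have e1 : (J : ℝ) ^ 2 * ((x : ℝ) ^ 2 / q) * (1 / s + 1 / w₁ + q * w₂ / x + q * s / x) =
      (J : ℝ) ^ 2 * tgt x q s w₂ w₁ := by
    unfold tgt
    ring
  rw [e1]
  set T₂ := tgt x q s w₂ w₁ with hT₂
  set N := (J : ℝ) ^ 2 * T₂ with hN
  have hN0 : 0 ≤ N := by positivity
  set E := ((x : ℝ) / q + 1) * M with hE
  have hE0 : 0 ≤ E := by positivity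
  have hL6 : (Real.log x) ^ 6 ≤ (Real.log x) ^ 64 := pow_le_pow_right₀ hL (by norm_num)
  have hL1 : 1 ≤ (Real.log x) ^ 64 := one_le_pow₀ hL
  have hL64 : 0 ≤ (Real.log x) ^ 64 := by positivity
  have g1 : 3 * (3 * C₁ ^ 2 * (Real.log x) ^ 6 * T₁) ≤ 9 * C₁ ^ 2 * ((Real.log x) ^ 64 * T₁) := by
    calc 3 * (3 * C₁ ^ 2 * (Real.log x) ^ 6 * T₁) = 9 * C₁ ^ 2 * ((Real.log x) ^ 6 * T₁) := by
          ring
      _ ≤ _ := by gcongr
  have g2 : M * ((x : ℝ) / q + 1) ≤ (Real.log x) ^ 64 * E := by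
    calc M * ((x : ℝ) / q + 1) = 1 * E := by rw [hE]; ring
      _ ≤ _ := mul_le_mul_of_nonneg_right hL1 hE0
  have g3 : (J : ℝ) ^ 2 * (C₃ * (Real.log x) ^ 64 * T₂) = C₃ * ((Real.log x) ^ 64 * N) := by
    rw [hN]; ring
  have p1 : 0 ≤ (Real.log x) ^ 64 * T₁ := mul_nonneg hL64 hT₁0
  have p2 : 0 ≤ (Real.log x) ^ 64 * N := mul_nonneg hL64 hN0
  have p3 : 0 ≤ (Real.log x) ^ 64 * E := mul_nonneg hL64 hE0
  have q1 : 0 ≤ C₃ * ((Real.log x) ^ 64 * T₁) := mul_nonneg hC₃0.le p1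
  have q2 : 0 ≤ C₃ * ((Real.log x) ^ 64 * E) := mul_nonneg hC₃0.le p3
  have q3 : 0 ≤ C₁ ^ 2 * ((Real.log x) ^ 64 * N) := mul_nonneg (sq_nonneg _) p2
  have q4 : 0 ≤ C₁ ^ 2 * ((Real.log x) ^ 64 * E) := mul_nonneg (sq_nonneg _) p3
  have e2 : (9 * C₁ ^ 2 + 3 * C₃ + 3) * (Real.log x) ^ 64 * (T₁ + N + E) =
      9 * (C₁ ^ 2 * ((Real.log x) ^ 64 * T₁)) + 9 * (C₁ ^ 2 * ((Real.log x) ^ 64 * N)) +
      9 * (C₁ ^ 2 * ((Real.log x) ^ 64 * E)) + 3 * (C₃ * ((Real.log x) ^ 64 * T₁)) +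
      3 * (C₃ * ((Real.log x) ^ 64 * N)) + 3 * (C₃ * ((Real.log x) ^ 64 * E)) +
      3 * ((Real.log x) ^ 64 * T₁) + 3 * ((Real.log x) ^ 64 * N) +
      3 * ((Real.log x) ^ 64 * E) := by ring
  rw [e2]
  have e3 : 9 * C₁ ^ 2 * ((Real.log x) ^ 64 * T₁) = 9 * (C₁ ^ 2 * ((Real.log x) ^ 64 * T₁)) := by
    ring
  linarith

end Pool.Agent.HS
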