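import Pool.Agent.Work.MP_92f640_nt.HS.VDiff3

/-! # Module TypeIVar: type I sums over the non-principal characters mod `k`, level up to `x^(1-ε)/√k` for ALL `k ≤ x^(1-ε)`
(`vdiff2` has `k (D + k)²`, too large for `k > x^(2/3)`.) From `typeI_chars3` (VDiff3). -/

namespace Pool.Agent.HS

open Finset Pool.Agent.BV Pool.Agent.HL

theorem typeI_var : ∃ (C : ℝ) (c : ℕ), 0 < C ∧ ∀ (k D y : ℕ) [NeZero k] (w : ℕ → ℂ) (W : ℝ), 3 ≤ y →
    k ≤ y → D ≤ y → 0 ≤ W → (∀ m, ‖w m‖ ≤ W) →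
    ∑ χ ∈ (univ : Finset (DirichletCharacter ℂ k)).erase 1,
      ‖∑ m ∈ Icc 1 D, w m * χ (m : ZMod k) * ∑ j ∈ Icc 1 (y / m), χ (j : ZMod k)‖ ^ 2 ≤
      C * W ^ 2 * k * ((D : ℝ) ^ 2 + y) * (Real.log y) ^ c := by
  refine ⟨5000 * 2 * 64 * 3, 4, by norm_num, ?_⟩
  intro k D y _ w W hy hky hDy hW hw
  have hL : 1 ≤ Real.log y := DivSum_log y hy
  have hk0 : (0 : ℝ) ≤ k := Nat.cast_nonneg k
  have hk1 : (1 : ℝ) ≤ k := by exact_mod_cast Nat.pos_of_ne_zero (NeZero.ne k)
  have hy0 : (0 : ℝ) < y := by exact_mod_cast (by omega : 0 < y)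
  rcases Nat.eq_zero_or_pos D with hD | hD
  · subst hD
    simp only [show Icc 1 0 = (∅ : Finset ℕ) from rfl, sum_empty, norm_zero]
    rw [zero_pow two_ne_zero, sum_const_zero]
    positivity
  have hD1 : (1 : ℝ) ≤ D := by exact_mod_cast hD
  have h := typeI_chars3 k D hD w (fun _ => (1 : ℂ)) (fun m => y / m) ((y : ℝ) + D) 1 W
    (by positivity) (by norm_num) hW (fun m _ => hw m) ?_
    (fun m _ β => VDiff2.geom_Icc (y / m) β)
  · have h2 : Real.log k ≤ Real.log y := Real.log_le_log (by linarith) (by exact_mod_cast hky)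
    have h3 : 2 + Real.log (2 * D) ≤ 4 * Real.log y := by
      rw [Real.log_mul (by norm_num) (by linarith)]
      have h4 : Real.log D ≤ Real.log y := Real.log_le_log (by linarith) (by exact_mod_cast hDy)
      have h5 := Real.log_two_lt_d9
      linarith
    have h3' : 0 ≤ 2 + Real.log (2 * D) := by
      have := Real.log_nonneg (show (1 : ℝ) ≤ 2 * D by linarith)
      linarith
    have h4 : 2 + Real.log k ≤ 3 * Real.log y := by linarith
    have h4' : 0 ≤ 2 + Real.log k := by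
      have := Real.log_nonneg hk1
      linarith
    have h5 : (D : ℝ) ^ 2 + (y + D) ≤ 2 * ((D : ℝ) ^ 2 + y) := by nlinarith
    simp only [one_mul] at h
    refine h.trans ?_
    calc W ^ 2 * (5000 * k * ((D : ℝ) ^ 2 + (y + D)) * ((2 + Real.log (2 * D)) ^ 3 *
        (2 + Real.log k)))
        ≤ W ^ 2 * (5000 * k * (2 * ((D : ℝ) ^ 2 + y)) * ((4 * Real.log y) ^ 3 *
        (3 * Real.log y))) := by gcongr
      _ = _ := by ring
  · intro m hm
    rw [mem_Icc] at hm
    have hm0 : (0 : ℝ) < m := by exact_mod_cast hm.1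
    have h1 : ((y / m : ℕ) : ℝ) ≤ (y : ℝ) / m := Nat.cast_div_le
    rw [add_div]
    have h2 : (1 : ℝ) ≤ D / m := by
      rw [le_div_iff₀ hm0, one_mul]
      exact_mod_cast hm.2
    linarith

end Pool.Agent.HS
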