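import Pool.Agent.Work.MP_92f640_nt.HS.Defs
import Pool.Agent.Work.MP_92f640_nt.HS.TypeIVar
import Pool.Agent.Work.MP_92f640_nt.HL.Mass2
import Pool.Agent.Work.MP_92f640_nt.HT.Coef

/-! # Module CtlVar: variance of controlled functions

Type I: `typeI_var`, `W = 1`, coefficients cut at `min D y`: `C k (D² + x) L^c` (for `y < k` trivially by `mean_value`: `(y + k) y L³`). Type II, fixed `j`: cells
`[w₁ (1+η)^i, w₁ (1+η)^(i+1))` for `c ∈ [w₁, w₂]`, at most `5 L/η`; replace `l ≤ y/c` by `l ≤ y/g(i+1)`: `A_i(χ) B_i(χ)`, `‖A_i‖ ≤ 2 g(i+1) ρ`,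
`∑_χ ‖B_i‖² ≤ (K + k) K L^c`, `K = y/g(i+1)`: total `C L^c ρ² η⁻² (x² + w₂ k x)`. Boundary: coefficients `≤ τ(n)³` on `y (1 - η) ≤ n ≤ y`:
`mean_value`, `tau_short 6`: `(η x + 1 + k) √(η x + 1) √x L^c`. Cauchy over `j < J`. Error: `(x + k) M`. As in HL/Mass2. -/

namespace Pool.Agent.HS

open Finset Pool.Agent.BV Pool.Agent.HL
open Pool.Agent.HT (tau_sum tau_short)

namespace CtlVar

/-- the grid from `w₁ - 1` to `w₂` -/
noncomputable def gg (η : ℝ) (w₁ w₂ i : ℕ) : ℕ := min w₂ (⌈(w₁ : ℝ) * (1 + η) ^ i⌉₊ - 1)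

lemma gg_mono {η : ℝ} (hη : 0 ≤ η) (w₁ w₂ : ℕ) : Monotone (gg η w₁ w₂) := by
  intro i j hij
  unfold gg
  refine min_le_min le_rfl (Nat.sub_le_sub_right (Nat.ceil_mono ?_) 1)
  exact mul_le_mul_of_nonneg_left (pow_le_pow_right₀ (by linarith) hij) (Nat.cast_nonneg _)

lemma gg_zero {η : ℝ} {w₁ w₂ : ℕ} (h : w₁ ≤ w₂) : gg η w₁ w₂ 0 = w₁ - 1 := by
  unfold gg
  rw [pow_zero, mul_one, Nat.ceil_natCast]
  omega

lemma gg_le (η : ℝ) (w₁ w₂ i : ℕ) : gg η w₁ w₂ i ≤ w₂ := min_le_left _ _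

lemma le_gg {η : ℝ} (hη : 0 < η) {w₁ w₂ i : ℕ} (h1 : 1 ≤ w₁) (h : w₁ ≤ w₂) (hi : i ≠ 0) :
    w₁ ≤ gg η w₁ w₂ i := by
  unfold gg
  refine le_min h ?_
  have h2 : w₁ < ⌈(w₁ : ℝ) * (1 + η) ^ i⌉₊ := by
    rw [Nat.lt_ceil]
    have h3 : 1 < (1 + η) ^ i := one_lt_pow₀ (by linarith) hi
    have h4 : (0 : ℝ) < w₁ := by exact_mod_cast h1
    nlinarith
  omega

lemma gg_ratio {η : ℝ} (hη : 0 < η) {w₁ w₂ i c : ℕ} (hc : gg η w₁ w₂ i < c) (hc2 : c ≤ w₂) :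
    (gg η w₁ w₂ (i + 1) : ℝ) ≤ (1 + η) * c := by
  have h1 : ⌈(w₁ : ℝ) * (1 + η) ^ i⌉₊ ≤ c := by
    unfold gg at hc
    omega
  have h2 : (w₁ : ℝ) * (1 + η) ^ i ≤ c := Nat.ceil_le.1 h1
  have h3 : (gg η w₁ w₂ (i + 1) : ℝ) ≤ (w₁ : ℝ) * (1 + η) ^ (i + 1) := by
    have h4 : gg η w₁ w₂ (i + 1) ≤ ⌈(w₁ : ℝ) * (1 + η) ^ (i + 1)⌉₊ - 1 := min_le_right _ _
    have h5 : (⌈(w₁ : ℝ) * (1 + η) ^ (i + 1)⌉₊ : ℝ) < (w₁ : ℝ) * (1 + η) ^ (i + 1) + 1 :=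
      Nat.ceil_lt_add_one (by positivity)
    rcases Nat.eq_zero_or_pos ⌈(w₁ : ℝ) * (1 + η) ^ (i + 1)⌉₊ with h6 | h6
    · rw [h6] at h4
      have h7 : gg η w₁ w₂ (i + 1) = 0 := by omega
      rw [h7, Nat.cast_zero]
      positivity
    · have h7 : (gg η w₁ w₂ (i + 1) : ℝ) + 1 ≤ ⌈(w₁ : ℝ) * (1 + η) ^ (i + 1)⌉₊ := by
        exact_mod_cast (by omega : gg η w₁ w₂ (i + 1) + 1 ≤ ⌈(w₁ : ℝ) * (1 + η) ^ (i + 1)⌉₊)
      linarith
  calc (gg η w₁ w₂ (i + 1) : ℝ) ≤ (w₁ : ℝ) * (1 + η) ^ (i + 1) := h3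
    _ = (1 + η) * (w₁ * (1 + η) ^ i) := by ring
    _ ≤ (1 + η) * c := mul_le_mul_of_nonneg_left h2 (by linarith)

lemma gg_end {η : ℝ} (hη : 0 < η) (hη1 : η ≤ 1) {x w₁ w₂ I : ℕ} (hx : 3 ≤ x) (h1 : 1 ≤ w₁)
    (h2 : w₂ ≤ x) (hI : 4 * Real.log x / η < I) : gg η w₁ w₂ I = w₂ := by
  have h3 : (x : ℝ) < gr η I := by
    by_contra h
    rw [not_lt] at h
    have := MassA.gr_count hη hη1 (x := x) (by exact_mod_cast (by omega : 2 ≤ x)) h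
    linarith
  have h4 := MassA.gr_le_pow hη.le I
  have h5 : (w₂ : ℝ) < (w₁ : ℝ) * (1 + η) ^ I := by
    have h6 : (w₂ : ℝ) ≤ x := by exact_mod_cast h2
    have h7 : (1 : ℝ) ≤ w₁ := by exact_mod_cast h1
    have h8 : (1 + η) ^ I ≤ (w₁ : ℝ) * (1 + η) ^ I := le_mul_of_one_le_left (by positivity) h7
    linarith
  have h6 : w₂ < ⌈(w₁ : ℝ) * (1 + η) ^ I⌉₊ := Nat.lt_ceil.2 h5
  unfold gg
  omega

/-- expansion of a sum of a Dirichlet convolution -/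
lemma expand (y : ℕ) (a b ψ : ℕ → ℂ) :
    ∑ n ∈ Icc 1 y, (∑ p ∈ n.divisorsAntidiagonal, a p.1 * b p.2) * ψ n =
      ∑ c ∈ Icc 1 y, ∑ l ∈ Icc 1 y, if c * l ≤ y then a c * b l * ψ (c * l) else 0 := by
  have h1 : ∀ n ∈ Icc 1 y,
      (∑ p ∈ n.divisorsAntidiagonal, a p.1 * b p.2) * ψ n =
      ∑ p ∈ Icc 1 y ×ˢ Icc 1 y, if p.1 * p.2 = n then
        (if p.1 * p.2 ≤ y then a p.1 * b p.2 * ψ (p.1 * p.2) else 0) else 0 := by
    intro n hn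
    obtain ⟨hn1, hn2⟩ := mem_Icc.mp hn
    have hset : (Icc 1 y ×ˢ Icc 1 y).filter (fun p : ℕ × ℕ => p.1 * p.2 = n) =
        n.divisorsAntidiagonal := by
      ext p
      simp only [mem_filter, mem_product, mem_Icc, Nat.mem_divisorsAntidiagonal]
      constructor
      · rintro ⟨_, h⟩
        exact ⟨h, by omega⟩
      · rintro ⟨h, _⟩
        have h1 : p.1 ≠ 0 := by
          intro h0
          rw [h0, zero_mul] at h
          omega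
        have h2 : p.2 ≠ 0 := by
          intro h0
          rw [h0, mul_zero] at h
          omega
        refine ⟨⟨⟨by omega, ?_⟩, ⟨by omega, ?_⟩⟩, h⟩
        · exact le_trans (Nat.le_mul_of_pos_right _ (by omega)) (h.le.trans hn2)
        · exact le_trans (Nat.le_mul_of_pos_left _ (by omega)) (h.le.trans hn2)
    rw [← sum_filter, hset, sum_mul]
    refine sum_congr rfl fun p hp => ?_
    have h2 := (Nat.mem_divisorsAntidiagonal.mp hp).1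
    rw [if_pos (by rw [h2]; exact hn2), h2]
  rw [sum_congr rfl h1, sum_comm, sum_product]
  refine sum_congr rfl fun c hc => sum_congr rfl fun l hl => ?_
  rw [sum_ite_eq]
  rw [mem_Icc] at hc hl
  by_cases h : c * l ≤ y
  · rw [if_pos]
    rw [mem_Icc]
    exact ⟨Nat.mul_pos hc.1 hl.1, h⟩
  · rw [if_neg h]
    split_ifs <;> rfl

lemma sq_sum_le {ι : Type*} (s : Finset ι) (f : ι → ℂ) :
    ‖∑ i ∈ s, f i‖ ^ 2 ≤ (s.card : ℝ) * ∑ i ∈ s, ‖f i‖ ^ 2 := by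
  calc ‖∑ i ∈ s, f i‖ ^ 2 ≤ (∑ i ∈ s, ‖f i‖) ^ 2 :=
        pow_le_pow_left₀ (norm_nonneg _) (norm_sum_le _ _) 2
    _ ≤ _ := sq_sum_le_card_mul_sum_sq

/-- coefficients of the error term -/
noncomputable def ecf (a b : ℕ → ℂ) (g : ℕ → ℕ) (y I n : ℕ) : ℂ :=
  ∑ i ∈ range I, ∑ c ∈ Ioc (g i) (g (i + 1)), ∑ l ∈ Icc 1 y,
    if c * l = n ∧ y / g (i + 1) < l then a c * b l else 0

lemma sum_blocks0 {M : Type*} [AddCommMonoid M] (g : ℕ → ℕ) (hg : Monotone g) (f : ℕ → M)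
    (I : ℕ) : ∑ i ∈ range I, ∑ c ∈ Ioc (g i) (g (i + 1)), f c = ∑ c ∈ Ioc (g 0) (g I), f c := by
  rw [Finset.range_eq_Ico]
  exact MassA.sum_blocks g hg f 0 I (Nat.zero_le I)

theorem decomp {k : ℕ} (χ : DirichletCharacter ℂ k) (a b : ℕ → ℂ) (g : ℕ → ℕ) (hg : Monotone g)
    (y I M : ℕ) (hM : ∀ i < I, ∀ c ∈ Ioc (g i) (g (i + 1)), ∀ l, y / g (i + 1) < l → M < c * l)
    (ha : ∀ c, a c ≠ 0 → g 0 < c ∧ c ≤ g I) :
    ∑ n ∈ Icc 1 y, (∑ p ∈ n.divisorsAntidiagonal, a p.1 * b p.2) * χ (n : ZMod k) =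
      ∑ i ∈ range I, (∑ c ∈ Ioc (g i) (g (i + 1)), a c * χ (c : ZMod k)) *
        (∑ l ∈ Icc 1 (y / g (i + 1)), b l * χ (l : ZMod k)) +
      ∑ n ∈ Ioc M y, ecf a b g y I n * χ (n : ZMod k) := by
  set t : ℕ → ℕ → ℂ := fun c l => a c * b l * χ ((c * l : ℕ) : ZMod k) with ht
  set f : ℕ → ℂ := fun c => ∑ l ∈ Icc 1 y, if c * l ≤ y then t c l else 0 with hf
  have h1 : ∑ n ∈ Icc 1 y, (∑ p ∈ n.divisorsAntidiagonal, a p.1 * b p.2) * χ (n : ZMod k) =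
      ∑ c ∈ Ioc (g 0) (g I), f c := by
    rw [expand y a b (fun n => χ (n : ZMod k))]
    have hz1 : ∀ c, y < c → f c = 0 := by
      intro c hc
      refine Finset.sum_eq_zero fun l hl => ?_
      rw [mem_Icc] at hl
      have : y < c * l := lt_of_lt_of_le hc (Nat.le_mul_of_pos_right c (by omega))
      rw [if_neg (not_le.2 this)]
    have hz2 : ∀ c, ¬ (g 0 < c ∧ c ≤ g I) → f c = 0 := by
      intro c hc
      have h0 : a c = 0 := by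
        by_contra h
        exact hc (ha c h)
      refine Finset.sum_eq_zero fun l _ => ?_
      rw [ht]
      simp [h0]
    have e1 : ∑ c ∈ Icc 1 (max y (g I)), f c = ∑ c ∈ Icc 1 y, f c := by
      symm
      refine Finset.sum_subset (Icc_subset_Icc_right (le_max_left _ _)) ?_
      intro c hc hc'
      rw [mem_Icc] at hc hc'
      exact hz1 c (by omega)
    have e2 : ∑ c ∈ Icc 1 (max y (g I)), f c = ∑ c ∈ Ioc (g 0) (g I), f c := by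
      symm
      refine Finset.sum_subset ?_ ?_
      · intro c hc
        rw [mem_Ioc] at hc
        rw [mem_Icc]
        exact ⟨by omega, hc.2.trans (le_max_right _ _)⟩
      intro c hc hc'
      rw [mem_Ioc] at hc'
      exact hz2 c hc'
    rw [← e2, e1]
  rw [h1, ← sum_blocks0 g hg f I]
  have h2 : ∀ i ∈ range I, ∀ c ∈ Ioc (g i) (g (i + 1)), f c =
      a c * χ (c : ZMod k) * (∑ l ∈ Icc 1 (y / g (i + 1)), b l * χ (l : ZMod k)) +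
      ∑ l ∈ Icc 1 y, if c * l ≤ y ∧ y / g (i + 1) < l then t c l else 0 := by
    intro i _ c hc
    rw [mem_Ioc] at hc
    have e1 : ∀ l ∈ Icc 1 y, (if c * l ≤ y then t c l else 0) =
        (if l ≤ y / g (i + 1) then t c l else 0) +
          (if c * l ≤ y ∧ y / g (i + 1) < l then t c l else 0) := by
      intro l _
      by_cases hk : l ≤ y / g (i + 1)
      · have h3 : c * l ≤ y := by
          calc c * l ≤ g (i + 1) * (y / g (i + 1)) := Nat.mul_le_mul hc.2 hk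
            _ ≤ y := Nat.mul_div_le y _
        rw [if_pos h3, if_pos hk, if_neg (fun h => absurd h.2 (not_lt.2 hk)), add_zero]
      · rw [if_neg hk, zero_add]
        simp only [not_le.1 hk, and_true]
    rw [hf]
    simp only
    rw [Finset.sum_congr rfl e1, Finset.sum_add_distrib]
    congr 1
    rw [← Finset.sum_filter]
    have e2 : (Icc 1 y).filter (fun l => l ≤ y / g (i + 1)) = Icc 1 (y / g (i + 1)) := by
      ext l
      simp only [mem_filter, mem_Icc]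
      have := Nat.div_le_self y (g (i + 1))
      omega
    rw [e2, Finset.mul_sum]
    refine Finset.sum_congr rfl fun l _ => ?_
    rw [ht]
    simp only [Nat.cast_mul, map_mul]
    ring
  have h3 : ∑ i ∈ range I, ∑ c ∈ Ioc (g i) (g (i + 1)), f c =
      ∑ i ∈ range I, (∑ c ∈ Ioc (g i) (g (i + 1)), a c * χ (c : ZMod k)) *
        (∑ l ∈ Icc 1 (y / g (i + 1)), b l * χ (l : ZMod k)) +
      ∑ i ∈ range I, ∑ c ∈ Ioc (g i) (g (i + 1)),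
        ∑ l ∈ Icc 1 y, if c * l ≤ y ∧ y / g (i + 1) < l then t c l else 0 := by
    rw [← Finset.sum_add_distrib]
    refine Finset.sum_congr rfl fun i hi => ?_
    rw [Finset.sum_congr rfl (h2 i hi), Finset.sum_add_distrib, ← Finset.sum_mul]
  rw [h3]
  congr 1
  have h4 : ∀ n ∈ Ioc M y, ecf a b g y I n * χ (n : ZMod k) =
      ∑ i ∈ range I, ∑ c ∈ Ioc (g i) (g (i + 1)), ∑ l ∈ Icc 1 y,
        if c * l = n then (if y / g (i + 1) < l then t c l else 0) else 0 := by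
    intro n _
    unfold ecf
    rw [Finset.sum_mul]
    refine Finset.sum_congr rfl fun i _ => ?_
    rw [Finset.sum_mul]
    refine Finset.sum_congr rfl fun c _ => ?_
    rw [Finset.sum_mul]
    refine Finset.sum_congr rfl fun l _ => ?_
    by_cases h5 : c * l = n
    · by_cases h6 : y / g (i + 1) < l
      · rw [if_pos ⟨h5, h6⟩, if_pos h5, if_pos h6, ht, ← h5]
      · rw [if_neg (fun h => h6 h.2), if_pos h5, if_neg h6, zero_mul]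
    · rw [if_neg (fun h => h5 h.1), if_neg h5, zero_mul]
  rw [Finset.sum_congr rfl h4]
  refine Eq.trans ?_ Finset.sum_comm
  refine Finset.sum_congr rfl fun i hi => ?_
  refine Eq.trans ?_ Finset.sum_comm
  refine Finset.sum_congr rfl fun c hc => ?_
  refine Eq.trans ?_ Finset.sum_comm
  refine Finset.sum_congr rfl fun l _ => ?_
  rw [Finset.sum_ite_eq]
  by_cases h6 : y / g (i + 1) < l
  · have h7 := hM i (mem_range.1 hi) c hc l h6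
    simp only [h6, and_true, if_true, mem_Ioc, h7, true_and]
  · simp only [h6, and_false, if_false, ite_self]

theorem norm_ecf_le (a b : ℕ → ℂ) (g : ℕ → ℕ) (hg : Monotone g) (y I n : ℕ) (hn : n ≠ 0)
    (ha : ∀ c, ‖a c‖ ≤ 1) (hb : ∀ l, ‖b l‖ ≤ (l.divisors.card : ℝ) ^ 2) :
    ‖ecf a b g y I n‖ ≤ (n.divisors.card : ℝ) ^ 3 := by
  unfold ecf
  have h1 : ‖∑ i ∈ range I, ∑ c ∈ Ioc (g i) (g (i + 1)), ∑ l ∈ Icc 1 y,
      (if c * l = n ∧ y / g (i + 1) < l then a c * b l else 0)‖ ≤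
      ∑ i ∈ range I, ∑ c ∈ Ioc (g i) (g (i + 1)), ∑ l ∈ Icc 1 y,
        (if c * l = n then (l.divisors.card : ℝ) ^ 2 else 0) := by
    refine (norm_sum_le _ _).trans (Finset.sum_le_sum fun i _ => ?_)
    refine (norm_sum_le _ _).trans (Finset.sum_le_sum fun c _ => ?_)
    refine (norm_sum_le _ _).trans (Finset.sum_le_sum fun l _ => ?_)
    by_cases h5 : c * l = n
    · rw [if_pos h5]
      by_cases h6 : y / g (i + 1) < l
      · rw [if_pos ⟨h5, h6⟩, norm_mul]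
        calc ‖a c‖ * ‖b l‖ ≤ 1 * (l.divisors.card : ℝ) ^ 2 :=
              mul_le_mul (ha c) (hb l) (norm_nonneg _) zero_le_one
          _ = _ := one_mul _
      · rw [if_neg (fun h => h6 h.2), norm_zero]
        positivity
    · rw [if_neg (fun h => h5 h.1), if_neg h5, norm_zero]
  refine h1.trans ?_
  rw [sum_blocks0 g hg (fun c => ∑ l ∈ Icc 1 y,
    (if c * l = n then (l.divisors.card : ℝ) ^ 2 else 0)) I]
  rw [← Finset.sum_product', ← Finset.sum_filter (fun p : ℕ × ℕ => p.1 * p.2 = n)]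
  have hsub : ((Ioc (g 0) (g I)) ×ˢ (Icc 1 y)).filter (fun p : ℕ × ℕ => p.1 * p.2 = n) ⊆
      n.divisorsAntidiagonal := by
    intro p hp
    rw [mem_filter] at hp
    rw [Nat.mem_divisorsAntidiagonal]
    exact ⟨hp.2, hn⟩
  refine (Finset.sum_le_sum_of_subset_of_nonneg hsub ?_).trans ?_
  · intro p _ _
    positivity
  · have h2 : ∀ p ∈ n.divisorsAntidiagonal, (p.2.divisors.card : ℝ) ^ 2 ≤
        (n.divisors.card : ℝ) ^ 2 := by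
      intro p hp
      rw [Nat.mem_divisorsAntidiagonal] at hp
      refine pow_le_pow_left₀ (by positivity) ?_ 2
      exact_mod_cast Finset.card_le_card (Nat.divisors_subset_of_dvd hn ⟨p.1, by
        rw [← hp.1]; ring⟩)
    refine (Finset.sum_le_sum h2).trans (le_of_eq ?_)
    have h6 : (n.divisorsAntidiagonal.card : ℝ) = n.divisors.card := by
      rw [DivSum_tau]
      simp
    rw [Finset.sum_const, nsmul_eq_mul, h6]
    ring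

/-- mean value over `[1, N]` -/
lemma mv1 (k : ℕ) [NeZero k] (N : ℕ) (b : ℕ → ℂ) (X : Finset (DirichletCharacter ℂ k)) :
    ∑ χ ∈ X, ‖∑ n ∈ Icc 1 N, b n * χ (n : ZMod k)‖ ^ 2 ≤
      ((N : ℝ) + k) * ∑ n ∈ Icc 1 N, ‖b n‖ ^ 2 := by
  have h1 := mean_value k 0 N b
  rw [Nat.zero_add] at h1
  exact (Finset.sum_le_sum_of_subset_of_nonneg (Finset.subset_univ X)
    (fun _ _ _ => sq_nonneg _)).trans h1

/-- mean square of the error term -/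
theorem err_ms {C₁ : ℝ} (hC₁ : 0 < C₁) (hτ : ∀ x a b : ℕ, 3 ≤ x → a ≤ b → b ≤ x →
      ∑ n ∈ Ioc a b, (n.divisors.card : ℝ) ^ 6 ≤
        C₁ * Real.sqrt ((b : ℝ) - a) * Real.sqrt x * (Real.log x) ^ (2 ^ (2 * 6)))
    (k : ℕ) [NeZero k] (a b : ℕ → ℂ) (ha : ∀ c, ‖a c‖ ≤ 1)
    (hb : ∀ l, ‖b l‖ ≤ (l.divisors.card : ℝ) ^ 2)
    (g : ℕ → ℕ) (hg : Monotone g) (y I M x : ℕ) (η : ℝ) (hη : 0 < η)
    (hx : 3 ≤ x) (hMy : M ≤ y) (hyx : y ≤ x) (hM : (y : ℝ) - M ≤ 2 * (η * x))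
    (X : Finset (DirichletCharacter ℂ k)) :
    ∑ χ ∈ X, ‖∑ n ∈ Ioc M y, ecf a b g y I n * χ (n : ZMod k)‖ ^ 2 ≤
      3 * C₁ * (Real.log x) ^ 4096 * ((η * x + k) * Real.sqrt η * x) := by
  have h1 := mean_value k M (y - M) (ecf a b g y I)
  rw [Nat.add_sub_cancel' hMy] at h1
  have hL : 1 ≤ Real.log x := DivSum_log x hx
  have hx0 : (0 : ℝ) < x := by exact_mod_cast (by omega : 0 < x)
  refine (Finset.sum_le_sum_of_subset_of_nonneg (Finset.subset_univ X)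
    (fun _ _ _ => sq_nonneg _)).trans (h1.trans ?_)
  have h2 : ∑ n ∈ Ioc M y, ‖ecf a b g y I n‖ ^ 2 ≤
      C₁ * Real.sqrt ((y : ℝ) - M) * Real.sqrt x * (Real.log x) ^ 4096 := by
    refine le_trans ?_ (hτ x M y hx hMy hyx)
    refine Finset.sum_le_sum fun n hn => ?_
    rw [mem_Ioc] at hn
    calc ‖ecf a b g y I n‖ ^ 2 ≤ ((n.divisors.card : ℝ) ^ 3) ^ 2 :=
          pow_le_pow_left₀ (norm_nonneg _) (norm_ecf_le a b g hg y I n (by omega) ha hb) 2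
      _ = _ := by ring
  have h3 : (((y - M : ℕ) : ℝ) + k) ≤ 2 * (η * x + k) := by
    rw [Nat.cast_sub hMy]
    have : (0 : ℝ) ≤ k := Nat.cast_nonneg k
    linarith
  have h4 : Real.sqrt ((y : ℝ) - M) * Real.sqrt x ≤ 3 / 2 * (Real.sqrt η * x) := by
    calc Real.sqrt ((y : ℝ) - M) * Real.sqrt x ≤ Real.sqrt (2 * (η * x)) * Real.sqrt x :=
          mul_le_mul_of_nonneg_right (Real.sqrt_le_sqrt hM) (Real.sqrt_nonneg _)
      _ = Real.sqrt 2 * (Real.sqrt η * (Real.sqrt x * Real.sqrt x)) := by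
          rw [Real.sqrt_mul (by norm_num), Real.sqrt_mul hη.le]
          ring
      _ = Real.sqrt 2 * (Real.sqrt η * x) := by rw [Real.mul_self_sqrt hx0.le]
      _ ≤ 3 / 2 * (Real.sqrt η * x) := by
          refine mul_le_mul_of_nonneg_right ?_ (by positivity)
          rw [Real.sqrt_le_left (by norm_num)]
          norm_num
  calc (((y - M : ℕ) : ℝ) + k) * ∑ n ∈ Ioc M y, ‖ecf a b g y I n‖ ^ 2
      ≤ (2 * (η * x + k)) * (C₁ * Real.sqrt ((y : ℝ) - M) * Real.sqrt x *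
          (Real.log x) ^ 4096) := by
        refine mul_le_mul h3 h2 (Finset.sum_nonneg fun _ _ => sq_nonneg _) (by positivity)
    _ = (2 * (η * x + k)) * C₁ * (Real.log x) ^ 4096 *
          (Real.sqrt ((y : ℝ) - M) * Real.sqrt x) := by ring
    _ ≤ (2 * (η * x + k)) * C₁ * (Real.log x) ^ 4096 * (3 / 2 * (Real.sqrt η * x)) :=
        mul_le_mul_of_nonneg_left h4 (by positivity)
    _ = _ := by ring

/-- mean square of the main term -/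
theorem main_ms {C₀ : ℝ} (hC₀ : 0 < C₀) (hτ : ∀ x N : ℕ, 3 ≤ x → N ≤ x →
      ∑ n ∈ Icc 1 N, (n.divisors.card : ℝ) ^ 4 ≤ C₀ * N * (Real.log x) ^ (2 ^ 4))
    (k : ℕ) [NeZero k] (a b : ℕ → ℂ) (hb : ∀ l, ‖b l‖ ≤ (l.divisors.card : ℝ) ^ 2)
    (g : ℕ → ℕ) (y I x w₂ : ℕ) (ρ : ℝ) (hx : 3 ≤ x) (hyx : y ≤ x) (hg2 : ∀ i, g i ≤ w₂)
    (X : Finset (DirichletCharacter ℂ k))
    (hA : ∀ χ ∈ X, ∀ i < I, ‖∑ c ∈ Ioc (g i) (g (i + 1)), a c * χ (c : ZMod k)‖ ≤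
      2 * ρ * g (i + 1)) :
    ∑ χ ∈ X, ‖∑ i ∈ range I, (∑ c ∈ Ioc (g i) (g (i + 1)), a c * χ (c : ZMod k)) *
        (∑ l ∈ Icc 1 (y / g (i + 1)), b l * χ (l : ZMod k))‖ ^ 2 ≤
      (I : ℝ) ^ 2 * (4 * ρ ^ 2 * (C₀ * (Real.log x) ^ 16 * ((x : ℝ) ^ 2 + w₂ * k * x))) := by
  have hL : 1 ≤ Real.log x := DivSum_log x hx
  have hyx' : (y : ℝ) ≤ x := by exact_mod_cast hyx
  set Bf : ℕ → DirichletCharacter ℂ k → ℂ := fun i χ =>
    ∑ l ∈ Icc 1 (y / g (i + 1)), b l * χ (l : ZMod k) with hBf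
  have h1 : ∀ χ ∈ X, ‖∑ i ∈ range I, (∑ c ∈ Ioc (g i) (g (i + 1)), a c * χ (c : ZMod k)) *
      Bf i χ‖ ^ 2 ≤ (I : ℝ) * ∑ i ∈ range I, (2 * ρ * g (i + 1)) ^ 2 * ‖Bf i χ‖ ^ 2 := by
    intro χ hχ
    refine (sq_sum_le _ _).trans ?_
    rw [card_range]
    refine mul_le_mul_of_nonneg_left (sum_le_sum fun i hi => ?_) (Nat.cast_nonneg _)
    rw [norm_mul, mul_pow]
    exact mul_le_mul_of_nonneg_right (pow_le_pow_left₀ (norm_nonneg _)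
      (hA χ hχ i (mem_range.1 hi)) 2) (sq_nonneg _)
  refine (Finset.sum_le_sum h1).trans ?_
  rw [← Finset.mul_sum, Finset.sum_comm]
  have h2 : ∀ i ∈ range I, ∑ χ ∈ X, (2 * ρ * g (i + 1)) ^ 2 * ‖Bf i χ‖ ^ 2 ≤
      4 * ρ ^ 2 * (C₀ * (Real.log x) ^ 16 * ((x : ℝ) ^ 2 + w₂ * k * x)) := by
    intro i _
    rw [← Finset.mul_sum]
    set K := y / g (i + 1) with hK
    have hKy : K ≤ y := Nat.div_le_self _ _
    have h3 : ∑ χ ∈ X, ‖Bf i χ‖ ^ 2 ≤ ((K : ℝ) + k) * (C₀ * K * (Real.log x) ^ 16) := by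
      refine (mv1 k K b X).trans ?_
      refine mul_le_mul_of_nonneg_left ?_ (by positivity)
      refine le_trans ?_ (hτ x K hx (hKy.trans hyx))
      refine Finset.sum_le_sum fun l _ => ?_
      calc ‖b l‖ ^ 2 ≤ ((l.divisors.card : ℝ) ^ 2) ^ 2 :=
            pow_le_pow_left₀ (norm_nonneg _) (hb l) 2
        _ = _ := by ring
    refine (mul_le_mul_of_nonneg_left h3 (sq_nonneg _)).trans ?_
    have h6 : (g (i + 1) : ℝ) * K ≤ x := by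
      refine le_trans ?_ hyx'
      exact_mod_cast Nat.mul_div_le y (g (i + 1))
    have h7 : (g (i + 1) : ℝ) ≤ w₂ := by exact_mod_cast hg2 _
    have h8 : ((g (i + 1) : ℝ) * K) * ((g (i + 1) : ℝ) * K) + ((g (i + 1) : ℝ) * k) *
        ((g (i + 1) : ℝ) * K) ≤ (x : ℝ) ^ 2 + w₂ * k * x := by
      have h9 : (g (i + 1) : ℝ) * k ≤ w₂ * k := mul_le_mul_of_nonneg_right h7 (Nat.cast_nonneg _)
      have h10 : 0 ≤ (g (i + 1) : ℝ) * K := by positivity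
      have h11 : ((g (i + 1) : ℝ) * K) * ((g (i + 1) : ℝ) * K) ≤ x * x :=
        mul_le_mul h6 h6 h10 (by positivity)
      have h12 : ((g (i + 1) : ℝ) * k) * ((g (i + 1) : ℝ) * K) ≤ (w₂ * k) * x :=
        mul_le_mul h9 h6 h10 (by positivity)
      rw [sq]
      exact add_le_add h11 h12
    calc (2 * ρ * (g (i + 1) : ℝ)) ^ 2 * (((K : ℝ) + k) * (C₀ * K * (Real.log x) ^ 16))
        = 4 * ρ ^ 2 * (C₀ * (Real.log x) ^ 16 * (((g (i + 1) : ℝ) * K) * ((g (i + 1) : ℝ) * K) +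
          ((g (i + 1) : ℝ) * k) * ((g (i + 1) : ℝ) * K))) := by ring
      _ ≤ _ := by
        refine mul_le_mul_of_nonneg_left (mul_le_mul_of_nonneg_left h8 ?_) (by positivity)
        positivity
  calc (I : ℝ) * ∑ i ∈ range I, ∑ χ ∈ X, (2 * ρ * g (i + 1)) ^ 2 * ‖Bf i χ‖ ^ 2
      ≤ (I : ℝ) * ∑ i ∈ range I,
          4 * ρ ^ 2 * (C₀ * (Real.log x) ^ 16 * ((x : ℝ) ^ 2 + w₂ * k * x)) :=
        mul_le_mul_of_nonneg_left (Finset.sum_le_sum h2) (Nat.cast_nonneg _)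
    _ = _ := by
        rw [Finset.sum_const, nsmul_eq_mul, card_range]
        ring

/-- type II part -/
theorem partII {C₀ C₁ : ℝ} (hC₀ : 0 < C₀) (hC₁ : 0 < C₁) (hτ : ∀ x N : ℕ, 3 ≤ x → N ≤ x →
      ∑ n ∈ Icc 1 N, (n.divisors.card : ℝ) ^ 4 ≤ C₀ * N * (Real.log x) ^ (2 ^ 4))
    (hτs : ∀ x a b : ℕ, 3 ≤ x → a ≤ b → b ≤ x →
      ∑ n ∈ Ioc a b, (n.divisors.card : ℝ) ^ 6 ≤
        C₁ * Real.sqrt ((b : ℝ) - a) * Real.sqrt x * (Real.log x) ^ (2 ^ (2 * 6)))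
    {x y k w₁ w₂ : ℕ} [NeZero k] {a b : ℕ → ℂ} {η ρ : ℝ} (ha : ∀ c, ‖a c‖ ≤ 1)
    (has : ∀ c, a c ≠ 0 → w₁ ≤ c ∧ c ≤ w₂) (hb : ∀ l, ‖b l‖ ≤ (l.divisors.card : ℝ) ^ 2)
    (hx : 3 ≤ x) (hyx : y ≤ x) (h1 : 1 ≤ w₁) (h12 : w₁ ≤ w₂) (h2 : w₂ ≤ x) (hη : 0 < η)
    (hη1 : η ≤ 1) (hηw : 2 ≤ η * w₁) (hρ : 0 ≤ ρ) (X : Finset (DirichletCharacter ℂ k))
    (hA : ∀ χ ∈ X, ∀ u : ℕ, w₁ ≤ u → u ≤ w₂ → ‖∑ c ∈ Icc 1 u, a c * χ (c : ZMod k)‖ ≤ u * ρ) :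
    ∑ χ ∈ X, ‖∑ n ∈ Icc 1 y, (∑ p ∈ n.divisorsAntidiagonal, a p.1 * b p.2) *
        χ (n : ZMod k)‖ ^ 2 ≤ (200 * C₀ + 6 * C₁) * (Real.log x) ^ 4096 *
        (ρ ^ 2 / η ^ 2 * ((x : ℝ) ^ 2 + w₂ * k * x) + (η * x + k) * Real.sqrt η * x) := by
  have hL : 1 ≤ Real.log x := DivSum_log x hx
  have hx0 : (0 : ℝ) < x := by exact_mod_cast (by omega : 0 < x)
  have hyx' : (y : ℝ) ≤ x := by exact_mod_cast hyx
  have hηx : 1 ≤ η * x := by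
    have h3 : (w₁ : ℝ) ≤ x := by exact_mod_cast h12.trans h2
    have h4 : η * w₁ ≤ η * x := mul_le_mul_of_nonneg_left h3 hη.le
    linarith
  set I : ℕ := ⌊4 * Real.log x / η⌋₊ + 1 with hI
  have hI1 : 4 * Real.log x / η < I := by
    rw [hI]
    push_cast
    exact Nat.lt_floor_add_one _
  have hI2 : (I : ℝ) ≤ 5 * Real.log x / η := by
    rw [hI]
    push_cast
    have h3 : (⌊4 * Real.log x / η⌋₊ : ℝ) ≤ 4 * Real.log x / η := Nat.floor_le (by positivity)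
    have h4 : 1 ≤ Real.log x / η := by
      rw [le_div_iff₀ hη]
      linarith
    calc (⌊4 * Real.log x / η⌋₊ : ℝ) + 1 ≤ 4 * Real.log x / η + Real.log x / η := by linarith
      _ = _ := by ring
  set g := gg η w₁ w₂ with hg
  have hgm : Monotone g := gg_mono hη.le w₁ w₂
  have hg0 : g 0 = w₁ - 1 := gg_zero h12
  have hgI : g I = w₂ := gg_end hη hη1 hx h1 h2 hI1
  obtain ⟨M, hMle, hMlt⟩ : ∃ M : ℕ, (M : ℝ) ≤ (y : ℝ) * (1 - η) ∧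
      (y : ℝ) * (1 - η) < M + 1 :=
    ⟨⌊(y : ℝ) * (1 - η)⌋₊, Nat.floor_le (mul_nonneg (Nat.cast_nonneg _) (by linarith)),
      Nat.lt_floor_add_one _⟩
  have hηy : 0 ≤ η * y := mul_nonneg hη.le (Nat.cast_nonneg _)
  have hηyx : η * y ≤ η * x := mul_le_mul_of_nonneg_left hyx' hη.le
  have hMy : M ≤ y := by
    have : (M : ℝ) ≤ y := by linarith
    exact_mod_cast this
  have hMd : (y : ℝ) - M ≤ 2 * (η * x) := by linarith
  have hM : ∀ i < I, ∀ c ∈ Ioc (g i) (g (i + 1)), ∀ l, y / g (i + 1) < l → M < c * l := by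
    intro i _ c hc l hl
    rw [mem_Ioc] at hc
    have hgp : 0 < g (i + 1) := by omega
    rw [Nat.div_lt_iff_lt_mul hgp] at hl
    have h4 : (y : ℝ) < l * g (i + 1) := by exact_mod_cast hl
    have h5 : (g (i + 1) : ℝ) ≤ (1 + η) * c :=
      gg_ratio hη hc.1 (hc.2.trans (gg_le η w₁ w₂ (i + 1)))
    have hl0 : 0 < l := Nat.pos_of_ne_zero (by rintro rfl; simp at hl)
    have hc0 : 0 < c := by omega
    have hcl : (0 : ℝ) < c * l := by exact_mod_cast Nat.mul_pos hc0 hl0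
    have h6 : (y : ℝ) ≤ (1 + η) * (c * l) := by
      calc (y : ℝ) ≤ l * g (i + 1) := h4.le
        _ ≤ l * ((1 + η) * c) := mul_le_mul_of_nonneg_left h5 (Nat.cast_nonneg _)
        _ = _ := by ring
    have h7 : (M : ℝ) < c * l := by
      calc (M : ℝ) ≤ (y : ℝ) * (1 - η) := hMle
        _ ≤ ((1 + η) * (c * l)) * (1 - η) := mul_le_mul_of_nonneg_right h6 (by linarith)
        _ = (c * l) - η * η * (c * l) := by ring
        _ < c * l := by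
            have : 0 < η * η * ((c : ℝ) * l) := by positivity
            linarith
    exact_mod_cast h7
  have hsup : ∀ c, a c ≠ 0 → g 0 < c ∧ c ≤ g I := by
    intro c hc
    have := has c hc
    rw [hg0, hgI]
    omega
  have hS : ∀ χ ∈ X, ∀ i, ‖∑ c ∈ Ioc 0 (g i), a c * χ (c : ZMod k)‖ ≤ g i * ρ := by
    intro χ hχ i
    rcases Nat.eq_zero_or_pos i with h0 | h0
    · subst h0
      rw [Finset.sum_eq_zero]
      · rw [norm_zero]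
        positivity
      · intro c hc
        rw [mem_Ioc] at hc
        have h3 : a c = 0 := by
          by_contra h
          have := (hsup c h).1
          omega
        rw [h3, zero_mul]
    · exact hA χ hχ (g i) (le_gg hη h1 h12 (by omega)) (gg_le η w₁ w₂ i)
  have hcell : ∀ χ ∈ X, ∀ i < I, ‖∑ c ∈ Ioc (g i) (g (i + 1)), a c * χ (c : ZMod k)‖ ≤
      2 * ρ * g (i + 1) := by
    intro χ hχ i _
    have h3 := Finset.sum_Ioc_consecutive (fun c : ℕ => a c * χ (c : ZMod k)) (Nat.zero_le (g i))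
      (hgm (Nat.le_succ i))
    have h4 : ∑ c ∈ Ioc (g i) (g (i + 1)), a c * χ (c : ZMod k) =
        ∑ c ∈ Ioc 0 (g (i + 1)), a c * χ (c : ZMod k) - ∑ c ∈ Ioc 0 (g i), a c * χ (c : ZMod k) := by
      rw [← h3]
      ring
    rw [h4]
    have h5 : (g i : ℝ) * ρ ≤ g (i + 1) * ρ := by
      refine mul_le_mul_of_nonneg_right ?_ hρ
      exact_mod_cast hgm (Nat.le_succ i)
    calc _ ≤ ‖∑ c ∈ Ioc 0 (g (i + 1)), a c * χ (c : ZMod k)‖ +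
          ‖∑ c ∈ Ioc 0 (g i), a c * χ (c : ZMod k)‖ := norm_sub_le _ _
      _ ≤ g (i + 1) * ρ + g (i + 1) * ρ := add_le_add (hS χ hχ _) ((hS χ hχ _).trans h5)
      _ = _ := by ring
  have hMain := main_ms hC₀ hτ k a b hb g y I x w₂ ρ hx hyx (gg_le η w₁ w₂) X hcell
  have hErr := err_ms hC₁ hτs k a b ha hb g hgm y I M x η hη hx hMy hyx hMd X
  have hpt : ∀ χ ∈ X, ‖∑ n ∈ Icc 1 y, (∑ p ∈ n.divisorsAntidiagonal, a p.1 * b p.2) *
        χ (n : ZMod k)‖ ^ 2 ≤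
      2 * ‖∑ i ∈ range I, (∑ c ∈ Ioc (g i) (g (i + 1)), a c * χ (c : ZMod k)) *
        (∑ l ∈ Icc 1 (y / g (i + 1)), b l * χ (l : ZMod k))‖ ^ 2 +
      2 * ‖∑ n ∈ Ioc M y, ecf a b g y I n * χ (n : ZMod k)‖ ^ 2 := by
    intro χ _
    rw [decomp χ a b g hgm y I M hM hsup]
    set u := ∑ i ∈ range I, (∑ c ∈ Ioc (g i) (g (i + 1)), a c * χ (c : ZMod k)) *
        (∑ l ∈ Icc 1 (y / g (i + 1)), b l * χ (l : ZMod k))
    set v := ∑ n ∈ Ioc M y, ecf a b g y I n * χ (n : ZMod k)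
    have h4 := pow_le_pow_left₀ (norm_nonneg _) (norm_add_le u v) 2
    nlinarith [sq_nonneg (‖u‖ - ‖v‖)]
  refine (Finset.sum_le_sum hpt).trans ?_
  rw [Finset.sum_add_distrib, ← Finset.mul_sum, ← Finset.mul_sum]
  refine (add_le_add (mul_le_mul_of_nonneg_left hMain (by norm_num))
    (mul_le_mul_of_nonneg_left hErr (by norm_num))).trans ?_
  set P : ℝ := (x : ℝ) ^ 2 + w₂ * k * x with hP
  have hP0 : 0 ≤ P := by positivity
  set Q : ℝ := (η * x + k) * Real.sqrt η * x with hQ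
  have hQ0 : 0 ≤ Q := by positivity
  have hI3 : (I : ℝ) ^ 2 ≤ (5 * Real.log x / η) ^ 2 := pow_le_pow_left₀ (Nat.cast_nonneg _) hI2 2
  have hL18 : (Real.log x) ^ 18 ≤ (Real.log x) ^ 4096 := pow_le_pow_right₀ hL (by norm_num)
  have e1 : 2 * ((I : ℝ) ^ 2 * (4 * ρ ^ 2 * (C₀ * (Real.log x) ^ 16 * P))) ≤
      200 * C₀ * (Real.log x) ^ 4096 * (ρ ^ 2 / η ^ 2 * P) := by
    calc 2 * ((I : ℝ) ^ 2 * (4 * ρ ^ 2 * (C₀ * (Real.log x) ^ 16 * P)))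
        ≤ 2 * ((5 * Real.log x / η) ^ 2 * (4 * ρ ^ 2 * (C₀ * (Real.log x) ^ 16 * P))) := by
          refine mul_le_mul_of_nonneg_left (mul_le_mul_of_nonneg_right hI3 ?_) (by norm_num)
          positivity
      _ = 200 * C₀ * (Real.log x) ^ 18 * (ρ ^ 2 / η ^ 2 * P) := by
          field_simp
          ring
      _ ≤ _ := by
          refine mul_le_mul_of_nonneg_right ?_ (by positivity)
          exact mul_le_mul_of_nonneg_left hL18 (by positivity)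
  have hF : 0 ≤ ρ ^ 2 / η ^ 2 * P := by positivity
  have hLL : 0 ≤ (Real.log x) ^ 4096 := by positivity
  have g1 : 0 ≤ 200 * C₀ * (Real.log x) ^ 4096 * Q := by positivity
  have g2 : 0 ≤ 6 * C₁ * (Real.log x) ^ 4096 * (ρ ^ 2 / η ^ 2 * P) := by positivity
  calc _ ≤ 200 * C₀ * (Real.log x) ^ 4096 * (ρ ^ 2 / η ^ 2 * P) +
        2 * (3 * C₁ * (Real.log x) ^ 4096 * Q) := add_le_add e1 le_rfl
    _ ≤ 200 * C₀ * (Real.log x) ^ 4096 * (ρ ^ 2 / η ^ 2 * P) +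
        2 * (3 * C₁ * (Real.log x) ^ 4096 * Q) + (200 * C₀ * (Real.log x) ^ 4096 * Q +
        6 * C₁ * (Real.log x) ^ 4096 * (ρ ^ 2 / η ^ 2 * P)) := by linarith
    _ = _ := by ring

/-- type I sums as iterated sums -/
lemma typeI_eq {k : ℕ} (χ : DirichletCharacter ℂ k) (D y : ℕ) (β : ℕ → ℝ)
    (hβD : ∀ m, D < m → β m = 0) :
    ∑ n ∈ Icc 1 y, ((∑ m ∈ n.divisors, β m : ℝ) : ℂ) * χ (n : ZMod k) =
      ∑ m ∈ Icc 1 (min D y), ((β m : ℝ) : ℂ) * χ (m : ZMod k) *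
        ∑ j ∈ Icc 1 (y / m), χ (j : ZMod k) := by
  have h2 : ∀ n ∈ Icc 1 y, ((∑ m ∈ n.divisors, β m : ℝ) : ℂ) * χ (n : ZMod k) =
      (∑ p ∈ n.divisorsAntidiagonal, ((β p.1 : ℝ) : ℂ) * (1 : ℂ)) * χ (n : ZMod k) := by
    intro n _
    congr 1
    simp only [mul_one]
    rw [Nat.sum_divisorsAntidiagonal (f := fun i _ => ((β i : ℝ) : ℂ))]
    push_cast
    rfl
  rw [sum_congr rfl h2]
  rw [expand y (fun c => ((β c : ℝ) : ℂ)) (fun _ => (1 : ℂ)) (fun n => χ (n : ZMod k))]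
  have h3 : ∀ c ∈ Icc 1 y, ∑ l ∈ Icc 1 y, (if c * l ≤ y then
      ((β c : ℝ) : ℂ) * 1 * χ ((c * l : ℕ) : ZMod k) else 0) =
      ((β c : ℝ) : ℂ) * χ (c : ZMod k) * ∑ j ∈ Icc 1 (y / c), χ (j : ZMod k) := by
    intro c hc
    rw [mem_Icc] at hc
    rw [← Finset.sum_filter]
    have e2 : (Icc 1 y).filter (fun l => c * l ≤ y) = Icc 1 (y / c) := by
      ext l
      simp only [mem_filter, mem_Icc]
      rw [Nat.le_div_iff_mul_le hc.1, mul_comm l c]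
      constructor
      · rintro ⟨h, h'⟩
        exact ⟨h.1, h'⟩
      · rintro ⟨h, h'⟩
        exact ⟨⟨h, (Nat.le_mul_of_pos_left l hc.1).trans h'⟩, h'⟩
    rw [e2, Finset.mul_sum]
    refine Finset.sum_congr rfl fun l _ => ?_
    simp only [Nat.cast_mul, map_mul]
    ring
  rw [sum_congr rfl h3]
  symm
  refine Finset.sum_subset (Icc_subset_Icc_right (min_le_right _ _)) ?_
  intro c hc hc'
  rw [mem_Icc] at hc hc'
  have : D < c := by omega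
  rw [hβD c this]
  simp

/-- type I part -/
theorem partI {C₁ C₂ : ℝ} {c : ℕ} (hC₁ : 0 < C₁) (hC₂ : 0 < C₂)
    (hI : ∀ (k D y : ℕ) [NeZero k] (w : ℕ → ℂ) (W : ℝ), 3 ≤ y →
    k ≤ y → D ≤ y → 0 ≤ W → (∀ m, ‖w m‖ ≤ W) →
    ∑ χ ∈ (univ : Finset (DirichletCharacter ℂ k)).erase 1,
      ‖∑ m ∈ Icc 1 D, w m * χ (m : ZMod k) * ∑ j ∈ Icc 1 (y / m), χ (j : ZMod k)‖ ^ 2 ≤
      C₁ * W ^ 2 * k * ((D : ℝ) ^ 2 + y) * (Real.log y) ^ c)
    (hτ : ∀ x N : ℕ, 3 ≤ x → N ≤ x →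
      ∑ n ∈ Icc 1 N, (n.divisors.card : ℝ) ^ 2 ≤ C₂ * N * (Real.log x) ^ (2 ^ 2))
    {x y D k : ℕ} [NeZero k] {β : ℕ → ℝ} (hβ : ∀ m, |β m| ≤ 1) (hβD : ∀ m, D < m → β m = 0)
    (hx : 3 ≤ x) (hyx : y ≤ x) (X : Finset (DirichletCharacter ℂ k)) (hX : ∀ χ ∈ X, χ ≠ 1) :
    ∑ χ ∈ X, ‖∑ n ∈ Icc 1 y, ((∑ m ∈ n.divisors, β m : ℝ) : ℂ) * χ (n : ZMod k)‖ ^ 2 ≤
      (C₁ + 3 * C₂) * (Real.log x) ^ (c + 4) * (k * ((D : ℝ) ^ 2 + x)) := by
  classical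
  have hL : 1 ≤ Real.log x := DivSum_log x hx
  have hx0 : (0 : ℝ) < x := by exact_mod_cast (by omega : 0 < x)
  have hyx' : (y : ℝ) ≤ x := by exact_mod_cast hyx
  have hk1 : (1 : ℝ) ≤ k := by exact_mod_cast Nat.one_le_iff_ne_zero.2 (NeZero.ne k)
  by_cases hy : 3 ≤ y ∧ k ≤ y
  · obtain ⟨hy3, hky⟩ := hy
    have hsub : X ⊆ (univ : Finset (DirichletCharacter ℂ k)).erase 1 := by
      intro χ hχ
      rw [mem_erase]
      exact ⟨hX χ hχ, mem_univ _⟩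
    have h1 := hI k (min D y) y (fun m => ((β m : ℝ) : ℂ)) 1 hy3 hky (min_le_right _ _)
      zero_le_one (fun m => by
        rw [Complex.norm_real, Real.norm_eq_abs]
        exact hβ m)
    have h2 : ∑ χ ∈ X, ‖∑ n ∈ Icc 1 y, ((∑ m ∈ n.divisors, β m : ℝ) : ℂ) *
        χ (n : ZMod k)‖ ^ 2 ≤
        C₁ * 1 ^ 2 * k * (((min D y : ℕ) : ℝ) ^ 2 + y) * (Real.log y) ^ c := by
      refine le_trans ?_ ((Finset.sum_le_sum_of_subset_of_nonneg hsub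
        (fun _ _ _ => sq_nonneg _)).trans h1)
      refine Finset.sum_le_sum fun χ _ => ?_
      rw [typeI_eq χ D y β hβD]
    refine h2.trans ?_
    have h3 : ((min D y : ℕ) : ℝ) ≤ D := by exact_mod_cast min_le_left _ _
    have h4 : 0 ≤ Real.log y := Real.log_natCast_nonneg y
    have h5 : Real.log y ≤ Real.log x :=
      Real.log_le_log (by exact_mod_cast (by omega : 0 < y)) hyx'
    have h6 : (Real.log y) ^ c ≤ (Real.log x) ^ (c + 4) :=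
      (pow_le_pow_left₀ h4 h5 c).trans (pow_le_pow_right₀ hL (by omega))
    calc C₁ * 1 ^ 2 * k * (((min D y : ℕ) : ℝ) ^ 2 + y) * (Real.log y) ^ c
        ≤ C₁ * 1 ^ 2 * k * ((D : ℝ) ^ 2 + x) * (Real.log x) ^ (c + 4) := by gcongr
      _ = C₁ * (Real.log x) ^ (c + 4) * (k * ((D : ℝ) ^ 2 + x)) := by ring
      _ ≤ (C₁ + 3 * C₂) * (Real.log x) ^ (c + 4) * (k * ((D : ℝ) ^ 2 + x)) := by
        gcongr
        linarith
  · have h0 : (y : ℝ) + k ≤ 3 * k := by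
      have : y + k ≤ 3 * k := by
        have : 1 ≤ k := Nat.one_le_iff_ne_zero.2 (NeZero.ne k)
        by_cases h : 3 ≤ y
        · have : ¬ k ≤ y := fun h' => hy ⟨h, h'⟩
          omega
        · omega
      exact_mod_cast this
    have h1 := mv1 k y (fun n => ((∑ m ∈ n.divisors, β m : ℝ) : ℂ)) X
    refine h1.trans ?_
    have h2 : ∑ n ∈ Icc 1 y, ‖((∑ m ∈ n.divisors, β m : ℝ) : ℂ)‖ ^ 2 ≤
        C₂ * x * (Real.log x) ^ 4 := by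
      refine le_trans ?_ ((hτ x y hx hyx).trans ?_)
      · refine Finset.sum_le_sum fun n _ => ?_
        rw [Complex.norm_real, Real.norm_eq_abs]
        refine pow_le_pow_left₀ (abs_nonneg _) ?_ 2
        refine (Finset.abs_sum_le_sum_abs _ _).trans ((Finset.sum_le_sum fun m _ => hβ m).trans ?_)
        simp
      · norm_num
        gcongr
    calc ((y : ℝ) + k) * ∑ n ∈ Icc 1 y, ‖((∑ m ∈ n.divisors, β m : ℝ) : ℂ)‖ ^ 2
        ≤ (3 * k) * (C₂ * x * (Real.log x) ^ 4) :=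
          mul_le_mul h0 h2 (Finset.sum_nonneg fun _ _ => sq_nonneg _) (by positivity)
      _ = 3 * C₂ * (Real.log x) ^ 4 * (k * x) := by ring
      _ ≤ (C₁ + 3 * C₂) * (Real.log x) ^ (c + 4) * (k * ((D : ℝ) ^ 2 + x)) := by
        have h3 : (Real.log x) ^ 4 ≤ (Real.log x) ^ (c + 4) := pow_le_pow_right₀ hL (by omega)
        have h4 : (x : ℝ) ≤ (D : ℝ) ^ 2 + x := by nlinarith
        gcongr
        linarith

end CtlVar

open CtlVar in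
theorem ctl_var : ∃ (C : ℝ) (c : ℕ), 0 < C ∧ ∀ (x D w₁ w₂ J k : ℕ) [NeZero k] (A B : ℕ → ℕ → ℝ)
    (β err f : ℕ → ℝ) (M η ρ : ℝ), Ctl x D w₁ w₂ J A B β err f → ∑ n ∈ Icc 1 x, (err n) ^ 2 ≤ M →
    3 ≤ x → k ≤ x → D ≤ x → 1 ≤ w₁ → w₁ ≤ w₂ → w₂ ≤ x → 0 < η → η ≤ 1 → 2 ≤ η * w₁ → 0 ≤ ρ →
    ∀ X : Finset (DirichletCharacter ℂ k), (∀ χ ∈ X, χ ≠ 1) →
    (∀ χ ∈ X, ∀ j < J, ∀ u : ℕ, w₁ ≤ u → u ≤ w₂ →
      ‖∑ c ∈ Icc 1 u, ((A j c : ℝ) : ℂ) * χ (c : ZMod k)‖ ≤ u * ρ) → ∀ y : ℕ, y ≤ x →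
    ∑ χ ∈ X, ‖∑ n ∈ Icc 1 y, ((f n : ℝ) : ℂ) * χ (n : ZMod k)‖ ^ 2 ≤ C * (Real.log x) ^ c *
      (k * ((D : ℝ) ^ 2 + x) + (J : ℝ) ^ 2 * (ρ ^ 2 / η ^ 2 * ((x : ℝ) ^ 2 + w₂ * k * x) +
        (η * x + k) * Real.sqrt η * x) + (x + k) * M) := by
  obtain ⟨C₁, c₁, hC₁, hI⟩ := typeI_var
  obtain ⟨C₂, hC₂, hτ2⟩ := tau_sum 2
  obtain ⟨C₄, hC₄, hτ4⟩ := tau_sum 4
  obtain ⟨C₆, hC₆, hτ6⟩ := tau_short 6
  refine ⟨3 * (C₁ + 3 * C₂) + 3 * (200 * C₄ + 6 * C₆) + 3, c₁ + 4 + 4096, by positivity, ?_⟩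
  intro x D w₁ w₂ J k _ A B β err f M η ρ hctl hM hx hkx hDx h1 h12 h2 hη hη1 hηw hρ X hX hA y hyx
  have hL : 1 ≤ Real.log x := DivSum_log x hx
  have hx0 : (0 : ℝ) < x := by exact_mod_cast (by omega : 0 < x)
  have hyx' : (y : ℝ) ≤ x := by exact_mod_cast hyx
  have hM0 : 0 ≤ M := (sum_nonneg fun _ _ => sq_nonneg _).trans hM
  set P : ℝ := ρ ^ 2 / η ^ 2 * ((x : ℝ) ^ 2 + w₂ * k * x) + (η * x + k) * Real.sqrt η * x with hP
  have hP0 : 0 ≤ P := by positivity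
  set SI : DirichletCharacter ℂ k → ℂ := fun χ =>
    ∑ n ∈ Icc 1 y, ((∑ m ∈ n.divisors, β m : ℝ) : ℂ) * χ (n : ZMod k) with hSI
  set SJ : ℕ → DirichletCharacter ℂ k → ℂ := fun j χ =>
    ∑ n ∈ Icc 1 y, (∑ p ∈ n.divisorsAntidiagonal, ((A j p.1 : ℝ) : ℂ) * ((B j p.2 : ℝ) : ℂ)) *
      χ (n : ZMod k) with hSJ
  set SE : DirichletCharacter ℂ k → ℂ := fun χ =>
    ∑ n ∈ Icc 1 y, ((err n : ℝ) : ℂ) * χ (n : ZMod k) with hSE
  have hsplit : ∀ χ ∈ X, ‖∑ n ∈ Icc 1 y, ((f n : ℝ) : ℂ) * χ (n : ZMod k)‖ ^ 2 ≤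
      3 * ‖SI χ‖ ^ 2 + 3 * (J * ∑ j ∈ range J, ‖SJ j χ‖ ^ 2) + 3 * ‖SE χ‖ ^ 2 := by
    intro χ _
    have e1 : ∑ n ∈ Icc 1 y, ((f n : ℝ) : ℂ) * χ (n : ZMod k) =
        SI χ + ∑ j ∈ range J, SJ j χ + SE χ := by
      rw [hSI, hSJ, hSE]
      simp only
      rw [sum_comm (s := range J), ← sum_add_distrib, ← sum_add_distrib]
      refine sum_congr rfl fun n hn => ?_
      obtain ⟨hn1, hn2⟩ := mem_Icc.mp hn
      rw [hctl.eq n hn1 (hn2.trans hyx), ← sum_mul]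
      push_cast
      ring
    rw [e1]
    have e2 := sq_sum_le (range J) (fun j => SJ j χ)
    rw [card_range] at e2
    set u := SI χ
    set v := ∑ j ∈ range J, SJ j χ
    set w := SE χ
    have b1 : ‖u + v + w‖ ≤ ‖u‖ + ‖v‖ + ‖w‖ :=
      (norm_add_le _ _).trans (add_le_add_left (norm_add_le _ _) _)
    have b2 := pow_le_pow_left₀ (norm_nonneg _) b1 2
    nlinarith [sq_nonneg (‖u‖ - ‖v‖), sq_nonneg (‖u‖ - ‖w‖), sq_nonneg (‖v‖ - ‖w‖)]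
  refine (sum_le_sum hsplit).trans ?_
  rw [sum_add_distrib, sum_add_distrib, ← mul_sum, ← mul_sum, ← mul_sum, ← mul_sum, sum_comm]
  have a1 : ∑ χ ∈ X, ‖SI χ‖ ^ 2 ≤
      (C₁ + 3 * C₂) * (Real.log x) ^ (c₁ + 4) * (k * ((D : ℝ) ^ 2 + x)) :=
    partI hC₁ hC₂ (fun k D y _ w W => hI k D y w W) hτ2 hctl.hβ hctl.hβD hx hyx X hX
  have a2 : ∀ j ∈ range J, ∑ χ ∈ X, ‖SJ j χ‖ ^ 2 ≤
      (200 * C₄ + 6 * C₆) * (Real.log x) ^ 4096 * P := by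
    intro j hj
    refine partII hC₄ hC₆ hτ4 hτ6 (a := fun c => ((A j c : ℝ) : ℂ))
      (b := fun l => ((B j l : ℝ) : ℂ)) ?_ ?_ ?_ hx hyx h1 h12 h2 hη hη1 hηw hρ X ?_
    · intro c
      rw [Complex.norm_real, Real.norm_eq_abs]
      exact hctl.hA j c
    · intro c hc
      refine hctl.hAs j c ?_
      simpa using hc
    · intro l
      rw [Complex.norm_real, Real.norm_eq_abs]
      exact hctl.hB j l
    · intro χ hχ u hu1 hu2
      exact hA χ hχ j (mem_range.1 hj) u hu1 hu2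
  have a3 : (J : ℝ) * ∑ j ∈ range J, ∑ χ ∈ X, ‖SJ j χ‖ ^ 2 ≤
      (200 * C₄ + 6 * C₆) * (Real.log x) ^ 4096 * ((J : ℝ) ^ 2 * P) := by
    calc (J : ℝ) * ∑ j ∈ range J, ∑ χ ∈ X, ‖SJ j χ‖ ^ 2
        ≤ J * ∑ _j ∈ range J, (200 * C₄ + 6 * C₆) * (Real.log x) ^ 4096 * P :=
          mul_le_mul_of_nonneg_left (sum_le_sum a2) (Nat.cast_nonneg _)
      _ = _ := by
          rw [sum_const, card_range, nsmul_eq_mul]
          ring
  have a4 : ∑ χ ∈ X, ‖SE χ‖ ^ 2 ≤ (x + k) * M := by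
    refine (mv1 k y (fun n => ((err n : ℝ) : ℂ)) X).trans ?_
    have h3 : ∑ n ∈ Icc 1 y, ‖((err n : ℝ) : ℂ)‖ ^ 2 ≤ M := by
      refine le_trans ?_ hM
      calc ∑ n ∈ Icc 1 y, ‖((err n : ℝ) : ℂ)‖ ^ 2 = ∑ n ∈ Icc 1 y, (err n) ^ 2 := by
            refine sum_congr rfl fun n _ => ?_
            rw [Complex.norm_real, Real.norm_eq_abs, sq_abs]
        _ ≤ _ := sum_le_sum_of_subset_of_nonneg (Icc_subset_Icc_right hyx)
            (fun _ _ _ => sq_nonneg _)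
    exact mul_le_mul (by linarith) h3 (sum_nonneg fun _ _ => sq_nonneg _) (by positivity)
  set E : ℕ := c₁ + 4 + 4096 with hE
  have l1 : (Real.log x) ^ (c₁ + 4) ≤ (Real.log x) ^ E := pow_le_pow_right₀ hL (by omega)
  have l2 : (Real.log x) ^ 4096 ≤ (Real.log x) ^ E := pow_le_pow_right₀ hL (by omega)
  have l3 : 1 ≤ (Real.log x) ^ E := one_le_pow₀ hL
  set Z := (Real.log x) ^ E with hZ
  have hZ0 : 0 ≤ Z := by positivity
  set T₁ := (k : ℝ) * ((D : ℝ) ^ 2 + x) with hT₁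
  have hT₁0 : 0 ≤ T₁ := by positivity
  set T₂ := (J : ℝ) ^ 2 * P with hT₂
  have hT₂0 : 0 ≤ T₂ := by positivity
  set T₃ := ((x : ℝ) + k) * M with hT₃
  have hT₃0 : 0 ≤ T₃ := by positivity
  have b1 : ∑ χ ∈ X, ‖SI χ‖ ^ 2 ≤ (C₁ + 3 * C₂) * (Z * T₁) := by
    refine a1.trans ?_
    rw [mul_assoc]
    exact mul_le_mul_of_nonneg_left (mul_le_mul_of_nonneg_right l1 hT₁0) (by positivity)
  have b2 : (J : ℝ) * ∑ j ∈ range J, ∑ χ ∈ X, ‖SJ j χ‖ ^ 2 ≤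
      (200 * C₄ + 6 * C₆) * (Z * T₂) := by
    refine a3.trans ?_
    rw [mul_assoc]
    exact mul_le_mul_of_nonneg_left (mul_le_mul_of_nonneg_right l2 hT₂0) (by positivity)
  have b3 : ∑ χ ∈ X, ‖SE χ‖ ^ 2 ≤ Z * T₃ := a4.trans (le_mul_of_one_le_left hT₃0 l3)
  set K₁ := C₁ + 3 * C₂ with hK₁
  have hK₁0 : 0 ≤ K₁ := by positivity
  set K₂ := 200 * C₄ + 6 * C₆ with hK₂
  have hK₂0 : 0 ≤ K₂ := by positivity
  have p5 : 0 ≤ Z * T₁ := mul_nonneg hZ0 hT₁0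
  have p6 : 0 ≤ Z * T₂ := mul_nonneg hZ0 hT₂0
  have p7 : 0 ≤ Z * T₃ := mul_nonneg hZ0 hT₃0
  have p1 : 0 ≤ K₁ * (Z * T₂) := mul_nonneg hK₁0 p6
  have p2 : 0 ≤ K₁ * (Z * T₃) := mul_nonneg hK₁0 p7
  have p3 : 0 ≤ K₂ * (Z * T₁) := mul_nonneg hK₂0 p5
  have p4 : 0 ≤ K₂ * (Z * T₃) := mul_nonneg hK₂0 p7
  calc _ ≤ 3 * (K₁ * (Z * T₁)) + 3 * (K₂ * (Z * T₂)) + 3 * (Z * T₃) := by linarith
    _ ≤ 3 * (K₁ * (Z * T₁)) + 3 * (K₂ * (Z * T₂)) + 3 * (Z * T₃) +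
        (3 * (K₁ * (Z * T₂)) + 3 * (K₁ * (Z * T₃)) + 3 * (K₂ * (Z * T₁)) +
          3 * (K₂ * (Z * T₃)) + 3 * (Z * T₁) + 3 * (Z * T₂)) := by linarith
    _ = _ := by ring

end Pool.Agent.HS
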