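import Pool.Agent.Work.MP_92f640_nt.HS.Defs
import Pool.Agent.Work.MP_92f640_nt.HL.BadCount
import Pool.Agent.Work.MP_92f640_nt.HL.Bset2
import Pool.Agent.Work.MP_92f640_nt.HL.MassA
import Pool.Agent.Work.MP_92f640_nt.HT.Coef

/-! # Module BadF: counting the bad characters of a family, and the exceptional set

As HL/BadCount, for arbitrary coefficients `|f| ≤ 1`: the `J'`-th power of `∑_{c ≤ v} f(c) χ(c)` has coefficients `≤ τ_{J'}(n) ≤ τ(n)^J'` on
`n ≤ v^J'`; large sieve, `tau_sum (2 J')`. Bad at `u`: take the grid point `v ≤ u` (`η = 1/(4 L^(B9+1))`, `exists_gr`, `gr_succ_le`):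
the sum up to `v` is `≥ v/(2 L^B9)`; but `v` may be `< w₁` by one cell: use `v ≥ w₁/2` (`R² ≤ (w₁/2)^J'`, so take `J'` one larger).
`bsetF`: as `bset_gen` (HL/Bset2); `w₁ ≥ x^κ`, so `J' ≥ 2θ/κ + 1`. -/

namespace Pool.Agent.HS

open Finset Pool.Agent.BV Pool.Agent.HL

namespace BadFaux

noncomputable section

/-- coefficients of the `J`-th power of the sum of `f(n)` over `n ≤ v` -/
def pcf (f : ℕ → ℝ) (v : ℕ) : ℕ → ℕ → ℝ
  | 0 => fun n => if n = 1 then 1 else 0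
  | J + 1 => fun n => ∑ p ∈ n.divisorsAntidiagonal, (if p.1 ≤ v then f p.1 else 0) * pcf f v J p.2

lemma pcf_succ (f : ℕ → ℝ) (v J n : ℕ) : pcf f v (J + 1) n =
    ∑ p ∈ n.divisorsAntidiagonal, (if p.1 ≤ v then f p.1 else 0) * pcf f v J p.2 := rfl

lemma pcf_abs {f : ℕ → ℝ} (hf : ∀ n, |f n| ≤ 1) (v J n : ℕ) (hn : 1 ≤ n) :
    |pcf f v J n| ≤ (n.divisors.card : ℝ) ^ J := by
  induction J generalizing n with
  | zero => unfold pcf; split_ifs <;> simp
  | succ J ih =>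
    rw [pcf_succ]
    calc |∑ p ∈ n.divisorsAntidiagonal, (if p.1 ≤ v then f p.1 else 0) * pcf f v J p.2|
        ≤ ∑ p ∈ n.divisorsAntidiagonal, |(if p.1 ≤ v then f p.1 else 0) * pcf f v J p.2| :=
          abs_sum_le_sum_abs _ _
      _ ≤ ∑ p ∈ n.divisorsAntidiagonal, (n.divisors.card : ℝ) ^ J := by
          refine sum_le_sum fun p hp => ?_
          rw [Nat.mem_divisorsAntidiagonal] at hp
          have hp2 : 1 ≤ p.2 := Nat.pos_of_ne_zero (by
            rintro h; rw [h, mul_zero] at hp; omega)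
          have h1 : |pcf f v J p.2| ≤ (n.divisors.card : ℝ) ^ J := by
            refine (ih _ hp2).trans (pow_le_pow_left₀ (by positivity) ?_ _)
            have : p.2.divisors ⊆ n.divisors :=
              Nat.divisors_subset_of_dvd hp.2 (Dvd.intro_left _ hp.1)
            exact_mod_cast card_le_card this
          have h2 : |(if p.1 ≤ v then f p.1 else 0 : ℝ)| ≤ 1 := by
            split_ifs
            · exact hf _
            · simp
          rw [abs_mul]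
          calc |(if p.1 ≤ v then f p.1 else 0 : ℝ)| * |pcf f v J p.2|
              ≤ 1 * (n.divisors.card : ℝ) ^ J :=
                mul_le_mul h2 h1 (abs_nonneg _) zero_le_one
            _ = _ := one_mul _
      _ = (n.divisors.card : ℝ) ^ (J + 1) := by
          rw [sum_const, nsmul_eq_mul, pow_succ, mul_comm]
          congr 2
          rw [← Nat.map_div_right_divisors, card_map]

lemma pcf_zero_of_lt (f : ℕ → ℝ) {v : ℕ} (J n : ℕ) (hn : v ^ J < n) : pcf f v J n = 0 := by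
  induction J generalizing n with
  | zero => unfold pcf; rw [if_neg]; simpa using (by simpa using hn : 1 < n).ne'
  | succ J ih =>
    rw [pcf_succ]
    refine sum_eq_zero fun p hp => ?_
    rw [Nat.mem_divisorsAntidiagonal] at hp
    by_cases h : p.1 ≤ v
    · rw [ih, mul_zero]
      by_contra h2
      push Not at h2
      have : p.1 * p.2 ≤ v ^ (J + 1) := by
        rw [pow_succ, mul_comm (v ^ J)]
        exact Nat.mul_le_mul h h2
      omega
    · rw [if_neg h, zero_mul]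

/-- product formula for a completely multiplicative weight -/
lemma pcf_sum (f : ℕ → ℝ) {v : ℕ} (w : ℕ → ℂ) (h1 : w 1 = 1)
    (hw : ∀ a b, w (a * b) = w a * w b) (J : ℕ) :
    ∑ n ∈ Icc 1 (v ^ J), (pcf f v J n : ℂ) * w n = (∑ n ∈ Icc 1 v, ((f n : ℝ) : ℂ) * w n) ^ J := by
  induction J with
  | zero => simp [pcf, h1]
  | succ J ih =>
    have e1 : ∑ n ∈ Icc 1 (v ^ (J + 1)), (pcf f v (J + 1) n : ℂ) * w n =
        ∑ n ∈ Icc 1 (v ^ (J + 1)), ∑ p ∈ n.divisorsAntidiagonal,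
          (((if p.1 ≤ v then f p.1 else 0 : ℝ) : ℂ) * w p.1) * ((pcf f v J p.2 : ℂ) * w p.2) := by
      refine sum_congr rfl fun n _ => ?_
      rw [pcf_succ]
      rw [Complex.ofReal_sum, sum_mul]
      refine sum_congr rfl fun p hp => ?_
      rw [Nat.mem_divisorsAntidiagonal] at hp
      rw [← hp.1, hw, Complex.ofReal_mul]
      ring
    rw [e1, vaughan_sum_conv (fun a => ((if a ≤ v then f a else 0 : ℝ) : ℂ) * w a)
      (fun b => (pcf f v J b : ℂ) * w b)]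
    have e2 : ∀ a ∈ Icc 1 (v ^ (J + 1)), ∑ b ∈ Icc 1 (v ^ (J + 1) / a),
        (((if a ≤ v then f a else 0 : ℝ) : ℂ) * w a) * ((pcf f v J b : ℂ) * w b) =
        (if a ≤ v then ((f a : ℝ) : ℂ) * w a else 0) *
          ∑ b ∈ Icc 1 (v ^ J), (pcf f v J b : ℂ) * w b := by
      intro a ha
      rw [mem_Icc] at ha
      by_cases h : a ≤ v
      · rw [← mul_sum]
        simp only [h, if_true]
        congr 1
        symm
        refine sum_subset ?_ ?_
        · intro b hb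
          rw [mem_Icc] at hb ⊢
          refine ⟨hb.1, hb.2.trans ?_⟩
          rw [Nat.le_div_iff_mul_le ha.1, pow_succ]
          exact Nat.mul_le_mul_left _ h
        · intro b _ hb
          rw [mem_Icc] at hb
          by_cases hb0 : b = 0
          · subst hb0
            have : pcf f v J 0 = 0 := by
              cases J with
              | zero => simp [pcf]
              | succ J => simp [pcf]
            simp [this]
          · rw [pcf_zero_of_lt f J b (by omega)]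
            simp
      · simp [h]
    rw [sum_congr rfl e2, ← sum_mul, ih, pow_succ, mul_comm, ← sum_filter]
    congr 1
    refine sum_congr ?_ fun _ _ => rfl
    ext n
    simp only [mem_filter, mem_Icc]
    constructor
    · rintro ⟨⟨h1, -⟩, h2⟩; exact ⟨h1, h2⟩
    · rintro ⟨h1, h2⟩
      exact ⟨⟨h1, h2.trans (Nat.le_self_pow (Nat.succ_ne_zero J) v)⟩, h2⟩

/-- the sum of the coefficients against a character -/
def cS (f : ℕ → ℝ) {r : ℕ} (χ : DirichletCharacter ℂ r) (v : ℕ) : ℂ :=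
  ∑ c ∈ Icc 1 v, ((f c : ℝ) : ℂ) * χ (c : ZMod r)

open Classical in
/-- **Few characters with a large sum at a given height.** -/
theorem pcf_count (J : ℕ) (hJ : 1 ≤ J) : ∃ C : ℝ, 0 < C ∧ ∀ (x R v : ℕ) (f : ℕ → ℝ) (T : ℝ),
    (∀ n, |f n| ≤ 1) → 3 ≤ x → 1 ≤ v → v ≤ x → 1 ≤ R → (R : ℝ) ^ 2 ≤ (v : ℝ) ^ J → 0 < T →
    ∑ r ∈ Icc 1 R, (((prim r).filter (fun χ => (v : ℝ) / T < ‖cS f χ v‖)).card : ℝ) ≤
      C * (Real.log x) ^ (2 ^ (2 * J)) * T ^ (2 * J) := by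
  obtain ⟨C, hC, hτ⟩ := Pool.Agent.HT.tau_sum (2 * J)
  refine ⟨40 * C * (J : ℝ) ^ (2 ^ (2 * J)), by positivity, ?_⟩
  intro x R v f T hf hx hv hvx hR hRv hT
  have hvR : (0 : ℝ) < v := by exact_mod_cast (by omega : 0 < v)
  have key := large_sieve R hR 0 (v ^ J) (fun n => (pcf f v J n : ℂ))
  have e0 : Ioc 0 (0 + v ^ J) = Icc 1 (v ^ J) := by
    ext n; simp only [mem_Ioc, mem_Icc]; omega
  rw [e0] at key
  have h1 : ∀ q ∈ Icc 1 R, (((prim q).filter (fun χ => (v : ℝ) / T < ‖cS f χ v‖)).card : ℝ) *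
      ((v : ℝ) / T) ^ (2 * J) ≤ (q : ℝ) / q.totient *
      ∑ χ ∈ prim q, ‖∑ n ∈ Icc 1 (v ^ J), (pcf f v J n : ℂ) * χ (n : ZMod q)‖ ^ 2 := by
    intro q hq
    rw [mem_Icc] at hq
    have hφ : (0 : ℝ) < q.totient := by exact_mod_cast Nat.totient_pos.2 (by omega)
    have hq1 : (1 : ℝ) ≤ (q : ℝ) / q.totient := by
      rw [le_div_iff₀ hφ, one_mul]
      exact_mod_cast Nat.totient_le q
    have e1 : ∀ χ ∈ prim q, ‖∑ n ∈ Icc 1 (v ^ J), (pcf f v J n : ℂ) * χ (n : ZMod q)‖ ^ 2 =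
        ‖cS f χ v‖ ^ (2 * J) := by
      intro χ _
      rw [pcf_sum f (fun n => χ (n : ZMod q)) (by simp) (fun a b => by push_cast; rw [map_mul]) J]
      rw [norm_pow, ← pow_mul, mul_comm J 2]
      rfl
    rw [sum_congr rfl e1]
    calc (((prim q).filter (fun χ => (v : ℝ) / T < ‖cS f χ v‖)).card : ℝ) * ((v : ℝ) / T) ^ (2 * J)
        = ∑ χ ∈ (prim q).filter (fun χ => (v : ℝ) / T < ‖cS f χ v‖), ((v : ℝ) / T) ^ (2 * J) := by
          rw [sum_const, nsmul_eq_mul]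
      _ ≤ ∑ χ ∈ (prim q).filter (fun χ => (v : ℝ) / T < ‖cS f χ v‖), ‖cS f χ v‖ ^ (2 * J) := by
          refine sum_le_sum fun χ hχ => pow_le_pow_left₀ (by positivity) ?_ _
          exact (mem_filter.1 hχ).2.le
      _ ≤ ∑ χ ∈ prim q, ‖cS f χ v‖ ^ (2 * J) :=
          sum_le_sum_of_subset_of_nonneg (filter_subset _ _) fun _ _ _ => by positivity
      _ ≤ (q : ℝ) / q.totient * ∑ χ ∈ prim q, ‖cS f χ v‖ ^ (2 * J) :=
          le_mul_of_one_le_left (sum_nonneg fun _ _ => by positivity) hq1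
  have h2 := (sum_le_sum h1).trans key
  rw [← sum_mul] at h2
  have hx1 : 1 ≤ x := by omega
  have h3 : ∑ n ∈ Icc 1 (v ^ J), ‖(pcf f v J n : ℂ)‖ ^ 2 ≤
      C * (v : ℝ) ^ J * ((J : ℝ) * Real.log x) ^ (2 ^ (2 * J)) := by
    have e : ∀ n ∈ Icc 1 (v ^ J), ‖(pcf f v J n : ℂ)‖ ^ 2 ≤ (n.divisors.card : ℝ) ^ (2 * J) := by
      intro n hn
      rw [mem_Icc] at hn
      rw [Complex.norm_real, Real.norm_eq_abs, mul_comm 2 J, pow_mul]
      exact pow_le_pow_left₀ (abs_nonneg _) (pcf_abs hf v J n hn.1) 2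
    refine (sum_le_sum e).trans ?_
    have h4 := hτ (x ^ J) (v ^ J) (le_trans hx (Nat.le_self_pow (by omega) x))
      (Nat.pow_le_pow_left hvx J)
    push_cast at h4
    rw [Real.log_pow] at h4
    exact h4
  have h4 : (20 : ℝ) * (((v ^ J : ℕ) : ℝ) + (R : ℝ) ^ 2) ≤ 40 * (v : ℝ) ^ J := by
    push_cast
    linarith
  have h5 : (∑ q ∈ Icc 1 R, (((prim q).filter (fun χ => (v : ℝ) / T < ‖cS f χ v‖)).card : ℝ)) *
      ((v : ℝ) / T) ^ (2 * J) ≤
      40 * (v : ℝ) ^ J * (C * (v : ℝ) ^ J * ((J : ℝ) * Real.log x) ^ (2 ^ (2 * J))) := by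
    refine h2.trans (mul_le_mul h4 h3 (sum_nonneg fun _ _ => by positivity) (by positivity))
  have h6 : (0 : ℝ) < ((v : ℝ) / T) ^ (2 * J) := by positivity
  rw [← le_div_iff₀ h6] at h5
  refine h5.trans (le_of_eq ?_)
  rw [div_pow, mul_pow]
  have : (v : ℝ) ^ (2 * J) = (v : ℝ) ^ J * (v : ℝ) ^ J := by rw [← pow_add]; congr 1; ring
  rw [this]
  field_simp

/-- from a bad height to a bad grid point -/
lemma to_grid {L η : ℝ} (B9 : ℕ) (hL : 2 ≤ L) (hη : η = 1 / (4 * L ^ (B9 + 1))) {w₁ u : ℕ}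
    (hw : L ^ (B9 + 3) ≤ w₁) (hu : w₁ ≤ u) {f : ℕ → ℝ} (hf : ∀ n, |f n| ≤ 1) {r : ℕ}
    (χ : DirichletCharacter ℂ r) (hb : (u : ℝ) / L ^ B9 < ‖cS f χ u‖) :
    ∃ i : ℕ, gr η i ≤ u ∧ (w₁ : ℝ) / 2 ≤ gr η i ∧
      (gr η i : ℝ) / (2 * L ^ B9) < ‖cS f χ (gr η i)‖ := by
  have hL0 : 0 < L := by linarith
  have hLB : 1 ≤ L ^ (B9 + 1) := one_le_pow₀ (by linarith)
  have hLB9 : 1 ≤ L ^ B9 := one_le_pow₀ (by linarith)
  have hη0 : 0 < η := by rw [hη]; positivity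
  have hη4 : η ≤ 1 / 4 := by
    rw [hη]
    exact div_le_div_of_nonneg_left (by norm_num) (by norm_num) (by linarith)
  have h8 : 8 * L ^ B9 ≤ w₁ := by
    refine le_trans ?_ hw
    rw [pow_add]
    have : (8 : ℝ) ≤ L ^ 3 := by
      have := pow_le_pow_left₀ (by norm_num : (0 : ℝ) ≤ 2) hL 3
      norm_num at this
      exact this
    nlinarith
  have hu' : (w₁ : ℝ) ≤ u := by exact_mod_cast hu
  have hu8 : 8 * L ^ B9 ≤ u := h8.trans hu'
  have hu1 : 1 ≤ u := by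
    have : (0 : ℝ) < u := by linarith
    exact_mod_cast this
  classical
  have hex : ∃ i, u < gr η i := by
    obtain ⟨i, hi⟩ := MassA.exists_gr hη0 ((u : ℝ) + 1)
    exact ⟨i, by
      have : (u : ℝ) < gr η i := by linarith
      exact_mod_cast this⟩
  set i' := Nat.find hex with hi'
  have hspec : u < gr η i' := Nat.find_spec hex
  have hi0 : i' ≠ 0 := by
    intro h
    rw [h, MassA.gr_zero] at hspec
    omega
  obtain ⟨i, hi⟩ := Nat.exists_eq_succ_of_ne_zero hi0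
  have hle : gr η i ≤ u := by
    have := Nat.find_min hex (m := i) (by omega)
    exact not_lt.1 this
  have hlt : (u : ℝ) < (1 + η) * (gr η i + 1) := by
    have h1 : (u : ℝ) < gr η (i + 1) := by
      rw [hi] at hspec
      exact_mod_cast hspec
    exact h1.trans_le (MassA.gr_succ_le hη0.le i)
  set v := gr η i with hv
  have hvu : (v : ℝ) ≤ u := by exact_mod_cast hle
  refine ⟨i, hle, ?_, ?_⟩
  · nlinarith
  · have hdiff : ‖cS f χ u - cS f χ v‖ ≤ (u : ℝ) - v := by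
      have e1 : cS f χ u - cS f χ v = ∑ c ∈ Ioc v u, ((f c : ℝ) : ℂ) * χ (c : ZMod r) := by
        unfold cS
        have e2 : Icc 1 u = Icc 1 v ∪ Ioc v u := by
          ext n; simp only [mem_union, mem_Icc, mem_Ioc]; omega
        have e3 : Disjoint (Icc 1 v) (Ioc v u) := by
          rw [Finset.disjoint_left]
          intro n h1 h2
          rw [mem_Icc] at h1
          rw [mem_Ioc] at h2
          omega
        rw [e2, sum_union e3]
        ring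
      rw [e1]
      calc ‖∑ c ∈ Ioc v u, ((f c : ℝ) : ℂ) * χ (c : ZMod r)‖
          ≤ ∑ c ∈ Ioc v u, ‖((f c : ℝ) : ℂ) * χ (c : ZMod r)‖ := norm_sum_le _ _
        _ ≤ ∑ c ∈ Ioc v u, (1 : ℝ) := by
            refine sum_le_sum fun c _ => ?_
            rw [norm_mul, Complex.norm_real, Real.norm_eq_abs]
            calc |f c| * ‖χ (c : ZMod r)‖ ≤ 1 * 1 :=
                  mul_le_mul (hf c) (DirichletCharacter.norm_le_one χ _) (norm_nonneg _) zero_le_one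
              _ = 1 := one_mul 1
        _ = (u : ℝ) - v := by
            rw [sum_const, Nat.card_Ioc, nsmul_eq_mul, mul_one, Nat.cast_sub hle]
    have h1 : ‖cS f χ u‖ - ‖cS f χ v‖ ≤ (u : ℝ) - v := (norm_sub_norm_le _ _).trans hdiff
    have h2 : (u : ℝ) - v ≤ η * u + 2 := by nlinarith
    have h3 : η * u ≤ u / (8 * L ^ B9) := by
      rw [hη, div_mul_eq_mul_div, one_mul]
      refine div_le_div_of_nonneg_left (by positivity) (by positivity) ?_
      rw [pow_succ]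
      nlinarith
    have h4 : (2 : ℝ) ≤ u / (4 * L ^ B9) := by
      rw [le_div_iff₀ (by positivity)]
      linarith
    have h5 : (v : ℝ) / (2 * L ^ B9) ≤ u / (2 * L ^ B9) :=
      div_le_div_of_nonneg_right hvu (by positivity)
    have e5 : (u : ℝ) / (8 * L ^ B9) = (u / L ^ B9) / 8 := by field_simp
    have e6 : (u : ℝ) / (4 * L ^ B9) = (u / L ^ B9) / 4 := by field_simp
    have e7 : (u : ℝ) / (2 * L ^ B9) = (u / L ^ B9) / 2 := by field_simp
    rw [e5] at h3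
    rw [e6] at h4
    rw [e7] at h5
    have h6 : 0 < (u : ℝ) / L ^ B9 := by
      have : (0 : ℝ) < u := by exact_mod_cast hu1
      positivity
    linarith

end

end BadFaux

open BadFaux

open Classical in
theorem badF_count (J' c₁ B9 : ℕ) (hJ : 1 ≤ J') : ∃ C x₁ : ℕ, ∀ x : ℕ, x₁ ≤ x →
    ∀ (w₁ w₂ J R : ℕ) (A : ℕ → ℕ → ℝ), (∀ j c, |A j c| ≤ 1) → w₂ ≤ x → (J : ℝ) ≤ (Real.log x) ^ c₁ →
    (Real.log x) ^ (B9 + 3) ≤ w₁ → 1 ≤ R → (R : ℝ) ^ 2 ≤ ((w₁ : ℝ) / 2) ^ J' →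
    ∑ r ∈ Icc 1 R, (((prim r).filter (fun χ => BadF x w₁ w₂ J B9 A χ)).card : ℝ) ≤
      (Real.log x) ^ C := by
  obtain ⟨C₀, hC₀, hcount⟩ := pcf_count J' hJ
  obtain ⟨x₂, hx₂⟩ := bset_log_large (max 2 (17 * C₀ * 2 ^ (2 * J')))
  refine ⟨c₁ + (B9 + 2) + 2 ^ (2 * J') + B9 * (2 * J') + 1, max 3 x₂, ?_⟩
  intro x hx w₁ w₂ J R A hA hw₂ hJc hw₁ hR hRw
  have hx3 : 3 ≤ x := le_trans (le_max_left _ _) hx
  have hL := hx₂ x (le_trans (le_max_right _ _) hx)
  have hL2 : 2 ≤ Real.log x := le_trans (le_max_left _ _) hL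
  have hLK : 17 * C₀ * 2 ^ (2 * J') ≤ Real.log x := le_trans (le_max_right _ _) hL
  have hx3R : (3 : ℝ) ≤ x := by exact_mod_cast hx3
  set L := Real.log x with hLdef
  have hL0 : 0 < L := by linarith
  have hL1 : 1 ≤ L := by linarith
  set η : ℝ := 1 / (4 * L ^ (B9 + 1)) with hη
  have hη0 : 0 < η := by positivity
  have hLB : 1 ≤ L ^ (B9 + 1) := one_le_pow₀ hL1
  have hη1 : η ≤ 1 := by
    rw [hη, div_le_one (by positivity)]
    linarith
  set N : ℕ := ⌊16 * L ^ (B9 + 2)⌋₊ with hN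
  set I : Finset ℕ := (range (N + 1)).filter
    (fun i => (w₁ : ℝ) / 2 ≤ gr η i ∧ (gr η i : ℝ) ≤ x) with hI
  have hIcard : (I.card : ℝ) ≤ 17 * L ^ (B9 + 2) := by
    have h1 : (I.card : ℝ) ≤ N + 1 := by
      have : I.card ≤ N + 1 := (card_filter_le _ _).trans (by rw [card_range])
      exact_mod_cast this
    have h2 : (N : ℝ) ≤ 16 * L ^ (B9 + 2) := Nat.floor_le (by positivity)
    have h3 : 1 ≤ L ^ (B9 + 2) := one_le_pow₀ hL1
    linarith
  have hmain : ∀ r ∈ Icc 1 R, (((prim r).filter (fun χ => BadF x w₁ w₂ J B9 A χ)).card : ℝ) ≤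
      ∑ j ∈ range J, ∑ i ∈ I, (((prim r).filter (fun χ => (gr η i : ℝ) / (2 * L ^ B9) <
        ‖cS (A j) χ (gr η i)‖)).card : ℝ) := by
    intro r _
    have hsub : (prim r).filter (fun χ => BadF x w₁ w₂ J B9 A χ) ⊆
        (range J).biUnion (fun j => I.biUnion (fun i => (prim r).filter
          (fun χ => (gr η i : ℝ) / (2 * L ^ B9) < ‖cS (A j) χ (gr η i)‖))) := by
      intro χ hχ
      rw [mem_filter] at hχ
      obtain ⟨hχp, j, hj, u, hu1, hu2, hu3⟩ := hχ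
      obtain ⟨i, hi1, hi2, hi3⟩ := to_grid B9 hL2 hη hw₁ hu1 (hA j) χ hu3
      have hix : (gr η i : ℝ) ≤ x := by exact_mod_cast hi1.trans (hu2.trans hw₂)
      rw [mem_biUnion]
      refine ⟨j, mem_range.2 hj, ?_⟩
      rw [mem_biUnion]
      refine ⟨i, ?_, mem_filter.2 ⟨hχp, hi3⟩⟩
      rw [hI, mem_filter, mem_range]
      refine ⟨?_, hi2, hix⟩
      refine Nat.lt_succ_of_le (Nat.le_floor ?_)
      have := MassA.gr_count hη0 hη1 (by linarith : (2 : ℝ) ≤ x) hix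
      refine this.trans (le_of_eq ?_)
      rw [hη, ← hLdef]
      field_simp
      ring
    have h2 := (card_le_card hsub).trans (card_biUnion_le.trans
      (sum_le_sum fun j _ => card_biUnion_le))
    exact_mod_cast h2
  refine (sum_le_sum hmain).trans ?_
  rw [sum_comm]
  have hj : ∀ j ∈ range J, ∑ r ∈ Icc 1 R, ∑ i ∈ I, (((prim r).filter (fun χ =>
      (gr η i : ℝ) / (2 * L ^ B9) < ‖cS (A j) χ (gr η i)‖)).card : ℝ) ≤
      17 * L ^ (B9 + 2) * (C₀ * L ^ (2 ^ (2 * J')) * (2 * L ^ B9) ^ (2 * J')) := by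
    intro j _
    rw [sum_comm]
    have hi : ∀ i ∈ I, ∑ r ∈ Icc 1 R, (((prim r).filter (fun χ =>
        (gr η i : ℝ) / (2 * L ^ B9) < ‖cS (A j) χ (gr η i)‖)).card : ℝ) ≤
        C₀ * L ^ (2 ^ (2 * J')) * (2 * L ^ B9) ^ (2 * J') := by
      intro i hi
      rw [hI, mem_filter] at hi
      refine hcount x R (gr η i) (A j) (2 * L ^ B9) (hA j) hx3 (MassA.one_le_gr hη0.le i)
        (by exact_mod_cast hi.2.2) hR ?_ (by positivity)
      exact hRw.trans (pow_le_pow_left₀ (by positivity) hi.2.1 _)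
    refine (sum_le_sum hi).trans ?_
    rw [sum_const, nsmul_eq_mul]
    exact mul_le_mul_of_nonneg_right hIcard (by positivity)
  refine (sum_le_sum hj).trans ?_
  rw [sum_const, card_range, nsmul_eq_mul]
  calc (J : ℝ) * (17 * L ^ (B9 + 2) * (C₀ * L ^ (2 ^ (2 * J')) * (2 * L ^ B9) ^ (2 * J')))
      ≤ L ^ c₁ * (17 * L ^ (B9 + 2) * (C₀ * L ^ (2 ^ (2 * J')) * (2 * L ^ B9) ^ (2 * J'))) :=
        mul_le_mul_of_nonneg_right hJc (by positivity)
    _ = (17 * C₀ * 2 ^ (2 * J')) * L ^ (c₁ + (B9 + 2) + 2 ^ (2 * J') + B9 * (2 * J')) := by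
        rw [mul_pow, ← pow_mul, pow_add, pow_add, pow_add]
        ring
    _ ≤ L * L ^ (c₁ + (B9 + 2) + 2 ^ (2 * J') + B9 * (2 * J')) :=
        mul_le_mul_of_nonneg_right hLK (by positivity)
    _ = L ^ (c₁ + (B9 + 2) + 2 ^ (2 * J') + B9 * (2 * J') + 1) := by
        rw [pow_succ, mul_comm]

theorem bsetF (θ κ ε : ℝ) (hθ : 0 < θ) (hκ : 0 < κ) (hε : 0 < ε) (c₁ B₁ B9 : ℕ) : ∃ C : ℕ,
    ∀ A : ℕ, ∃ x₁ : ℕ, ∀ x : ℕ, x₁ ≤ x → ∀ (w₂ J : ℕ) (Af : ℕ → ℕ → ℝ), (∀ j c, |Af j c| ≤ 1) →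
    w₂ ≤ x → (J : ℝ) ≤ (Real.log x) ^ c₁ →
    ∃ B : Finset ℕ, (B.card : ℝ) ≤ (Real.log x) ^ C ∧ (∀ b ∈ B, (Real.log x) ^ A < (b : ℝ)) ∧
      ∀ q : ℕ, 1 ≤ q → (q : ℝ) ≤ (x : ℝ) ^ (θ - ε) → (∀ b ∈ B, ¬ b ∣ q) →
        GoodF x (wk κ x) w₂ J B9 Af ((Real.log x) ^ (A + B₁ + 1)) ((Real.log x) ^ B₁) q := by
  classical
  set J' : ℕ := ⌈2 * θ / κ⌉₊ + 1 with hJ'
  have hJ1 : 1 ≤ J' := by omega
  have hJκ : 2 * θ + κ ≤ κ * J' := by
    have h1 : 2 * θ / κ + 1 ≤ J' := by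
      have h0 : 2 * θ / κ ≤ ⌈2 * θ / κ⌉₊ := Nat.le_ceil _
      rw [hJ']
      push_cast
      linarith
    have h2 : κ * (2 * θ / κ + 1) = 2 * θ + κ := by field_simp
    rw [← h2]
    exact mul_le_mul_of_nonneg_left h1 hκ.le
  obtain ⟨C₀, x₀, hcount⟩ := badF_count J' c₁ B9 hJ1
  obtain ⟨x₁, hx₁⟩ := bset_log B₁ ε hε
  obtain ⟨x₂, hx₂⟩ := bset_log (B9 + 3) κ hκ
  obtain ⟨x₃, hx₃⟩ := bset_log J' κ hκ
  obtain ⟨x₄, hx₄⟩ := bset_log_large 2
  refine ⟨C₀ + B₁, fun A => ⟨max 3 (max x₀ (max x₁ (max x₂ (max x₃ x₄)))), ?_⟩⟩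
  intro x hx w₂ J Af hAf hw₂ hJc
  simp only [max_le_iff] at hx
  obtain ⟨hx3, hx0', hx1', hx2', hx3', hx4'⟩ := hx
  have hlogε := hx₁ x hx1'
  have hlogκ := hx₂ x hx2'
  have hlogJ := hx₃ x hx3'
  have hL2 := hx₄ x hx4'
  have hx3R : (3 : ℝ) ≤ x := by exact_mod_cast hx3
  have hx1R : (1 : ℝ) ≤ x := by linarith
  have hx0R : (0 : ℝ) < x := by linarith
  set L := Real.log x with hL
  have hL0 : 0 < L := by linarith
  have hlx : 1 ≤ L := by linarith
  set R : ℕ := ⌊(x : ℝ) ^ θ⌋₊ with hR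
  have hR1 : 1 ≤ R := Nat.le_floor (by push_cast; exact Real.one_le_rpow hx1R hθ.le)
  have hwk : (x : ℝ) ^ κ ≤ wk κ x := Nat.le_ceil _
  have hRw : (R : ℝ) ^ 2 ≤ ((wk κ x : ℝ) / 2) ^ J' := by
    have h1 : (R : ℝ) ≤ (x : ℝ) ^ θ := Nat.floor_le (by positivity)
    have h2 : (R : ℝ) ^ 2 ≤ (x : ℝ) ^ (2 * θ) := by
      calc (R : ℝ) ^ 2 ≤ ((x : ℝ) ^ θ) ^ 2 := pow_le_pow_left₀ (by positivity) h1 2
        _ = (x : ℝ) ^ (2 * θ) := by
            rw [← Real.rpow_natCast, ← Real.rpow_mul hx0R.le]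
            norm_num
            ring_nf
    have h3 : (2 : ℝ) ^ J' ≤ (x : ℝ) ^ κ :=
      (pow_le_pow_left₀ (by norm_num) hL2 J').trans hlogJ
    have h4 : (x : ℝ) ^ (2 * θ) * 2 ^ J' ≤ ((x : ℝ) ^ κ) ^ J' := by
      calc (x : ℝ) ^ (2 * θ) * 2 ^ J' ≤ (x : ℝ) ^ (2 * θ) * (x : ℝ) ^ κ :=
            mul_le_mul_of_nonneg_left h3 (by positivity)
        _ = (x : ℝ) ^ (2 * θ + κ) := by rw [Real.rpow_add hx0R]
        _ ≤ (x : ℝ) ^ (κ * J') := Real.rpow_le_rpow_of_exponent_le hx1R hJκ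
        _ = ((x : ℝ) ^ κ) ^ J' := by rw [Real.rpow_mul hx0R.le, Real.rpow_natCast]
    calc (R : ℝ) ^ 2 ≤ (x : ℝ) ^ (2 * θ) := h2
      _ ≤ ((x : ℝ) ^ κ) ^ J' / 2 ^ J' := by rw [le_div_iff₀ (by positivity)]; exact h4
      _ = ((x : ℝ) ^ κ / 2) ^ J' := by rw [div_pow]
      _ ≤ ((wk κ x : ℝ) / 2) ^ J' := pow_le_pow_left₀ (by positivity)
          (div_le_div_of_nonneg_right hwk (by norm_num)) _
  have hcnt := hcount x hx0' (wk κ x) w₂ J R Af hAf hw₂ hJc (hlogκ.trans hwk) hR1 hRw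
  set Rb : Finset ℕ := (Icc 1 R).filter (fun r => ∃ χ ∈ prim r, BadF x (wk κ x) w₂ J B9 Af χ)
    with hRb
  have hRbcard : (Rb.card : ℝ) ≤ L ^ C₀ := by
    refine le_trans ?_ hcnt
    rw [hRb, card_filter]
    push_cast
    refine sum_le_sum fun r hr => ?_
    split_ifs with h
    · obtain ⟨χ, hχ, hbad⟩ := h
      have : 0 < ((prim r).filter (fun χ => BadF x (wk κ x) w₂ J B9 Af χ)).card :=
        card_pos.2 ⟨χ, mem_filter.2 ⟨hχ, hbad⟩⟩
      exact_mod_cast this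
    · positivity
  set G : ℕ := ⌊L ^ B₁⌋₊ with hG
  set P : Finset (ℕ × ℕ) := (Rb ×ˢ Icc 1 G).filter (fun p => L ^ (A + B₁ + 1) < (p.1 : ℝ) ∧ p.2 ∣ p.1)
    with hP
  refine ⟨P.image (fun p => p.1 / p.2), ?_, ?_, ?_⟩
  · have h1 : ((P.image (fun p => p.1 / p.2)).card : ℝ) ≤ Rb.card * G := by
      have h2 : (P.image (fun p => p.1 / p.2)).card ≤ Rb.card * G := by
        refine card_image_le.trans ((card_filter_le _ _).trans ?_)
        rw [card_product, Nat.card_Icc, Nat.add_sub_cancel]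
      exact_mod_cast h2
    have h3 : (G : ℝ) ≤ L ^ B₁ := Nat.floor_le (by positivity)
    calc ((P.image (fun p => p.1 / p.2)).card : ℝ) ≤ Rb.card * G := h1
      _ ≤ L ^ C₀ * L ^ B₁ := mul_le_mul hRbcard h3 (by positivity) (by positivity)
      _ = L ^ (C₀ + B₁) := by rw [pow_add]
  · intro b hb
    obtain ⟨p, hp, rfl⟩ := mem_image.1 hb
    rw [hP, mem_filter, mem_product, mem_Icc] at hp
    obtain ⟨⟨hp1, hp2, hp3⟩, hp4, hp5⟩ := hp
    have hg0 : (0 : ℝ) < p.2 := by exact_mod_cast hp2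
    have hg : (p.2 : ℝ) ≤ L ^ B₁ := by
      have h3 : (G : ℝ) ≤ L ^ B₁ := Nat.floor_le (by positivity)
      have : (p.2 : ℝ) ≤ G := by exact_mod_cast hp3
      linarith
    rw [Nat.cast_div hp5 hg0.ne', lt_div_iff₀ hg0]
    calc L ^ A * p.2 ≤ L ^ A * L ^ B₁ := by gcongr
      _ ≤ L ^ A * L ^ B₁ * L := le_mul_of_one_le_right (by positivity) hlx
      _ = L ^ (A + B₁ + 1) := by ring
      _ < p.1 := hp4
  · intro q hq hqx hqB s hs hsS r hr hrR χ hχ hbad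
    have hs0 : (0 : ℝ) < s := by exact_mod_cast hs
    have hqs : q * s ≠ 0 := Nat.mul_ne_zero (by omega) (by omega)
    have hr1 : 1 ≤ r := Nat.pos_of_dvd_of_pos hr (Nat.pos_of_ne_zero hqs)
    have hrle : (r : ℝ) ≤ (x : ℝ) ^ θ := by
      calc (r : ℝ) ≤ ((q * s : ℕ) : ℝ) := by
            exact_mod_cast Nat.le_of_dvd (Nat.pos_of_ne_zero hqs) hr
        _ = q * s := by push_cast; ring
        _ ≤ (x : ℝ) ^ (θ - ε) * (x : ℝ) ^ ε :=
            mul_le_mul hqx (hsS.trans hlogε) hs0.le (by positivity)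
        _ = (x : ℝ) ^ θ := by
            rw [← Real.rpow_add hx0R]; congr 1; ring
    have hrR2 : r ≤ R := Nat.le_floor hrle
    set g := Nat.gcd r s with hg
    have hg1 : 1 ≤ g := Nat.gcd_pos_of_pos_left s hr1
    have hgr : g ∣ r := Nat.gcd_dvd_left r s
    have hgs : g ∣ s := Nat.gcd_dvd_right r s
    have hgG : g ≤ G := by
      refine Nat.le_floor ?_
      have : (g : ℝ) ≤ s := by exact_mod_cast Nat.le_of_dvd hs hgs
      exact this.trans hsS
    refine hqB (r / g) ?_ ?_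
    · refine mem_image.2 ⟨(r, g), ?_, rfl⟩
      rw [hP, mem_filter, mem_product, mem_Icc, hRb, mem_filter, mem_Icc]
      exact ⟨⟨⟨⟨hr1, hrR2⟩, χ, hχ, hbad⟩, hg1, hgG⟩, hrR, hgr⟩
    · have hcop : Nat.Coprime (r / g) (s / g) := Nat.coprime_div_gcd_div_gcd hg1
      have h2 : r / g ∣ q * (s / g) := by
        rw [← Nat.mul_div_assoc q hgs]
        exact Nat.div_dvd_div hgr hr
      exact hcop.dvd_of_dvd_mul_right h2

end Pool.Agent.HS
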