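import Pool.Agent.Work.MP_92f640_nt.HS.DensP

/-! # Module DensQ: untwisted density, removal of the logarithm, variation of the density -/

namespace Pool.Agent.HS

open Finset Pool.Agent.BV
open scoped ArithmeticFunction.vonMangoldt

noncomputable section

open Classical

theorem theta_diff {z T : ℕ} (hz : 1 ≤ z) (hT : z ≤ T) :
    ∑ t ∈ Icc z T, (if t.Prime then Real.log t else 0) = theta T - theta (z - 1) := by
  unfold theta
  rw [sum_filter, sum_filter]
  have h1 : ∑ t ∈ Icc 1 T, (if t.Prime then Real.log t else 0) =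
      ∑ t ∈ Icc 1 (z - 1), (if t.Prime then Real.log t else 0) +
      ∑ t ∈ Icc z T, (if t.Prime then Real.log t else 0) := by
    rw [← sum_union]
    · apply sum_congr _ (fun _ _ => rfl)
      ext t
      simp only [mem_union, mem_Icc]
      omega
    · rw [disjoint_left]
      intro t
      simp only [mem_Icc]
      omega
  rw [h1]
  ring

/-- prime sums over `[z, T]` -/
theorem prime_int {C : ℝ} (hC : 0 < C) {A : ℕ} (hpnt : ∀ y : ℕ, 3 ≤ y →
    |theta y - y| ≤ C * y / (Real.log y) ^ A) {l : ℝ} (hl : 0 < l) {z : ℕ} (hz : 4 ≤ z)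
    (hlz : l ≤ Real.log ((z - 1 : ℕ) : ℝ)) {T : ℕ} (hT : z ≤ T) :
    ‖∑ t ∈ Icc z T, ((if t.Prime then ((Real.log t : ℝ) : ℂ) * 1 else 0) - 1)‖ ≤
      (2 * C / l ^ A) * T := by
  have e1 : ∑ t ∈ Icc z T, ((if t.Prime then ((Real.log t : ℝ) : ℂ) * 1 else 0) - 1) =
      ((∑ t ∈ Icc z T, (if t.Prime then Real.log t else 0) - ((T + 1 - z : ℕ) : ℝ) : ℝ) : ℂ) := by
    rw [sum_sub_distrib, sum_const, Nat.card_Icc]
    push_cast
    congr 1
    · refine sum_congr rfl fun t _ => ?_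
      split_ifs <;> simp
    · simp
  rw [e1, Complex.norm_real, Real.norm_eq_abs, theta_diff (by omega) hT]
  have h1 := hpnt T (by omega)
  have h2 := hpnt (z - 1) (by omega)
  have e2 : theta T - theta (z - 1) - ((T + 1 - z : ℕ) : ℝ) =
      (theta T - T) - (theta (z - 1) - ((z - 1 : ℕ) : ℝ)) := by
    have e3 : ((T + 1 - z : ℕ) : ℝ) = (T : ℝ) - ((z - 1 : ℕ) : ℝ) := by
      rw [eq_sub_iff_add_eq]
      exact_mod_cast (by omega : T + 1 - z + (z - 1) = T)
    rw [e3]
    ring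
  rw [e2]
  refine (abs_sub _ _).trans ?_
  have hT0 : (0 : ℝ) ≤ T := Nat.cast_nonneg T
  have hz1 : (0 : ℝ) < ((z - 1 : ℕ) : ℝ) := by exact_mod_cast (by omega : 0 < z - 1)
  have h3 : ∀ y : ℕ, z - 1 ≤ y → y ≤ T → C * y / (Real.log y) ^ A ≤ C * T / l ^ A := by
    intro y hy1 hy2
    have h4 : l ≤ Real.log y := hlz.trans (Real.log_le_log hz1 (by exact_mod_cast hy1))
    have h5 : (y : ℝ) ≤ T := by exact_mod_cast hy2
    gcongr
  calc |theta T - T| + |theta (z - 1) - ((z - 1 : ℕ) : ℝ)| ≤ C * T / l ^ A + C * T / l ^ A :=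
        add_le_add (h1.trans (h3 T (by omega) (le_refl T)))
          (h2.trans (h3 (z - 1) (le_refl _) (by omega)))
    _ = _ := by ring

/-- the sum of `a n log n` is the sum of `KH` -/
theorem dens_sum {x z : ℕ} {B : ℝ} {a : ℕ → ℝ} {H : ℕ → ℕ → ℝ} (h : WTd x z B a H)
    {C : ℝ} (hC : 0 < C) {A : ℕ} (hpnt : ∀ y : ℕ, 3 ≤ y →
    |theta y - y| ≤ C * y / (Real.log y) ^ A) {l : ℝ} (hl : 0 < l) (hz : 4 ≤ z)
    (hlz : l ≤ Real.log ((z - 1 : ℕ) : ℝ)) (hL : 1 ≤ Real.log x) {N : ℕ} (hN : N ≤ x) :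
    |∑ n ∈ Icc 1 N, (a n * Real.log n - KH z H n)| ≤
      3 * B * Real.log x * x / z + 8 * B * C * Real.log x / l ^ A * x := by
  have hB0 : 0 ≤ B := (abs_nonneg _).trans (h.bd 0 0)
  have hz0 : (0 : ℝ) < z := by exact_mod_cast (by omega : 0 < z)
  have hNx : (N : ℝ) ≤ x := by exact_mod_cast hN
  have h1 := dens_abs h (fun _ => (1 : ℂ)) (fun _ _ => by simp) (fun _ => by simp) (by omega) hN 1
    (2 * C / l ^ A) (by positivity) (fun T hT _ => prime_int hC hpnt hl hz hlz hT)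
  have h2 := KH_sum h.bd (by omega : 1 ≤ z) N
  have e1 : ∑ n ∈ Icc 1 N, ((a n * Real.log n : ℝ) : ℂ) * (1 : ℂ) -
      ∑ m ∈ Ms z (N / z), (1 : ℂ) * (1 * ((∑ t ∈ Icc z (N / m), H m t : ℝ) : ℂ)) =
      ((∑ n ∈ Icc 1 N, a n * Real.log n - ∑ m ∈ Ms z (N / z), ∑ t ∈ Icc z (N / m), H m t : ℝ) : ℂ) := by
    push_cast
    simp
  rw [e1, Complex.norm_real, Real.norm_eq_abs] at h1
  rw [sum_sub_distrib]
  have e2 : ∑ n ∈ Icc 1 N, a n * Real.log n - ∑ n ∈ Icc 1 N, KH z H n =
      (∑ n ∈ Icc 1 N, a n * Real.log n - ∑ m ∈ Ms z (N / z), ∑ t ∈ Icc z (N / m), H m t) -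
      (∑ n ∈ Icc 1 N, KH z H n - ∑ m ∈ Ms z (N / z), ∑ t ∈ Icc z (N / m), H m t) := by ring
  rw [e2]
  refine (abs_sub _ _).trans ((add_le_add h1 h2).trans ?_)
  have h3 : 2 * B * Real.log x * N / z + B * N / z ≤ 3 * B * Real.log x * x / z := by
    rw [← add_div]
    apply div_le_div_of_nonneg_right _ hz0.le
    have h5 : B * N ≤ B * Real.log x * x := by
      calc B * N = B * 1 * N := by ring
        _ ≤ B * Real.log x * x := by gcongr
    have h6 : 2 * B * Real.log x * N ≤ 2 * B * Real.log x * x := by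
      have : 0 ≤ Real.log x := by linarith
      gcongr
    linarith
  have h4 : 2 * B * (2 * C / l ^ A) * N * (1 + Real.log x) ≤ 8 * B * C * Real.log x / l ^ A * x := by
    calc 2 * B * (2 * C / l ^ A) * N * (1 + Real.log x)
        ≤ 2 * B * (2 * C / l ^ A) * x * (Real.log x + Real.log x) := by
          have : 0 ≤ Real.log x := by linarith
          gcongr
      _ = _ := by ring
  linarith

theorem inv_log_le (t : ℕ) : |1 / Real.log t| ≤ 2 := by
  rcases Nat.lt_or_ge t 2 with ht | ht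
  · interval_cases t <;> simp
  · have h2 : Real.log 2 ≤ Real.log t := Real.log_le_log (by norm_num) (by exact_mod_cast ht)
    have h3 : (1 : ℝ) / 2 ≤ Real.log 2 := by
      have := Real.log_two_gt_d9
      linarith
    rw [abs_of_nonneg (by positivity)]
    rw [div_le_iff₀ (by linarith)]
    linarith

theorem inv_log_anti {t : ℕ} (ht : 2 ≤ t) : 1 / Real.log ((t + 1 : ℕ) : ℝ) ≤ 1 / Real.log t := by
  have h2 : 0 < Real.log t := Real.log_pos (by exact_mod_cast (by omega : 1 < t))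
  apply one_div_le_one_div_of_le h2
  apply Real.log_le_log (by exact_mod_cast (by omega : 0 < t))
  exact_mod_cast Nat.le_succ t

theorem log_tv {w X : ℕ} (hw : 2 ≤ w) (hX : w ≤ X) :
    ∑ t ∈ Ico w X, |1 / Real.log ((t + 1 : ℕ) : ℝ) - 1 / Real.log t| =
      1 / Real.log w - 1 / Real.log X := by
  induction X, hX using Nat.le_induction with
  | base => simp
  | succ X hX ih =>
    rw [sum_Ico_succ_top hX, ih, abs_sub_comm,
      abs_of_nonneg (sub_nonneg.2 (inv_log_anti (by omega)))]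
    ring

/-- removal of the logarithm -/
theorem unlog {x z : ℕ} {a : ℕ → ℝ} {H : ℕ → ℕ → ℝ} {E : ℝ}
    (hE : ∀ N, N ≤ x → |∑ n ∈ Icc 1 N, (a n * Real.log n - KH z H n)| ≤ E) {w : ℕ} (hw : 2 ≤ w)
    {y : ℕ} (hy : y ≤ x) :
    |∑ n ∈ Icc w y, (a n - KH z H n / Real.log n)| ≤ 8 * E := by
  have hE0 : 0 ≤ E := (abs_nonneg _).trans (hE 0 (by omega))
  rcases le_or_gt w y with hwy | hwy
  swap
  · rw [Icc_eq_empty (by omega), sum_empty, abs_zero]
    positivity
  have hg := inv_log_le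
  have htv := fun X (hX : w ≤ X) => log_tv hw hX
  have htv2 : ∑ t ∈ Ico w x, |1 / Real.log ((t + 1 : ℕ) : ℝ) - 1 / Real.log t| ≤ 2 := by
    rw [htv x (hwy.trans hy)]
    have h1 := (le_abs_self _).trans (hg w)
    have h2 : 0 ≤ 1 / Real.log (x : ℝ) := one_div_nonneg.2 (Real.log_natCast_nonneg x)
    linarith
  have h1 := abel_tv (x := x) (z := w) (T := y) (B := 2) (E := 2 * E)
    (fun t => 1 / Real.log (t : ℝ)) hg htv2 hy (by omega)
    (fun n => ((a n * Real.log n - KH z H n : ℝ) : ℂ)) (by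
      intro T' hT'
      rcases le_or_gt w T' with h5 | h5
      · have e1 : ∑ n ∈ Icc 1 T', (a n * Real.log n - KH z H n) =
            ∑ n ∈ Icc 1 (w - 1), (a n * Real.log n - KH z H n) +
            ∑ n ∈ Icc w T', (a n * Real.log n - KH z H n) := by
          rw [← sum_union]
          · apply sum_congr _ (fun _ _ => rfl)
            ext t
            simp only [mem_union, mem_Icc]
            omega
          · rw [disjoint_left]
            intro t
            simp only [mem_Icc]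
            omega
        rw [← Complex.ofReal_sum, Complex.norm_real, Real.norm_eq_abs]
        have h6 := hE T' (hT'.trans hy)
        have h7 := hE (w - 1) (by omega)
        have e2 : ∑ n ∈ Icc w T', (a n * Real.log n - KH z H n) =
            ∑ n ∈ Icc 1 T', (a n * Real.log n - KH z H n) -
            ∑ n ∈ Icc 1 (w - 1), (a n * Real.log n - KH z H n) := by
          rw [e1]
          ring
        rw [e2]
        refine (abs_sub _ _).trans ?_
        linarith
      · rw [Icc_eq_empty (by omega), sum_empty, norm_zero]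
        positivity)
  have e3 : ∑ n ∈ Icc w y, ((a n * Real.log n - KH z H n : ℝ) : ℂ) *
      ((1 / Real.log (n : ℝ) : ℝ) : ℂ) = ((∑ n ∈ Icc w y, (a n - KH z H n / Real.log n) : ℝ) : ℂ) := by
    rw [Complex.ofReal_sum]
    refine sum_congr rfl fun n hn => ?_
    rw [mem_Icc] at hn
    have h2 : Real.log (n : ℝ) ≠ 0 :=
      (Real.log_pos (by exact_mod_cast (by omega : 1 < n))).ne'
    rw [← Complex.ofReal_mul]
    congr 1
    field_simp
  rw [e3, Complex.norm_real, Real.norm_eq_abs] at h1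
  linarith

/-- variation along a step function -/
theorem tv_step (g : ℕ → ℝ) (σ : ℕ → ℕ) (hσ : ∀ n, σ (n + 1) = σ n ∨ σ (n + 1) = σ n + 1)
    (a : ℕ) : ∀ b, a ≤ b → σ a ≤ σ b ∧ ∑ n ∈ Ico a b, |g (σ (n + 1)) - g (σ n)| =
      ∑ t ∈ Ico (σ a) (σ b), |g (t + 1) - g t| := by
  intro b hb
  induction b, hb using Nat.le_induction with
  | base => simp
  | succ b hb ih =>
    obtain ⟨ih1, ih2⟩ := ih
    rw [sum_Ico_succ_top hb, ih2]
    rcases hσ b with h | h
    · rw [h]
      exact ⟨ih1, by simp⟩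
    · rw [h]
      exact ⟨by omega, by rw [sum_Ico_succ_top ih1]⟩

theorem KH_eq {x z : ℕ} (hz : 1 ≤ z) (H : ℕ → ℕ → ℝ) {n : ℕ} (hn : n ≤ x) :
    KH z H n = ∑ m ∈ Ms z (x / z), (1 / (m : ℝ)) * (if m * z ≤ n then H m (n / m) else 0) := by
  unfold KH
  have h1 : Ms z (n / z) = (Ms z (x / z)).filter (fun m => m * z ≤ n) := by
    ext m
    unfold Ms
    simp only [mem_filter, mem_Icc, Nat.le_div_iff_mul_le (by omega : 0 < z)]
    constructor
    · rintro ⟨⟨h1, h2⟩, h3⟩
      exact ⟨⟨⟨h1, h2.trans hn⟩, h3⟩, h2⟩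
    · rintro ⟨⟨⟨h1, _⟩, h3⟩, h4⟩
      exact ⟨⟨h1, h4⟩, h3⟩
  rw [h1, sum_filter]
  refine sum_congr rfl fun m _ => ?_
  split_ifs <;> ring

theorem Ms_inv_le' {x z : ℕ} : ∑ m ∈ Ms z (x / z), 1 / (m : ℝ) ≤ 1 + Real.log x := by
  refine (Ms_inv_le z (x / z)).trans ?_
  have : Real.log ((x / z : ℕ) : ℝ) ≤ Real.log x := by
    rcases Nat.eq_zero_or_pos (x / z) with h5 | h5
    · rw [h5]; simp [Real.log_natCast_nonneg]
    · apply Real.log_le_log (by exact_mod_cast h5)
      exact_mod_cast Nat.div_le_self x z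
  linarith

theorem KH_abs {x z : ℕ} {B : ℝ} {H : ℕ → ℕ → ℝ} (hB : ∀ m t, |H m t| ≤ B) (hz : 1 ≤ z)
    {n : ℕ} (hn : n ≤ x) : |KH z H n| ≤ B * (1 + Real.log x) := by
  have hB0 : 0 ≤ B := (abs_nonneg _).trans (hB 0 0)
  rw [KH_eq hz H hn]
  refine (abs_sum_le_sum_abs _ _).trans ?_
  calc ∑ m ∈ Ms z (x / z), |1 / (m : ℝ) * (if m * z ≤ n then H m (n / m) else 0)|
      ≤ ∑ m ∈ Ms z (x / z), 1 / (m : ℝ) * B := by
        refine sum_le_sum fun m _ => ?_
        rw [abs_mul, abs_of_nonneg (by positivity : (0 : ℝ) ≤ 1 / (m : ℝ))]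
        apply mul_le_mul_of_nonneg_left _ (by positivity)
        split_ifs
        · exact hB _ _
        · rw [abs_zero]; exact hB0
    _ = (∑ m ∈ Ms z (x / z), 1 / (m : ℝ)) * B := by rw [sum_mul]
    _ ≤ (1 + Real.log x) * B := mul_le_mul_of_nonneg_right (Ms_inv_le') hB0
    _ = _ := by ring

theorem KH_tv {x z : ℕ} {B : ℝ} {H : ℕ → ℕ → ℝ} (hB : ∀ m t, |H m t| ≤ B)
    (htv : ∀ m, ∑ t ∈ Ico z x, |H m (t + 1) - H m t| ≤ B) (hz : 1 ≤ z) : ∑ n ∈ range x, |KH z H (n + 1) - KH z H n| ≤ 2 * B * (1 + Real.log x) := by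
  have hB0 : 0 ≤ B := (abs_nonneg _).trans (hB 0 0)
  have h1 : ∀ m ∈ Ms z (x / z), ∑ n ∈ range x, |(if m * z ≤ n + 1 then H m ((n + 1) / m) else 0) -
      (if m * z ≤ n then H m (n / m) else 0)| ≤ 2 * B := by
    intro m hm
    unfold Ms at hm
    rw [mem_filter, mem_Icc, Nat.le_div_iff_mul_le (by omega)] at hm
    have hm1 := hm.1.1
    have hmz : 1 ≤ m * z := Nat.mul_pos hm1 hz
    obtain ⟨M, hM⟩ : ∃ M, m * z = M + 1 := ⟨m * z - 1, by omega⟩
    have hMx : M + 1 ≤ x := by rw [← hM]; exact hm.1.2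
    rw [range_eq_Ico, ← sum_Ico_consecutive _ (Nat.zero_le M) (by omega : M ≤ x),
      sum_eq_sum_Ico_succ_bot (by omega : M < x)]
    have h2 : ∑ n ∈ Ico 0 M, |(if m * z ≤ n + 1 then H m ((n + 1) / m) else 0) -
      (if m * z ≤ n then H m (n / m) else 0)| = 0 := by
      refine sum_eq_zero fun n hn => ?_
      rw [mem_Ico] at hn
      rw [if_neg (by omega), if_neg (by omega)]
      simp
    have h3 : |(if m * z ≤ M + 1 then H m ((M + 1) / m) else 0) -
      (if m * z ≤ M then H m (M / m) else 0)| ≤ B := by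
      rw [if_pos (by omega), if_neg (by omega), sub_zero]
      exact hB _ _
    have h4 : ∑ n ∈ Ico (M + 1) x, |(if m * z ≤ n + 1 then H m ((n + 1) / m) else 0) -
      (if m * z ≤ n then H m (n / m) else 0)| ≤ B := by
      have h5 := tv_step (fun t => H m t) (fun n => n / m) (by
        intro n
        simp only [Nat.succ_div]
        split_ifs <;> omega) (M + 1) x hMx
      have h6 : ∑ n ∈ Ico (M + 1) x, |(if m * z ≤ n + 1 then H m ((n + 1) / m) else 0) -
        (if m * z ≤ n then H m (n / m) else 0)| =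
        ∑ n ∈ Ico (M + 1) x, |H m ((n + 1) / m) - H m (n / m)| := by
        refine sum_congr rfl fun n hn => ?_
        rw [mem_Ico] at hn
        rw [if_pos (by omega), if_pos (by omega)]
      rw [h6, h5.2]
      refine le_trans ?_ (htv m)
      apply sum_le_sum_of_subset_of_nonneg
      · intro t ht
        rw [mem_Ico] at ht ⊢
        have e1 : (M + 1) / m = z := by
          rw [← hM]
          exact Nat.mul_div_cancel_left z hm1
        have e2 : x / m ≤ x := Nat.div_le_self x m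
        rw [e1] at ht
        omega
      · intro _ _ _
        exact abs_nonneg _
    rw [h2]
    linarith
  have h2 : ∀ n ∈ range x, |KH z H (n + 1) - KH z H n| ≤ ∑ m ∈ Ms z (x / z), 1 / (m : ℝ) *
      |(if m * z ≤ n + 1 then H m ((n + 1) / m) else 0) -
      (if m * z ≤ n then H m (n / m) else 0)| := by
    intro n hn
    rw [mem_range] at hn
    rw [KH_eq hz H (by omega : n + 1 ≤ x), KH_eq hz H (by omega : n ≤ x), ← sum_sub_distrib]
    refine (abs_sum_le_sum_abs _ _).trans (le_of_eq ?_)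
    refine sum_congr rfl fun m _ => ?_
    rw [← mul_sub, abs_mul, abs_of_nonneg (by positivity : (0 : ℝ) ≤ 1 / (m : ℝ))]
  refine (sum_le_sum h2).trans ?_
  rw [sum_comm]
  calc ∑ m ∈ Ms z (x / z), ∑ n ∈ range x, 1 / (m : ℝ) *
      |(if m * z ≤ n + 1 then H m ((n + 1) / m) else 0) -
      (if m * z ≤ n then H m (n / m) else 0)|
      ≤ ∑ m ∈ Ms z (x / z), 1 / (m : ℝ) * (2 * B) := by
        refine sum_le_sum fun m hm => ?_
        rw [← mul_sum]
        exact mul_le_mul_of_nonneg_left (h1 m hm) (by positivity)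
    _ = (∑ m ∈ Ms z (x / z), 1 / (m : ℝ)) * (2 * B) := by rw [sum_mul]
    _ ≤ (1 + Real.log x) * (2 * B) := mul_le_mul_of_nonneg_right (Ms_inv_le') (by positivity)
    _ = _ := by ring

end

end Pool.Agent.HS
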