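import Pool.Agent.Work.MP_92f640_nt.HS.Basic
import Pool.Agent.Work.MP_92f640_nt.HS.DensQ
import Pool.Agent.Work.MP_92f640_nt.HL.VarC
import Pool.Agent.Work.MP_92f640_nt.HL.Evt

/-! # Module Dens (helper76's model): the minorant has density `KK / log`, of bounded variation

`aa(n) log n = ∑_{c ∣ n} Λ(c) aa(n)`; for `n = p m` squarefree: `aa_mul`. So `∑_{n ≤ y} aa(n) log n = ∑_{m rough sqfree} ∑_{z ≤ p ≤ y/m, p ∤ m} log p ∑_{d ∣ m} (cc d + E d p)`,
PNT (`psi_pnt`) for `θ(t)`, `t ≥ z`, and Abel summation in `p` with `E d` (variation `V0`) give `∑_{n ≤ y} KK(n)` up to `O(x/L^A)`: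
`∑_{m z ≤ n ≤ y} (1/m) E d (n/m) = ∑_{z ≤ t ≤ y/m} E d t + O(1)`; the number of `m ≤ x/z` is `≤ x^(1-δ)`, and `∑_{m ≤ x} 1/m ≤ 1 + log x`.
Remove the logarithm by Abel summation. Variation of `KK(n)/log n` on `(x/8, x]`: `KK(n) = ∑_m [m z ≤ n] ...`: `≤ ∑_m (1/m) 2^K (V0 + 2) ≤ C log x`, divided by `log n`. -/

namespace Pool.Agent.HS

open Finset Pool.Agent.BV Pool.Agent.HL

noncomputable section

open Classical in
/-- the coefficient `H m t` of the model -/
def HH (x z : ℕ) (cc : ℕ → ℝ) (E : ℕ → ℕ → ℝ) (m t : ℕ) : ℝ :=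
  if Rh z m ∧ Squarefree m ∧ m ≤ x then ∑ d ∈ m.divisors, (cc d + E d t) else 0

theorem card_div_le {x z K : ℕ} (hz : 2 ≤ z) (hK : x < z ^ K) {n : ℕ} (hs : Squarefree n)
    (hr : Rh z n) (hn : n ≤ x) : (n.divisors.card : ℝ) ≤ 2 ^ K := by
  have hn0 : n ≠ 0 := Squarefree.ne_zero hs
  have hcard : n.primeFactors.card ≤ K := by
    have h1 : z ^ n.primeFactors.card ≤ n := by
      calc z ^ n.primeFactors.card ≤ ∏ p ∈ n.primeFactors, p := by
            refine pow_card_le_prod _ _ _ fun p hp => ?_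
            exact hr p (Nat.prime_of_mem_primeFactors hp) (Nat.dvd_of_mem_primeFactors hp)
        _ ≤ n := Nat.le_of_dvd (Nat.pos_of_ne_zero hn0) (Nat.prod_primeFactors_dvd n)
    have h2 : z ^ n.primeFactors.card < z ^ K := lt_of_le_of_lt (h1.trans hn) hK
    exact ((Nat.pow_lt_pow_iff_right (by omega)).1 h2).le
  have hd : n.divisors.card ≤ 2 ^ K := by
    rw [Nat.card_divisors hn0]
    calc ∏ p ∈ n.primeFactors, (n.factorization p + 1) ≤ ∏ _p ∈ n.primeFactors, 2 := by
          refine prod_le_prod' fun p _ => ?_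
          have := hs.natFactorization_le_one p
          omega
      _ = 2 ^ n.primeFactors.card := by rw [prod_const]
      _ ≤ 2 ^ K := Nat.pow_le_pow_right (by norm_num) hcard
  exact_mod_cast hd

theorem wtd {x z D0 K : ℕ} {V0 : ℝ} {cc : ℕ → ℝ} {E : ℕ → ℕ → ℝ} (hz : 2 ≤ z) (hV0 : 0 ≤ V0)
    (hK : x < z ^ K) (h : Wt z D0 cc) (hE : WtE z V0 cc E) :
    WTd x z (2 ^ K * (2 + V0)) (aa cc z) (HH x z cc E) := by
  constructor
  · intro n hn
    have hs : Squarefree n := by
      by_contra hs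
      apply hn
      unfold aa
      rw [if_neg hs]
    exact ⟨Nat.one_le_iff_ne_zero.2 (Squarefree.ne_zero hs), aa_rough z D0 cc h n hn, hs⟩
  · intro p m hp hzp hm hr hs hpm hx
    rw [mul_comm, aa_mul z V0 cc E hE m p hs hr hp hzp hpm]
    have hmx : m ≤ x := (Nat.le_mul_of_pos_left m hp.pos).trans hx
    unfold HH
    rw [if_pos ⟨hr, hs, hmx⟩]
  · intro m t
    unfold HH
    split_ifs with hc
    · have hcd := card_div_le hz hK hc.2.1 hc.1 hc.2.2
      calc |∑ d ∈ m.divisors, (cc d + E d t)| ≤ ∑ d ∈ m.divisors, |cc d + E d t| :=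
            abs_sum_le_sum_abs _ _
        _ ≤ ∑ _d ∈ m.divisors, (2 + V0) := by
            refine sum_le_sum fun d _ => ?_
            have h1 := h.bd d
            have h2 := hE.bd d t
            have h3 := abs_add_le (cc d) (E d t)
            linarith
        _ = (m.divisors.card : ℝ) * (2 + V0) := by rw [sum_const, nsmul_eq_mul]
        _ ≤ _ := by gcongr
    · rw [abs_zero]
      positivity
  · intro m
    by_cases hc : Rh z m ∧ Squarefree m ∧ m ≤ x
    · have hcd := card_div_le hz hK hc.2.1 hc.1 hc.2.2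
      have h1 : ∀ t ∈ Ico z x, |HH x z cc E m (t + 1) - HH x z cc E m t| ≤
          ∑ d ∈ m.divisors, |E d (t + 1) - E d t| := by
        intro t _
        unfold HH
        rw [if_pos hc, if_pos hc, ← sum_sub_distrib]
        refine (abs_sum_le_sum_abs _ _).trans (le_of_eq (sum_congr rfl fun d _ => ?_))
        congr 1
        ring
      refine (sum_le_sum h1).trans ?_
      rw [sum_comm]
      calc ∑ d ∈ m.divisors, ∑ t ∈ Ico z x, |E d (t + 1) - E d t| ≤
            ∑ _d ∈ m.divisors, (2 + V0) := by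
            refine sum_le_sum fun d _ => ?_
            have h2 : ∑ t ∈ Ico z x, |E d (t + 1) - E d t| ≤
                ∑ t ∈ range x, |E d (t + 1) - E d t| := by
              apply sum_le_sum_of_subset_of_nonneg
              · intro t ht
                rw [mem_Ico] at ht
                rw [mem_range]
                exact ht.2
              · intro _ _ _
                exact abs_nonneg _
            have h3 := hE.tv d x
            linarith
        _ = (m.divisors.card : ℝ) * (2 + V0) := by rw [sum_const, nsmul_eq_mul]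
        _ ≤ _ := by gcongr
    · have h1 : ∑ t ∈ Ico z x, |HH x z cc E m (t + 1) - HH x z cc E m t| = 0 := by
        refine sum_eq_zero fun t _ => ?_
        unfold HH
        rw [if_neg hc, if_neg hc, sub_self, abs_zero]
      rw [h1]
      positivity

open Classical in
theorem KK_eq {x z : ℕ} {cc : ℕ → ℝ} {E : ℕ → ℕ → ℝ} {n : ℕ} (hn : n ≤ x) :
    KK cc E z n = KH z (HH x z cc E) n := by
  unfold KK KH
  have h1 : (Icc 1 (n / z)).filter
      (fun m => Squarefree m ∧ ∀ p : ℕ, p.Prime → p ∣ m → z ≤ p) = Ms z (n / z) := by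
    ext m
    unfold Ms Rh
    rw [mem_filter, mem_filter, and_comm (a := Squarefree m)]
  rw [h1]
  refine sum_congr rfl fun m hm => ?_
  unfold Ms at hm
  rw [mem_filter, mem_Icc] at hm
  unfold HH
  rw [if_pos ⟨hm.2.1, hm.2.2, (hm.1.2.trans (Nat.div_le_self n z)).trans hn⟩]
  ring

/-- variation of `u / log` on `(x/8, x]` -/
theorem var_cut {x : ℕ} {u : ℕ → ℝ} {U W : ℝ} (hx : 16 ≤ x)
    (hL : Real.log x ≤ 2 * Real.log ((x / 8 + 1 : ℕ) : ℝ)) (hU : ∀ n, n ≤ x → |u n| ≤ U)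
    (hW : ∑ n ∈ range x, |u (n + 1) - u n| ≤ W) {V : ℝ} (hV : 2 * (W + 2 * U) / Real.log x ≤ V) :
    BVar x V (cut x (fun n => u n / Real.log n)) := by
  set w : ℕ := x / 8 + 1 with hw
  have hw2 : 2 ≤ w := by omega
  have hwx : w ≤ x := by omega
  have hLx : 0 < Real.log x := Real.log_pos (by exact_mod_cast (by omega : 1 < x))
  have hU0 : 0 ≤ U := (abs_nonneg _).trans (hU 0 (by omega))
  have hW0 : 0 ≤ W := le_trans (sum_nonneg fun _ _ => abs_nonneg _) hW
  have hlw : 1 / Real.log w ≤ 2 / Real.log x := by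
    rw [div_le_div_iff₀ (by linarith) hLx]
    linarith
  have hln : ∀ n : ℕ, w ≤ n → 0 ≤ 1 / Real.log (n : ℝ) ∧ 1 / Real.log (n : ℝ) ≤ 2 / Real.log x := by
    intro n hn
    have h1 : 0 < Real.log (w : ℝ) := Real.log_pos (by exact_mod_cast (by omega : 1 < w))
    have h2 : Real.log (w : ℝ) ≤ Real.log n :=
      Real.log_le_log (by exact_mod_cast (by omega : 0 < w)) (by exact_mod_cast hn)
    refine ⟨by positivity, le_trans ?_ hlw⟩
    exact one_div_le_one_div_of_le h1 h2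
  have hb : ∀ n : ℕ, w ≤ n → n ≤ x → |u n / Real.log n| ≤ U * (2 / Real.log x) := by
    intro n hn hnx
    obtain ⟨h1, h2⟩ := hln n hn
    rw [div_eq_mul_one_div, abs_mul, abs_of_nonneg h1]
    have := hU n hnx
    gcongr
  have e0 : 2 * (W + 2 * U) / Real.log x = (W + 2 * U) * (2 / Real.log x) := by ring
  rw [e0] at hV
  have hq : 0 ≤ 2 / Real.log x := by positivity
  constructor
  · intro n
    unfold cut
    split_ifs with h
    · refine (hb n (by omega) h.2).trans (le_trans ?_ hV)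
      apply mul_le_mul_of_nonneg_right _ hq
      linarith
    · rw [abs_zero]
      refine le_trans ?_ hV
      positivity
  · rw [range_eq_Ico, ← sum_Ico_consecutive _ (Nat.zero_le (x / 8)) (by omega : x / 8 ≤ x),
      sum_eq_sum_Ico_succ_bot (by omega : x / 8 < x), ← hw]
    have h1 : ∑ n ∈ Ico 0 (x / 8), |cut x (fun n => u n / Real.log n) (n + 1) -
        cut x (fun n => u n / Real.log n) n| = 0 := by
      refine sum_eq_zero fun n hn => ?_
      rw [mem_Ico] at hn
      unfold cut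
      rw [if_neg (by omega), if_neg (by omega), sub_self, abs_zero]
    have h2 : |cut x (fun n => u n / Real.log n) w -
        cut x (fun n => u n / Real.log n) (x / 8)| ≤ U * (2 / Real.log x) := by
      unfold cut
      rw [if_pos (by omega), if_neg (by omega), sub_zero]
      exact hb w (le_refl _) hwx
    have h3 : ∑ n ∈ Ico w x, |cut x (fun n => u n / Real.log n) (n + 1) -
        cut x (fun n => u n / Real.log n) n| ≤ (W + U) * (2 / Real.log x) := by
      have h4 : ∀ n ∈ Ico w x, |cut x (fun n => u n / Real.log n) (n + 1) -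
          cut x (fun n => u n / Real.log n) n| ≤ |u (n + 1) - u n| * (2 / Real.log x) +
          U * |1 / Real.log ((n + 1 : ℕ) : ℝ) - 1 / Real.log n| := by
        intro n hn
        rw [mem_Ico] at hn
        unfold cut
        rw [if_pos (by omega), if_pos (by omega)]
        have e1 : u (n + 1) / Real.log ((n + 1 : ℕ) : ℝ) - u n / Real.log n =
            (u (n + 1) - u n) * (1 / Real.log ((n + 1 : ℕ) : ℝ)) +
            u n * (1 / Real.log ((n + 1 : ℕ) : ℝ) - 1 / Real.log n) := by ring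
        rw [e1]
        refine (abs_add_le _ _).trans ?_
        rw [abs_mul, abs_mul]
        obtain ⟨h5, h6⟩ := hln (n + 1) (by omega)
        rw [abs_of_nonneg h5]
        have h7 := hU n (by omega)
        gcongr
      refine (sum_le_sum h4).trans ?_
      rw [sum_add_distrib, ← sum_mul, ← mul_sum, log_tv hw2 hwx]
      have h5 : ∑ n ∈ Ico w x, |u (n + 1) - u n| ≤ W := by
        refine le_trans ?_ hW
        apply sum_le_sum_of_subset_of_nonneg
        · intro t ht
          rw [mem_Ico] at ht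
          rw [mem_range]
          exact ht.2
        · intro _ _ _
          exact abs_nonneg _
      have h6 : 1 / Real.log w - 1 / Real.log x ≤ 2 / Real.log x := by
        have : 0 ≤ 1 / Real.log (x : ℝ) := by positivity
        linarith
      rw [add_mul]
      exact add_le_add (mul_le_mul_of_nonneg_right h5 hq) (mul_le_mul_of_nonneg_left h6 hU0)
    rw [h1]
    have e2 : (W + 2 * U) * (2 / Real.log x) =
        U * (2 / Real.log x) + (W + U) * (2 / Real.log x) := by ring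
    rw [e2] at hV
    linarith

/-- the scale: what is needed of large `x` -/
theorem dens_evt (ζ : ℝ) (hζ : 0 < ζ) (BB C : ℝ) (A : ℕ) : ∃ x₁ : ℕ, ∀ x : ℕ, x₁ ≤ x →
    16 ≤ x ∧ 1 ≤ Real.log x ∧ Real.log x ≤ 2 * Real.log ((x / 8 + 1 : ℕ) : ℝ) ∧
    4 ≤ ⌈(x : ℝ) ^ ζ⌉₊ ∧ ζ * Real.log x / 2 ≤ Real.log ((⌈(x : ℝ) ^ ζ⌉₊ - 1 : ℕ) : ℝ) ∧
    x < ⌈(x : ℝ) ^ ζ⌉₊ ^ (⌈1 / ζ⌉₊ + 1) ∧
    BB * (Real.log x) ^ A ≤ (⌈(x : ℝ) ^ ζ⌉₊ : ℝ) ∧ C ≤ Real.log x := by
  have h1 := evt_log (max (max 10 (2 * Real.log 2 / ζ)) C)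
  have h2 := evt_pow BB A ζ hζ
  have h3 := evt_pow 4 0 ζ hζ
  obtain ⟨x₁, hx₁⟩ := Filter.eventually_atTop.1 ((h1.and h2).and (h3.and
    (Filter.eventually_ge_atTop 16)))
  refine ⟨x₁, fun x hx => ?_⟩
  obtain ⟨⟨h4, h5⟩, h6, h7⟩ := hx₁ x hx
  have h8 : 10 ≤ Real.log x := ((le_max_left _ _).trans (le_max_left _ _)).trans h4
  have h9 : 2 * Real.log 2 / ζ ≤ Real.log x := ((le_max_right _ _).trans (le_max_left _ _)).trans h4
  have h10 : C ≤ Real.log x := (le_max_right _ _).trans h4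
  have hx0 : (0 : ℝ) < x := by exact_mod_cast (by omega : 0 < x)
  have hx1 : (1 : ℝ) < x := by exact_mod_cast (by omega : 1 < x)
  have hp : 0 < (x : ℝ) ^ ζ := Real.rpow_pos_of_pos hx0 ζ
  have hc := Nat.le_ceil ((x : ℝ) ^ ζ)
  rw [pow_zero, mul_one] at h6
  have h11 : 4 ≤ ⌈(x : ℝ) ^ ζ⌉₊ := by exact_mod_cast h6.trans hc
  refine ⟨h7, by linarith, ?_, h11, ?_, ?_, h5.trans hc, h10⟩
  · have h12 : (x : ℝ) / 8 ≤ ((x / 8 + 1 : ℕ) : ℝ) := by
      have : x ≤ 8 * (x / 8 + 1) := by omega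
      have h : (x : ℝ) ≤ 8 * ((x / 8 + 1 : ℕ) : ℝ) := by exact_mod_cast this
      linarith
    have h13 : Real.log ((x : ℝ) / 8) ≤ Real.log ((x / 8 + 1 : ℕ) : ℝ) :=
      Real.log_le_log (by positivity) h12
    rw [Real.log_div hx0.ne' (by norm_num)] at h13
    have h14 : Real.log 8 ≤ 3 := by
      have e : Real.log 8 = 3 * Real.log 2 := by
        rw [show (8 : ℝ) = 2 ^ 3 by norm_num, Real.log_pow]
        norm_num
      have := Real.log_two_lt_d9
      rw [e]
      linarith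
    linarith
  · have h12 : (x : ℝ) ^ ζ / 2 ≤ ((⌈(x : ℝ) ^ ζ⌉₊ - 1 : ℕ) : ℝ) := by
      have h : ((⌈(x : ℝ) ^ ζ⌉₊ - 1 : ℕ) : ℝ) = (⌈(x : ℝ) ^ ζ⌉₊ : ℝ) - 1 := by
        rw [Nat.cast_sub (by omega)]
        simp
      rw [h]
      linarith
    have h13 := Real.log_le_log (by positivity) h12
    rw [Real.log_div hp.ne' (by norm_num), Real.log_rpow hx0] at h13
    rw [div_le_iff₀ hζ] at h9
    linarith
  · have h12 : (x : ℝ) < (⌈(x : ℝ) ^ ζ⌉₊ : ℝ) ^ (⌈1 / ζ⌉₊ + 1) := by
      calc (x : ℝ) = (x : ℝ) ^ (1 : ℝ) := (Real.rpow_one _).symm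
        _ < (x : ℝ) ^ (ζ * ((⌈1 / ζ⌉₊ + 1 : ℕ) : ℝ)) := by
            apply Real.rpow_lt_rpow_of_exponent_lt hx1
            have h := Nat.le_ceil (1 / ζ)
            rw [div_le_iff₀ hζ] at h
            push_cast
            nlinarith
        _ = ((x : ℝ) ^ ζ) ^ (⌈1 / ζ⌉₊ + 1) := by
            rw [Real.rpow_mul hx0.le, Real.rpow_natCast]
        _ ≤ _ := by gcongr
    exact_mod_cast h12

theorem dens (θ V0 : ℝ) (hθ : 1 / 2 ≤ θ) (hθ1 : θ < 1) (hV0 : 0 ≤ V0) : ∃ V : ℝ, 0 < V ∧ ∀ B : ℕ,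
    ∃ x₁ : ℕ, ∀ x : ℕ, x₁ ≤ x → ∀ (D0 : ℕ) (cc : ℕ → ℝ) (E : ℕ → ℕ → ℝ), Wt (zx θ x) D0 cc →
    WtE (zx θ x) V0 cc E →
    BVar x V (cut x (fun n => KK cc E (zx θ x) n / Real.log n)) ∧
    ∀ y : ℕ, y ≤ x → |∑ n ∈ Icc 1 y, (cut x (aa cc (zx θ x)) n -
      cut x (fun n => KK cc E (zx θ x) n / Real.log n) n)| ≤ (x : ℝ) / (Real.log x) ^ B := by
  have hζ : 0 < 1 - θ := by linarith
  set ζ : ℝ := 1 - θ with hζd
  set K : ℕ := ⌈1 / ζ⌉₊ + 1 with hK
  set B0 : ℝ := 2 ^ K * (2 + V0) with hB0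
  have hB0p : 0 < B0 := by positivity
  refine ⟨16 * B0, by positivity, fun B => ?_⟩
  obtain ⟨C, hC, hpnt⟩ := theta_pnt (B + 2)
  obtain ⟨x₁, hx₁⟩ := dens_evt ζ hζ (48 * B0) (128 * B0 * C * (2 / ζ) ^ (B + 2)) (B + 1)
  refine ⟨x₁, fun x hx D0 cc E hW hE => ?_⟩
  obtain ⟨hx16, hL1, hL8, hz4, hlz, hzK, hz2, hLC⟩ := hx₁ x hx
  have hzd : zx θ x = ⌈(x : ℝ) ^ ζ⌉₊ := rfl
  rw [← hzd, ← hK] at hzK
  rw [← hzd] at hz4 hlz hz2
  set z : ℕ := zx θ x with hz
  have hwtd := wtd (x := x) (K := K) (by omega) hV0 hzK hW hE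
  rw [← hB0] at hwtd
  set L : ℝ := Real.log x with hL
  have hL0 : 0 < L := by linarith
  have hx0 : (0 : ℝ) < x := by exact_mod_cast (by omega : 0 < x)
  have ecut : cut x (fun n => KK cc E z n / Real.log n) =
      cut x (fun n => KH z (HH x z cc E) n / Real.log n) := by
    funext n
    unfold cut
    split_ifs with h
    · show KK cc E z n / Real.log n = KH z (HH x z cc E) n / Real.log n
      rw [KK_eq h.2]
    · rfl
  rw [ecut]
  constructor
  · apply var_cut hx16 hL8 (U := B0 * (1 + L)) (W := 2 * B0 * (1 + L))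
    · intro n hn
      exact KH_abs hwtd.bd (by omega) hn
    · exact KH_tv hwtd.bd hwtd.tv (by omega)
    · rw [div_le_iff₀ hL0]
      have : B0 * (1 + L) ≤ B0 * (2 * L) := by
        apply mul_le_mul_of_nonneg_left _ hB0p.le
        linarith
      linarith
  · intro y hy
    set w : ℕ := x / 8 + 1 with hw
    have e1 : ∑ n ∈ Icc 1 y, (cut x (aa cc z) n -
        cut x (fun n => KH z (HH x z cc E) n / Real.log n) n) =
        ∑ n ∈ Icc w y, (aa cc z n - KH z (HH x z cc E) n / Real.log n) := by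
      have e2 : Icc w y = (Icc 1 y).filter (fun n => x / 8 < n ∧ n ≤ x) := by
        ext n
        simp only [mem_filter, mem_Icc]
        omega
      rw [e2, sum_filter]
      refine sum_congr rfl fun n _ => ?_
      unfold cut
      split_ifs <;> simp
    rw [e1]
    have h1 := unlog (x := x) (z := z) (fun N hN => dens_sum hwtd hC hpnt (by positivity)
      hz4 hlz hL1 hN) (w := w) (by omega) hy
    refine h1.trans ?_
    rw [← hL]
    have hzp : (0 : ℝ) < z := by exact_mod_cast (by omega : 0 < z)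
    have h2 : 8 * (3 * B0 * L * x / z) ≤ x / L ^ B / 2 := by
      rw [div_div, ← mul_div_assoc, div_le_div_iff₀ hzp (by positivity)]
      calc 8 * (3 * B0 * L * x) * (L ^ B * 2) = x * (48 * B0 * L ^ (B + 1)) := by ring
        _ ≤ x * z := by gcongr
    have h3 : 8 * (8 * B0 * C * L / (ζ * L / 2) ^ (B + 2) * x) ≤ x / L ^ B / 2 := by
      have e3 : 8 * (8 * B0 * C * L / (ζ * L / 2) ^ (B + 2) * x) =
          (128 * B0 * C * (2 / ζ) ^ (B + 2)) * x / L ^ (B + 1) / 2 := by
        rw [div_pow, mul_pow, div_pow]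
        field_simp
        ring
      rw [e3]
      apply div_le_div_of_nonneg_right _ (by norm_num)
      rw [div_le_div_iff₀ (by positivity) (by positivity)]
      calc (128 * B0 * C * (2 / ζ) ^ (B + 2)) * x * L ^ B ≤ L * x * L ^ B := by gcongr
        _ = _ := by ring
    rw [mul_add]
    linarith

end

end Pool.Agent.HS
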