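import Pool.Agent.Work.MP_92f640_nt.HS.Defs
import Pool.Agent.Work.MP_92f640_nt.HL.VarA
import Pool.Agent.Work.MP_92f640_nt.HL.VarB
import Pool.Agent.Work.MP_92f640_nt.HL.VarC
import Pool.Agent.Work.MP_92f640_nt.HL.TL2
import Pool.Agent.Work.MP_92f640_nt.HL.Ram
import Pool.Agent.Work.BV.SW

/-! # Module TLMain: the main term

`sw_exp`: `∑_{k ≤ y} Λ(k) e(k b/s) = y μ(s)/φ(s) + O(x/(log x)^B)` for `(b,s) = 1`, `s ≤ (log x)^B₁`, `y ≤ x`: classes mod `s` (`psiA`, `psiA_parseval_real` (VarA) or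
characters directly), `siegel_walfisz` for the non-principal characters mod `s` (`psiC_prim'`), `psi_pnt`, `coprime_defect`; `∑_{c coprime} e(c b/s) = μ(s)`
(Ramanujan sum `ram s b`; in HL/Ram).
`tl_main`: `cv (v TM) (FL q) (q m) = ∑_{n₁ + n₂ = q m} v(n₁) TM(n₁) FL(n₂)`, with `n = q m`: `(n₁,q) = 1` iff `(n₂,q) = 1`;
`TM(n - n₂) = (q/φ(q)) ∑_{s ≤ Q, (s,q)=1} (μ(s)/φ(s)) ∑_b e(n b/s) e(-n₂ b/s)`; Abel summation with the weight `v(n - n₂)` of bounded variation and `sw_exp` (with `-b`; `FL q` and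
`Λ` differ by `coprime_defect q x`): main `(q/φ(q)) ∑ μ(s)²/φ(s)² ram(s,n) ∑_{n₁ < n} v(n₁)`; error `≤ (q/φ(q)) ∑_s ∑_b (1/φ(s)) 2 V x/(log x)^B₀`. -/

namespace Pool.Agent.HS

open Finset Pool.Agent.BV Pool.Agent.HL Filter
open scoped ArithmeticFunction.vonMangoldt ArithmeticFunction.Moebius

namespace TLMain

/-- the Ramanujan sum at an argument prime to the modulus -/
lemma ram_coprime (s n : ℕ) (hs : 1 ≤ s) (h : Nat.gcd s n = 1) :
    ram s n = ((μ s : ℤ) : ℂ) := by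
  rw [ram_eq s n hs, h]
  simp

/-- reduction of the frequency mod `s` -/
lemma e_red (s : ℕ) (hs : 1 ≤ s) (b : ℤ) (k : ℕ) :
    e (k * ((b : ℝ) / s)) = e (k * ((((b % s).toNat : ℕ) : ℝ) / s)) := by
  have hs0 : (s : ℝ) ≠ 0 := by positivity
  have h0 : 0 ≤ b % s := Int.emod_nonneg b (by omega)
  have h1 : (((b % s).toNat : ℕ) : ℝ) = ((b % s : ℤ) : ℝ) := by
    have := congrArg (Int.cast : ℤ → ℝ) (Int.toNat_of_nonneg h0)
    rw [← this]
    exact (Int.cast_natCast _).symm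
  have h2 : (b : ℝ) = s * ((b / s : ℤ) : ℝ) + ((b % s : ℤ) : ℝ) := by
    have := Int.mul_ediv_add_emod b s
    exact_mod_cast this.symm
  rw [h1]
  have h3 : (k : ℝ) * ((b : ℝ) / s) =
      k * (((b % s : ℤ) : ℝ) / s) - ((-(k * (b / s)) : ℤ) : ℝ) := by
    calc (k : ℝ) * ((b : ℝ) / s) = k * ((s * ((b / s : ℤ) : ℝ) + ((b % s : ℤ) : ℝ)) / s) := by
          rw [← h2]
      _ = _ := by
          push_cast
          field_simp
          ring
  rw [h3, add_e_sub_int]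

/-- reduction of the argument mod `s` -/
lemma e_mod (s : ℕ) (hs : 1 ≤ s) (a k : ℕ) :
    e (k * ((a : ℝ) / s)) = e (((k % s : ℕ) : ℝ) * ((a : ℝ) / s)) := by
  have hs0 : (s : ℝ) ≠ 0 := by positivity
  have h2 : (k : ℝ) = s * ((k / s : ℕ) : ℝ) + ((k % s : ℕ) : ℝ) := by
    exact_mod_cast (Nat.div_add_mod k s).symm
  obtain ⟨t, ht⟩ : ∃ t : ℕ, t = k / s := ⟨_, rfl⟩
  rw [← ht] at h2
  have h3 : (k : ℝ) * ((a : ℝ) / s) =
      ((k % s : ℕ) : ℝ) * ((a : ℝ) / s) - ((-((t : ℤ) * a) : ℤ) : ℝ) := by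
    calc (k : ℝ) * ((a : ℝ) / s) =
          (s * (t : ℝ) + ((k % s : ℕ) : ℝ)) * ((a : ℝ) / s) := by rw [← h2]
      _ = _ := by
          push_cast
          field_simp
          ring
  rw [h3, add_e_sub_int]

/-- splitting into the residue classes mod `s` -/
lemma class_split (s : ℕ) (hs : 1 ≤ s) (a y : ℕ) :
    ∑ k ∈ (Icc 1 y).filter (fun k => k.Coprime s), ((Λ k : ℝ) : ℂ) * e (k * ((a : ℝ) / s)) =
      ∑ c ∈ (range s).filter (fun c => c.Coprime s),
        e (c * ((a : ℝ) / s)) * (psiA s c y : ℂ) := by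
  rw [← sum_fiberwise_of_maps_to (g := fun k => k % s)
    (t := (range s).filter (fun c => c.Coprime s))]
  · refine sum_congr rfl fun c hc => ?_
    obtain ⟨hc1, hc2⟩ := mem_filter.1 hc
    have hc3 : c < s := mem_range.1 hc1
    have h1 : ((Icc 1 y).filter (fun k => k.Coprime s)).filter (fun k => k % s = c) =
        (Icc 1 y).filter (fun k => k ≡ c [MOD s]) := by
      ext k
      simp only [mem_filter]
      constructor
      · rintro ⟨⟨h, _⟩, h2⟩
        refine ⟨h, ?_⟩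
        unfold Nat.ModEq
        rw [h2, Nat.mod_eq_of_lt hc3]
      · rintro ⟨h, h2⟩
        have h3 : k % s = c := by
          have := h2
          unfold Nat.ModEq at this
          rwa [Nat.mod_eq_of_lt hc3] at this
        refine ⟨⟨h, ?_⟩, h3⟩
        have h4 : (k % s).Coprime s := by rw [h3]; exact hc2
        unfold Nat.Coprime at h4 ⊢
        rw [← h4, ← Nat.gcd_rec, Nat.gcd_comm]
    rw [h1]
    unfold psiA
    push_cast
    rw [mul_sum]
    refine sum_congr rfl fun k hk => ?_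
    obtain ⟨hk1, hk2⟩ := mem_filter.1 hk
    have h3 : k % s = c := by
      have := hk2
      unfold Nat.ModEq at this
      rwa [Nat.mod_eq_of_lt hc3] at this
    rw [e_mod s hs a k, h3, mul_comm]
  · intro k hk
    obtain ⟨hk1, hk2⟩ := mem_filter.1 hk
    refine mem_filter.2 ⟨mem_range.2 (Nat.mod_lt _ (by omega)), ?_⟩
    unfold Nat.Coprime at hk2 ⊢
    rw [← Nat.gcd_rec, Nat.gcd_comm]
    exact hk2

/-- the primes in the coprime classes, twisted by an additive character -/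
lemma class_bound (s : ℕ) [NeZero s] (a y : ℕ) (ha : Nat.gcd s a = 1) :
    ‖∑ k ∈ (Icc 1 y).filter (fun k => k.Coprime s), ((Λ k : ℝ) : ℂ) * e (k * ((a : ℝ) / s)) -
      psiC (1 : DirichletCharacter ℂ s) y / (s.totient : ℂ) * ((μ s : ℤ) : ℂ)‖ ^ 2 ≤
      ∑ χ ∈ (univ : Finset (DirichletCharacter ℂ s)).erase 1, ‖psiC χ y‖ ^ 2 := by
  have hs : 1 ≤ s := Nat.pos_of_ne_zero (NeZero.ne s)
  have hφ : 0 < s.totient := Nat.totient_pos.2 hs
  have hφR : (0 : ℝ) < s.totient := by exact_mod_cast hφ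
  set P : ℂ := psiC (1 : DirichletCharacter ℂ s) y / (s.totient : ℂ) with hP
  have h1 : ((μ s : ℤ) : ℂ) = ∑ c ∈ (range s).filter (fun c => c.Coprime s),
      e (c * ((a : ℝ) / s)) := by
    rw [← ram_coprime s a hs ha]
    unfold ram
    refine sum_congr rfl fun c _ => ?_
    congr 1
    ring
  have h2 : ∑ k ∈ (Icc 1 y).filter (fun k => k.Coprime s), ((Λ k : ℝ) : ℂ) * e (k * ((a : ℝ) / s)) -
      P * ((μ s : ℤ) : ℂ) = ∑ c ∈ (range s).filter (fun c => c.Coprime s),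
        e (c * ((a : ℝ) / s)) * ((psiA s c y : ℂ) - P) := by
    rw [class_split s hs a y, h1, mul_sum, ← sum_sub_distrib]
    refine sum_congr rfl fun c _ => ?_
    ring
  rw [h2]
  have hcard : (((range s).filter (fun c => c.Coprime s)).card : ℝ) = s.totient := by
    rw [Nat.totient_eq_card_coprime]
    congr 2
    refine Finset.filter_congr fun b _ => ?_
    exact Nat.coprime_comm
  have h3 := psiA_parseval s y
  calc ‖∑ c ∈ (range s).filter (fun c => c.Coprime s),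
        e (c * ((a : ℝ) / s)) * ((psiA s c y : ℂ) - P)‖ ^ 2
      ≤ (∑ c ∈ (range s).filter (fun c => c.Coprime s), ‖(psiA s c y : ℂ) - P‖) ^ 2 := by
        gcongr
        refine (norm_sum_le _ _).trans (sum_le_sum fun c _ => ?_)
        rw [norm_mul, add_norm_e, one_mul]
    _ ≤ ((range s).filter (fun c => c.Coprime s)).card *
        ∑ c ∈ (range s).filter (fun c => c.Coprime s), ‖(psiA s c y : ℂ) - P‖ ^ 2 :=
        sq_sum_le_card_mul_sum_sq
    _ = s.totient * (1 / (s.totient : ℝ) *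
        ∑ χ ∈ (univ : Finset (DirichletCharacter ℂ s)).erase 1, ‖psiC χ y‖ ^ 2) := by
        rw [hcard, ← h3]
    _ = _ := by
        field_simp

/-- trivial bound -/
lemma triv (x y : ℕ) (hy : y ≤ x) :
    ∑ k ∈ Icc 1 y, (Λ k : ℝ) ≤ y * Real.log x := by
  have h1 : ∀ k ∈ Icc 1 y, (Λ k : ℝ) ≤ Real.log x := by
    intro k hk
    obtain ⟨hk1, hk2⟩ := mem_Icc.1 hk
    refine ArithmeticFunction.vonMangoldt_le_log.trans ?_
    apply Real.log_le_log (by exact_mod_cast hk1)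
    exact_mod_cast hk2.trans hy
  calc ∑ k ∈ Icc 1 y, (Λ k : ℝ) ≤ ∑ k ∈ Icc 1 y, Real.log x := sum_le_sum h1
    _ = y * Real.log x := by
      rw [sum_const, Nat.card_Icc, nsmul_eq_mul]
      simp

/-- Abel summation -/
lemma abel (w : ℕ → ℝ) (a : ℕ → ℂ) (N : ℕ) :
    ∑ j ∈ Icc 1 N, ((w j : ℝ) : ℂ) * a j = ((w N : ℝ) : ℂ) * ∑ j ∈ Icc 1 N, a j +
      ∑ i ∈ Ico 1 N, ((w i - w (i + 1) : ℝ) : ℂ) * ∑ j ∈ Icc 1 i, a j := by
  induction N with
  | zero => simp
  | succ N ih =>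
    rw [sum_Icc_succ_top (by omega), sum_Icc_succ_top (by omega), ih]
    rcases Nat.eq_zero_or_pos N with h | h
    · subst h
      simp
    · rw [sum_Ico_succ_top h]
      push_cast
      ring

lemma abel_bound (N : ℕ) (w : ℕ → ℝ) (a : ℕ → ℂ) (δ V : ℝ) (hδ : 0 ≤ δ)
    (hA : ∀ u, u ≤ N → ‖∑ j ∈ Icc 1 u, a j‖ ≤ δ) (hw : |w N| ≤ V)
    (hv : ∑ j ∈ Ico 1 N, |w j - w (j + 1)| ≤ V) :
    ‖∑ j ∈ Icc 1 N, ((w j : ℝ) : ℂ) * a j‖ ≤ 2 * V * δ := by
  rw [abel]
  have h1 : ‖((w N : ℝ) : ℂ) * ∑ j ∈ Icc 1 N, a j‖ ≤ V * δ := by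
    rw [norm_mul, Complex.norm_real, Real.norm_eq_abs]
    have := hA N le_rfl
    have h0 : 0 ≤ |w N| := abs_nonneg _
    calc |w N| * ‖∑ j ∈ Icc 1 N, a j‖ ≤ |w N| * δ := by gcongr
      _ ≤ V * δ := by gcongr
  have h2 : ‖∑ i ∈ Ico 1 N, ((w i - w (i + 1) : ℝ) : ℂ) * ∑ j ∈ Icc 1 i, a j‖ ≤ V * δ := by
    refine (norm_sum_le _ _).trans ?_
    calc ∑ i ∈ Ico 1 N, ‖((w i - w (i + 1) : ℝ) : ℂ) * ∑ j ∈ Icc 1 i, a j‖
        ≤ ∑ i ∈ Ico 1 N, |w i - w (i + 1)| * δ := by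
          refine sum_le_sum fun i hi => ?_
          rw [norm_mul, Complex.norm_real, Real.norm_eq_abs]
          have := hA i (mem_Ico.1 hi).2.le
          gcongr
      _ = (∑ i ∈ Ico 1 N, |w i - w (i + 1)|) * δ := by rw [sum_mul]
      _ ≤ V * δ := by gcongr
  calc _ ≤ _ := norm_add_le _ _
    _ ≤ V * δ + V * δ := add_le_add h1 h2
    _ = 2 * V * δ := by ring

/-- variation of the reversed weight -/
lemma var_rev (x n : ℕ) (V : ℝ) (v : ℕ → ℝ) (hv : BVar x V v) (hn : 1 ≤ n) (hnx : n ≤ x) :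
    ∑ j ∈ Ico 1 (n - 1), |v (n - j) - v (n - (j + 1))| ≤ V := by
  have h1 : ∑ j ∈ Ico 1 (n - 1), |v (n - j) - v (n - (j + 1))| =
      ∑ j ∈ Ico 1 (n - 1), (fun i => |v (i + 1) - v i|) (n - 1 - j) := by
    refine sum_congr rfl fun j hj => ?_
    obtain ⟨hj1, hj2⟩ := mem_Ico.1 hj
    simp only
    have h2 : n - 1 - j + 1 = n - j := by omega
    have h3 : n - (j + 1) = n - 1 - j := by omega
    rw [h2, h3]
  rw [h1, sum_Ico_reflect (fun i => |v (i + 1) - v i|) 1 (by omega)]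
  refine le_trans ?_ hv.tv
  refine sum_le_sum_of_subset_of_nonneg ?_ (fun _ _ _ => abs_nonneg _)
  intro i hi
  obtain ⟨hi1, hi2⟩ := mem_Ico.1 hi
  exact mem_range.2 (by omega)

/-- `FL q` and `Λ` differ little -/
lemma FL_diff (q x u : ℕ) (hq : 1 ≤ q) (hqx : q ≤ x) (hx : 3 ≤ x) (hu : u ≤ x) (g : ℕ → ℂ)
    (hg : ∀ j, ‖g j‖ ≤ 1) :
    ‖∑ j ∈ Icc 1 u, FL q j * g j - ∑ j ∈ Icc 1 u, ((Λ j : ℝ) : ℂ) * g j‖ ≤
      2 * (Real.log x) ^ 2 := by
  rw [← sum_sub_distrib]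
  have h1 : ∑ j ∈ Icc 1 u, (FL q j * g j - ((Λ j : ℝ) : ℂ) * g j) =
      ∑ j ∈ (Icc 1 u).filter (fun j => ¬ j.Coprime q),
        (FL q j * g j - ((Λ j : ℝ) : ℂ) * g j) := by
    symm
    apply sum_subset (filter_subset _ _)
    intro j hj hj'
    have h2 : j.Coprime q := by
      by_contra h
      exact hj' (mem_filter.2 ⟨hj, h⟩)
    rw [FL, if_pos h2, sub_self]
  rw [h1]
  refine (norm_sum_le _ _).trans ?_
  refine le_trans ?_ (coprime_defect q x hq hqx hx)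
  calc ∑ j ∈ (Icc 1 u).filter (fun j => ¬ j.Coprime q), ‖FL q j * g j - ((Λ j : ℝ) : ℂ) * g j‖
      ≤ ∑ j ∈ (Icc 1 u).filter (fun j => ¬ j.Coprime q), (Λ j : ℝ) := by
        refine sum_le_sum fun j hj => ?_
        rw [FL, if_neg (mem_filter.1 hj).2, zero_mul, zero_sub, norm_neg, norm_mul,
          Complex.norm_real, Real.norm_of_nonneg ArithmeticFunction.vonMangoldt_nonneg]
        exact mul_le_of_le_one_right ArithmeticFunction.vonMangoldt_nonneg (hg j)
    _ ≤ ∑ j ∈ (Icc 1 x).filter (fun j => ¬ j.Coprime q), (Λ j : ℝ) := by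
        refine sum_le_sum_of_subset_of_nonneg ?_ (fun _ _ _ =>
          ArithmeticFunction.vonMangoldt_nonneg)
        exact filter_subset_filter _ (Icc_subset_Icc_right hu)

/-- the convolution as a sum over the frequencies -/
lemma cv_expand (q Q n : ℕ) (v : ℕ → ℝ) (hqn : q ∣ n) :
    cv (fun n => ((v n : ℝ) : ℂ) * TM q Q n) (FL q) n = ((q : ℂ) / (q.totient : ℂ)) *
      ∑ s ∈ (Icc 1 Q).filter (fun s => s.Coprime q), ((μ s : ℤ) : ℂ) / (s.totient : ℂ) *
        ∑ b ∈ (range s).filter (fun b => b.Coprime s), e (n * ((b : ℝ) / s)) *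
          ∑ j ∈ Icc 1 (n - 1), ((v (n - j) : ℝ) : ℂ) * (FL q j * e (j * (((-(b : ℤ) : ℤ) : ℝ) / s))) := by
  have h0 : cv (fun n => ((v n : ℝ) : ℂ) * TM q Q n) (FL q) n =
      ∑ j ∈ Icc 1 (n - 1), ((v (n - j) : ℝ) : ℂ) * TM q Q (n - j) * FL q j := by
    unfold cv
    have h1 := sum_Ico_reflect (fun k => ((v k : ℝ) : ℂ) * TM q Q k * FL q (n - k)) 1
      (m := n) (n := n) (by omega)
    have h2 : n + 1 - n = 1 := by omega
    have h3 : n + 1 - 1 = n := by omega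
    rw [h2, h3] at h1
    rw [← h1]
    have h4 : Ico 1 n = Icc 1 (n - 1) := by
      ext i
      simp only [mem_Ico, mem_Icc]
      omega
    rw [h4]
    refine sum_congr rfl fun j hj => ?_
    obtain ⟨hj1, hj2⟩ := mem_Icc.1 hj
    have h5 : n - (n - j) = j := by omega
    rw [h5]
  rw [h0, mul_sum]
  have h6 : ∀ j ∈ Icc 1 (n - 1), ((v (n - j) : ℝ) : ℂ) * TM q Q (n - j) * FL q j =
      ∑ s ∈ (Icc 1 Q).filter (fun s => s.Coprime q), ∑ b ∈ (range s).filter (fun b => b.Coprime s),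
        ((q : ℂ) / (q.totient : ℂ)) * (((μ s : ℤ) : ℂ) / (s.totient : ℂ)) *
        (e (n * ((b : ℝ) / s)) * (((v (n - j) : ℝ) : ℂ) *
          (FL q j * e (j * (((-(b : ℤ) : ℤ) : ℝ) / s))))) := by
    intro j hj
    obtain ⟨hj1, hj2⟩ := mem_Icc.1 hj
    by_cases hc : j.Coprime q
    · have hc' : (n - j).Coprime q := by
        obtain ⟨m, rfl⟩ := hqn
        have h7 : q * m = (q * m - j) + j := by omega
        unfold Nat.Coprime at hc ⊢
        have h8 : Nat.gcd (q * m - j) q ∣ j := by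
          have h9 : Nat.gcd (q * m - j) q ∣ q * m := (Nat.gcd_dvd_right _ _).mul_right m
          have h10 : Nat.gcd (q * m - j) q ∣ q * m - j := Nat.gcd_dvd_left _ _
          generalize Nat.gcd (q * m - j) q = d at h9 h10 ⊢
          rw [h7] at h9
          exact (Nat.dvd_add_right h10).1 h9
        have h11 : Nat.gcd (q * m - j) q ∣ Nat.gcd j q := Nat.dvd_gcd h8 (Nat.gcd_dvd_right _ _)
        rw [hc] at h11
        exact Nat.dvd_one.1 h11
      rw [TM, if_pos hc', mul_sum, mul_sum, sum_mul]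
      refine sum_congr rfl fun s _ => ?_
      unfold ram
      rw [mul_sum, mul_sum, mul_sum, sum_mul]
      refine sum_congr rfl fun b _ => ?_
      have h12 : e (((n - j : ℕ) : ℝ) * ((b : ℝ) / s)) =
          e (n * ((b : ℝ) / s)) * e (j * (((-(b : ℤ) : ℤ) : ℝ) / s)) := by
        rw [← add_e_add]
        congr 1
        rw [Nat.cast_sub (by omega)]
        push_cast
        ring
      rw [h12]
      ring
    · have h13 : FL q j = 0 := by rw [FL, if_neg hc]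
      rw [h13, mul_zero]
      symm
      refine sum_eq_zero fun s _ => sum_eq_zero fun b _ => ?_
      ring
  rw [sum_congr rfl h6, sum_comm]
  refine sum_congr rfl fun s _ => ?_
  rw [sum_comm, ← mul_assoc, mul_sum]
  refine sum_congr rfl fun b _ => ?_
  rw [← mul_sum, ← mul_sum]

/-- one frequency -/
lemma one_freq (x q n s b : ℕ) (v : ℕ → ℝ) (V δ : ℝ) (hv : BVar x V v) (hn : 1 ≤ n) (hnx : n ≤ x)
    (hq : 1 ≤ q) (hqx : q ≤ x) (hx : 3 ≤ x) (hδ : 0 ≤ δ)
    (h : ∀ y : ℕ, y ≤ x → ‖∑ k ∈ Icc 1 y, ((Λ k : ℝ) : ℂ) * e (k * (((-(b : ℤ) : ℤ) : ℝ) / s)) -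
      (y : ℂ) * ((μ s : ℤ) : ℂ) / (s.totient : ℂ)‖ ≤ δ) :
    ‖∑ j ∈ Icc 1 (n - 1), ((v (n - j) : ℝ) : ℂ) * (FL q j * e (j * (((-(b : ℤ) : ℤ) : ℝ) / s))) -
      ((μ s : ℤ) : ℂ) / (s.totient : ℂ) * ∑ j ∈ Icc 1 (n - 1), ((v (n - j) : ℝ) : ℂ)‖ ≤
      2 * V * (2 * (Real.log x) ^ 2 + δ) := by
  have h1 : ∑ j ∈ Icc 1 (n - 1), ((v (n - j) : ℝ) : ℂ) *
      (FL q j * e (j * (((-(b : ℤ) : ℤ) : ℝ) / s))) -
      ((μ s : ℤ) : ℂ) / (s.totient : ℂ) * ∑ j ∈ Icc 1 (n - 1), ((v (n - j) : ℝ) : ℂ) =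
      ∑ j ∈ Icc 1 (n - 1), (((fun i => v (n - i)) j : ℝ) : ℂ) *
        (FL q j * e (j * (((-(b : ℤ) : ℤ) : ℝ) / s)) - ((μ s : ℤ) : ℂ) / (s.totient : ℂ)) := by
    rw [mul_sum, ← sum_sub_distrib]
    refine sum_congr rfl fun j _ => ?_
    ring
  rw [h1]
  refine abel_bound (n - 1) (fun i => v (n - i)) _ _ V (by positivity) ?_ (hv.bd _)
    (var_rev x n V v hv hn hnx)
  intro u hu
  have hux : u ≤ x := by omega
  have h2 := FL_diff q x u hq hqx hx hux (fun j => e (j * (((-(b : ℤ) : ℤ) : ℝ) / s)))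
    (fun j => (add_norm_e _).le)
  have h3 := h u hux
  have h4 : ∑ j ∈ Icc 1 u, (FL q j * e (j * (((-(b : ℤ) : ℤ) : ℝ) / s)) -
      ((μ s : ℤ) : ℂ) / (s.totient : ℂ)) =
      (∑ j ∈ Icc 1 u, FL q j * e (j * (((-(b : ℤ) : ℤ) : ℝ) / s)) -
        ∑ j ∈ Icc 1 u, ((Λ j : ℝ) : ℂ) * e (j * (((-(b : ℤ) : ℤ) : ℝ) / s))) +
      (∑ k ∈ Icc 1 u, ((Λ k : ℝ) : ℂ) * e (k * (((-(b : ℤ) : ℤ) : ℝ) / s)) -
      (u : ℂ) * ((μ s : ℤ) : ℂ) / (s.totient : ℂ)) := by
    rw [sum_sub_distrib, sum_const, Nat.card_Icc, nsmul_eq_mul]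
    simp only [Nat.add_sub_cancel]
    ring
  rw [h4]
  exact (norm_add_le _ _).trans (add_le_add h2 h3)

end TLMain

open TLMain

theorem sw_exp (B₁ B : ℕ) : ∃ x₁ : ℕ, ∀ x : ℕ, x₁ ≤ x → ∀ (s : ℕ) (b : ℤ), 1 ≤ s →
    (s : ℝ) ≤ (Real.log x) ^ B₁ → IsCoprime b (s : ℤ) → ∀ y : ℕ, y ≤ x →
    ‖∑ k ∈ Icc 1 y, ((Λ k : ℝ) : ℂ) * e (k * ((b : ℝ) / s)) -
      (y : ℂ) * ((μ s : ℤ) : ℂ) / (s.totient : ℂ)‖ ≤ (x : ℝ) / (Real.log x) ^ B := by
  obtain ⟨x₂, hsmall⟩ := var_small B₁ (2 * B + 2)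
  obtain ⟨C, hC, hPNT⟩ := psi_pnt (B + 2)
  have hev : ∀ᶠ x : ℕ in atTop, ∀ (s : ℕ) (b : ℤ), 1 ≤ s →
    (s : ℝ) ≤ (Real.log x) ^ B₁ → IsCoprime b (s : ℤ) → ∀ y : ℕ, y ≤ x →
    ‖∑ k ∈ Icc 1 y, ((Λ k : ℝ) : ℂ) * e (k * ((b : ℝ) / s)) -
      (y : ℂ) * ((μ s : ℤ) : ℂ) / (s.totient : ℂ)‖ ≤ (x : ℝ) / (Real.log x) ^ B := by
    filter_upwards [eventually_ge_atTop x₂, eventually_ge_atTop 16, evt_log 3,
      evt_log (C * 2 ^ (B + 2)), evt_pow 4 (B + 3) 1 (by norm_num),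
      evt_pow 1 B₁ (1 / 2) (by norm_num),
      evt_pow 1 (2 * B + 2) (1 / 2) (by norm_num)] with x hx2 hx16' hL3 hLC hP1 hP2 hP3
    intro s b hs hsL hb y hy
    set L : ℝ := Real.log x with hL
    have hx16 : (16 : ℝ) ≤ x := by exact_mod_cast hx16'
    have hx0 : (0 : ℝ) < x := by linarith
    have hL0 : 0 < L := by linarith
    rw [Real.rpow_one] at hP1
    rw [one_mul] at hP2 hP3
    have hs0 : NeZero s := ⟨by omega⟩
    have hφ : 0 < s.totient := Nat.totient_pos.2 hs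
    have hφR : (1 : ℝ) ≤ s.totient := by exact_mod_cast hφ
    have hμ : ‖((μ s : ℤ) : ℂ)‖ ≤ 1 := by
      rw [Complex.norm_intCast]
      exact_mod_cast ArithmeticFunction.abs_moebius_le_one
    by_cases hxy : (x : ℝ) / L ^ (2 * B + 2) ≤ y
    · -- the main case
      have hsq : (x : ℝ) ^ (1 / 2 : ℝ) * (x : ℝ) ^ (1 / 2 : ℝ) = x := by
        rw [← Real.rpow_add hx0]; norm_num
      have hs0' : 0 < (x : ℝ) ^ (1 / 2 : ℝ) := by positivity
      have hu1 : (x : ℝ) ^ (1 / 2 : ℝ) ≤ y := by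
        refine le_trans ?_ hxy
        rw [le_div_iff₀ (by positivity)]
        calc (x : ℝ) ^ (1 / 2 : ℝ) * L ^ (2 * B + 2) ≤
              (x : ℝ) ^ (1 / 2 : ℝ) * (x : ℝ) ^ (1 / 2 : ℝ) := by gcongr
          _ = x := hsq
      have hu4 : (4 : ℝ) ≤ (x : ℝ) ^ (1 / 2 : ℝ) := by
        have h16 : (16 : ℝ) ^ (1 / 2 : ℝ) = 4 := by
          rw [show (16 : ℝ) = 4 ^ (2 : ℝ) by norm_num, ← Real.rpow_mul (by norm_num)]
          norm_num
        rw [← h16]
        exact Real.rpow_le_rpow (by norm_num) hx16 (by norm_num)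
      have hu3 : 3 ≤ y := by
        have : (3 : ℝ) ≤ y := by linarith
        exact_mod_cast this
      have hu0 : (0 : ℝ) < y := by linarith
      have hsy : s ≤ y := by exact_mod_cast (hsL.trans hP2).trans hu1
      have hsx : s ≤ x := hsy.trans hy
      have hlu : L / 2 ≤ Real.log y := by
        have h1 : Real.log ((x : ℝ) ^ (1 / 2 : ℝ)) = L / 2 := by
          rw [Real.log_rpow hx0]; ring
        rw [← h1]
        exact Real.log_le_log hs0' hu1
      -- reduce the frequency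
      set a : ℕ := (b % s).toNat with ha
      have hga : Nat.gcd s a = 1 := by
        have h0 : 0 ≤ b % s := Int.emod_nonneg b (by omega)
        have h1 : Int.gcd b s = 1 := Int.isCoprime_iff_gcd_eq_one.1 hb
        have h2 : Int.gcd (s : ℤ) (a : ℤ) = 1 := by
          rw [ha, Int.toNat_of_nonneg h0, ← h1, Int.gcd_comm (s : ℤ) (b % s)]
          exact Int.gcd_emod b s
        rwa [Int.gcd_natCast_natCast] at h2
      have hred : ∀ k : ℕ, e (k * ((b : ℝ) / s)) = e (k * ((a : ℝ) / s)) :=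
        fun k => e_red s hs b k
      simp only [hred]
      set P : ℂ := psiC (1 : DirichletCharacter ℂ s) y with hP
      have h1 := class_bound s a y hga
      have h2 := hsmall x hx2 s hsx y hy hxy (univ.erase 1)
        (fun χ hχ => (mem_erase.1 hχ).1) (fun χ _ => by
          have h3 : χ.conductor ≤ s := Nat.le_of_dvd hs χ.conductor_dvd_level
          have h4 : (χ.conductor : ℝ) ≤ s := by exact_mod_cast h3
          exact h4.trans hsL)
      have h3 : ‖∑ k ∈ (Icc 1 y).filter (fun k => k.Coprime s),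
          ((Λ k : ℝ) : ℂ) * e (k * ((a : ℝ) / s)) - P / (s.totient : ℂ) * ((μ s : ℤ) : ℂ)‖ ≤
          x / L ^ (B + 1) := by
        apply le_of_sq_le_sq _ (by positivity)
        refine (h1.trans h2).trans (le_of_eq ?_)
        rw [div_pow]
        congr 1
        ring
      -- the terms not coprime to `s`
      have h4 : ‖∑ k ∈ Icc 1 y, ((Λ k : ℝ) : ℂ) * e (k * ((a : ℝ) / s)) -
          ∑ k ∈ (Icc 1 y).filter (fun k => k.Coprime s),
          ((Λ k : ℝ) : ℂ) * e (k * ((a : ℝ) / s))‖ ≤ 2 * L ^ 2 := by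
        rw [← sum_filter_add_sum_filter_not (Icc 1 y) (fun k => k.Coprime s), add_sub_cancel_left]
        refine (norm_sum_le _ _).trans ?_
        refine le_trans ?_ (coprime_defect s x hs hsx (by omega))
        calc ∑ n ∈ (Icc 1 y).filter (fun n => ¬ n.Coprime s), ‖((Λ n : ℝ) : ℂ) *
              e (n * ((a : ℝ) / s))‖
            = ∑ n ∈ (Icc 1 y).filter (fun n => ¬ n.Coprime s), (Λ n : ℝ) := by
              refine sum_congr rfl fun n _ => ?_
              rw [norm_mul, add_norm_e, mul_one, Complex.norm_real,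
                Real.norm_of_nonneg ArithmeticFunction.vonMangoldt_nonneg]
          _ ≤ ∑ n ∈ (Icc 1 x).filter (fun n => ¬ n.Coprime s), (Λ n : ℝ) := by
              refine sum_le_sum_of_subset_of_nonneg ?_ (fun _ _ _ =>
                ArithmeticFunction.vonMangoldt_nonneg)
              exact filter_subset_filter _ (Icc_subset_Icc_right hy)
      -- the main term
      have h5 : ‖P - y‖ ≤ 2 * L ^ 2 + x / L ^ (B + 1) := by
        have h6 := psiC_one s y hsy hu3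
        have h7 := hPNT y (by omega)
        have h8 : ‖((psi y : ℝ) : ℂ) - y‖ ≤ x / L ^ (B + 1) := by
          have h9 : ((psi y : ℝ) : ℂ) - y = ((psi y - y : ℝ) : ℂ) := by push_cast; ring
          rw [h9, Complex.norm_real, Real.norm_eq_abs]
          refine h7.trans ?_
          have h4 : (L / 2) ^ (B + 2) ≤ (Real.log y) ^ (B + 2) := by gcongr
          have h5 : (y : ℝ) ≤ x := by exact_mod_cast hy
          calc C * y / (Real.log y) ^ (B + 2) ≤ C * x / (L / 2) ^ (B + 2) := by gcongr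
            _ = C * 2 ^ (B + 2) * x / L ^ (B + 2) := by
              rw [div_pow]
              field_simp
            _ ≤ L * x / L ^ (B + 2) := by gcongr
            _ = x / L ^ (B + 1) := by
              rw [pow_succ L (B + 1)]
              field_simp
        have h10 : (Real.log y) ^ 2 ≤ L ^ 2 := by
          have h5 : (y : ℝ) ≤ x := by exact_mod_cast hy
          have h11 : 0 ≤ Real.log y := by linarith
          gcongr
          exact Real.log_le_log hu0 h5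
        calc ‖P - y‖ = ‖(P - psi y) + (((psi y : ℝ) : ℂ) - y)‖ := by congr 1; ring
          _ ≤ ‖P - psi y‖ + ‖((psi y : ℝ) : ℂ) - y‖ := norm_add_le _ _
          _ ≤ 2 * (Real.log y) ^ 2 + x / L ^ (B + 1) := add_le_add h6 h8
          _ ≤ 2 * L ^ 2 + x / L ^ (B + 1) := by linarith
      have h6 : ‖P / (s.totient : ℂ) * ((μ s : ℤ) : ℂ) -
          (y : ℂ) * ((μ s : ℤ) : ℂ) / (s.totient : ℂ)‖ ≤ 2 * L ^ 2 + x / L ^ (B + 1) := by
        have h7 : P / (s.totient : ℂ) * ((μ s : ℤ) : ℂ) -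
          (y : ℂ) * ((μ s : ℤ) : ℂ) / (s.totient : ℂ) =
            (P - y) * (((μ s : ℤ) : ℂ) / (s.totient : ℂ)) := by ring
        rw [h7, norm_mul]
        have h8 : ‖((μ s : ℤ) : ℂ) / (s.totient : ℂ)‖ ≤ 1 := by
          rw [norm_div, Complex.norm_natCast]
          rw [div_le_one (by linarith)]
          exact hμ.trans hφR
        calc ‖P - y‖ * ‖((μ s : ℤ) : ℂ) / (s.totient : ℂ)‖ ≤ ‖P - y‖ * 1 := by gcongr
          _ ≤ _ := by rw [mul_one]; exact h5
      have h7 : 4 * L ^ 2 ≤ x / L ^ (B + 1) := by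
        rw [le_div_iff₀ (by positivity)]
        calc 4 * L ^ 2 * L ^ (B + 1) = 4 * L ^ (B + 3) := by ring
          _ ≤ x := hP1
      calc ‖∑ k ∈ Icc 1 y, ((Λ k : ℝ) : ℂ) * e (k * ((a : ℝ) / s)) -
            (y : ℂ) * ((μ s : ℤ) : ℂ) / (s.totient : ℂ)‖
          = ‖(∑ k ∈ Icc 1 y, ((Λ k : ℝ) : ℂ) * e (k * ((a : ℝ) / s)) -
          ∑ k ∈ (Icc 1 y).filter (fun k => k.Coprime s),
          ((Λ k : ℝ) : ℂ) * e (k * ((a : ℝ) / s))) + (∑ k ∈ (Icc 1 y).filter
            (fun k => k.Coprime s), ((Λ k : ℝ) : ℂ) * e (k * ((a : ℝ) / s)) -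
              P / (s.totient : ℂ) * ((μ s : ℤ) : ℂ)) + (P / (s.totient : ℂ) * ((μ s : ℤ) : ℂ) -
          (y : ℂ) * ((μ s : ℤ) : ℂ) / (s.totient : ℂ))‖ := by
            congr 1; ring
        _ ≤ 2 * L ^ 2 + x / L ^ (B + 1) + (2 * L ^ 2 + x / L ^ (B + 1)) :=
            (norm_add₃_le).trans (add_le_add (add_le_add h4 h3) h6)
        _ = 4 * L ^ 2 + 2 * (x / L ^ (B + 1)) := by ring
        _ ≤ 3 * (x / L ^ (B + 1)) := by linarith
        _ ≤ L * (x / L ^ (B + 1)) := by gcongr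
        _ = x / L ^ B := by
            rw [pow_succ L B]
            field_simp
    · -- the trivial case
      rw [not_le] at hxy
      have h1 : ‖∑ k ∈ Icc 1 y, ((Λ k : ℝ) : ℂ) * e (k * ((b : ℝ) / s))‖ ≤ y * L := by
        refine (norm_sum_le _ _).trans ?_
        refine le_trans (le_of_eq ?_) (triv x y hy)
        refine sum_congr rfl fun n _ => ?_
        rw [norm_mul, add_norm_e, mul_one, Complex.norm_real,
          Real.norm_of_nonneg ArithmeticFunction.vonMangoldt_nonneg]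
      have h2 : ‖(y : ℂ) * ((μ s : ℤ) : ℂ) / (s.totient : ℂ)‖ ≤ y := by
        rw [norm_div, norm_mul, Complex.norm_natCast, Complex.norm_natCast]
        rw [div_le_iff₀ (by linarith)]
        have hy0 : (0 : ℝ) ≤ y := by positivity
        calc (y : ℝ) * ‖((μ s : ℤ) : ℂ)‖ ≤ y * 1 := by gcongr
          _ ≤ y * s.totient := by gcongr
      have h3 : (y : ℝ) ≤ x / L ^ (B + 2) := by
        refine hxy.le.trans ?_
        gcongr
        · linarith
        · omega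
      calc _ ≤ ‖∑ k ∈ Icc 1 y, ((Λ k : ℝ) : ℂ) * e (k * ((b : ℝ) / s))‖ +
            ‖(y : ℂ) * ((μ s : ℤ) : ℂ) / (s.totient : ℂ)‖ := norm_sub_le _ _
        _ ≤ y * L + y := add_le_add h1 h2
        _ = y * (L + 1) := by ring
        _ ≤ x / L ^ (B + 2) * (L ^ 2) := by
            gcongr
            nlinarith
        _ = x / L ^ B := by
            rw [pow_add L B 2]
            field_simp
  obtain ⟨x₀, hx₀⟩ := eventually_atTop.1 hev
  exact ⟨x₀, hx₀⟩

theorem tl_main (B₁ B : ℕ) (V : ℝ) (hV : 0 < V) : ∃ x₁ : ℕ, ∀ x : ℕ, x₁ ≤ x →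
    ∀ (q Q m : ℕ) (v : ℕ → ℝ), 1 ≤ q → q ≤ x → 1 ≤ Q → (Q : ℝ) ≤ (Real.log x) ^ B₁ → BVar x V v →
    1 ≤ m → q * m ≤ x →
    ‖cv (fun n => ((v n : ℝ) : ℂ) * TM q Q n) (FL q) (q * m) -
      (((q : ℝ) / q.totient * Sg q Q m * ∑ n ∈ Ico 1 (q * m), v n : ℝ) : ℂ)‖ ≤
      (x : ℝ) / (Real.log x) ^ B := by
  obtain ⟨x₂, hsw⟩ := sw_exp B₁ (B + B₁ + 3)
  have hev : ∀ᶠ x : ℕ in atTop,
    ∀ (q Q m : ℕ) (v : ℕ → ℝ), 1 ≤ q → q ≤ x → 1 ≤ Q → (Q : ℝ) ≤ (Real.log x) ^ B₁ → BVar x V v →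
    1 ≤ m → q * m ≤ x →
    ‖cv (fun n => ((v n : ℝ) : ℂ) * TM q Q n) (FL q) (q * m) -
      (((q : ℝ) / q.totient * Sg q Q m * ∑ n ∈ Ico 1 (q * m), v n : ℝ) : ℂ)‖ ≤
      (x : ℝ) / (Real.log x) ^ B := by
    filter_upwards [eventually_ge_atTop x₂, eventually_ge_atTop 3, evt_log 1,
      evt_log (16 * V), evt_pow 2 (B + B₁ + 5) 1 (by norm_num)] with x hx2 hx3 hL1 hLV hP1
    intro q Q m v hq hqx hQ hQL hv hm hqm
    set L : ℝ := Real.log x with hL
    have hL0 : 0 < L := by linarith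
    have hx0 : (0 : ℝ) < x := by exact_mod_cast (by omega : 0 < x)
    rw [Real.rpow_one] at hP1
    set n : ℕ := q * m with hn
    have hn1 : 1 ≤ n := Nat.mul_pos hq hm
    set δ : ℝ := x / L ^ (B + B₁ + 3) with hδ
    have hδ0 : 0 ≤ δ := by positivity
    set W : ℂ := ∑ j ∈ Icc 1 (n - 1), ((v (n - j) : ℝ) : ℂ) with hW
    have hWeq : W = ((∑ k ∈ Ico 1 n, v k : ℝ) : ℂ) := by
      have h1 := sum_Ico_reflect v 1 (m := n) (n := n) (by omega)
      have h2 : n + 1 - n = 1 := by omega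
      have h3 : n + 1 - 1 = n := by omega
      rw [h2, h3] at h1
      have h4 : Ico 1 n = Icc 1 (n - 1) := by
        ext i
        simp only [mem_Ico, mem_Icc]
        omega
      rw [← h1, h4, hW]
      push_cast
      rfl
    rw [cv_expand q Q n v (Dvd.intro m rfl)]
    -- the main term
    have hmain : (((q : ℝ) / q.totient * Sg q Q m * ∑ k ∈ Ico 1 n, v k : ℝ) : ℂ) =
        ((q : ℂ) / (q.totient : ℂ)) *
      ∑ s ∈ (Icc 1 Q).filter (fun s => s.Coprime q), ((μ s : ℤ) : ℂ) / (s.totient : ℂ) *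
        ∑ b ∈ (range s).filter (fun b => b.Coprime s), e (n * ((b : ℝ) / s)) *
          (((μ s : ℤ) : ℂ) / (s.totient : ℂ) * W) := by
      have h1 : ((Sg q Q m : ℝ) : ℂ) = ∑ s ∈ (Icc 1 Q).filter (fun s => s.Coprime q),
          ((μ s : ℤ) : ℂ) ^ 2 / (s.totient : ℂ) ^ 2 * ram s n := by
        unfold Sg
        push_cast
        refine sum_congr rfl fun s _ => ?_
        by_cases hsq : Squarefree s
        · have h2 : ram s n = ((ram s n).re : ℂ) := by
            apply Complex.ext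
            · simp
            · rw [ram_im s n hsq]
              simp
          rw [h2]
          simp only [Complex.ofReal_re, hn]
        · rw [ArithmeticFunction.moebius_eq_zero_of_not_squarefree hsq]
          simp
      rw [Complex.ofReal_mul, Complex.ofReal_mul, h1, ← hWeq]
      push_cast
      rw [mul_assoc, sum_mul]
      congr 1
      refine sum_congr rfl fun s _ => ?_
      rw [← sum_mul]
      unfold ram
      ring
    rw [hmain, ← mul_sub, ← sum_sub_distrib]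
    have hterm : ∀ s ∈ (Icc 1 Q).filter (fun s => s.Coprime q),
        ‖((μ s : ℤ) : ℂ) / (s.totient : ℂ) *
        ∑ b ∈ (range s).filter (fun b => b.Coprime s), e (n * ((b : ℝ) / s)) *
          ∑ j ∈ Icc 1 (n - 1), ((v (n - j) : ℝ) : ℂ) *
            (FL q j * e (j * (((-(b : ℤ) : ℤ) : ℝ) / s))) -
        ((μ s : ℤ) : ℂ) / (s.totient : ℂ) *
        ∑ b ∈ (range s).filter (fun b => b.Coprime s), e (n * ((b : ℝ) / s)) *
          (((μ s : ℤ) : ℂ) / (s.totient : ℂ) * W)‖ ≤ 2 * V * (2 * L ^ 2 + δ) := by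
      intro s hs
      obtain ⟨hs1, _⟩ := mem_filter.1 hs
      obtain ⟨hs2, hs3⟩ := mem_Icc.1 hs1
      have hφ : 0 < s.totient := Nat.totient_pos.2 hs2
      have hφR : (0 : ℝ) < s.totient := by exact_mod_cast hφ
      have hsL : (s : ℝ) ≤ L ^ B₁ := le_trans (by exact_mod_cast hs3) hQL
      have hμ : ‖((μ s : ℤ) : ℂ)‖ ≤ 1 := by
        rw [Complex.norm_intCast]
        exact_mod_cast ArithmeticFunction.abs_moebius_le_one
      have hcard : (((range s).filter (fun c => c.Coprime s)).card : ℝ) = s.totient := by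
        rw [Nat.totient_eq_card_coprime]
        congr 2
        refine Finset.filter_congr fun b _ => ?_
        exact Nat.coprime_comm
      rw [← mul_sub, ← sum_sub_distrib, norm_mul]
      have h1 : ‖((μ s : ℤ) : ℂ) / (s.totient : ℂ)‖ ≤ 1 / s.totient := by
        rw [norm_div, Complex.norm_natCast]
        gcongr
      have h2 : ‖∑ b ∈ (range s).filter (fun b => b.Coprime s), (e (n * ((b : ℝ) / s)) *
          ∑ j ∈ Icc 1 (n - 1), ((v (n - j) : ℝ) : ℂ) *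
            (FL q j * e (j * (((-(b : ℤ) : ℤ) : ℝ) / s))) - e (n * ((b : ℝ) / s)) *
          (((μ s : ℤ) : ℂ) / (s.totient : ℂ) * W))‖ ≤
          s.totient * (2 * V * (2 * L ^ 2 + δ)) := by
        refine (norm_sum_le _ _).trans ?_
        calc _ ≤ ∑ b ∈ (range s).filter (fun b => b.Coprime s), 2 * V * (2 * L ^ 2 + δ) := by
              refine sum_le_sum fun b hb => ?_
              rw [← mul_sub, norm_mul, add_norm_e, one_mul]
              have hb2 : b.Coprime s := (mem_filter.1 hb).2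
              have hcop : IsCoprime (-(b : ℤ)) (s : ℤ) :=
                (Nat.isCoprime_iff_coprime.2 hb2).neg_left
              exact one_freq x q n s b v V δ hv hn1 hqm hq hqx hx3 hδ0
                (fun y hy => hsw x hx2 s (-(b : ℤ)) hs2 hsL hcop y hy)
          _ = _ := by rw [sum_const, nsmul_eq_mul, hcard]
      calc _ ≤ 1 / (s.totient : ℝ) * (s.totient * (2 * V * (2 * L ^ 2 + δ))) := by
            gcongr
        _ = _ := by field_simp
    have hφq : 0 < q.totient := Nat.totient_pos.2 hq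
    have hratio : (q : ℝ) / q.totient ≤ 4 * L := by
      refine (ratio_le q hq).trans ?_
      have h1 : Real.log q ≤ L := by
        apply Real.log_le_log (by exact_mod_cast hq)
        exact_mod_cast hqx
      linarith
    rw [norm_mul]
    have hn2 : ‖(q : ℂ) / (q.totient : ℂ)‖ = (q : ℝ) / q.totient := by
      rw [norm_div, Complex.norm_natCast, Complex.norm_natCast]
    rw [hn2]
    have hsum : ‖∑ s ∈ (Icc 1 Q).filter (fun s => s.Coprime q), (((μ s : ℤ) : ℂ) / (s.totient : ℂ) *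
        ∑ b ∈ (range s).filter (fun b => b.Coprime s), e (n * ((b : ℝ) / s)) *
          ∑ j ∈ Icc 1 (n - 1), ((v (n - j) : ℝ) : ℂ) *
            (FL q j * e (j * (((-(b : ℤ) : ℤ) : ℝ) / s))) -
        ((μ s : ℤ) : ℂ) / (s.totient : ℂ) *
        ∑ b ∈ (range s).filter (fun b => b.Coprime s), e (n * ((b : ℝ) / s)) *
          (((μ s : ℤ) : ℂ) / (s.totient : ℂ) * W))‖ ≤ L ^ B₁ * (2 * V * (2 * L ^ 2 + δ)) := by
      refine (norm_sum_le _ _).trans ((sum_le_sum hterm).trans ?_)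
      rw [sum_const, nsmul_eq_mul]
      gcongr
      have h1 : (((Icc 1 Q).filter (fun s => s.Coprime q)).card : ℝ) ≤ Q := by
        have : ((Icc 1 Q).filter (fun s => s.Coprime q)).card ≤ (Icc 1 Q).card :=
          card_filter_le _ _
        rw [Nat.card_Icc] at this
        exact_mod_cast (by omega : ((Icc 1 Q).filter (fun s => s.Coprime q)).card ≤ Q)
      exact h1.trans hQL
    have h2L : 2 * L ^ 2 ≤ δ := by
      rw [hδ, le_div_iff₀ (by positivity)]
      calc 2 * L ^ 2 * L ^ (B + B₁ + 3) = 2 * L ^ (B + B₁ + 5) := by ring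
        _ ≤ x := hP1
    calc _ ≤ 4 * L * (L ^ B₁ * (2 * V * (2 * L ^ 2 + δ))) := by gcongr
      _ ≤ 4 * L * (L ^ B₁ * (2 * V * (δ + δ))) := by gcongr
      _ = 16 * V * (L ^ (B₁ + 1) * δ) := by ring
      _ ≤ L * (L ^ (B₁ + 1) * δ) := by gcongr
      _ = L ^ (B₁ + 2) * (x / L ^ (B + B₁ + 3)) := by rw [hδ]; ring
      _ = x / L ^ (B + 1) := by
          have h1 : L ^ (B + B₁ + 3) = L ^ (B₁ + 2) * L ^ (B + 1) := by ring
          rw [h1]
          field_simp
      _ ≤ x / L ^ B := by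
          gcongr
          omega
  obtain ⟨x₀, hx₀⟩ := eventually_atTop.1 hev
  exact ⟨x₀, hx₀⟩

end Pool.Agent.HS
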