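import Pool.Agent.Work.MP_92f640_nt.HS.SupF
import Pool.Agent.Work.MP_92f640_nt.HS.BadF
import Pool.Agent.Work.MP_92f640_nt.HS.TLMain
import Pool.Agent.Work.MP_92f640_nt.HS.Dens
import Pool.Agent.Work.MP_92f640_nt.HL.Final

/-! # Module FinalS

`n = q m`, `x < 2 n ≤ 2 x`: `g(n) log x ≥ ∑_{n₁+n₂=n} af(n₁) Λ(n₂)[(n₁, q) = 1] - 4 √x (log x)²` (`aa_le`, prime powers `n₂`; `(n₁,q) = 1` iff `(n₂,q) = 1`; `af(n₁) ≠ 0` only for `n₁ > x/8 ≥ 2`);
`cv (FA q af) (FL q) = cv (v TM) (FL q) + E`, `∑_m ‖E(q m)‖² ≤ sup VV * ∑ ‖FL‖²` (`circle`, `sup_F`), so `‖E‖ ≤ c₀ x/(100 L)` for all but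
`x/(q L^K)` of the `m`; `tl_main` with `B = 2`; `sing`: `(q/φ(q)) Sg ≥ 4/5` for all but few `m`; `∑_{n₁ < n} v ≥ ∑_{n₁ < n} af - x/L^BD ≥ c₀ (n-1)/L - x/L^BD` (`VLow`).
So `g(n) log x ≥ (4/5) c₀ (n-1)/L - c₀ x/(50 L) ≥ c₀ n/(2 L)`; `Bad (c₀/4)` fails. -/

namespace Pool.Agent.HS

open Finset Pool.Agent.BV Pool.Agent.HL
open scoped ArithmeticFunction.vonMangoldt ArithmeticFunction.Moebius

theorem count_bigS (q x B'' : ℕ) (h : ℕ → ℂ) (c : ℝ) (hc : 0 < c) (hx : 3 ≤ x) (hq : 1 ≤ q)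
    (hV : ∀ α, VV q x h α ≤ (x : ℝ) ^ 2 / (q * (Real.log x) ^ B'')) :
    (((Icc 1 (x / q)).filter (fun m => c * x / Real.log x ≤ ‖cv h (FL q) (q * m)‖)).card : ℝ) ≤
      x * (Real.log x) ^ 4 / (c ^ 2 * (q * (Real.log x) ^ B'')) := by
  have hL := one_le_log hx
  have hx0 : (0 : ℝ) < x := by exact_mod_cast (by omega : 0 < x)
  have hq0 : (0 : ℝ) < q := by exact_mod_cast hq
  set L := Real.log x with hLdef
  have hL0 : 0 < L := by linarith
  have h1 := circle q x hq h (FL q) _ hV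
  have hF := fl_sq_sum_le q x
  set S := (Icc 1 (x / q)).filter (fun m => c * x / L ≤ ‖cv h (FL q) (q * m)‖) with hS
  have h2 : (S.card : ℝ) * (c * x / L) ^ 2 ≤ (x : ℝ) ^ 2 / (q * L ^ B'') * (x * L ^ 2) := by
    calc (S.card : ℝ) * (c * x / L) ^ 2 = ∑ m ∈ S, (c * x / L) ^ 2 := by
          rw [sum_const, nsmul_eq_mul]
      _ ≤ ∑ m ∈ S, ‖cv h (FL q) (q * m)‖ ^ 2 := by
          apply sum_le_sum
          intro m hm
          rw [hS, mem_filter] at hm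
          exact pow_le_pow_left₀ (by positivity) hm.2 2
      _ ≤ ∑ m ∈ Icc 1 (x / q), ‖cv h (FL q) (q * m)‖ ^ 2 := by
          apply sum_le_sum_of_subset_of_nonneg (filter_subset _ _)
          intro m _ _
          positivity
      _ ≤ _ := h1
      _ ≤ _ := mul_le_mul_of_nonneg_left hF (by positivity)
  have h3 : (S.card : ℝ) ≤ (x : ℝ) ^ 2 / (q * L ^ B'') * (x * L ^ 2) / (c * x / L) ^ 2 := by
    rw [le_div_iff₀ (by positivity)]
    exact h2
  refine h3.trans (le_of_eq ?_)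
  field_simp

theorem cut_le (x : ℕ) (f : ℕ → ℝ) (k : ℕ) (h8 : 8 ≤ x)
    (hf : ∀ n : ℕ, x / 8 < n → n ≤ x → f n ≤ if n.Prime then 1 else 0) :
    cut x f k ≤ if k.Prime then 1 else 0 := by
  unfold cut
  split_ifs with h1 h2 h2
  · have := hf k h1.1 h1.2
    rwa [if_pos h2] at this
  · have := hf k h1.1 h1.2
    rwa [if_neg h2] at this
  · norm_num
  · exact le_rfl

open Pool.Agent.Work.MP_92f640_nt in
theorem cvS_re_le (q n x : ℕ) (f : ℕ → ℝ) (hn : 3 ≤ n) (h8 : 8 ≤ x)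
    (hf : ∀ n : ℕ, x / 8 < n → n ≤ x → f n ≤ if n.Prime then 1 else 0) :
    (cv (FA q (cut x f)) (FL q) n).re ≤ Real.log n * goldbachCount n +
      2 * Real.sqrt n * Real.log n := by
  have hL : 0 ≤ Real.log n := Real.log_nonneg (by exact_mod_cast (by omega : 1 ≤ n))
  have h2 : ∀ k ∈ Ico 1 n, (FA q (cut x f) k * FL q (n - k)).re ≤
      (if k.Prime ∧ (n - k).Prime then Real.log n else 0) +
      (if ¬ (n - k).Prime then Λ (n - k) else 0) := by
    intro k hk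
    rw [mem_Ico] at hk
    have a1 := cut_le x f k h8 hf
    have a2 := mangoldt_le_log' (k := n - k) (n := n) (by omega) (by omega)
    have b2 : 0 ≤ Λ (n - k) := ArithmeticFunction.vonMangoldt_nonneg
    have c0 : 0 ≤ (if k.Prime ∧ (n - k).Prime then Real.log n else 0) +
        (if ¬ (n - k).Prime then Λ (n - k) else 0) := by
      split_ifs <;> linarith
    unfold FA FL
    by_cases d1 : k.Coprime q <;> by_cases d2 : (n - k).Coprime q
    · rw [if_pos d1, if_pos d2, ← Complex.ofReal_mul, Complex.ofReal_re]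
      have e1 : cut x f k * Λ (n - k) ≤ (if k.Prime then 1 else 0) * Λ (n - k) :=
        mul_le_mul_of_nonneg_right a1 b2
      refine e1.trans ?_
      by_cases c1 : k.Prime <;> by_cases c2 : (n - k).Prime <;> simp only [c1, c2] <;> simp
      exact a2
    · rw [if_neg d2, mul_zero, Complex.zero_re]
      exact c0
    · rw [if_neg d1, zero_mul, Complex.zero_re]
      exact c0
    · rw [if_neg d1, zero_mul, Complex.zero_re]
      exact c0
  have h1 : (cv (FA q (cut x f)) (FL q) n).re ≤ ∑ k ∈ Ico 1 n,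
      ((if k.Prime ∧ (n - k).Prime then Real.log n else 0) +
      (if ¬ (n - k).Prime then Λ (n - k) else 0)) := by
    unfold cv
    rw [Complex.re_sum]
    exact sum_le_sum h2
  rw [sum_add_distrib] at h1
  have h4 : ∑ k ∈ Ico 1 n, (if k.Prime ∧ (n - k).Prime then Real.log n else 0) ≤
      Real.log n * goldbachCount n := by
    rw [← sum_filter, sum_const, nsmul_eq_mul, mul_comm]
    apply mul_le_mul_of_nonneg_left _ hL
    unfold goldbachCount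
    norm_cast
    apply card_le_card
    intro k hk
    rw [mem_filter, mem_Ico] at hk
    rw [mem_filter, mem_range]
    exact ⟨by omega, hk.2⟩
  have h6 : ∑ k ∈ Ico 1 n, (if ¬ (n - k).Prime then Λ (n - k) else 0) ≤
      2 * Real.sqrt n * Real.log n := by
    have : ∑ k ∈ Ico 1 n, (if ¬ (n - k).Prime then Λ (n - k) else 0) =
        ∑ k ∈ Ico 1 n, (if ¬ k.Prime then Λ k else 0) := by
      apply sum_bij' (fun k _ => n - k) (fun k _ => n - k)
      · intro k hk; rw [mem_Ico] at *; omega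
      · intro k hk; rw [mem_Ico] at *; omega
      · intro k hk; rw [mem_Ico] at *; omega
      · intro k hk; rw [mem_Ico] at *; omega
      · intro k hk; rfl
    rw [this, ← sum_filter]
    exact (not_prime_sum_le n).trans (primes_sub_le hn le_rfl)
  linarith

theorem cv_splitS (q n : ℕ) (f g : ℕ → ℂ) :
    cv f (FL q) n = cv (fun k => f k - g k) (FL q) n + cv g (FL q) n := by
  unfold cv
  rw [← sum_add_distrib]
  apply sum_congr rfl
  intro k _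
  ring

open Pool.Agent.Work.MP_92f640_nt in
/-- good `m` give good even numbers -/
theorem not_badS (c₀ : ℝ) (hc : 0 < c₀) (q Q m x : ℕ) (f v : ℕ → ℝ)
    (hf : ∀ n : ℕ, x / 8 < n → n ≤ x → f n ≤ if n.Prime then 1 else 0)
    (hn3 : 3 ≤ q * m) (hn : q * m ≤ x) (hx2 : x < 2 * (q * m))
    (hd : ‖cv (fun n => FA q (cut x f) n - ((v n : ℝ) : ℂ) * TM q Q n) (FL q) (q * m)‖ <
      c₀ / 100 * x / Real.log x)
    (hs : 4 / 5 ≤ (q : ℝ) / q.totient * Sg q Q m)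
    (ht : ‖cv (fun n => ((v n : ℝ) : ℂ) * TM q Q n) (FL q) (q * m) -
      (((q : ℝ) / q.totient * Sg q Q m * ∑ n ∈ Ico 1 (q * m), v n : ℝ) : ℂ)‖ ≤
      (x : ℝ) / (Real.log x) ^ 2)
    (hv : c₀ * (3 / 4 * ((q * m : ℕ) : ℝ) - 1) / Real.log x ≤ ∑ n ∈ Ico 1 (q * m), v n)
    (hL4 : 4 ≤ Real.log x) (hLc : 100 ≤ c₀ * Real.log x) (hx200 : 200 ≤ x)
    (hp : 400 * (Real.log x) ^ 2 * Real.sqrt x ≤ c₀ * x) : ¬ Bad (c₀ / 4) (q * m) := by
  intro hbad
  unfold Bad at hbad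
  have hR := cvS_re_le q (q * m) x f hn3 (by omega) hf
  set n := q * m with hndef
  set W := ∑ n ∈ Ico 1 n, v n with hW
  set L := Real.log x with hLdef
  have hn0 : (0 : ℝ) < n := by exact_mod_cast (by omega : 0 < n)
  have hnx : (n : ℝ) ≤ x := by exact_mod_cast hn
  have hx2' : (x : ℝ) < 2 * n := by exact_mod_cast hx2
  have hx200' : (200 : ℝ) ≤ x := by exact_mod_cast hx200
  have hL0 : 0 < L := by linarith
  have hn1L : 1 ≤ Real.log n := one_le_log hn3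
  have hLx : Real.log n ≤ L := Real.log_le_log hn0 hnx
  have hLn : 4 / 5 * L ≤ Real.log n := by
    have h1 : L ≤ Real.log (2 * n) := Real.log_le_log (by linarith) hx2'.le
    rw [Real.log_mul (by norm_num) hn0.ne'] at h1
    have := Real.log_two_lt_d9
    linarith
  have hsq : Real.sqrt n ≤ Real.sqrt x := Real.sqrt_le_sqrt hnx
  have hs0 : 0 ≤ Real.sqrt n := Real.sqrt_nonneg _
  have hsx0 : 0 ≤ Real.sqrt x := Real.sqrt_nonneg _
  have hg0 : (0 : ℝ) ≤ goldbachCount n := Nat.cast_nonneg _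
  have hW0' : 0 ≤ W := by
    refine le_trans ?_ hv
    have : 0 ≤ 3 / 4 * (n : ℝ) - 1 := by linarith
    positivity
  have hW2 : c₀ * (3 / 4 * (n : ℝ) - 1) * L ≤ W * L ^ 2 := by
    have h1 := mul_le_mul_of_nonneg_right hv (by positivity : 0 ≤ L ^ 2)
    have h2 : (c₀ * (3 / 4 * (n : ℝ) - 1) / L) * L ^ 2 = c₀ * (3 / 4 * (n : ℝ) - 1) * L := by
      field_simp
    rw [h2] at h1
    exact h1
  have hmain : 4 / 5 * W - (x : ℝ) / L ^ 2 - c₀ / 100 * x / L ≤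
      (cv (FA q (cut x f)) (FL q) n).re := by
    have a1 := (Complex.abs_re_le_norm _).trans ht
    rw [Complex.sub_re, Complex.ofReal_re] at a1
    have a2 := (abs_le.1 a1).1
    have a3 := (Complex.abs_re_le_norm _).trans hd.le
    have a4 := (abs_le.1 a3).1
    have a5 : 4 / 5 * W ≤ (q : ℝ) / q.totient * Sg q Q m * W :=
      mul_le_mul_of_nonneg_right hs hW0'
    rw [cv_splitS q n (FA q (cut x f)) (fun n => ((v n : ℝ) : ℂ) * TM q Q n), Complex.add_re]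
    linarith
  have hup : (cv (FA q (cut x f)) (FL q) n).re ≤ L * goldbachCount n + 2 * Real.sqrt x * L := by
    refine hR.trans ?_
    have b1 : Real.log n * goldbachCount n ≤ L * goldbachCount n :=
      mul_le_mul_of_nonneg_right hLx hg0
    have b2 : 2 * Real.sqrt n * Real.log n ≤ 2 * Real.sqrt x * L := by gcongr
    linarith
  have hcomb : 4 / 5 * (W * L ^ 2) - x - c₀ / 100 * x * L ≤
      L ^ 3 * goldbachCount n + 2 * Real.sqrt x * L ^ 3 := by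
    have h1 := mul_le_mul_of_nonneg_right (hmain.trans hup) (by positivity : 0 ≤ L ^ 2)
    have h2 : (4 / 5 * W - (x : ℝ) / L ^ 2 - c₀ / 100 * x / L) * L ^ 2 =
        4 / 5 * (W * L ^ 2) - x - c₀ / 100 * x * L := by
      field_simp
    have h3 : (L * goldbachCount n + 2 * Real.sqrt x * L) * L ^ 2 =
        L ^ 3 * goldbachCount n + 2 * Real.sqrt x * L ^ 3 := by ring
    rw [h2, h3] at h1
    exact h1
  have hp2 : 2 * Real.sqrt x * L ^ 3 ≤ c₀ / 200 * x * L := by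
    have h1 := mul_le_mul_of_nonneg_right hp hL0.le
    have h2 : 2 * Real.sqrt x * L ^ 3 = (400 * L ^ 2 * Real.sqrt x * L) / 200 := by ring
    rw [h2]
    linarith
  have hb1 : (goldbachCount n : ℝ) * (Real.log n) ^ 2 < c₀ / 4 * n := by
    rwa [lt_div_iff₀ (by positivity)] at hbad
  have hb2 : (goldbachCount n : ℝ) * (16 / 25 * L ^ 2) ≤ (goldbachCount n : ℝ) * (Real.log n) ^ 2 := by
    apply mul_le_mul_of_nonneg_left _ hg0
    calc 16 / 25 * L ^ 2 = (4 / 5 * L) ^ 2 := by ring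
      _ ≤ (Real.log n) ^ 2 := pow_le_pow_left₀ (by positivity) hLn 2
  have hb3 : L ^ 3 * goldbachCount n ≤ 25 / 64 * c₀ * n * L := by
    have h1 : (goldbachCount n : ℝ) * L ^ 2 ≤ 25 / 64 * c₀ * n := by linarith
    calc L ^ 3 * goldbachCount n = ((goldbachCount n : ℝ) * L ^ 2) * L := by ring
      _ ≤ (25 / 64 * c₀ * n) * L := mul_le_mul_of_nonneg_right h1 hL0.le
  -- contradiction
  have e1 : (x : ℝ) ≤ c₀ * L * x / 100 := by nlinarith
  have hcL : 0 < c₀ * L := by positivity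
  have e2 : c₀ * L * x ≤ c₀ * L * (2 * n) := mul_le_mul_of_nonneg_left hx2'.le hcL.le
  have e3 : c₀ * L * 100 ≤ c₀ * L * n := by
    apply mul_le_mul_of_nonneg_left _ hcL.le
    linarith
  have e4 : c₀ * (3 / 4 * (n : ℝ) - 1) * L = 3 / 4 * (c₀ * L * n) - c₀ * L := by ring
  have e5 : c₀ / 100 * x * L = c₀ * L * x / 100 := by ring
  have e6 : c₀ / 200 * x * L = c₀ * L * x / 200 := by ring
  have e7 : 25 / 64 * c₀ * n * L = 25 / 64 * (c₀ * L * n) := by ring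
  have e8 : c₀ * L * (2 * n) = 2 * (c₀ * L * n) := by ring
  rw [e4] at hW2
  rw [e5] at hcomb
  rw [e6] at hp2
  rw [e7] at hb3
  rw [e8] at e2
  have e9 : 0 < c₀ * L * n := by positivity
  linarith

/-- the density sum -/
theorem dens_sum_ge (c₀ : ℝ) (hc : 0 < c₀) (x n : ℕ) (g : ℕ → ℝ) (h3 : 16 ≤ x) (hn : n ≤ x)
    (hx2 : x < 2 * n) (hg : ∀ k : ℕ, x / 8 < k → k ≤ x → c₀ ≤ g k) :
    c₀ * (3 / 4 * (n : ℝ) - 1) / Real.log x ≤
      ∑ k ∈ Ico 1 n, cut x (fun k => g k / Real.log k) k := by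
  have hL := one_le_log (show 3 ≤ x by omega)
  have h1 : ∑ k ∈ Ico (x / 8 + 1) n, cut x (fun k => g k / Real.log k) k =
      ∑ k ∈ Ico 1 n, cut x (fun k => g k / Real.log k) k := by
    apply sum_subset
    · intro k hk
      rw [mem_Ico] at *
      omega
    · intro k hk hk2
      rw [mem_Ico] at hk hk2
      unfold cut
      rw [if_neg]
      omega
  rw [← h1]
  have h2 : ∀ k ∈ Ico (x / 8 + 1) n, c₀ / Real.log x ≤ cut x (fun k => g k / Real.log k) k := by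
    intro k hk
    rw [mem_Ico] at hk
    have hk3 : 3 ≤ k := by omega
    have hkx : k ≤ x := by omega
    unfold cut
    rw [if_pos ⟨by omega, hkx⟩]
    have hLk := one_le_log hk3
    have hLkx : Real.log k ≤ Real.log x :=
      Real.log_le_log (by exact_mod_cast (by omega : 0 < k)) (by exact_mod_cast hkx)
    have h4 := hg k (by omega) hkx
    exact div_le_div₀ (hc.le.trans h4) h4 (by linarith) hLkx
  have h3' := card_nsmul_le_sum _ _ _ h2
  refine le_trans ?_ h3'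
  rw [Nat.card_Ico, nsmul_eq_mul, mul_div_assoc', mul_comm ((n - (x / 8 + 1) : ℕ) : ℝ) c₀]
  apply div_le_div_of_nonneg_right _ (by linarith)
  apply mul_le_mul_of_nonneg_left _ hc.le
  have h5 : ((x / 8 : ℕ) : ℝ) ≤ (x : ℝ) / 8 := Nat.cast_div_le
  have h6 : (x : ℝ) < 2 * n := by exact_mod_cast hx2
  rw [Nat.cast_sub (by omega)]
  push_cast
  linarith

theorem abs_AJ_le (y z w : ℕ) (η : ℝ) (j c : ℕ) : |AJ y z w η j c| ≤ 1 := by
  unfold AJ
  split_ifs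
  · have h1 := ArithmeticFunction.abs_moebius_le_one (n := c)
    have h2 : |((μ c : ℤ) : ℝ)| = ((|μ c| : ℤ) : ℝ) := by push_cast; rfl
    rw [h2]
    exact_mod_cast h1
  · rw [abs_zero]
    norm_num

theorem ev_wz (θ κ : ℝ) (hθ : 1 / 2 ≤ θ) (hκ1 : κ ≤ 1 / 8) (hκ : 0 < κ) :
    ∀ᶠ x : ℕ in Filter.atTop, wk κ x * zx θ x ≤ x := by
  filter_upwards [evt_pow 4 0 (3 / 8) (by norm_num), Filter.eventually_ge_atTop 1] with x h1 h2
  have hx1 : (1 : ℝ) ≤ x := by exact_mod_cast h2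
  have hx0 : (0 : ℝ) < x := by linarith
  rw [pow_zero, mul_one] at h1
  have a1 : (wk κ x : ℝ) ≤ 2 * (x : ℝ) ^ (1 / 8 : ℝ) := by
    unfold wk
    have b1 := Nat.ceil_lt_add_one (by positivity : 0 ≤ (x : ℝ) ^ κ)
    have b2 : (x : ℝ) ^ κ ≤ (x : ℝ) ^ (1 / 8 : ℝ) := Real.rpow_le_rpow_of_exponent_le hx1 hκ1
    have b3 : (1 : ℝ) ≤ (x : ℝ) ^ (1 / 8 : ℝ) := Real.one_le_rpow hx1 (by norm_num)
    linarith
  have a2 : (zx θ x : ℝ) ≤ 2 * (x : ℝ) ^ (1 / 2 : ℝ) := by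
    unfold zx
    have b1 := Nat.ceil_lt_add_one (by positivity : 0 ≤ (x : ℝ) ^ (1 - θ))
    have b2 : (x : ℝ) ^ (1 - θ) ≤ (x : ℝ) ^ (1 / 2 : ℝ) :=
      Real.rpow_le_rpow_of_exponent_le hx1 (by linarith)
    have b3 : (1 : ℝ) ≤ (x : ℝ) ^ (1 / 2 : ℝ) := Real.one_le_rpow hx1 (by norm_num)
    linarith
  have a3 : ((wk κ x * zx θ x : ℕ) : ℝ) ≤ x := by
    push_cast
    calc (wk κ x : ℝ) * zx θ x ≤ (2 * (x : ℝ) ^ (1 / 8 : ℝ)) * (2 * (x : ℝ) ^ (1 / 2 : ℝ)) := by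
          gcongr
      _ = 4 * ((x : ℝ) ^ (1 / 8 : ℝ) * (x : ℝ) ^ (1 / 2 : ℝ)) := by ring
      _ ≤ (x : ℝ) ^ (3 / 8 : ℝ) * ((x : ℝ) ^ (1 / 8 : ℝ) * (x : ℝ) ^ (1 / 2 : ℝ)) :=
          mul_le_mul_of_nonneg_right h1 (by positivity)
      _ = (x : ℝ) := by
          rw [← Real.rpow_add hx0, ← Real.rpow_add hx0]
          norm_num
  exact_mod_cast a3

open Classical in
theorem main_natS (θ c₀ V0 : ℝ) (hθ : 1 / 2 ≤ θ) (hθ1 : θ < 1) (hc : 0 < c₀) (hV0 : 0 ≤ V0)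
    (hv : VLow θ c₀ V0) (ε : ℝ) (hε : 0 < ε) (K : ℕ) : ∃ C : ℕ, ∀ A : ℕ, ∃ x₁ : ℕ, ∀ x : ℕ, x₁ ≤ x →
    ∃ B : Finset ℕ, (B.card : ℝ) ≤ (Real.log x) ^ C ∧ (∀ b ∈ B, (Real.log x) ^ A < (b : ℝ)) ∧
      ∀ q : ℕ, 1 ≤ q → (q : ℝ) ≤ (x : ℝ) ^ (θ - ε) → (∀ b ∈ B, ¬ b ∣ q) →
        (((Icc 1 x).filter (fun n => x < 2 * n ∧ Even n ∧ q ∣ n ∧
          Pool.Agent.Work.MP_92f640_nt.Bad (c₀ / 4) n)).card : ℝ) ≤
          (x : ℝ) / (q * (Real.log x) ^ K) := by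
  obtain ⟨V, hVp, hdens⟩ := dens θ V0 hθ hθ1 hV0
  set κ : ℝ := min (ε / 8) (min ((1 - θ) / 8) (1 / 8)) with hκdef
  have hκ : 0 < κ := by
    rw [hκdef]
    refine lt_min (by linarith) (lt_min (by linarith) (by norm_num))
  have hκ1 : κ ≤ 1 / 8 := (min_le_right _ _).trans (min_le_right _ _)
  have hκε : 8 * κ ≤ ε := by
    have : κ ≤ ε / 8 := min_le_left _ _
    linarith
  have hκθ : 8 * κ ≤ 1 - θ := by
    have : κ ≤ (1 - θ) / 8 := (min_le_right _ _).trans (min_le_left _ _)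
    linarith
  obtain ⟨B₁, B', B9, BD, hB₁, hsup⟩ := sup_F θ κ ε V hθ hθ1 hκ hκ1 hε hκε hκθ hVp (2 * K + 8)
  obtain ⟨C, hbset⟩ := bsetF θ κ ε (by linarith) hκ hε (B' + 2) B₁ B9
  obtain ⟨C₂, hC₂, hsing⟩ := sing
  obtain ⟨xd, hxd⟩ := hdens BD
  obtain ⟨xt, hxt⟩ := tl_main (B₁ + 1) 2 V hVp
  obtain ⟨xv, hxv⟩ := hv
  refine ⟨C, fun A => ?_⟩
  obtain ⟨x₁, hx₁⟩ := hsup (A + B₁ + 1)
  obtain ⟨x₂, hx₂⟩ := hbset A
  have hev : ∀ᶠ x : ℕ in Filter.atTop, 20000 / c₀ ^ 2 ≤ (Real.log x) ^ 4 ∧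
      4 * C₂ ≤ (Real.log x) ^ 3 ∧ 4 ≤ Real.log x ∧ 100 ≤ c₀ * Real.log x ∧
      400 * (Real.log x) ^ 2 * Real.sqrt x ≤ c₀ * x ∧ wk κ x * zx θ x ≤ x ∧
      200 ≤ x ∧ x₁ ≤ x ∧ x₂ ≤ x ∧ xd ≤ x ∧ xt ≤ x ∧ xv ≤ x := by
    filter_upwards [ev_log_ge 4 (by norm_num) (20000 / c₀ ^ 2),
      ev_log_ge 3 (by norm_num) (4 * C₂), evt_log 4, evt_log (100 / c₀), ev_pow_log 2 (400 / c₀),
      ev_wz θ κ hθ hκ1 hκ, Filter.eventually_ge_atTop 200, Filter.eventually_ge_atTop x₁,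
      Filter.eventually_ge_atTop x₂, Filter.eventually_ge_atTop xd, Filter.eventually_ge_atTop xt,
      Filter.eventually_ge_atTop xv] with x a1 a2 a3 a4 a5 a6 a7 a8 a9 a10 a11 a12
    refine ⟨a1, a2, a3, ?_, ?_, a6, a7, a8, a9, a10, a11, a12⟩
    · rw [div_le_iff₀ hc] at a4
      linarith
    · have h1 := mul_le_mul_of_nonneg_left a5 hc.le
      have h2 : c₀ * (400 / c₀ * Real.log x ^ 2 * Real.sqrt x) =
          400 * (Real.log x) ^ 2 * Real.sqrt x := by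
        field_simp
      rw [h2] at h1
      exact h1
  obtain ⟨x₀, hx₀⟩ := Filter.eventually_atTop.1 hev
  refine ⟨x₀, fun x hx => ?_⟩
  obtain ⟨c1, c2, c3, c4, c5, c6, c7, hxx1, hxx2, hxxd, hxxt, hxxv⟩ := hx₀ x hx
  have h3 : 3 ≤ x := by omega
  have hL := one_le_log h3
  set L := Real.log x with hLdef
  have hx0 : (0 : ℝ) < x := by exact_mod_cast (by omega : 0 < x)
  have hx1 : (1 : ℝ) ≤ x := by exact_mod_cast (by omega : 1 ≤ x)
  have hJ : (JJ x B' : ℝ) ≤ L ^ (B' + 2) := by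
    unfold JJ
    have b1 := Nat.ceil_lt_add_one (by positivity : 0 ≤ 2 * L ^ (B' + 1))
    have b2 : 1 ≤ L ^ (B' + 1) := one_le_pow₀ hL
    have b3 : L ^ (B' + 2) = L * L ^ (B' + 1) := by ring
    rw [b3]
    have b4 : 4 * L ^ (B' + 1) ≤ L * L ^ (B' + 1) := mul_le_mul_of_nonneg_right c3 (by positivity)
    linarith
  obtain ⟨B, hB1, hB2, hB3⟩ := hx₂ x hxx2 (wk κ x * zx θ x) (JJ x B')
    (AJ (y0 x) (zx θ x) (wk κ x) (1 / (Real.log x) ^ B')) (fun j c => abs_AJ_le _ _ _ _ j c) c6 hJ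
  refine ⟨B, hB1, hB2, fun q hq hqx hqB => ?_⟩
  obtain ⟨cc, E, hadm⟩ := hxv x hxxv
  obtain ⟨hvb, hvd⟩ := hxd x hxxd _ cc E hadm.wt hadm.wte
  set v : ℕ → ℝ := cut x (fun n => KK cc E (zx θ x) n / Real.log n) with hvdef
  have hV := hx₁ x hxx1 q hq hqx (hB3 q hq hqx hqB) cc v hadm.wt hvb hvd
  set Q := ⌈L ^ B₁⌉₊ with hQdef
  have hq0 : (0 : ℝ) < q := by exact_mod_cast hq
  have hLB : 1 ≤ L ^ B₁ := one_le_pow₀ hL
  have hQle : (Q : ℝ) ≤ 2 * L ^ B₁ := by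
    have := Nat.ceil_lt_add_one (by positivity : 0 ≤ L ^ B₁)
    linarith
  have hQge : L ^ B₁ ≤ (Q : ℝ) := Nat.le_ceil _
  have hQ1 : 1 ≤ Q := by
    have : (1 : ℝ) ≤ Q := hLB.trans hQge
    exact_mod_cast this
  have hQB : (Q : ℝ) ≤ L ^ (B₁ + 1) := by
    refine hQle.trans ?_
    rw [pow_succ, mul_comm (L ^ B₁)]
    exact mul_le_mul_of_nonneg_right (by linarith) (by positivity)
  have hqx' : q ≤ x := by
    have h1 : (q : ℝ) ≤ x := by
      refine hqx.trans ?_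
      calc (x : ℝ) ^ (θ - ε) ≤ (x : ℝ) ^ (1 : ℝ) :=
            Real.rpow_le_rpow_of_exponent_le hx1 (by linarith)
        _ = x := Real.rpow_one _
    exact_mod_cast h1
  have hlogq : Real.log q ≤ L := Real.log_le_log hq0 (by exact_mod_cast hqx')
  have hE1 := count_bigS q x (2 * K + 8) _ (c₀ / 100) (by positivity) h3 hq hV
  have hE2 := hsing q Q (x / q) hq hQ1
  set D : ℕ → ℝ := fun m => ‖cv (fun n => FA q (cut x (aa cc (zx θ x))) n - ((v n : ℝ) : ℂ) * TM q Q n)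
    (FL q) (q * m)‖ with hD
  set E1 := (Icc 1 (x / q)).filter (fun m => c₀ / 100 * x / L ≤ D m) with hE1def
  set E2 := (Icc 1 (x / q)).filter (fun m => Even (q * m) ∧
    (q : ℝ) / q.totient * Sg q Q m < 4 / 5) with hE2def
  have hsub : (Icc 1 x).filter (fun n => x < 2 * n ∧ Even n ∧ q ∣ n ∧
          Pool.Agent.Work.MP_92f640_nt.Bad (c₀ / 4) n) ⊆ (E1 ∪ E2).image (fun m => q * m) := by
    intro n hn
    rw [mem_filter, mem_Icc] at hn
    obtain ⟨⟨hn1, hnx⟩, hx2, hev', ⟨m, rfl⟩, hbad⟩ := hn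
    have hm : 1 ≤ m := by
      rcases Nat.eq_zero_or_pos m with h | h
      · subst h; simp at hn1
      · exact h
    have hmx : m ≤ x / q := by
      rw [Nat.le_div_iff_mul_le hq, mul_comm]
      exact hnx
    rw [mem_image]
    refine ⟨m, ?_, rfl⟩
    rw [mem_union]
    by_contra hcon
    push Not at hcon
    obtain ⟨k1, k2⟩ := hcon
    rw [hE1def, mem_filter, mem_Icc] at k1
    rw [hE2def, mem_filter, mem_Icc] at k2
    have k1' : D m < c₀ / 100 * x / L := by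
      by_contra h
      exact k1 ⟨⟨hm, hmx⟩, not_lt.1 h⟩
    have k2' : 4 / 5 ≤ (q : ℝ) / q.totient * Sg q Q m := by
      by_contra h
      exact k2 ⟨⟨hm, hmx⟩, hev', not_le.1 h⟩
    have ht := hxt x hxxt q Q m v hq hqx' hQ1 hQB hvb hm hnx
    have hvs := dens_sum_ge c₀ hc x (q * m) (KK cc E (zx θ x)) (by omega) hnx hx2 hadm.dens
    exact not_badS c₀ hc q Q m x (aa cc (zx θ x)) v hadm.minor (by omega) hnx hx2 k1' k2' ht hvs
      c3 c4 c7 c5 hbad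
  have hcard : (((Icc 1 x).filter (fun n => x < 2 * n ∧ Even n ∧ q ∣ n ∧
          Pool.Agent.Work.MP_92f640_nt.Bad (c₀ / 4) n)).card : ℝ) ≤ (E1.card : ℝ) + E2.card := by
    have := (card_le_card hsub).trans (card_image_le.trans (card_union_le E1 E2))
    exact_mod_cast this
  refine hcard.trans ?_
  have hLK : 0 < L ^ K := by positivity
  have hb1 : (E1.card : ℝ) ≤ 1 / 2 * ((x : ℝ) / (q * L ^ K)) := by
    refine hE1.trans ?_
    have a1 : x * L ^ 4 / ((c₀ / 100) ^ 2 * (q * L ^ (2 * K + 8))) =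
        10000 / c₀ ^ 2 * ((x : ℝ) / (q * L ^ K)) / L ^ (K + 4) := by
      have : L ^ (2 * K + 8) = L ^ K * L ^ (K + 4) * L ^ 4 := by ring
      rw [this]
      have hL0 : L ≠ 0 := by positivity
      field_simp
      ring
    rw [a1, div_le_iff₀ (by positivity)]
    have a2 : L ^ 4 ≤ L ^ (K + 4) := pow_le_pow_right₀ hL (by omega)
    have a3 : 0 ≤ (x : ℝ) / (q * L ^ K) := by positivity
    have a4 : 20000 / c₀ ^ 2 = 2 * (10000 / c₀ ^ 2) := by ring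
    have a5 := c1.trans a2
    rw [a4] at a5
    nlinarith [mul_le_mul_of_nonneg_right a5 a3]
  have hb2 : (E2.card : ℝ) ≤ 1 / 2 * ((x : ℝ) / (q * L ^ K)) := by
    refine hE2.trans ?_
    have a1 : ((x / q : ℕ) : ℝ) ≤ (x : ℝ) / q := Nat.cast_div_le
    have a2 : L ^ (K + 4) ≤ Real.sqrt Q := by
      apply Real.le_sqrt_of_sq_le
      calc (L ^ (K + 4)) ^ 2 = L ^ (2 * K + 8) := by ring
        _ ≤ L ^ B₁ := pow_le_pow_right₀ hL hB₁
        _ ≤ Q := hQge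
    have a3 : (0 : ℝ) < L ^ (K + 4) := by positivity
    have hlq0 : 0 ≤ Real.log q := Real.log_nonneg (by exact_mod_cast hq)
    calc C₂ * ((x / q : ℕ) : ℝ) * (1 + Real.log q) / Real.sqrt Q
        ≤ C₂ * ((x : ℝ) / q) * (2 * L) / L ^ (K + 4) := by
          apply div_le_div₀ (by positivity) _ a3 a2
          have : 1 + Real.log q ≤ 2 * L := by linarith
          gcongr
      _ = (4 * C₂) * (1 / 2 * ((x : ℝ) / (q * L ^ K))) / L ^ 3 := by
          have hL0 : L ≠ 0 := by positivity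
          have : L ^ (K + 4) = L ^ K * L ^ 3 * L := by ring
          rw [this]
          field_simp
          ring
      _ ≤ L ^ 3 * (1 / 2 * ((x : ℝ) / (q * L ^ K))) / L ^ 3 := by
          apply div_le_div_of_nonneg_right _ (by positivity)
          exact mul_le_mul_of_nonneg_right c2 (by positivity)
      _ = _ := by
          rw [mul_comm, mul_div_assoc, div_self (by positivity), mul_one]
  linarith

open Pool.Agent.Work.MP_92f640_nt in
theorem level_theta (θ c₀ V0 : ℝ) (hθ : 1 / 2 ≤ θ) (hθ1 : θ < 1) (hc : 0 < c₀) (hV0 : 0 ≤ V0)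
    (hv : VLow θ c₀ V0) (ε : ℝ) (hε : 0 < ε) (K : ℕ) : ∃ C : ℕ, ∀ A : ℕ, ∃ x₁ : ℝ, ∀ x : ℝ, x₁ ≤ x →
    ∃ B : Finset ℕ, (B.card : ℝ) ≤ (Real.log x) ^ C ∧ (∀ b ∈ B, (Real.log x) ^ A < (b : ℝ)) ∧
      ∀ q : ℕ, 1 ≤ q → (q : ℝ) ≤ x ^ (θ - ε) → (∀ b ∈ B, ¬ b ∣ q) →
        ((exceptions (c₀ / 4) x q).card : ℝ) ≤ x / (q * (Real.log x) ^ K) := by
  classical
  obtain ⟨C, hC⟩ := main_natS θ c₀ V0 hθ hθ1 hc hV0 hv (ε / 2) (by linarith) (K + 1)
  refine ⟨C, fun A => ?_⟩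
  obtain ⟨x₁, hx₁⟩ := hC (A + 1)
  have hev : ∀ᶠ X : ℕ in Filter.atTop, (2 : ℝ) ^ K ≤ (Real.log X) ^ 1 ∧
      (2 : ℝ) ^ A ≤ (Real.log X) ^ 1 ∧ 2 ≤ (X : ℝ) ^ (ε / 2) ∧ 3 ≤ X ∧ x₁ ≤ X := by
    have h1 : ∀ᶠ X : ℕ in Filter.atTop, 2 ≤ (X : ℝ) ^ (ε / 2) :=
      ((tendsto_rpow_atTop (by linarith : (0 : ℝ) < ε / 2)).comp
        tendsto_natCast_atTop_atTop).eventually_ge_atTop _
    filter_upwards [ev_log_ge 1 le_rfl ((2 : ℝ) ^ K), ev_log_ge 1 le_rfl ((2 : ℝ) ^ A), h1,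
      Filter.eventually_ge_atTop 3, Filter.eventually_ge_atTop x₁] with X a1 a2 a3 a4 a5
    exact ⟨a1, a2, a3, a4, a5⟩
  obtain ⟨X₀, hX₀⟩ := Filter.eventually_atTop.1 hev
  refine ⟨X₀ + 1, fun x hx => ?_⟩
  have hx0 : (0 : ℝ) ≤ x := by
    have : (0 : ℝ) ≤ X₀ := Nat.cast_nonneg _
    linarith
  set X := ⌊x⌋₊ with hX
  have hXx : (X : ℝ) ≤ x := Nat.floor_le hx0
  have hxX : x < X + 1 := Nat.lt_floor_add_one x
  have hXX0 : X₀ ≤ X := by
    rw [hX, Nat.le_floor_iff hx0]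
    linarith
  obtain ⟨a1, a2, a3, a4, a5⟩ := hX₀ X hXX0
  rw [pow_one] at a1 a2
  have hX3 : (3 : ℝ) ≤ X := by exact_mod_cast a4
  have hX0 : (0 : ℝ) < X := by linarith
  have hL1 := one_le_log a4
  have hLx : Real.log X ≤ Real.log x := Real.log_le_log hX0 hXx
  have hLx2 : Real.log x ≤ 2 * Real.log X := by
    have h1 : x ≤ (X : ℝ) ^ 2 := by nlinarith
    calc Real.log x ≤ Real.log ((X : ℝ) ^ 2) := Real.log_le_log (by linarith) h1
      _ = 2 * Real.log X := by rw [Real.log_pow]; norm_num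
  have hkey : ∀ k : ℕ, (2 : ℝ) ^ k ≤ Real.log X → (Real.log x) ^ k ≤ (Real.log X) ^ (k + 1) := by
    intro k hk
    calc (Real.log x) ^ k ≤ (2 * Real.log X) ^ k := pow_le_pow_left₀ (by linarith) hLx2 k
      _ = 2 ^ k * (Real.log X) ^ k := by rw [mul_pow]
      _ ≤ Real.log X * (Real.log X) ^ k := mul_le_mul_of_nonneg_right hk (by positivity)
      _ = _ := by ring
  obtain ⟨B, hB1, hB2, hB3⟩ := hx₁ X a5
  refine ⟨B, hB1.trans (pow_le_pow_left₀ (by linarith) hLx C), fun b hb => ?_,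
    fun q hq hqx hqB => ?_⟩
  · exact (hkey A a2).trans_lt (hB2 b hb)
  · have hq0 : (0 : ℝ) < q := by exact_mod_cast hq
    have hq1 : (1 : ℝ) ≤ q := by exact_mod_cast hq
    have hqX : (q : ℝ) ≤ (X : ℝ) ^ (θ - ε / 2) := by
      rcases lt_or_ge (θ - ε) 0 with hneg | hpos
      · exfalso
        have : x ^ (θ - ε) < 1 := Real.rpow_lt_one_of_one_lt_of_neg (by linarith) hneg
        linarith
      · have h2X : x ≤ 2 * X := by linarith
        calc (q : ℝ) ≤ x ^ (θ - ε) := hqx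
          _ ≤ (2 * X) ^ (θ - ε) := Real.rpow_le_rpow hx0 h2X hpos
          _ = 2 ^ (θ - ε) * (X : ℝ) ^ (θ - ε) := Real.mul_rpow (by norm_num) hX0.le
          _ ≤ (X : ℝ) ^ (ε / 2) * (X : ℝ) ^ (θ - ε) := by
              apply mul_le_mul_of_nonneg_right _ (by positivity)
              refine le_trans ?_ a3
              calc (2 : ℝ) ^ (θ - ε) ≤ 2 ^ (1 : ℝ) :=
                    Real.rpow_le_rpow_of_exponent_le (by norm_num) (by linarith)
                _ = 2 := Real.rpow_one 2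
          _ = (X : ℝ) ^ (θ - ε / 2) := by
              rw [← Real.rpow_add hX0]
              congr 1
              ring
    have hmain := hB3 q hq hqX hqB
    have hsub : exceptions (c₀ / 4) x q ⊆ (Icc 1 X).filter (fun n => X < 2 * n ∧ Even n ∧ q ∣ n ∧
          Bad (c₀ / 4) n) := by
      intro n hn
      rw [mem_exceptions] at hn
      obtain ⟨⟨h1, h2⟩, h3, h4, h5, h6⟩ := hn
      rw [mem_filter, mem_Icc]
      refine ⟨⟨h1, h2⟩, ?_, h4, h5, h6⟩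
      have : (X : ℝ) < 2 * n := by linarith
      exact_mod_cast this
    have hcard : ((exceptions (c₀ / 4) x q).card : ℝ) ≤ ((Icc 1 X).filter (fun n => X < 2 * n ∧
        Even n ∧ q ∣ n ∧ Bad (c₀ / 4) n)).card := by
      exact_mod_cast card_le_card hsub
    refine hcard.trans (hmain.trans ?_)
    have hlx0 : 0 < (Real.log x) ^ K := by
      have : 0 < Real.log x := by linarith
      positivity
    apply div_le_div₀ hx0 hXx (by positivity)
    exact mul_le_mul_of_nonneg_left (hkey K a1) hq0.le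

end Pool.Agent.HS
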