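import Pool.Agent.Work.MP_92f640_nt.HS.Defs
import Pool.Agent.Work.MP_92f640_nt.HL.TMinor
import Pool.Agent.Work.MP_92f640_nt.HL.Dual
import Pool.Agent.Work.MP_92f640_nt.HL.SupArith
import Pool.Agent.Work.MP_92f640_nt.HL.Evt

/-! # Module SupFA: auxiliary lemmas for SupF -/

namespace Pool.Agent.HS

open Finset Filter Pool.Agent.BV Pool.Agent.HL

namespace SupFaux

lemma norm_sub_sq_le (a b : ℂ) : ‖a - b‖ ^ 2 ≤ 2 * ‖a‖ ^ 2 + 2 * ‖b‖ ^ 2 := by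
  have h := norm_sub_le a b
  have h2 : ‖a - b‖ ^ 2 ≤ (‖a‖ + ‖b‖) ^ 2 := pow_le_pow_left₀ (norm_nonneg _) h 2
  nlinarith [sq_nonneg (‖a‖ - ‖b‖)]

lemma VV_cut (q x : ℕ) (f : ℕ → ℝ) (α : ℝ) :
    VV q x (FA q (cut x f)) α ≤ 2 * VV q x (FA q f) α + 2 * VV q (x / 8) (FA q f) α := by
  unfold VV
  rw [mul_sum, mul_sum, ← sum_add_distrib]
  refine sum_le_sum fun a _ => ?_
  have h1 : ∑ n ∈ (Icc 1 x).filter (fun n => n % q = a), FA q (cut x f) n * e (n * α) =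
      ∑ n ∈ (Icc 1 x).filter (fun n => n % q = a), FA q f n * e (n * α) -
      ∑ n ∈ (Icc 1 (x / 8)).filter (fun n => n % q = a), FA q f n * e (n * α) := by
    have hsub : (Icc 1 (x / 8)).filter (fun n => n % q = a) =
        ((Icc 1 x).filter (fun n => n % q = a)).filter (fun n => n ≤ x / 8) := by
      ext n
      simp only [mem_filter, mem_Icc]
      constructor
      · rintro ⟨⟨h1, h2⟩, h3⟩
        exact ⟨⟨⟨h1, h2.trans (Nat.div_le_self _ _)⟩, h3⟩, h2⟩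
      · rintro ⟨⟨⟨h1, _⟩, h3⟩, h2⟩
        exact ⟨⟨h1, h2⟩, h3⟩
    rw [hsub, sum_filter (p := fun n => n ≤ x / 8), ← sum_sub_distrib]
    refine sum_congr rfl fun n hn => ?_
    have hnx : n ≤ x := (mem_Icc.1 (mem_filter.1 hn).1).2
    by_cases h : n ≤ x / 8
    · rw [if_pos h, sub_self]
      have : cut x f n = 0 := by
        unfold cut
        rw [if_neg]
        rintro ⟨h1, _⟩
        omega
      unfold FA
      rw [this]
      split_ifs <;> simp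
    · rw [if_neg h, sub_zero]
      have : cut x f n = f n := by
        unfold cut
        rw [if_pos ⟨by omega, hnx⟩]
      unfold FA
      rw [this]
  rw [h1]
  exact norm_sub_sq_le _ _

lemma abel_eq (v : ℕ → ℝ) (a : ℕ → ℂ) (y : ℕ) :
    ∑ n ∈ Icc 1 y, ((v n : ℝ) : ℂ) * a n = ((v y : ℝ) : ℂ) * ∑ n ∈ Icc 1 y, a n -
      ∑ n ∈ range y, (((v (n + 1) - v n : ℝ)) : ℂ) * ∑ m ∈ Icc 1 n, a m := by
  induction y with
  | zero => simp
  | succ y ih =>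
    rw [sum_Icc_succ_top (by omega), sum_Icc_succ_top (by omega), sum_range_succ, ih]
    push_cast
    ring

lemma abel (x : ℕ) (v : ℕ → ℝ) (V : ℝ) (hv : BVar x V v) (a : ℕ → ℂ)
    (W : ℝ) (hW : 0 ≤ W) (h : ∀ y' ≤ x, ‖∑ n ∈ Icc 1 y', a n‖ ≤ W) :
    ‖∑ n ∈ Icc 1 x, ((v n : ℝ) : ℂ) * a n‖ ≤ 2 * V * W := by
  rw [abel_eq]
  refine (norm_sub_le _ _).trans ?_
  have h1 : ‖((v x : ℝ) : ℂ) * ∑ n ∈ Icc 1 x, a n‖ ≤ V * W := by
    rw [norm_mul, Complex.norm_real, Real.norm_eq_abs]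
    exact mul_le_mul (hv.bd x) (h x le_rfl) (norm_nonneg _) ((abs_nonneg _).trans (hv.bd x))
  have h2 : ‖∑ n ∈ range x, (((v (n + 1) - v n : ℝ)) : ℂ) * ∑ m ∈ Icc 1 n, a m‖ ≤ V * W := by
    refine (norm_sum_le _ _).trans ?_
    calc ∑ n ∈ range x, ‖(((v (n + 1) - v n : ℝ)) : ℂ) * ∑ m ∈ Icc 1 n, a m‖
        ≤ ∑ n ∈ range x, |v (n + 1) - v n| * W := by
          refine sum_le_sum fun n hn => ?_
          rw [norm_mul, Complex.norm_real, Real.norm_eq_abs]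
          exact mul_le_mul_of_nonneg_left (h n (mem_range.1 hn).le) (abs_nonneg _)
      _ = (∑ n ∈ range x, |v (n + 1) - v n|) * W := by rw [sum_mul]
      _ ≤ V * W := mul_le_mul_of_nonneg_right hv.tv hW
  linarith

lemma VV_vT (x q Q s : ℕ) (V α S : ℝ) (b : ℤ) (v : ℕ → ℝ) (hv : BVar x V v) (hV : 0 ≤ V)
    (hq : 1 ≤ q) (hQ : 1 ≤ Q) (hs : 1 ≤ s) (hsS : (s : ℝ) ≤ S) (hQS : 2 * (Q : ℝ) ≤ S)
    (hbs : IsCoprime b (s : ℤ)) (hα : |q * α - b / s| ≤ 1 / (s * S)) :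
    VV q x (fun n => ((v n : ℝ) : ℂ) * TM q Q n) α ≤ (2 * V * (((q : ℝ) / q.totient) *
      Real.sqrt q * (((x : ℝ) / q + 1) / s.totient + S * (Q : ℝ) ^ 2))) ^ 2 := by
  have hS0 : 0 ≤ S := (Nat.cast_nonneg _).trans hsS
  refine VV_le q x hq _ (fun n hn => ?_) α _ (by positivity) ?_
  · show ((v n : ℝ) : ℂ) * TM q Q n = 0
    unfold TM
    rw [if_neg hn, mul_zero]
  intro φ hφ
  have h1 : ∑ n ∈ Icc 1 x, (((v n : ℝ) : ℂ) * TM q Q n) * φ n * e (n * α) =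
      ∑ n ∈ Icc 1 x, ((v n : ℝ) : ℂ) * (TM q Q n * φ n * e (n * α)) :=
    sum_congr rfl fun n _ => by ring
  rw [h1]
  refine abel x v V hv _ _ (by positivity) fun y' hy' => ?_
  refine (T_minor y' q Q s φ α S b hq hQ hφ hs hsS hQS hbs hα).trans ?_
  have : (y' : ℝ) ≤ x := by exact_mod_cast hy'
  gcongr

/-- the sizes of the parameters -/
lemma sizes (θ κ : ℝ) (x : ℕ) (hθ : 1 / 2 ≤ θ) (hθ1 : θ < 1) (hκ : 0 < κ)
    (hκθ : 8 * κ ≤ 1 - θ) (hx : 1 ≤ x) :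
    (x : ℝ) ^ κ ≤ wk κ x ∧ (wk κ x : ℝ) ≤ 2 * (x : ℝ) ^ κ ∧ (x : ℝ) ^ (1 - θ) ≤ zx θ x ∧
      (zx θ x : ℝ) ≤ 2 * (x : ℝ) ^ (1 - θ) ∧
      ((⌈(x : ℝ) ^ (1 - θ / 2)⌉₊ : ℕ) : ℝ) ≤ 2 * (x : ℝ) ^ (1 - θ / 2) := by
  have hX1 : (1 : ℝ) ≤ x := by exact_mod_cast hx
  have key : ∀ δ : ℝ, 0 ≤ δ → ((⌈(x : ℝ) ^ δ⌉₊ : ℕ) : ℝ) ≤ 2 * (x : ℝ) ^ δ := by
    intro δ hδ
    have h1 : 1 ≤ (x : ℝ) ^ δ := Real.one_le_rpow hX1 hδ
    have h2 := Nat.ceil_lt_add_one (show 0 ≤ (x : ℝ) ^ δ by linarith)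
    linarith
  refine ⟨Nat.le_ceil _, key κ hκ.le, Nat.le_ceil _, key (1 - θ) (by linarith), key _ (by linarith)⟩

/-- arithmetic of the minor arcs, type I and II part -/
lemma minor_arith (B'' c b Bm B₁ : ℕ) (C X L q s D w₁ w₂ J M τ : ℝ) (hC : 0 < C) (hL : 1000 ≤ L)
    (hLC : 656 * C ≤ L) (hX : 1 ≤ X) (hq : 1 ≤ q) (hqX : q ≤ X) (hτ : τ = 1 / L ^ B₁)
    (hB₁ : B₁ = 2 * b + 2 + c + B'' + 2) (hBm : Bm = c + B'' + 2)
    (h1 : 1 / s ≤ τ) (h2 : q * s / X ≤ τ) (h3 : q * D ^ 2 / X ^ 2 ≤ τ) (h4 : 1 / w₁ ≤ τ)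
    (h5 : q * w₂ / X ≤ τ) (hJ0 : 0 ≤ J) (hJ : J ≤ 3 * L ^ (b + 1)) (hM : M = X / L ^ Bm) :
    C * L ^ c * ((X ^ 2 / q) * (1 / s + q * s / X + q * D ^ 2 / X ^ 2) +
        J ^ 2 * (X ^ 2 / q) * (1 / s + 1 / w₁ + q * w₂ / X + q * s / X) +
        (X / q + 1) * M) ≤ 1 / 16 * (X ^ 2 / (q * L ^ B'')) := by
  have hL0 : 0 < L := by linarith
  have hL1 : 1 ≤ L := by linarith
  have hq0 : 0 < q := by linarith
  have hX0 : 0 < X := by linarith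
  set W := X ^ 2 / q with hW
  have hW0 : 0 < W := by positivity
  have hτ0 : 0 < τ := by rw [hτ]; positivity
  have hM0 : 0 < M := by rw [hM]; positivity
  have hXq : 1 ≤ X / q := by rw [le_div_iff₀ hq0]; linarith
  have a1 : W * (1 / s + q * s / X + q * D ^ 2 / X ^ 2) ≤ W * (3 * τ) := by
    refine mul_le_mul_of_nonneg_left ?_ hW0.le
    linarith
  have a2 : J ^ 2 * W * (1 / s + 1 / w₁ + q * w₂ / X + q * s / X) ≤
      (3 * L ^ (b + 1)) ^ 2 * W * (4 * τ) := by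
    have e1 : J ^ 2 ≤ (3 * L ^ (b + 1)) ^ 2 := pow_le_pow_left₀ hJ0 hJ 2
    have e2 : 1 / s + 1 / w₁ + q * w₂ / X + q * s / X ≤ 4 * τ := by linarith
    calc J ^ 2 * W * (1 / s + 1 / w₁ + q * w₂ / X + q * s / X)
        ≤ J ^ 2 * W * (4 * τ) := mul_le_mul_of_nonneg_left e2 (by positivity)
      _ ≤ _ := by gcongr
  have a3 : (X / q + 1) * M ≤ 2 * W * (1 / L ^ Bm) := by
    calc (X / q + 1) * M ≤ (X / q + X / q) * M := by gcongr
      _ = 2 * W * (1 / L ^ Bm) := by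
        rw [hM, hW]
        field_simp
        ring
  have a4 : W * (3 * τ) ≤ 3 * (L ^ (2 * b + 2) * W * τ) := by
    have : 1 ≤ L ^ (2 * b + 2) := one_le_pow₀ hL1
    nlinarith [mul_pos hW0 hτ0]
  have a5 : (3 * L ^ (b + 1)) ^ 2 * W * (4 * τ) = 36 * (L ^ (2 * b + 2) * W * τ) := by ring
  have hsum : (X ^ 2 / q) * (1 / s + q * s / X + q * D ^ 2 / X ^ 2) +
        J ^ 2 * (X ^ 2 / q) * (1 / s + 1 / w₁ + q * w₂ / X + q * s / X) +
        (X / q + 1) * M ≤ 39 * (L ^ (2 * b + 2) * W * τ) + 2 * W * (1 / L ^ Bm) := by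
    rw [← hW]
    linarith
  calc C * L ^ c * ((X ^ 2 / q) * (1 / s + q * s / X + q * D ^ 2 / X ^ 2) +
        J ^ 2 * (X ^ 2 / q) * (1 / s + 1 / w₁ + q * w₂ / X + q * s / X) +
        (X / q + 1) * M)
      ≤ C * L ^ c * (39 * (L ^ (2 * b + 2) * W * τ) + 2 * W * (1 / L ^ Bm)) :=
        mul_le_mul_of_nonneg_left hsum (by positivity)
    _ = (41 * C) * (W / L ^ (B'' + 2)) := by
        have e1 : L ^ B₁ = L ^ (2 * b + 2) * (L ^ c * L ^ (B'' + 2)) := by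
          rw [hB₁, ← pow_add, ← pow_add]
          congr 1
          ring
        have e2 : L ^ Bm = L ^ c * L ^ (B'' + 2) := by
          rw [hBm, ← pow_add]
          congr 1
        rw [hτ, e1, e2]
        field_simp
        ring
    _ ≤ (1 / 16 * L) * (W / L ^ (B'' + 2)) := by
        refine mul_le_mul_of_nonneg_right ?_ (by positivity)
        linarith
    _ ≤ 1 / 16 * (X ^ 2 / (q * L ^ B'')) := by
        have e1 : X ^ 2 / (q * L ^ B'') = W / L ^ B'' := by rw [hW]; field_simp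
        rw [e1, mul_assoc]
        refine mul_le_mul_of_nonneg_left ?_ (by norm_num)
        rw [← mul_div_assoc, div_le_div_iff₀ (by positivity) (by positivity)]
        have e2 : L * L ^ B'' ≤ L ^ (B'' + 2) := by
          rw [← pow_succ']
          exact pow_le_pow_right₀ hL1 (by omega)
        calc L * W * L ^ B'' = W * (L * L ^ B'') := by ring
          _ ≤ W * L ^ (B'' + 2) := by gcongr

/-- arithmetic of the variance -/
lemma var_arith (E c b b₃ : ℕ) (C X L k D w₂ J M η ρ : ℝ) (hC : 0 < C) (hL : 1000 ≤ L)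
    (hLC : 93 * C ≤ L) (hX : 1 ≤ X) (hk0 : 0 ≤ k) (hkX : k ≤ X) (hw₂0 : 0 ≤ w₂)
    (hb₃ : b₃ = 2 * b + 2 + E + c + 1)
    (hη : η = 1 / L ^ (2 * b₃)) (hρ : ρ = 2 / L ^ (3 * b₃))
    (hM : M = X / L ^ (E + c + 1)) (hJ0 : 0 ≤ J) (hJ : J ≤ 3 * L ^ (b + 1))
    (h1 : k * (D ^ 2 + X) ≤ X ^ 2 / L ^ (E + c + 1)) (h2 : w₂ * k ≤ X) :
    C * L ^ c * (k * (D ^ 2 + X) + J ^ 2 * (ρ ^ 2 / η ^ 2 * (X ^ 2 + w₂ * k * X) +
        (η * X + k) * Real.sqrt η * X) + (X + k) * M) ≤ X ^ 2 / L ^ E := by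
  have hL0 : 0 < L := by linarith
  have hL1 : 1 ≤ L := by linarith
  have hX0 : 0 < X := by linarith
  have hη0 : 0 < η := by rw [hη]; positivity
  have hη1 : η ≤ 1 := by
    rw [hη, div_le_one (by positivity)]
    exact one_le_pow₀ hL1
  have hM0 : 0 < M := by rw [hM]; positivity
  have hsq : Real.sqrt η = 1 / L ^ b₃ := by
    rw [Real.sqrt_eq_iff_mul_self_eq hη0.le (by positivity), hη]
    rw [two_mul, pow_add]
    field_simp
  set P := X ^ 2 / L ^ (E + c + 1) with hP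
  have hP0 : 0 < P := by positivity
  have hJ2 : J ^ 2 ≤ 9 * L ^ (2 * b + 2) := by
    calc J ^ 2 ≤ (3 * L ^ (b + 1)) ^ 2 := pow_le_pow_left₀ hJ0 hJ 2
      _ = _ := by ring
  have hexp : L ^ b₃ = L ^ (2 * b + 2) * L ^ (E + c + 1) := by
    rw [hb₃, ← pow_add]
    congr 1
    ring
  have a1 : ρ ^ 2 / η ^ 2 * (X ^ 2 + w₂ * k * X) ≤ 8 * (X ^ 2 / L ^ b₃) := by
    have e1 : ρ ^ 2 / η ^ 2 = 4 / L ^ (2 * b₃) := by
      rw [hρ, hη]
      have : L ^ (3 * b₃) = L ^ b₃ * L ^ (2 * b₃) := by rw [← pow_add]; congr 1; ring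
      rw [this]
      have : L ^ (2 * b₃) = (L ^ b₃) ^ 2 := by rw [← pow_mul, mul_comm]
      rw [this]
      field_simp
      norm_num
    have e2 : X ^ 2 + w₂ * k * X ≤ 2 * X ^ 2 := by nlinarith
    have e3 : L ^ b₃ ≤ L ^ (2 * b₃) := pow_le_pow_right₀ hL1 (by omega)
    rw [e1]
    calc 4 / L ^ (2 * b₃) * (X ^ 2 + w₂ * k * X) ≤ 4 / L ^ (2 * b₃) * (2 * X ^ 2) := by gcongr
      _ ≤ 4 / L ^ b₃ * (2 * X ^ 2) := by gcongr
      _ = 8 * (X ^ 2 / L ^ b₃) := by ring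
  have a2 : (η * X + k) * Real.sqrt η * X ≤ 2 * (X ^ 2 / L ^ b₃) := by
    rw [hsq]
    have : η * X + k ≤ 2 * X := by nlinarith
    calc (η * X + k) * (1 / L ^ b₃) * X ≤ 2 * X * (1 / L ^ b₃) * X := by gcongr
      _ = _ := by ring
  have a3 : J ^ 2 * (ρ ^ 2 / η ^ 2 * (X ^ 2 + w₂ * k * X) + (η * X + k) * Real.sqrt η * X) ≤
      90 * P := by
    calc J ^ 2 * (ρ ^ 2 / η ^ 2 * (X ^ 2 + w₂ * k * X) + (η * X + k) * Real.sqrt η * X)
        ≤ 9 * L ^ (2 * b + 2) * (8 * (X ^ 2 / L ^ b₃) + 2 * (X ^ 2 / L ^ b₃)) := by gcongr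
      _ = 90 * P := by
          rw [hP, hexp]
          field_simp
          ring
  have a4 : (X + k) * M ≤ 2 * P := by
    calc (X + k) * M ≤ (X + X) * M := by gcongr
      _ = 2 * P := by rw [hM, hP]; ring
  calc C * L ^ c * (k * (D ^ 2 + X) + J ^ 2 * (ρ ^ 2 / η ^ 2 * (X ^ 2 + w₂ * k * X) +
        (η * X + k) * Real.sqrt η * X) + (X + k) * M)
      ≤ C * L ^ c * (93 * P) := by
        refine mul_le_mul_of_nonneg_left ?_ (by positivity)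
        linarith
    _ = (93 * C) * (X ^ 2 / L ^ (E + 1)) := by
        rw [hP]
        have : L ^ (E + c + 1) = L ^ c * L ^ (E + 1) := by rw [← pow_add]; congr 1; ring
        rw [this]
        field_simp
    _ ≤ L * (X ^ 2 / L ^ (E + 1)) := by gcongr
    _ = X ^ 2 / L ^ E := by
        rw [pow_succ' L E]
        field_simp

/-- arithmetic of the major arcs -/
lemma major_arith (B'' B₂ E : ℕ) (G X L q s φ z V1 V2 T3 : ℝ) (hG : 0 < G) (hL : 1000 ≤ L)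
    (hLG : 1148 * G ≤ L) (hX : 1 ≤ X) (hq : 1 ≤ q) (hs : 1 ≤ s) (hE : E = B'' + 2 * B₂ + 2)
    (hz : 0 < z) (hφ : 0 < φ)
    (hsφ : q * s / φ ≤ 4 * L) (h1 : V1 ≤ X ^ 2 / L ^ E) (h2 : V2 ≤ X ^ 2 / L ^ E)
    (h3 : (X / z) ^ 2 ≤ X ^ 2 / L ^ E) (h4 : X ^ 2 / z ≤ X ^ 2 / L ^ E)
    (h5 : q * s * (q * s * T3) ≤ X ^ 2 / L ^ E) :
    2 * s * (1 + (2 * Real.pi * (L ^ B₂)) ^ 2) *
      (G * ((V1 + V2 + (X / z) ^ 2) / φ + X ^ 2 / (q * s * z) + (q * s) * T3)) ≤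
    X ^ 2 / (q * L ^ B'') := by
  have hL0 : 0 < L := by linarith
  have hL1 : 1 ≤ L := by linarith
  have hq0 : 0 < q := by linarith
  have hs0 : 0 < s := by linarith
  have hX0 : 0 < X := by linarith
  have hpi : Real.pi ^ 2 ≤ 10 := by nlinarith [Real.pi_lt_d2, Real.pi_pos]
  have hB2 : 1 ≤ L ^ B₂ := one_le_pow₀ hL1
  have hT : 1 + (2 * Real.pi * (L ^ B₂)) ^ 2 ≤ 41 * L ^ (2 * B₂) := by
    have e1 : L ^ (2 * B₂) = (L ^ B₂) ^ 2 := by rw [mul_comm, pow_mul]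
    rw [e1]
    nlinarith [one_le_pow₀ hB2 (n := 2), sq_nonneg (L ^ B₂)]
  have hT0 : 0 ≤ 1 + (2 * Real.pi * (L ^ B₂)) ^ 2 := by positivity
  set T := 1 + (2 * Real.pi * (L ^ B₂)) ^ 2 with hTdef
  set P := X ^ 2 / L ^ E with hP
  have hP0 : 0 < P := by positivity
  have a1 : q * (s * ((V1 + V2 + (X / z) ^ 2) / φ)) ≤ 12 * L * P := by
    calc q * (s * ((V1 + V2 + (X / z) ^ 2) / φ)) = q * s / φ * (V1 + V2 + (X / z) ^ 2) := by ring
      _ ≤ q * s / φ * (3 * P) := by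
          refine mul_le_mul_of_nonneg_left ?_ (by positivity)
          linarith
      _ ≤ 4 * L * (3 * P) := by gcongr
      _ = _ := by ring
  have a2 : q * (s * (X ^ 2 / (q * s * z))) ≤ L * P := by
    have : q * (s * (X ^ 2 / (q * s * z))) = X ^ 2 / z := by field_simp
    rw [this]
    nlinarith
  have a3 : q * (s * ((q * s) * T3)) ≤ L * P := by
    have : q * (s * ((q * s) * T3)) = q * s * (q * s * T3) := by ring
    rw [this]
    nlinarith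
  rw [le_div_iff₀ (by positivity)]
  calc 2 * s * T * (G * ((V1 + V2 + (X / z) ^ 2) / φ + X ^ 2 / (q * s * z) + (q * s) * T3)) *
        (q * L ^ B'')
      = 2 * G * L ^ B'' * T * (q * (s * ((V1 + V2 + (X / z) ^ 2) / φ)) +
          q * (s * (X ^ 2 / (q * s * z))) + q * (s * ((q * s) * T3))) := by ring
    _ ≤ 2 * G * L ^ B'' * T * (14 * L * P) := by
        refine mul_le_mul_of_nonneg_left ?_ (by positivity)
        linarith
    _ ≤ 2 * G * L ^ B'' * (41 * L ^ (2 * B₂)) * (14 * L * P) := by gcongr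
    _ = (1148 * G) * (L ^ (B'' + 2 * B₂ + 1) * P) := by ring
    _ ≤ L * (L ^ (B'' + 2 * B₂ + 1) * P) := by gcongr
    _ = X ^ 2 := by
        rw [hP, hE]
        have : L ^ (B'' + 2 * B₂ + 2) = L * L ^ (B'' + 2 * B₂ + 1) := by ring
        rw [this]
        field_simp

end SupFaux

end Pool.Agent.HS
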