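import Pool.Agent.Work.MP_92f640_nt.HL.Major
import Pool.Agent.Work.MP_92f640_nt.HL.VarA

/-! # Module MajorGen: `major` (HL/Major) and Parseval for an arbitrary function -/

namespace Pool.Agent.HS

open Finset Pool.Agent.BV Pool.Agent.HL

/-- Abel summation for exponential sums. -/
private lemma mg_abel (f : ℕ → ℂ) (β : ℝ) (x : ℕ) :
    ∑ n ∈ Icc 1 x, f n * e (n * β) = (∑ n ∈ Icc 1 x, f n) * e (x * β) +
      ∑ y ∈ range x, (∑ n ∈ Icc 1 y, f n) * (e (y * β) - e ((y + 1 : ℕ) * β)) := by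
  induction x with
  | zero => simp
  | succ x ih =>
    rw [Finset.sum_Icc_succ_top (by omega), Finset.sum_Icc_succ_top (by omega), ih,
      Finset.sum_range_succ]
    ring

private lemma mg_e_sub (β : ℝ) (y : ℕ) :
    ‖e (y * β) - e ((y + 1 : ℕ) * β)‖ ≤ 2 * Real.pi * |β| := by
  have h1 : e ((y + 1 : ℕ) * β) = e (y * β) * e β := by
    rw [← add_e_add]; congr 1; push_cast; ring
  have h2 : e (y * β) - e (y * β) * e β = e (y * β) * (1 - e β) := by ring
  rw [h1, h2, norm_mul, add_norm_e, one_mul, norm_sub_rev]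
  have h3 : e β = Complex.exp (Complex.I * ((2 * Real.pi * β : ℝ) : ℂ)) := by
    unfold e
    congr 1
    push_cast
    ring
  rw [h3]
  refine (Real.norm_exp_I_mul_ofReal_sub_one_le).trans ?_
  rw [Real.norm_eq_abs, abs_mul, abs_mul, abs_of_pos Real.pi_pos, abs_two]

private lemma mg_abel_norm (f : ℕ → ℂ) (β : ℝ) (x : ℕ) :
    ‖∑ n ∈ Icc 1 x, f n * e (n * β)‖ ≤ ‖∑ n ∈ Icc 1 x, f n‖ +
      2 * Real.pi * |β| * ∑ y ∈ range x, ‖∑ n ∈ Icc 1 y, f n‖ := by
  rw [mg_abel]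
  refine (norm_add_le _ _).trans (add_le_add ?_ ?_)
  · rw [norm_mul, add_norm_e, mul_one]
  · refine (norm_sum_le _ _).trans ?_
    rw [Finset.mul_sum]
    refine Finset.sum_le_sum fun y _ => ?_
    rw [norm_mul, mul_comm]
    exact mul_le_mul_of_nonneg_right (mg_e_sub β y) (norm_nonneg _)

theorem major_gen (f : ℕ → ℂ) (x q s : ℕ) (hq : 1 ≤ q) (hs : 1 ≤ s) (α Θ Kv : ℝ) (b : ℤ)
    (hα : |q * α - b / s| ≤ Θ)
    (hv : ∀ y ≤ x, ∑ c ∈ range (q * s), ‖∑ n ∈ (Icc 1 y).filter (fun n => n ≡ c [MOD q * s]), f n‖ ^ 2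
      ≤ Kv) :
    VV q x f α ≤ 2 * s * (1 + (2 * Real.pi * Θ * x / q) ^ 2) * Kv := by
  set Ef : ℕ → ℕ → ℂ := fun c y => ∑ n ∈ (Icc 1 y).filter (fun n => n ≡ c [MOD q * s]), f n with hEf
  replace hv : ∀ y ≤ x, ∑ c ∈ range (q * s), ‖Ef c y‖ ^ 2 ≤ Kv := hv
  have hq0 : (0 : ℝ) < q := by exact_mod_cast hq
  have hs0 : (0 : ℝ) < s := by exact_mod_cast hs
  have hΘ : 0 ≤ Θ := (abs_nonneg _).trans hα
  set θ : ℝ := q * α - b / s with hθ
  set β : ℝ := θ / q with hβ
  have hαeq : α = b / (q * s) + β := by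
    rw [hβ, hθ]; field_simp; ring
  set h : ℕ → ℂ := f with hh
  -- the sum over a class modulo `q s`
  set G : ℕ → ℂ := fun c => ∑ n ∈ (Icc 1 x).filter (fun n => n ≡ c [MOD q * s]), h n * e (n * α)
    with hG
  have hGn : ∀ c, ‖G c‖ ≤ ‖Ef c x‖ +
      2 * Real.pi * |β| * ∑ y ∈ range x, ‖Ef c y‖ := by
    intro c
    have h1 : G c = e (c * (b / (q * s))) *
        ∑ n ∈ Icc 1 x, (if n ≡ c [MOD q * s] then h n else 0) * e (n * β) := by
      rw [hG]
      simp only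
      rw [Finset.sum_filter, Finset.mul_sum]
      refine Finset.sum_congr rfl fun n _ => ?_
      split_ifs with hn
      · have h2 : e (n * α) = e (c * (b / (q * s))) * e (n * β) := by
          rw [← add_e_add, hαeq]
          obtain ⟨k, hk⟩ := (Nat.modEq_iff_dvd.1 hn)
          have h3 : (n : ℝ) = c - (q * s) * k := by
            have : ((c : ℤ) : ℝ) - ((n : ℤ) : ℝ) = ((q * s : ℕ) : ℤ) * k := by
              exact_mod_cast congrArg (Int.cast : ℤ → ℝ) hk
            push_cast at this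
            linarith
          have h4 : (n : ℝ) * (b / (q * s) + β) = c * (b / (q * s)) + n * β - ((k * b : ℤ) : ℝ) := by
            rw [mul_add, h3]
            push_cast
            field_simp
            ring
          rw [h4, add_e_sub_int]
        rw [h2]; ring
      · simp
    rw [h1, norm_mul, add_norm_e, one_mul]
    refine (mg_abel_norm _ β x).trans ?_
    have h5 : ∀ y, ∑ n ∈ Icc 1 y, (if n ≡ c [MOD q * s] then h n else 0) = Ef c y := by
      intro y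
      rw [hEf]
      simp only
      rw [Finset.sum_filter]
    simp only [h5]
    exact le_rfl
  have hβΘ : |β| ≤ Θ / q := by
    rw [hβ, abs_div, abs_of_pos hq0]
    exact div_le_div_of_nonneg_right hα hq0.le
  have hG2 : ∀ c, ‖G c‖ ^ 2 ≤ 2 * ‖Ef c x‖ ^ 2 +
      2 * (2 * Real.pi * Θ / q) ^ 2 * (x * ∑ y ∈ range x, ‖Ef c y‖ ^ 2) := by
    intro c
    have hS0 : 0 ≤ ∑ y ∈ range x, ‖Ef c y‖ := Finset.sum_nonneg fun _ _ => norm_nonneg _
    have h1 : ‖G c‖ ≤ ‖Ef c x‖ + (2 * Real.pi * Θ / q) * ∑ y ∈ range x, ‖Ef c y‖ := by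
      refine (hGn c).trans (add_le_add le_rfl (mul_le_mul_of_nonneg_right ?_ hS0))
      rw [mul_div_assoc]
      exact mul_le_mul_of_nonneg_left hβΘ (by positivity)
    have h2 : (∑ y ∈ range x, ‖Ef c y‖) ^ 2 ≤ x * ∑ y ∈ range x, ‖Ef c y‖ ^ 2 := by
      have := sq_sum_le_card_mul_sum_sq (s := range x) (f := fun y => ‖Ef c y‖)
      rwa [Finset.card_range] at this
    calc ‖G c‖ ^ 2 ≤ (‖Ef c x‖ + (2 * Real.pi * Θ / q) *
          ∑ y ∈ range x, ‖Ef c y‖) ^ 2 := by gcongr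
      _ ≤ 2 * (‖Ef c x‖ ^ 2 + ((2 * Real.pi * Θ / q) *
          ∑ y ∈ range x, ‖Ef c y‖) ^ 2) := add_sq_le
      _ = 2 * ‖Ef c x‖ ^ 2 + 2 * (2 * Real.pi * Θ / q) ^ 2 *
          (∑ y ∈ range x, ‖Ef c y‖) ^ 2 := by ring
      _ ≤ _ := by gcongr
  -- splitting of the classes modulo `q`
  have hsplit : ∀ a, a < q → ∑ n ∈ (Icc 1 x).filter (fun n => n % q = a), h n * e (n * α) =
      ∑ c ∈ (range (q * s)).filter (fun c => c % q = a), G c := by
    intro a ha
    have hqs : 0 < q * s := Nat.mul_pos hq hs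
    have hmaps : ∀ n ∈ (Icc 1 x).filter (fun n => n % q = a),
        n % (q * s) ∈ (range (q * s)).filter (fun c => c % q = a) := by
      intro n hn
      rw [mem_filter] at hn ⊢
      refine ⟨mem_range.2 (Nat.mod_lt _ hqs), ?_⟩
      rw [Nat.mod_mul_right_mod, hn.2]
    rw [← Finset.sum_fiberwise_of_maps_to hmaps]
    refine Finset.sum_congr rfl fun c hc => ?_
    rw [hG]
    simp only
    refine Finset.sum_congr ?_ fun _ _ => rfl
    rw [mem_filter, mem_range] at hc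
    ext n
    simp only [mem_filter]
    constructor
    · rintro ⟨⟨h1, _⟩, h3⟩
      refine ⟨h1, ?_⟩
      rw [Nat.ModEq, h3, Nat.mod_eq_of_lt hc.1]
    · rintro ⟨h1, h2⟩
      have h3 : n % (q * s) = c := by
        rw [Nat.ModEq, Nat.mod_eq_of_lt hc.1] at h2
        exact h2
      refine ⟨⟨h1, ?_⟩, h3⟩
      rw [← hc.2, ← h3, Nat.mod_mul_right_mod]
  have hcard : ∀ a, a < q → ((range (q * s)).filter (fun c => c % q = a)).card ≤ s := by
    intro a ha
    have h1 : (range (q * s)).filter (fun c => c % q = a) ⊆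
        (range s).image (fun i => q * i + a) := by
      intro c hc
      rw [mem_filter, mem_range] at hc
      rw [mem_image]
      refine ⟨c / q, mem_range.2 (Nat.div_lt_of_lt_mul hc.1), ?_⟩
      have := Nat.div_add_mod c q
      rw [hc.2] at this
      exact this
    refine (Finset.card_le_card h1).trans (Finset.card_image_le.trans ?_)
    rw [Finset.card_range]
  have hKv0 : 0 ≤ Kv := (Finset.sum_nonneg fun _ _ => by positivity).trans (hv 0 (Nat.zero_le _))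
  have hVV : VV q x h α ≤ s * ∑ c ∈ range (q * s), ‖G c‖ ^ 2 := by
    unfold VV
    calc ∑ a ∈ range q, ‖∑ n ∈ (Icc 1 x).filter (fun n => n % q = a), h n * e (n * α)‖ ^ 2
        ≤ ∑ a ∈ range q, s * ∑ c ∈ (range (q * s)).filter (fun c => c % q = a), ‖G c‖ ^ 2 := by
          refine Finset.sum_le_sum fun a ha => ?_
          rw [mem_range] at ha
          rw [hsplit a ha]
          have h1 : ‖∑ c ∈ (range (q * s)).filter (fun c => c % q = a), G c‖ ≤
              ∑ c ∈ (range (q * s)).filter (fun c => c % q = a), ‖G c‖ := norm_sum_le _ _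
          have h2 := sq_sum_le_card_mul_sum_sq (s := (range (q * s)).filter (fun c => c % q = a))
            (f := fun c => ‖G c‖)
          have h3 : (((range (q * s)).filter (fun c => c % q = a)).card : ℝ) ≤ s := by
            exact_mod_cast hcard a ha
          calc _ ≤ (∑ c ∈ (range (q * s)).filter (fun c => c % q = a), ‖G c‖) ^ 2 := by gcongr
            _ ≤ _ := h2
            _ ≤ _ := by gcongr
      _ = s * ∑ a ∈ range q, ∑ c ∈ (range (q * s)).filter (fun c => c % q = a), ‖G c‖ ^ 2 := by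
          rw [Finset.mul_sum]
      _ = s * ∑ c ∈ range (q * s), ‖G c‖ ^ 2 := by
          congr 1
          exact Finset.sum_fiberwise_of_maps_to (fun c _ => mem_range.2 (Nat.mod_lt _ hq)) _
  refine hVV.trans ?_
  have hsum : ∑ c ∈ range (q * s), ‖G c‖ ^ 2 ≤
      2 * Kv + 2 * (2 * Real.pi * Θ / q) ^ 2 * (x * (x * Kv)) := by
    calc ∑ c ∈ range (q * s), ‖G c‖ ^ 2
        ≤ ∑ c ∈ range (q * s), (2 * ‖Ef c x‖ ^ 2 +
          2 * (2 * Real.pi * Θ / q) ^ 2 * (x * ∑ y ∈ range x, ‖Ef c y‖ ^ 2)) :=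
          Finset.sum_le_sum fun c _ => hG2 c
      _ = 2 * ∑ c ∈ range (q * s), ‖Ef c x‖ ^ 2 +
          2 * (2 * Real.pi * Θ / q) ^ 2 *
            (x * ∑ y ∈ range x, ∑ c ∈ range (q * s), ‖Ef c y‖ ^ 2) := by
          rw [Finset.sum_add_distrib, ← Finset.mul_sum, ← Finset.mul_sum, ← Finset.mul_sum,
            Finset.sum_comm]
      _ ≤ _ := by
          have h1 : ∑ y ∈ range x, ∑ c ∈ range (q * s), ‖Ef c y‖ ^ 2 ≤ x * Kv := by
            calc _ ≤ ∑ y ∈ range x, Kv :=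
                  Finset.sum_le_sum fun y hy => hv y (mem_range.1 hy).le
              _ = _ := by rw [Finset.sum_const, Finset.card_range, nsmul_eq_mul]
          have h2 := hv x le_rfl
          gcongr
  calc (s : ℝ) * ∑ c ∈ range (q * s), ‖G c‖ ^ 2
      ≤ s * (2 * Kv + 2 * (2 * Real.pi * Θ / q) ^ 2 * (x * (x * Kv))) := by gcongr
    _ = _ := by ring


/-- the sum of a function over a residue class, by characters -/
lemma mg_class (k : ℕ) [NeZero k] (y : ℕ) (f : ℕ → ℂ) (u : (ZMod k)ˣ) :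
    ∑ n ∈ (Icc 1 y).filter (fun n => n ≡ (u : ZMod k).val [MOD k]), f n =
      (1 / (k.totient : ℂ)) * ∑ χ : DirichletCharacter ℂ k, χ ((u⁻¹ : (ZMod k)ˣ) : ZMod k) *
        ∑ n ∈ Icc 1 y, f n * χ (n : ZMod k) := by
  have hφ : (k.totient : ℂ) ≠ 0 := by
    exact_mod_cast (Nat.totient_pos.2 (Nat.pos_of_ne_zero (NeZero.ne k))).ne'
  have h1 : ∀ n : ℕ, ∑ χ : DirichletCharacter ℂ k, χ ((u⁻¹ : (ZMod k)ˣ) : ZMod k) *
      χ (n : ZMod k) = if (u : ZMod k) = (n : ZMod k) then (k.totient : ℂ) else 0 := by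
    intro n
    have h := DirichletCharacter.sum_char_inv_mul_char_eq ℂ u.isUnit (n : ZMod k)
    rw [← h]
    refine sum_congr rfl fun χ _ => ?_
    rw [ZMod.inv_coe_unit]
  simp only [mul_sum]
  rw [sum_comm]
  have h2 : ∀ n ∈ Icc 1 y, ∑ χ : DirichletCharacter ℂ k, 1 / (k.totient : ℂ) *
      (χ ((u⁻¹ : (ZMod k)ˣ) : ZMod k) * (f n * χ (n : ZMod k))) =
      if n ≡ (u : ZMod k).val [MOD k] then f n else 0 := by
    intro n _
    have h3 : ∑ χ : DirichletCharacter ℂ k, 1 / (k.totient : ℂ) *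
        (χ ((u⁻¹ : (ZMod k)ˣ) : ZMod k) * (f n * χ (n : ZMod k))) =
        (1 / (k.totient : ℂ)) * f n * ∑ χ : DirichletCharacter ℂ k,
          χ ((u⁻¹ : (ZMod k)ˣ) : ZMod k) * χ (n : ZMod k) := by
      rw [mul_sum]
      exact sum_congr rfl fun χ _ => by ring
    rw [h3, h1 n]
    have h4 : (u : ZMod k) = (n : ZMod k) ↔ n ≡ (u : ZMod k).val [MOD k] := by
      rw [← ZMod.natCast_eq_natCast_iff, ZMod.natCast_zmod_val]
      exact eq_comm
    by_cases h5 : n ≡ (u : ZMod k).val [MOD k]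
    · rw [if_pos (h4.2 h5), if_pos h5]
      field_simp
    · rw [if_neg (fun h => h5 (h4.1 h)), if_neg h5, mul_zero]
  rw [sum_congr rfl h2, sum_filter]

/-- Parseval: a function in the coprime classes mod `k`, without the principal character -/
theorem parseval_gen (k y : ℕ) [NeZero k] (f : ℕ → ℂ) :
    ∑ c ∈ (range k).filter (fun c => c.Coprime k),
      ‖∑ n ∈ (Icc 1 y).filter (fun n => n ≡ c [MOD k]), f n -
        (∑ n ∈ (Icc 1 y).filter (fun n => n.Coprime k), f n) / (k.totient : ℂ)‖ ^ 2 =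
      (1 / (k.totient : ℝ)) * ∑ χ ∈ (univ : Finset (DirichletCharacter ℂ k)).erase 1,
        ‖∑ n ∈ Icc 1 y, f n * χ (n : ZMod k)‖ ^ 2 := by
  have hφ : 0 < k.totient := Nat.totient_pos.2 (Nat.pos_of_ne_zero (NeZero.ne k))
  have hφR : (0 : ℝ) < k.totient := by exact_mod_cast hφ
  have hφC : (k.totient : ℂ) ≠ 0 := by exact_mod_cast hφ.ne'
  set S : DirichletCharacter ℂ k → ℂ := fun χ => ∑ n ∈ Icc 1 y, f n * χ (n : ZMod k) with hS
  set g : DirichletCharacter ℂ k → ℂ := fun χ => if χ = 1 then 0 else S χ with hg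
  have hone : ∑ n ∈ (Icc 1 y).filter (fun n => n.Coprime k), f n = S 1 := by
    rw [hS]
    simp only
    rw [sum_filter]
    refine sum_congr rfl fun n _ => ?_
    by_cases hn : n.Coprime k
    · rw [if_pos hn, MulChar.one_apply ((ZMod.isUnit_iff_coprime n k).2 hn), mul_one]
    · rw [if_neg hn, MulChar.map_nonunit _ (fun h => hn ((ZMod.isUnit_iff_coprime n k).1 h)),
        mul_zero]
  rw [hone]
  have h1 : ∀ u : (ZMod k)ˣ,
      ‖∑ n ∈ (Icc 1 y).filter (fun n => n ≡ (u : ZMod k).val [MOD k]), f n -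
        S 1 / (k.totient : ℂ)‖ ^ 2 =
      (1 / (k.totient : ℝ)) ^ 2 *
        ‖∑ χ : DirichletCharacter ℂ k, χ ((u⁻¹ : (ZMod k)ˣ) : ZMod k) * g χ‖ ^ 2 := by
    intro u
    have h2 : ∑ n ∈ (Icc 1 y).filter (fun n => n ≡ (u : ZMod k).val [MOD k]), f n -
        S 1 / (k.totient : ℂ) =
        (1 / (k.totient : ℂ)) *
          ∑ χ : DirichletCharacter ℂ k, χ ((u⁻¹ : (ZMod k)ˣ) : ZMod k) * g χ := by
      rw [mg_class, ← add_sum_erase univ _ (mem_univ (1 : DirichletCharacter ℂ k)),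
        ← add_sum_erase univ (fun χ : DirichletCharacter ℂ k =>
          χ ((u⁻¹ : (ZMod k)ˣ) : ZMod k) * g χ) (mem_univ (1 : DirichletCharacter ℂ k)),
        MulChar.one_apply (u⁻¹ : (ZMod k)ˣ).isUnit, one_mul]
      have h3 : ∑ χ ∈ (univ : Finset (DirichletCharacter ℂ k)).erase 1,
          χ ((u⁻¹ : (ZMod k)ˣ) : ZMod k) * g χ =
          ∑ χ ∈ (univ : Finset (DirichletCharacter ℂ k)).erase 1,
            χ ((u⁻¹ : (ZMod k)ˣ) : ZMod k) * ∑ n ∈ Icc 1 y, f n * χ (n : ZMod k) := by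
        refine sum_congr rfl fun χ hχ => ?_
        rw [hg]
        simp only
        rw [if_neg (mem_erase.1 hχ).1]
      rw [h3]
      have h4 : g 1 = 0 := by rw [hg]; simp
      rw [h4]
      simp only [hS]
      ring
    rw [h2, norm_mul, mul_pow]
    congr 2
    rw [norm_div, norm_one, Complex.norm_natCast]
  rw [varA_sum_units k (fun c => ‖∑ n ∈ (Icc 1 y).filter (fun n => n ≡ c [MOD k]), f n -
        S 1 / (k.totient : ℂ)‖ ^ 2)]
  rw [sum_congr rfl fun u _ => h1 u, ← mul_sum]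
  have h5 : ∑ u : (ZMod k)ˣ,
      ‖∑ χ : DirichletCharacter ℂ k, χ ((u⁻¹ : (ZMod k)ˣ) : ZMod k) * g χ‖ ^ 2 =
      ∑ u : (ZMod k)ˣ, ‖∑ χ : DirichletCharacter ℂ k, χ (u : ZMod k) * g χ‖ ^ 2 :=
    Equiv.sum_comp (Equiv.inv (ZMod k)ˣ)
      (fun u : (ZMod k)ˣ => ‖∑ χ : DirichletCharacter ℂ k, χ (u : ZMod k) * g χ‖ ^ 2)
  rw [h5, varA_parseval]
  have h6 : ∑ χ : DirichletCharacter ℂ k, ‖g χ‖ ^ 2 =
      ∑ χ ∈ (univ : Finset (DirichletCharacter ℂ k)).erase 1, ‖S χ‖ ^ 2 := by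
    rw [← add_sum_erase univ _ (mem_univ (1 : DirichletCharacter ℂ k))]
    have h4 : g 1 = 0 := by rw [hg]; simp
    rw [h4, norm_zero]
    have h7 : ∀ χ ∈ (univ : Finset (DirichletCharacter ℂ k)).erase 1, ‖g χ‖ ^ 2 = ‖S χ‖ ^ 2 := by
      intro χ hχ
      rw [hg]
      simp only
      rw [if_neg (mem_erase.1 hχ).1]
    rw [sum_congr rfl h7]
    simp
  rw [h6]
  field_simp
  rfl

end Pool.Agent.HS
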