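import Pool.Agent.Work.MP_92f640_nt.HS.Defs
import Pool.Agent.Work.MP_92f640_nt.HL.VarB
import Pool.Agent.Work.MP_92f640_nt.HL.Evt

/-! # Module SwFA: from the primitive characters to all characters mod `q s` (part of SwF) -/

namespace Pool.Agent.HS

open Finset Pool.Agent.BV Pool.Agent.HL Filter

/-- the number of prime factors -/
theorem card_primeFactors_le (k : ℕ) (hk : k ≠ 0) :
    (k.primeFactors.card : ℝ) ≤ 2 * Real.log k := by
  have h1 : 2 ^ k.primeFactors.card ≤ k := by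
    calc 2 ^ k.primeFactors.card ≤ ∏ p ∈ k.primeFactors, p := by
          apply Finset.pow_card_le_prod
          intro p hp
          exact (Nat.prime_of_mem_primeFactors hp).two_le
      _ ≤ k := Nat.le_of_dvd (Nat.pos_of_ne_zero hk) (Nat.prod_primeFactors_dvd k)
  have h2 : (2 : ℝ) ^ k.primeFactors.card ≤ k := by exact_mod_cast h1
  have h3 : Real.log ((2 : ℝ) ^ k.primeFactors.card) ≤ Real.log k :=
    Real.log_le_log (by positivity) h2
  rw [Real.log_pow] at h3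
  have h4 := Real.log_two_gt_d9
  have h5 : (0 : ℝ) ≤ k.primeFactors.card := by positivity
  nlinarith

/-- the number of integers up to `u` with a prime factor `≥ y` in common with `k` -/
theorem card_common (k y u : ℕ) (hk : k ≠ 0) (hy : 1 ≤ y) :
    (((Icc 1 u).filter (fun c => ∃ p ∈ k.primeFactors, y ≤ p ∧ p ∣ c)).card : ℝ) ≤
      2 * Real.log k * (u / y) := by
  have h1 : (Icc 1 u).filter (fun c => ∃ p ∈ k.primeFactors, y ≤ p ∧ p ∣ c) ⊆
      (k.primeFactors.filter (fun p => y ≤ p)).biUnion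
        (fun p => (Icc 1 u).filter (fun c => p ∣ c)) := by
    intro c hc
    obtain ⟨hc1, p, hp, hyp, hpc⟩ := mem_filter.1 hc
    rw [mem_biUnion]
    exact ⟨p, mem_filter.2 ⟨hp, hyp⟩, mem_filter.2 ⟨hc1, hpc⟩⟩
  have hy0 : (0 : ℝ) < y := by exact_mod_cast hy
  calc (((Icc 1 u).filter (fun c => ∃ p ∈ k.primeFactors, y ≤ p ∧ p ∣ c)).card : ℝ)
      ≤ (((k.primeFactors.filter (fun p => y ≤ p)).biUnion
        (fun p => (Icc 1 u).filter (fun c => p ∣ c))).card : ℝ) := by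
        exact_mod_cast card_le_card h1
    _ ≤ ∑ p ∈ k.primeFactors.filter (fun p => y ≤ p),
        (((Icc 1 u).filter (fun c => p ∣ c)).card : ℝ) := by
        exact_mod_cast card_biUnion_le
    _ ≤ ∑ p ∈ k.primeFactors.filter (fun p => y ≤ p), (u / y : ℝ) := by
        refine sum_le_sum fun p hp => ?_
        obtain ⟨hp1, hp2⟩ := mem_filter.1 hp
        have h2 : ((Icc 1 u).filter (fun c => p ∣ c)).card = u / p := by
          have := Nat.Ioc_filter_dvd_card_eq_div u p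
          rw [← this]
          congr 1
        rw [h2]
        calc ((u / p : ℕ) : ℝ) ≤ (u : ℝ) / p := Nat.cast_div_le
          _ ≤ (u : ℝ) / y := by
            have : (y : ℝ) ≤ p := by exact_mod_cast hp2
            gcongr
    _ = ((k.primeFactors.filter (fun p => y ≤ p)).card : ℝ) * (u / y) := by
        rw [sum_const, nsmul_eq_mul]
    _ ≤ (k.primeFactors.card : ℝ) * (u / y) := by
        have : ((k.primeFactors.filter (fun p => y ≤ p)).card : ℝ) ≤ k.primeFactors.card := by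
          exact_mod_cast card_filter_le _ _
        gcongr
    _ ≤ 2 * Real.log k * (u / y) := by
        have := card_primeFactors_le k hk
        gcongr

/-- passing to the primitive character, for coefficients supported on integers without small prime
factors -/
theorem sum_prim' {k : ℕ} [NeZero k] (χ : DirichletCharacter ℂ k) (A : ℕ → ℝ) (y u : ℕ)
    (hy : 1 ≤ y) (hA : ∀ c, |A c| ≤ 1) (hAy : ∀ c, A c ≠ 0 → ∀ p : ℕ, p.Prime → p ∣ c → y ≤ p) :
    ‖∑ c ∈ Icc 1 u, ((A c : ℝ) : ℂ) * χ (c : ZMod k) -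
      ∑ c ∈ Icc 1 u, ((A c : ℝ) : ℂ) * χ.primitiveCharacter (c : ZMod χ.conductor)‖ ≤
      2 * Real.log k * (u / y) := by
  have hk : k ≠ 0 := NeZero.ne k
  rw [← sum_sub_distrib]
  have hc : ∀ n : ℕ, n.Coprime k → χ (n : ZMod k) =
      χ.primitiveCharacter (n : ZMod χ.conductor) := by
    intro n hn
    have h1 : IsCoprime (n : ℤ) (k : ℤ) := Nat.isCoprime_iff_coprime.2 hn
    have h2 := DirichletCharacter.primitiveCharacter_apply_of_isCoprime χ h1
    simp only [Int.cast_natCast] at h2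
    exact h2.symm
  have hf : ∀ n : ℕ, ¬ n.Coprime k → χ (n : ZMod k) = 0 := by
    intro n hn
    apply MulChar.map_nonunit
    rw [ZMod.isUnit_iff_coprime]
    exact hn
  have h1 : ∑ n ∈ Icc 1 u, (((A n : ℝ) : ℂ) * χ (n : ZMod k) -
      ((A n : ℝ) : ℂ) * χ.primitiveCharacter (n : ZMod χ.conductor)) =
      ∑ n ∈ (Icc 1 u).filter (fun c => ∃ p ∈ k.primeFactors, y ≤ p ∧ p ∣ c),
        (((A n : ℝ) : ℂ) * χ (n : ZMod k) -
          ((A n : ℝ) : ℂ) * χ.primitiveCharacter (n : ZMod χ.conductor)) := by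
    symm
    apply sum_subset (filter_subset _ _)
    intro n hn hn'
    by_cases hA0 : A n = 0
    · rw [hA0]; simp
    have h2 : n.Coprime k := by
      by_contra h
      apply hn'
      obtain ⟨p, hp, hpn, hpk⟩ := Nat.Prime.not_coprime_iff_dvd.1 h
      exact mem_filter.2 ⟨hn, p, Nat.mem_primeFactors.2 ⟨hp, hpk, hk⟩, hAy n hA0 p hp hpn, hpn⟩
    rw [hc n h2, sub_self]
  rw [h1]
  refine (norm_sum_le _ _).trans ?_
  refine le_trans ?_ (card_common k y u hk hy)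
  rw [card_eq_sum_ones, Nat.cast_sum]
  refine sum_le_sum fun n hn => ?_
  obtain ⟨hn1, p, hp, hyp, hpn⟩ := mem_filter.1 hn
  have hncop : ¬ n.Coprime k :=
    Nat.Prime.not_coprime_iff_dvd.2 ⟨p, Nat.prime_of_mem_primeFactors hp, hpn,
      Nat.dvd_of_mem_primeFactors hp⟩
  rw [hf n hncop, mul_zero, zero_sub, norm_neg, norm_mul, Complex.norm_real, Real.norm_eq_abs]
  calc |A n| * ‖χ.primitiveCharacter (n : ZMod χ.conductor)‖ ≤ 1 * 1 := by
        gcongr
        · exact hA n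
        · exact DirichletCharacter.norm_le_one _ _
    _ = ((1 : ℕ) : ℝ) := by norm_num

/-- `y0` beats the powers of the logarithm -/
theorem evt_y0 (c : ℝ) (k : ℕ) : ∀ᶠ x : ℕ in atTop, c * (Real.log x) ^ k ≤ y0 x := by
  have h1 : Tendsto (fun t : ℝ => Real.exp t / t ^ (2 * k)) atTop atTop :=
    Real.tendsto_exp_div_pow_atTop (2 * k)
  have h2 : Tendsto (fun x : ℕ => Real.sqrt (Real.log (x : ℝ))) atTop atTop :=
    Real.tendsto_sqrt_atTop.comp (Real.tendsto_log_atTop.comp tendsto_natCast_atTop_atTop)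
  have h3 := h1.comp h2
  filter_upwards [h3.eventually_ge_atTop c, evt_log 1] with x hx hL
  have hL0 : 0 < Real.log x := by linarith
  have hs : 0 < Real.sqrt (Real.log x) := Real.sqrt_pos.2 hL0
  simp only [Function.comp] at hx
  rw [le_div_iff₀ (by positivity)] at hx
  rw [pow_mul, Real.sq_sqrt hL0.le] at hx
  exact hx.trans (Nat.le_ceil _)

theorem AJ_abs_le (y z w : ℕ) (η : ℝ) (j c : ℕ) : |AJ y z w η j c| ≤ 1 := by
  unfold AJ
  split_ifs
  · exact_mod_cast ArithmeticFunction.abs_moebius_le_one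
  · simp

theorem AJ_prime_ge (y z w : ℕ) (η : ℝ) (j c : ℕ) (h : AJ y z w η j c ≠ 0) (p : ℕ)
    (hp : p.Prime) (hpc : p ∣ c) : y ≤ p := by
  unfold AJ at h
  split_ifs at h with h1
  · exact (h1.1.2 p hp hpc).1
  · exact absurd rfl h

/-- from the primitive characters of small conductor (Siegel-Walfisz) and the goodness of `q` to
all the non-principal characters mod `q s` -/
theorem goodF_all_of (θ κ : ℝ) (B' A₁ B₁ B9 : ℕ)
    (hsw : ∃ x₁ : ℕ, ∀ x : ℕ, x₁ ≤ x → ∀ r : ℕ, 1 < r → (r : ℝ) ≤ (Real.log x) ^ A₁ →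
    ∀ χ ∈ prim r, ∀ j u : ℕ, wk κ x ≤ u → u ≤ wk κ x * zx θ x →
    ‖∑ c ∈ Icc 1 u, ((AJ (y0 x) (zx θ x) (wk κ x) (1 / (Real.log x) ^ B') j c : ℝ) : ℂ) *
      χ (c : ZMod r)‖ ≤ (u : ℝ) / (Real.log x) ^ B9) :
    ∃ x₁ : ℕ, ∀ x : ℕ, x₁ ≤ x → ∀ q : ℕ, 1 ≤ q → (q : ℝ) * (Real.log x) ^ B₁ ≤ x →
    GoodF x (wk κ x) (wk κ x * zx θ x) (JJ x B') B9
      (AJ (y0 x) (zx θ x) (wk κ x) (1 / (Real.log x) ^ B')) ((Real.log x) ^ A₁)
      ((Real.log x) ^ B₁) q →
    ∀ s : ℕ, 1 ≤ s → (s : ℝ) ≤ (Real.log x) ^ B₁ → ∀ [NeZero (q * s)],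
    ∀ χ : DirichletCharacter ℂ (q * s), χ ≠ 1 → ∀ j < JJ x B', ∀ u : ℕ, wk κ x ≤ u →
    u ≤ wk κ x * zx θ x →
    ‖∑ c ∈ Icc 1 u, ((AJ (y0 x) (zx θ x) (wk κ x) (1 / (Real.log x) ^ B') j c : ℝ) : ℂ) *
      χ (c : ZMod (q * s))‖ ≤ u * (2 / (Real.log x) ^ B9) := by
  obtain ⟨x₀, hx₀⟩ := hsw
  have hev := ((evt_y0 2 (B9 + 1)).and ((evt_log 1).and (eventually_ge_atTop x₀)))
  obtain ⟨x₁, hx₁⟩ := eventually_atTop.1 hev
  refine ⟨x₁, fun x hx q hq hqx hgood s hs hsL hne χ hχ j hj u hu1 hu2 => ?_⟩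
  obtain ⟨hy0, hL1, hxx⟩ := hx₁ x hx
  set L : ℝ := Real.log x with hL
  have hL0 : 0 < L := by linarith
  set A := AJ (y0 x) (zx θ x) (wk κ x) (1 / L ^ B') with hA
  have hk : q * s ≠ 0 := NeZero.ne _
  have hkx : ((q * s : ℕ) : ℝ) ≤ x := by
    push_cast
    have hq0 : (0 : ℝ) ≤ q := by positivity
    calc (q : ℝ) * s ≤ q * L ^ B₁ := by gcongr
      _ ≤ x := hqx
  have hk0 : (0 : ℝ) < ((q * s : ℕ) : ℝ) := by
    exact_mod_cast Nat.pos_of_ne_zero hk
  have hlogk : Real.log ((q * s : ℕ) : ℝ) ≤ L := Real.log_le_log hk0 hkx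
  have hy1 : 1 ≤ y0 x := by
    unfold y0
    exact Nat.one_le_ceil_iff.2 (Real.exp_pos _)
  have hd := sum_prim' χ (A j) (y0 x) u hy1 (fun c => AJ_abs_le _ _ _ _ _ _)
    (fun c hc p hp hpc => AJ_prime_ge _ _ _ _ _ _ hc p hp hpc)
  have hyy : (0 : ℝ) < y0 x := by exact_mod_cast hy1
  have hd2 : 2 * Real.log ((q * s : ℕ) : ℝ) * ((u : ℝ) / y0 x) ≤ u / L ^ B9 := by
    have hu0 : (0 : ℝ) ≤ u := by positivity
    calc 2 * Real.log ((q * s : ℕ) : ℝ) * ((u : ℝ) / y0 x) ≤ 2 * L * (u / y0 x) := by gcongr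
      _ ≤ 2 * L * (u / (2 * L ^ (B9 + 1))) := by gcongr
      _ = u / L ^ B9 := by
        rw [pow_succ]
        field_simp
  -- the primitive character
  have hr0 : χ.conductor ≠ 0 := by
    intro h0
    have := χ.conductor_dvd_level
    rw [h0] at this
    exact hk (Nat.eq_zero_of_zero_dvd this)
  have hr1 : χ.conductor ≠ 1 := fun h1 =>
    hχ (DirichletCharacter.eq_one_iff_conductor_eq_one.2 h1)
  have hr : 1 < χ.conductor := by omega
  have hmem := prim_char_mem χ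
  have hp : ‖∑ c ∈ Icc 1 u, ((A j c : ℝ) : ℂ) *
      χ.primitiveCharacter (c : ZMod χ.conductor)‖ ≤ (u : ℝ) / L ^ B9 := by
    by_cases hsmall : (χ.conductor : ℝ) ≤ L ^ A₁
    · exact hx₀ x hxx χ.conductor hr hsmall _ hmem j u hu1 hu2
    · push Not at hsmall
      have h := hgood s hs hsL χ.conductor χ.conductor_dvd_level hsmall _ hmem
      unfold BadF at h
      push Not at h
      exact h j hj u hu1 hu2
  calc ‖∑ c ∈ Icc 1 u, ((A j c : ℝ) : ℂ) * χ (c : ZMod (q * s))‖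
      = ‖(∑ c ∈ Icc 1 u, ((A j c : ℝ) : ℂ) * χ (c : ZMod (q * s)) -
        ∑ c ∈ Icc 1 u, ((A j c : ℝ) : ℂ) * χ.primitiveCharacter (c : ZMod χ.conductor)) +
        ∑ c ∈ Icc 1 u, ((A j c : ℝ) : ℂ) * χ.primitiveCharacter (c : ZMod χ.conductor)‖ := by
        rw [sub_add_cancel]
    _ ≤ u / L ^ B9 + u / L ^ B9 := (norm_add_le _ _).trans (add_le_add (hd.trans hd2) hp)
    _ = u * (2 / L ^ B9) := by ring

end Pool.Agent.HS
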