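import Pool.Agent.Work.MP_92f640_nt.HS.SwFB

/-! # Module SwFC: decomposition by the largest prime factor, and the proof of `swF` -/

namespace Pool.Agent.HS

open Finset Pool.Agent.BV Pool.Agent.HL Filter
open scoped ArithmeticFunction.vonMangoldt ArithmeticFunction.Moebius

/-- `P` exceeds all the prime factors of `m` -/
def Top (m P : ℕ) : Prop := ∀ p : ℕ, p.Prime → p ∣ m → p < P

theorem Top.not_dvd {m P : ℕ} (h : Top m P) (hP : P.Prime) : ¬ P ∣ m := fun hd =>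
  lt_irrefl _ (h P hP hd)

theorem top_inj {m m' P P' : ℕ} (hP : P.Prime) (hP' : P'.Prime) (h : Top m P) (h' : Top m' P')
    (he : m * P = m' * P') : m = m' ∧ P = P' := by
  have key : P = P' := by
    rcases lt_trichotomy P P' with hlt | heq | hgt
    · exfalso
      have h1 : P' ∣ m * P := by rw [he]; exact Dvd.intro_left m' rfl
      rcases (Nat.Prime.dvd_mul hP').1 h1 with h2 | h2
      · have := h P' hP' h2; omega
      · have := (Nat.prime_dvd_prime_iff_eq hP' hP).1 h2; omega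
    · exact heq
    · exfalso
      have h1 : P ∣ m' * P' := by rw [← he]; exact Dvd.intro_left m rfl
      rcases (Nat.Prime.dvd_mul hP).1 h1 with h2 | h2
      · have := h' P hP h2; omega
      · have := (Nat.prime_dvd_prime_iff_eq hP hP').1 h2; omega
  subst key
  exact ⟨Nat.eq_of_mul_eq_mul_right hP.pos he, rfl⟩

theorem exists_top {c : ℕ} (hc : 2 ≤ c) (hsf : Squarefree c) :
    ∃ m P : ℕ, P.Prime ∧ Top m P ∧ c = m * P ∧ 1 ≤ m := by
  have hne : c.primeFactors.Nonempty := by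
    rw [Nat.nonempty_primeFactors]; omega
  set P := c.primeFactors.max' hne with hP
  have hPm : P ∈ c.primeFactors := max'_mem _ _
  have hPp : P.Prime := Nat.prime_of_mem_primeFactors hPm
  have hPc : P ∣ c := Nat.dvd_of_mem_primeFactors hPm
  obtain ⟨m, hm⟩ := hPc
  rw [mul_comm] at hm
  refine ⟨m, P, hPp, ?_, hm, ?_⟩
  · intro p hp hpm
    have h1 : p ∈ c.primeFactors := by
      rw [Nat.mem_primeFactors]
      exact ⟨hp, by rw [hm]; exact Dvd.dvd.mul_right hpm P, by omega⟩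
    have h2 : p ≤ P := le_max' _ _ h1
    rcases Nat.eq_or_lt_of_le h2 with h3 | h3
    · exfalso
      rw [h3] at hpm
      have h4 : P * P ∣ c := by rw [hm]; exact Nat.mul_dvd_mul_right hpm P
      have h5 := hsf P h4
      exact hPp.one_lt.ne' (Nat.isUnit_iff.1 h5)
    · exact h3
  · rcases Nat.eq_zero_or_pos m with h | h
    · rw [h] at hm; omega
    · exact h

open Classical in
/-- decomposition by the largest prime factor -/
theorem sum_top (f : ℕ → ℂ) (y u : ℕ) (hy : 1 ≤ y)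
    (hf : ∀ c, f c ≠ 0 → 2 ≤ c ∧ Squarefree c ∧ ∀ p : ℕ, p.Prime → p ∣ c → y ≤ p) :
    ∑ c ∈ Icc 1 u, f c = ∑ m ∈ Icc 1 (u / y),
      ∑ P ∈ (Icc y (u / m)).filter (fun P => P.Prime ∧ Top m P), f (m * P) := by
  rw [sum_sigma']
  symm
  apply sum_of_injOn (fun s : (Σ _ : ℕ, ℕ) => s.1 * s.2)
  · rintro ⟨m, P⟩ h1 ⟨m', P'⟩ h2 he
    simp only [coe_sigma, Set.mem_sigma_iff, mem_coe, mem_filter, mem_Icc] at h1 h2
    obtain ⟨e1, e2⟩ := top_inj h1.2.2.1 h2.2.2.1 h1.2.2.2 h2.2.2.2 he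
    rw [e1, e2]
  · rintro ⟨m, P⟩ h1
    simp only [coe_sigma, Set.mem_sigma_iff, mem_coe, mem_filter, mem_Icc] at h1
    obtain ⟨⟨hm1, _⟩, ⟨hP1, hP2⟩, hPp, _⟩ := h1
    simp only [coe_Icc, Set.mem_Icc]
    refine ⟨Nat.mul_pos hm1 hPp.pos, ?_⟩
    calc m * P ≤ m * (u / m) := Nat.mul_le_mul_left _ hP2
      _ ≤ u := Nat.mul_div_le u m
  · intro c hc hc'
    by_contra hne
    obtain ⟨h2, hsf, hpy⟩ := hf c hne
    obtain ⟨m, P, hPp, hT, hcm, hm1⟩ := exists_top h2 hsf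
    apply hc'
    refine ⟨⟨m, P⟩, ?_, hcm.symm⟩
    simp only [coe_sigma, Set.mem_sigma_iff, mem_coe, mem_filter, mem_Icc]
    have hyP : y ≤ P := hpy P hPp (by rw [hcm]; exact Dvd.intro_left m rfl)
    have hcu := (mem_Icc.1 hc).2
    refine ⟨⟨hm1, ?_⟩, ⟨hyP, ?_⟩, hPp, hT⟩
    · rw [Nat.le_div_iff_mul_le (by omega)]
      calc m * y ≤ m * P := Nat.mul_le_mul_left _ hyP
        _ = c := hcm.symm
        _ ≤ u := hcu
    · rw [Nat.le_div_iff_mul_le (by omega), mul_comm, ← hcm]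
      exact hcu
  · rintro ⟨m, P⟩ _
    rfl

/-- convex sets of integers are intervals -/
theorem interval_of_convex (p : ℕ → Prop) (y N : ℕ) (hp : ∀ n, p n → y ≤ n ∧ n ≤ N)
    (hc : ∀ i j k, p i → p k → i ≤ j → j ≤ k → p j) :
    ∃ a b, y ≤ a ∧ b ≤ N + 1 ∧ ∀ n, p n ↔ a ≤ n ∧ n < b := by
  classical
  by_cases h : ∃ n, p n
  · have h1 : p (Nat.find h) := Nat.find_spec h
    have h2 : p (Nat.findGreatest p N) :=
      Nat.findGreatest_spec (P := p) (hp _ h1).2 h1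
    refine ⟨Nat.find h, Nat.findGreatest p N + 1, (hp _ h1).1, ?_, fun n => ⟨fun hn => ?_, ?_⟩⟩
    · have := Nat.findGreatest_le (P := p) N; omega
    · exact ⟨Nat.find_min' h hn, Nat.lt_succ_of_le (Nat.le_findGreatest (hp n hn).2 hn)⟩
    · rintro ⟨h3, h4⟩
      exact hc _ n _ h1 h2 h3 (Nat.lt_succ_iff.1 h4)
  · push Not at h
    exact ⟨y, 0, le_rfl, Nat.zero_le _, fun n => ⟨fun hn => absurd hn (h n), fun hn => by omega⟩⟩

theorem minFac_mul_top {m P : ℕ} (hm : m ≠ 1) (hm0 : m ≠ 0) (hP : P.Prime) (h : Top m P) :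
    (m * P).minFac = m.minFac := by
  have hmp := Nat.minFac_prime hm
  apply le_antisymm
  · exact Nat.minFac_le_of_dvd hmp.two_le ((Nat.minFac_dvd m).mul_right P)
  · have hne : m * P ≠ 1 := by
      intro h1
      exact hm (Nat.eq_one_of_mul_eq_one_right h1)
    have hq := Nat.minFac_prime hne
    rcases (Nat.Prime.dvd_mul hq).1 (Nat.minFac_dvd (m * P)) with h2 | h2
    · exact Nat.minFac_le_of_dvd hq.two_le h2
    · have h3 := (Nat.prime_dvd_prime_iff_eq hq hP).1 h2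
      rw [h3]
      exact (h _ hmp (Nat.minFac_dvd m)).le

theorem CC_mul_top {y z m P : ℕ} (hP : P.Prime) (h : Top m P) :
    CC y z (m * P) ↔ CC y z m ∧ y ≤ P ∧ P < z := by
  have hco : m.Coprime P := by
    rw [Nat.coprime_comm]
    exact (Nat.Prime.coprime_iff_not_dvd hP).2 (h.not_dvd hP)
  unfold CC
  rw [Nat.squarefree_mul hco]
  constructor
  · rintro ⟨⟨h1, _⟩, h2⟩
    exact ⟨⟨h1, fun p hp hpm => h2 p hp (hpm.mul_right P)⟩, h2 P hP (Dvd.intro_left m rfl)⟩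
  · rintro ⟨⟨h1, h2⟩, h3⟩
    refine ⟨⟨h1, hP.squarefree⟩, fun p hp hpm => ?_⟩
    rcases (Nat.Prime.dvd_mul hp).1 hpm with h4 | h4
    · exact h2 p hp h4
    · rw [(Nat.prime_dvd_prime_iff_eq hp hP).1 h4]; exact h3

theorem moebius_mul_top {m P : ℕ} (hP : P.Prime) (h : Top m P) :
    (μ (m * P) : ℤ) = - μ m := by
  have hco : m.Coprime P := by
    rw [Nat.coprime_comm]
    exact (Nat.Prime.coprime_iff_not_dvd hP).2 (h.not_dvd hP)
  rw [ArithmeticFunction.isMultiplicative_moebius.map_mul_of_coprime hco,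
    ArithmeticFunction.moebius_apply_prime hP]
  ring

open Classical in
/-- for a fixed cofactor, the conditions on the largest prime factor define an interval -/
theorem AJ_top (y z w : ℕ) (η : ℝ) (j m u : ℕ) (hm : 1 ≤ m) :
    ∃ (κ : ℝ) (a b : ℕ), |κ| ≤ 1 ∧ y ≤ a ∧ b ≤ u / m + 1 ∧
      (∀ P : ℕ, P.Prime → a ≤ P → P < b → P ∈ (Icc y (u / m)).filter (fun P => P.Prime ∧ Top m P)) ∧
      ∀ P ∈ (Icc y (u / m)).filter (fun P => P.Prime ∧ Top m P),
        AJ y z w η j (m * P) = if a ≤ P ∧ P < b then κ else 0 := by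
  set p : ℕ → Prop := fun P => Top m P ∧ y ≤ P ∧ P ≤ u / m ∧ P < z ∧ w ≤ m * P ∧
    (if m = 1 then 1 < w ∧ gr η j ≤ P ∧ P < gr η (j + 1) else
      m / m.minFac * P < w ∧ gr η j ≤ m.minFac ∧ m.minFac < gr η (j + 1)) with hp
  obtain ⟨a, b, ha, hb, hab⟩ := interval_of_convex p y (u / m)
    (fun n hn => ⟨hn.2.1, hn.2.2.1⟩) (by
      rintro i k l ⟨h1, h2, h3, h4, h5, h6⟩ ⟨g1, g2, g3, g4, g5, g6⟩ hik hkl
      refine ⟨fun q hq hqm => (h1 q hq hqm).trans_le hik, h2.trans hik, hkl.trans g3,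
        hkl.trans_lt g4, h5.trans (Nat.mul_le_mul_left _ hik), ?_⟩
      split_ifs with hm1
      · rw [if_pos hm1] at h6 g6
        exact ⟨h6.1, h6.2.1.trans hik, hkl.trans_lt g6.2.2⟩
      · rw [if_neg hm1] at h6 g6
        exact ⟨(Nat.mul_le_mul_left _ hkl).trans_lt g6.1, h6.2⟩)
  refine ⟨if CC y z m then - ((μ m : ℤ) : ℝ) else 0, a, b, ?_, ha, hb, ?_, ?_⟩
  · split_ifs
    · rw [abs_neg]; exact_mod_cast ArithmeticFunction.abs_moebius_le_one
    · simp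
  · intro P hP h1 h2
    have h3 := (hab P).2 ⟨h1, h2⟩
    rw [mem_filter, mem_Icc]
    exact ⟨⟨h3.2.1, h3.2.2.1⟩, hP, h3.1⟩
  · intro P hP
    rw [mem_filter, mem_Icc] at hP
    obtain ⟨⟨hyP, hPu⟩, hPp, hT⟩ := hP
    have hiff : (CC y z (m * P) ∧ w ≤ m * P ∧ (m * P) / (m * P).minFac < w ∧
        gr η j ≤ (m * P).minFac ∧ (m * P).minFac < gr η (j + 1)) ↔ (CC y z m ∧ a ≤ P ∧ P < b) := by
      rw [← hab P, CC_mul_top hPp hT]
      by_cases hm1 : m = 1
      · subst hm1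
        simp only [one_mul, hp, if_true, hPp.minFac_eq, Nat.div_self hPp.pos]
        constructor
        · rintro ⟨⟨h1, h2, h3⟩, h4, h5, h6, h7⟩
          exact ⟨h1, hT, h2, hPu, h3, h4, h5, h6, h7⟩
        · rintro ⟨h1, _, h2, _, h3, h4, h5, h6, h7⟩
          exact ⟨⟨h1, h2, h3⟩, h4, h5, h6, h7⟩
      · have hdiv : m * P / m.minFac = m / m.minFac * P :=
          (Nat.div_mul_right_comm (Nat.minFac_dvd m) P).symm
        simp only [hp, if_neg hm1, minFac_mul_top hm1 (by omega) hPp hT, hdiv]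
        constructor
        · rintro ⟨⟨h1, h2, h3⟩, h4, h5, h6, h7⟩
          exact ⟨h1, hT, h2, hPu, h3, h4, h5, h6, h7⟩
        · rintro ⟨h1, _, h2, _, h3, h4, h5, h6, h7⟩
          exact ⟨⟨h1, h2, h3⟩, h4, h5, h6, h7⟩
    unfold AJ
    rw [moebius_mul_top hPp hT]
    by_cases hC : CC y z m
    · by_cases hI : a ≤ P ∧ P < b
      · rw [if_pos (hiff.2 ⟨hC, hI⟩), if_pos hI, if_pos hC]; push_cast; ring
      · rw [if_neg (fun h => hI (hiff.1 h).2), if_neg hI]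
    · rw [if_neg (fun h => hC (hiff.1 h).1), if_neg hC]; simp

open Classical in
theorem AJ_inner {r : ℕ} (χ : DirichletCharacter ℂ r) (y z w : ℕ) (η : ℝ) (j m u : ℕ) (hm : 1 ≤ m)
    (K : ℝ) (hK : ∀ a b : ℕ, y ≤ a → b ≤ u / m + 1 →
      ‖∑ p ∈ (Ico a b).filter Nat.Prime, χ (p : ZMod r)‖ ≤ K) :
    ‖∑ P ∈ (Icc y (u / m)).filter (fun P => P.Prime ∧ Top m P),
      ((AJ y z w η j (m * P) : ℝ) : ℂ) * χ ((m * P : ℕ) : ZMod r)‖ ≤ K := by
  obtain ⟨κ, a, b, hκ, ha, hb, hsub, heq⟩ := AJ_top y z w η j m u hm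
  have e : ∑ P ∈ (Icc y (u / m)).filter (fun P => P.Prime ∧ Top m P),
      ((AJ y z w η j (m * P) : ℝ) : ℂ) * χ ((m * P : ℕ) : ZMod r) =
      ((κ : ℂ) * χ (m : ZMod r)) * ∑ p ∈ (Ico a b).filter Nat.Prime, χ (p : ZMod r) := by
    rw [mul_sum]
    symm
    rw [← sum_subset (s₁ := (Ico a b).filter Nat.Prime)
      (s₂ := (Icc y (u / m)).filter (fun P => P.Prime ∧ Top m P))]
    · refine sum_congr rfl fun P hP => ?_
      rw [mem_filter, mem_Ico] at hP
      rw [heq P (hsub P hP.2 hP.1.1 hP.1.2), if_pos hP.1]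
      push_cast
      rw [map_mul]
      ring
    · intro P hP
      rw [mem_filter, mem_Ico] at hP
      exact hsub P hP.2 hP.1.1 hP.1.2
    · intro P hP hP'
      rw [heq P hP, if_neg]
      · simp
      · intro hI
        apply hP'
        rw [mem_filter, mem_Ico]
        rw [mem_filter] at hP
        exact ⟨hI, hP.2.1⟩
  rw [e, norm_mul, norm_mul, Complex.norm_real, Real.norm_eq_abs]
  have h1 := hK a b ha hb
  have h2 : |κ| * ‖χ (m : ZMod r)‖ ≤ 1 := by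
    calc |κ| * ‖χ (m : ZMod r)‖ ≤ 1 * 1 := by
          gcongr
          exact DirichletCharacter.norm_le_one _ _
      _ = 1 := one_mul 1
  calc |κ| * ‖χ (m : ZMod r)‖ * ‖∑ p ∈ (Ico a b).filter Nat.Prime, χ (p : ZMod r)‖
      ≤ 1 * K := by gcongr
    _ = K := one_mul K

open Classical in
theorem swF_main (θ κ : ℝ) (hθ : 1 / 2 ≤ θ) (hθ1 : θ < 1) (hκ : 0 < κ) (hκ1 : κ ≤ 1 / 8)
    (B' A₁ B : ℕ) :
    ∃ x₁ : ℕ, ∀ x : ℕ, x₁ ≤ x → ∀ r : ℕ, 1 < r → (r : ℝ) ≤ (Real.log x) ^ A₁ → ∀ χ ∈ prim r,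
    ∀ j u : ℕ, wk κ x ≤ u → u ≤ wk κ x * zx θ x →
    ‖∑ c ∈ Icc 1 u, ((AJ (y0 x) (zx θ x) (wk κ x) (1 / (Real.log x) ^ B') j c : ℝ) : ℂ) *
      χ (c : ZMod r)‖ ≤ (u : ℝ) / (Real.log x) ^ B := by
  have hev := ((prime_sum_char A₁ (B + 2)).and ((evt_log 7).and
    ((evt_pow 2 0 κ hκ).and (eventually_ge_atTop 3))))
  obtain ⟨x₁, hx₁⟩ := eventually_atTop.1 hev
  refine ⟨x₁, fun x hx r hr hrL χ hχ j u hu1 hu2 => ?_⟩
  obtain ⟨hps, hL7, hw2, hx3⟩ := hx₁ x hx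
  set L : ℝ := Real.log x with hL
  have hL0 : 0 < L := by linarith
  have hx1 : (1 : ℝ) ≤ x := by
    have : (3 : ℝ) ≤ x := by exact_mod_cast hx3
    linarith
  have hw : 2 ≤ wk κ x := by
    have h1 : (2 : ℝ) ≤ wk κ x := by
      rw [pow_zero, mul_one] at hw2
      exact hw2.trans (Nat.le_ceil _)
    exact_mod_cast h1
  have hy1 : 1 ≤ y0 x := by
    unfold y0
    exact Nat.one_le_ceil_iff.2 (Real.exp_pos _)
  have hlogu : Real.log u ≤ 4 * L := by
    have hceil : ∀ t : ℝ, t ≤ 1 → 0 ≤ t → ((⌈(x : ℝ) ^ t⌉₊ : ℕ) : ℝ) ≤ 2 * x := by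
      intro t ht1 ht0
      have h1 : (x : ℝ) ^ t ≤ x := by
        calc (x : ℝ) ^ t ≤ (x : ℝ) ^ (1 : ℝ) := Real.rpow_le_rpow_of_exponent_le hx1 ht1
          _ = x := Real.rpow_one _
      have h2 := (Nat.ceil_lt_add_one (by positivity : (0 : ℝ) ≤ (x : ℝ) ^ t)).le
      linarith
    have h1 : ((wk κ x : ℕ) : ℝ) ≤ 2 * x := hceil κ (by linarith) hκ.le
    have h2 : ((zx θ x : ℕ) : ℝ) ≤ 2 * x := hceil (1 - θ) (by linarith) (by linarith)
    have h3 : (u : ℝ) ≤ x ^ 4 := by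
      have h4 : (u : ℝ) ≤ (wk κ x : ℝ) * (zx θ x : ℝ) := by exact_mod_cast hu2
      have h5 : (3 : ℝ) ≤ x := by exact_mod_cast hx3
      calc (u : ℝ) ≤ (wk κ x : ℝ) * (zx θ x : ℝ) := h4
        _ ≤ (2 * x) * (2 * x) := by gcongr
        _ = 2 ^ 2 * x ^ 2 := by ring
        _ ≤ x ^ 2 * x ^ 2 := by gcongr; linarith
        _ = x ^ 4 := by ring
    have hu0 : (0 : ℝ) < u := by
      have : 0 < u := by omega
      exact_mod_cast this
    have h6 := Real.log_le_log hu0 h3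
    rw [Real.log_pow] at h6
    exact_mod_cast h6
  have hu0 : (0 : ℝ) ≤ u := Nat.cast_nonneg u
  rw [sum_top (fun c => ((AJ (y0 x) (zx θ x) (wk κ x) (1 / L ^ B') j c : ℝ) : ℂ) * χ (c : ZMod r))
    (y0 x) u hy1]
  · calc ‖∑ m ∈ Icc 1 (u / y0 x), ∑ P ∈ (Icc (y0 x) (u / m)).filter
          (fun P => P.Prime ∧ Top m P), ((AJ (y0 x) (zx θ x) (wk κ x) (1 / L ^ B') j (m * P) : ℝ) : ℂ) *
            χ ((m * P : ℕ) : ZMod r)‖
        ≤ ∑ m ∈ Icc 1 (u / y0 x), ((u : ℝ) / L ^ (B + 2)) * (1 / (m : ℝ)) := by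
          refine (norm_sum_le _ _).trans (sum_le_sum fun m hm => ?_)
          obtain ⟨hm1, hm2⟩ := mem_Icc.1 hm
          have hyN : y0 x ≤ u / m := by
            rw [Nat.le_div_iff_mul_le (by omega)]
            rw [Nat.le_div_iff_mul_le (by omega)] at hm2
            rw [mul_comm]; exact hm2
          refine (AJ_inner χ _ _ _ _ j m u hm1 _
            (fun a b ha hb => hps r hr hrL χ hχ (u / m) a b ha hb hyN)).trans ?_
          have h1 : ((u / m : ℕ) : ℝ) ≤ (u : ℝ) / m := Nat.cast_div_le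
          calc ((u / m : ℕ) : ℝ) / L ^ (B + 2) ≤ ((u : ℝ) / m) / L ^ (B + 2) := by gcongr
            _ = ((u : ℝ) / L ^ (B + 2)) * (1 / (m : ℝ)) := by ring
      _ = ((u : ℝ) / L ^ (B + 2)) * ∑ m ∈ Icc 1 (u / y0 x), (1 / (m : ℝ)) := by rw [mul_sum]
      _ ≤ ((u : ℝ) / L ^ (B + 2)) * (L ^ 2) := by
          have h1 : ∑ m ∈ Icc 1 (u / y0 x), (1 / (m : ℝ)) ≤ ∑ m ∈ Icc 1 u, (1 / (m : ℝ)) := by
            apply sum_le_sum_of_subset_of_nonneg
            · exact Icc_subset_Icc_right (Nat.div_le_self _ _)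
            · intro i _ _; positivity
          have h2 : ∑ m ∈ Icc 1 u, (1 / (m : ℝ)) ≤ 1 + Real.log u := by
            have h3 := harmonic_le_one_add_log u
            rw [harmonic_eq_sum_Icc] at h3
            push_cast at h3
            simpa [one_div] using h3
          have h4 : ∑ m ∈ Icc 1 (u / y0 x), (1 / (m : ℝ)) ≤ L ^ 2 := by nlinarith
          gcongr
      _ = (u : ℝ) / L ^ B := by
          rw [pow_add]; field_simp
  · intro c hc
    have hA : AJ (y0 x) (zx θ x) (wk κ x) (1 / L ^ B') j c ≠ 0 := by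
      intro h0; apply hc; rw [h0]; simp
    refine ⟨?_, ?_, fun p hp hpc => AJ_prime_ge _ _ _ _ _ _ hA p hp hpc⟩
    · unfold AJ at hA
      split_ifs at hA with h1
      · exact hw.trans h1.2.1
      · exact absurd rfl hA
    · unfold AJ at hA
      split_ifs at hA with h1
      · exact h1.1.1
      · exact absurd rfl hA

end Pool.Agent.HS
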