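import Pool.Agent.Work.MP_92f640_nt.HS.Defs
import Pool.Agent.Work.MP_92f640_nt.HL.VarB
import Pool.Agent.Work.MP_92f640_nt.HL.Evt
import Pool.Agent.Work.BV.SW
import Pool.Agent.Work.MP_92f640_nt.HS.SwFA
import Pool.Agent.Work.MP_92f640_nt.HS.SwFC

/-! # Module SwF: Siegel-Walfisz for the family `AJ`, and all characters mod `q s`

`prime_sum_char`: `∑_{p ≤ u} χ(p)` from `psiC` by Abel summation (prime powers `≤ 2 √u log u`); for `u ≥ y0 x`: `log u ≥ √(log x)`, so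
`siegel_walfisz (2 A') (2 A₁)` gives `≤ C u/(log x)^A'`; for `u < y0 x`... only used as upper limits `≥ y0 x` (trivial bound `u` below, the
intervals start at `≥ y0 x`: write the sum over `(a, b]` as a difference, `a ≥ y0 x - 1`).
`swF`: `AJ y z w η j c ≠ 0`: write `c = c' P`, `P` = largest prime factor. For fixed `c'` the conditions on `P` are: `P` prime, `P ∤ c'`,
`P >` all primes of `c'`, `y ≤ P < z`, `c' P ≤ u`, `w ≤ c' P`, and (`c' = 1`: `P` in cell `j`; `c' > 1`: `minFac c'` in cell `j` and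
`c' P / minFac c' < w`): an interval. So `‖∑‖ ≤ ∑_{c' ≤ u/y0} 2 C (u/c') /(log x)^A' ≤ u/(log x)^B`.
`goodF_all`: for `χ ≠ 1` mod `k = q s`: `χ* = χ.primitiveCharacter` of conductor `r > 1`, `r ∣ k`; `r ≤ L^A₁`: `swF`; `r > L^A₁`: `GoodF`; and
`|∑ A (χ - χ*)| ≤ #{c ≤ u : ∃ p ∣ (c, k), p ≥ y0}  ≤ ∑_{p ∣ k, p ≥ y0} u/p ≤ 2 log x u/y0`. -/

namespace Pool.Agent.HS

open Finset Pool.Agent.BV Pool.Agent.HL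

theorem swF (θ κ : ℝ) (hθ : 1 / 2 ≤ θ) (hθ1 : θ < 1) (hκ : 0 < κ) (hκ1 : κ ≤ 1 / 8) (B' A₁ B : ℕ) :
    ∃ x₁ : ℕ, ∀ x : ℕ, x₁ ≤ x → ∀ r : ℕ, 1 < r → (r : ℝ) ≤ (Real.log x) ^ A₁ → ∀ χ ∈ prim r,
    ∀ j u : ℕ, wk κ x ≤ u → u ≤ wk κ x * zx θ x →
    ‖∑ c ∈ Icc 1 u, ((AJ (y0 x) (zx θ x) (wk κ x) (1 / (Real.log x) ^ B') j c : ℝ) : ℂ) *
      χ (c : ZMod r)‖ ≤ (u : ℝ) / (Real.log x) ^ B :=
  swF_main θ κ hθ hθ1 hκ hκ1 B' A₁ B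

theorem goodF_all (θ κ : ℝ) (hθ : 1 / 2 ≤ θ) (hθ1 : θ < 1) (hκ : 0 < κ) (hκ1 : κ ≤ 1 / 8)
    (B' A₁ B₁ B9 : ℕ) :
    ∃ x₁ : ℕ, ∀ x : ℕ, x₁ ≤ x → ∀ q : ℕ, 1 ≤ q → (q : ℝ) * (Real.log x) ^ B₁ ≤ x →
    GoodF x (wk κ x) (wk κ x * zx θ x) (JJ x B') B9
      (AJ (y0 x) (zx θ x) (wk κ x) (1 / (Real.log x) ^ B')) ((Real.log x) ^ A₁)
      ((Real.log x) ^ B₁) q →
    ∀ s : ℕ, 1 ≤ s → (s : ℝ) ≤ (Real.log x) ^ B₁ → ∀ [NeZero (q * s)],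
    ∀ χ : DirichletCharacter ℂ (q * s), χ ≠ 1 → ∀ j < JJ x B', ∀ u : ℕ, wk κ x ≤ u →
    u ≤ wk κ x * zx θ x →
    ‖∑ c ∈ Icc 1 u, ((AJ (y0 x) (zx θ x) (wk κ x) (1 / (Real.log x) ^ B') j c : ℝ) : ℂ) *
      χ (c : ZMod (q * s))‖ ≤ u * (2 / (Real.log x) ^ B9) := by
  exact goodF_all_of θ κ B' A₁ B₁ B9 (swF θ κ hθ hθ1 hκ hκ1 B' A₁ B9)

end Pool.Agent.HS
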