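import Pool.Agent.Work.MP_92f640_nt.HS.CtlAA
import Pool.Agent.Work.MP_92f640_nt.HS.CtlMinor
import Pool.Agent.Work.MP_92f640_nt.HS.CtlVar
import Pool.Agent.Work.MP_92f640_nt.HS.SwF
import Pool.Agent.Work.MP_92f640_nt.HS.ClassF
import Pool.Agent.Work.MP_92f640_nt.HS.SupFA
import Pool.Agent.Work.MP_92f640_nt.HL.TMinor
import Pool.Agent.Work.MP_92f640_nt.HL.SupVV

/-! # Module SupF

Order of the constants: `aa_ctl` is used TWICE. (1) for the minor arcs, with `Bm = c_m + B'' + 2` (the error: `VV_err ≤ (x/q + 1) ∑ err²`), giving `B'm`; then `B₁`, `B₂`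
(`B₁ = 2 (B'm + 2) + c_m + B'' + 4`, `B₂ = 3 B₁ + B'' + 11`). (2) for the major arcs, with `B = E + c_v + 1`, `E = B'' + 2 B₂ + 2`, giving `B'`; then `b₃ = 2 B' + E + c_v + 3`,
`η = L^(-2 b₃)` (cells in `ctl_var`), `B9 = 3 b₃`, `BD = E`. Dirichlet for `q α` as in HL/SupVV, `S = x/(q L^B₂)`.
`s ≤ L^B₁`: `major_gen`, `class_F` (`f = aa cc z`, `F = 2^K`, `δ = x/L^BD`), `ctl_var` with `goodF_all` (`ρ = 2/L^B9`).
`s > L^B₁`: `VV_sub_le`; `FA q (cut x (aa ..))` on `[1,x]`: difference of two initial segments of `aa` (`2 VV q x + 2 VV q (x/8)`), `ctl_minor`; `v * TM`: `VV_le`, Abel summation in `n`,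
`T_minor` at every `y ≤ x`. -/

namespace Pool.Agent.HS

open Finset Filter Pool.Agent.BV Pool.Agent.HL

theorem sup_F (θ κ ε V : ℝ) (hθ : 1 / 2 ≤ θ) (hθ1 : θ < 1) (hκ : 0 < κ) (hκ1 : κ ≤ 1 / 8)
    (hε : 0 < ε) (hκε : 8 * κ ≤ ε) (hκθ : 8 * κ ≤ 1 - θ) (hV : 0 < V) (B'' : ℕ) :
    ∃ B₁ B' B9 BD : ℕ, B'' ≤ B₁ ∧ ∀ A₁ : ℕ, ∃ x₁ : ℕ, ∀ x : ℕ, x₁ ≤ x →
    ∀ q : ℕ, 1 ≤ q → (q : ℝ) ≤ (x : ℝ) ^ (θ - ε) →
    GoodF x (wk κ x) (wk κ x * zx θ x) (JJ x B') B9
      (AJ (y0 x) (zx θ x) (wk κ x) (1 / (Real.log x) ^ B')) ((Real.log x) ^ A₁)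
      ((Real.log x) ^ B₁) q →
    ∀ cc v : ℕ → ℝ, Wt (zx θ x) ⌈(x : ℝ) ^ (1 - θ / 2)⌉₊ cc → BVar x V v →
    (∀ y ≤ x, |∑ n ∈ Icc 1 y, (cut x (aa cc (zx θ x)) n - v n)| ≤ (x : ℝ) / (Real.log x) ^ BD) →
    ∀ α : ℝ, VV q x (fun n => FA q (cut x (aa cc (zx θ x))) n -
      ((v n : ℝ) : ℂ) * TM q ⌈(Real.log x) ^ B₁⌉₊ n) α ≤
      (x : ℝ) ^ 2 / (q * (Real.log x) ^ B'') := by
  obtain ⟨Cm, cm, hCm, hmin⟩ := ctl_minor
  obtain ⟨Cv, cv, hCv, hvar⟩ := ctl_var
  obtain ⟨Bp, xa, hxa⟩ := aa_ctl θ κ hθ hθ1 hκ hκ1 (cm + B'' + 2)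
  set B₁ : ℕ := 2 * (Bp + 2) + 2 + cm + B'' + 2 with hB₁
  set B₂ : ℕ := 3 * B₁ + (B'' + 1) + 10 with hB₂
  set E : ℕ := B'' + 2 * B₂ + 2 with hE
  obtain ⟨B', xb, hxb⟩ := aa_ctl θ κ hθ hθ1 hκ hκ1 (E + cv + 1)
  set b₃ : ℕ := 2 * B' + 2 + E + cv + 1 with hb₃
  refine ⟨B₁, B', 3 * b₃, E, by omega, fun A₁ => ?_⟩
  obtain ⟨xc, hxc⟩ := goodF_all θ κ hθ hθ1 hκ hκ1 B' A₁ B₁ (3 * b₃)
  set K : ℕ := ⌈2 / (1 - θ)⌉₊ with hK
  set G : ℝ := 1000 * (K : ℝ) ^ 2 * (2 ^ K) ^ 2 * (1 + V) ^ 2 with hG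
  have h1θ : 0 < 1 - θ := by linarith
  have hKθ : 2 ≤ (1 - θ) * K := by
    have h0 : 2 / (1 - θ) ≤ K := Nat.le_ceil _
    rw [div_le_iff₀ h1θ] at h0
    linarith
  have hK1 : 1 ≤ K := by
    rcases Nat.eq_zero_or_pos K with h | h
    · rw [h] at hKθ
      norm_num at hKθ
    · exact h
  have hG0 : 0 < G := by
    have : (0 : ℝ) < K := by exact_mod_cast hK1
    rw [hG]
    positivity
  have hev : ∀ᶠ x : ℕ in atTop, ∀ q : ℕ, 1 ≤ q → (q : ℝ) ≤ (x : ℝ) ^ (θ - ε) →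
      GoodF x (wk κ x) (wk κ x * zx θ x) (JJ x B') (3 * b₃)
        (AJ (y0 x) (zx θ x) (wk κ x) (1 / (Real.log x) ^ B')) ((Real.log x) ^ A₁)
        ((Real.log x) ^ B₁) q →
      ∀ cc v : ℕ → ℝ, Wt (zx θ x) ⌈(x : ℝ) ^ (1 - θ / 2)⌉₊ cc → BVar x V v →
      (∀ y ≤ x, |∑ n ∈ Icc 1 y, (cut x (aa cc (zx θ x)) n - v n)| ≤ (x : ℝ) / (Real.log x) ^ E) →
      ∀ α : ℝ, VV q x (fun n => FA q (cut x (aa cc (zx θ x))) n -
        ((v n : ℝ) : ℂ) * TM q ⌈(Real.log x) ^ B₁⌉₊ n) α ≤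
        (x : ℝ) ^ 2 / (q * (Real.log x) ^ B'') := by
    filter_upwards [eventually_ge_atTop xa, eventually_ge_atTop xb, eventually_ge_atTop xc,
      eventually_ge_atTop 24, evt_log 1000,
      evt_log (656 * Cm), evt_log (93 * Cv), evt_log (1148 * G), evt_log (2 * V ^ 2),
      evt_pow 4 (B₁ + B₂) (1 - θ) h1θ, evt_pow 1 B₁ κ hκ, evt_pow 65 (B₁ + E + cv + 1) (ε / 2)
        (by linarith), evt_pow 8 0 (1 / 8) (by norm_num), evt_pow 2 (2 * b₃) κ hκ,
      evt_pow 1 E (1 - θ) h1θ, evt_pow 256 (6 * B₁ + 2 + E) (2 - 2 * θ) (by linarith)]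
      with x hxxa hxxb hxxc hx24 hL1000 hLCm hLCv hLG hLV hp1 hp2 hp3 hp5 hp10 hp11 hp12
    intro q hq hqx hgood cc v hcc hv hδ α
    set X : ℝ := (x : ℝ) with hX
    set L : ℝ := Real.log X with hL
    have hx3 : 3 ≤ x := by omega
    have hX24 : (24 : ℝ) ≤ X := by rw [hX]; exact_mod_cast hx24
    have toN : ∀ n : ℕ, (n : ℝ) ≤ X → n ≤ x := fun n h => by
      rw [hX] at h; exact_mod_cast h
    have hX0 : 0 < X := by linarith
    have hX1 : 1 ≤ X := by linarith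
    have hL0 : 0 < L := by linarith
    have hL1 : 1 ≤ L := by linarith
    have hqR : (1 : ℝ) ≤ q := by exact_mod_cast hq
    have hq0 : (0 : ℝ) < q := by linarith
    rw [pow_zero, mul_one] at hp5
    have mono : ∀ a b : ℝ, a ≤ b → X ^ a ≤ X ^ b := fun a b h =>
      Real.rpow_le_rpow_of_exponent_le hX1 h
    have hqθ : (q : ℝ) ≤ X ^ θ := hqx.trans (mono _ _ (by linarith))
    have hqX : (q : ℝ) ≤ X := by
      calc (q : ℝ) ≤ X ^ θ := hqθ
        _ ≤ X ^ (1 : ℝ) := mono _ _ hθ1.le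
        _ = X := Real.rpow_one X
    have hXq : X ^ (1 - θ) ≤ X / q := by
      rw [le_div_iff₀ hq0]
      calc X ^ (1 - θ) * q ≤ X ^ (1 - θ) * X ^ θ := by gcongr
        _ = X := by rw [← Real.rpow_add hX0]; simp
    have hLB₂ : 1 ≤ L ^ B₂ := one_le_pow₀ hL1
    have hLB₁ : 1 ≤ L ^ B₁ := one_le_pow₀ hL1
    -- sizes
    obtain ⟨hw1, hw2, hz1, hz2, hD1⟩ := SupFaux.sizes θ κ x hθ hθ1 hκ hκθ (by omega)
    rw [← hX] at hw1 hw2 hz1 hz2 hD1
    set w : ℕ := wk κ x with hw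
    set z : ℕ := zx θ x with hz
    set D0 : ℕ := ⌈X ^ (1 - θ / 2)⌉₊ with hD0
    set D : ℕ := w ^ 2 * D0 with hD
    set w₂ : ℕ := w * z with hw₂
    have hXκ : 0 < X ^ κ := by positivity
    have hw0 : (0 : ℝ) < w := hXκ.trans_le hw1
    have hz0 : (0 : ℝ) < z := lt_of_lt_of_le (by positivity) hz1
    have hw₂R : (w₂ : ℝ) ≤ 4 * X ^ (κ + 1 - θ) := by
      calc (w₂ : ℝ) = w * z := by rw [hw₂]; push_cast; ring
        _ ≤ (2 * X ^ κ) * (2 * X ^ (1 - θ)) := by gcongr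
        _ = 4 * (X ^ κ * X ^ (1 - θ)) := by ring
        _ = 4 * X ^ (κ + 1 - θ) := by
            rw [← Real.rpow_add hX0]
            congr 2
            ring
    have hDR : (D : ℝ) ≤ 8 * X ^ (2 * κ + 1 - θ / 2) := by
      calc (D : ℝ) = (w : ℝ) ^ 2 * D0 := by rw [hD]; push_cast; ring
        _ ≤ (2 * X ^ κ) ^ 2 * (2 * X ^ (1 - θ / 2)) := by gcongr
        _ = 8 * ((X ^ κ) ^ 2 * X ^ (1 - θ / 2)) := by ring
        _ = 8 * X ^ (2 * κ + 1 - θ / 2) := by
            rw [← Real.rpow_natCast (X ^ κ) 2, ← Real.rpow_mul hX0.le, ← Real.rpow_add hX0]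
            congr 2
            push_cast
            ring
    have hD2 : (D : ℝ) ^ 2 ≤ 64 * X ^ (4 * κ + 2 - θ) := by
      calc (D : ℝ) ^ 2 ≤ (8 * X ^ (2 * κ + 1 - θ / 2)) ^ 2 := by gcongr
        _ = 64 * (X ^ (2 * κ + 1 - θ / 2)) ^ 2 := by ring
        _ = 64 * X ^ (4 * κ + 2 - θ) := by
            rw [← Real.rpow_natCast (X ^ (2 * κ + 1 - θ / 2)) 2, ← Real.rpow_mul hX0.le]
            congr 2
            push_cast
            ring
    have hDX : (D : ℝ) ≤ X := by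
      calc (D : ℝ) ≤ 8 * X ^ (2 * κ + 1 - θ / 2) := hDR
        _ ≤ X ^ (1 / 8 : ℝ) * X ^ (7 / 8 : ℝ) :=
            mul_le_mul hp5 (mono _ _ (by linarith)) (by positivity) (by positivity)
        _ = X := by rw [← Real.rpow_add hX0]; norm_num
    have hDx : D ≤ x := toN _ hDX
    have hw₂X : (w₂ : ℝ) ≤ X := by
      calc (w₂ : ℝ) ≤ 4 * X ^ (κ + 1 - θ) := hw₂R
        _ ≤ X ^ (1 / 8 : ℝ) * X ^ (7 / 8 : ℝ) :=
            mul_le_mul (by linarith) (mono _ _ (by linarith)) (by positivity) (by positivity)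
        _ = X := by rw [← Real.rpow_add hX0]; norm_num
    have hw₂x : w₂ ≤ x := toN _ hw₂X
    have hw1n : 1 ≤ w := by
      have : (0 : ℝ) < w := hw0
      have : 0 < w := by exact_mod_cast this
      omega
    have hz1n : 1 ≤ z := by
      have : 0 < z := by exact_mod_cast hz0
      omega
    have hww₂ : w ≤ w₂ := by
      rw [hw₂]
      exact Nat.le_mul_of_pos_right _ (by omega)
    have hJle : ∀ b : ℕ, (JJ x b : ℝ) ≤ 3 * L ^ (b + 1) := by
      intro b
      have h1 : 1 ≤ L ^ (b + 1) := one_le_pow₀ hL1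
      have h2 := Nat.ceil_lt_add_one (show 0 ≤ 2 * L ^ (b + 1) by positivity)
      unfold JJ
      rw [← hX, ← hL]
      linarith
    -- S
    set S : ℝ := X / (q * L ^ B₂) with hS
    have hS0 : 0 < S := by positivity
    have hS4' : 4 * L ^ B₁ ≤ S := by
      have : S = X / q / L ^ B₂ := by rw [hS, div_div]
      rw [this, le_div_iff₀ (by positivity)]
      calc 4 * L ^ B₁ * L ^ B₂ = 4 * L ^ (B₁ + B₂) := by ring
        _ ≤ X ^ (1 - θ) := hp1
        _ ≤ X / q := hXq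
    have hS1 : 1 ≤ S := by linarith
    have hSX : S ≤ X := by
      rw [hS, div_le_iff₀ (by positivity)]
      exact le_mul_of_one_le_right hX0.le (one_le_mul_of_one_le_of_one_le hqR hLB₂)
    set Q : ℕ := ⌈L ^ B₁⌉₊ with hQ
    have hQge : L ^ B₁ ≤ Q := Nat.le_ceil _
    have hQle : (Q : ℝ) ≤ 2 * L ^ B₁ := by
      have := Nat.ceil_lt_add_one (show 0 ≤ L ^ B₁ by positivity)
      rw [← hQ] at this
      linarith
    have hQ1 : 1 ≤ Q := by
      have : (1 : ℝ) ≤ Q := hLB₁.trans hQge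
      exact_mod_cast this
    have hρ : (q : ℝ) / q.totient ≤ 4 * L := by
      have h1 := ratio_le q hq
      have h2 : Real.log q ≤ L := Real.log_le_log hq0 hqX
      linarith
    have hρ0 : 0 ≤ (q : ℝ) / q.totient := by positivity
    -- Dirichlet
    have hSf : 0 < ⌊S⌋₊ := Nat.floor_pos.2 hS1
    obtain ⟨r, hr1, hr2⟩ := Real.exists_rat_abs_sub_le_and_den_le ((q : ℝ) * α) hSf
    set s : ℕ := r.den with hs
    have hs1 : 1 ≤ s := r.pos
    have hsR : (1 : ℝ) ≤ s := by exact_mod_cast hs1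
    have hs0 : (0 : ℝ) < s := by linarith
    have hsS : (s : ℝ) ≤ S := by
      calc (s : ℝ) ≤ (⌊S⌋₊ : ℝ) := by exact_mod_cast hr2
        _ ≤ S := Nat.floor_le hS0.le
    have hbs : IsCoprime r.num (s : ℤ) := by
      rw [Int.isCoprime_iff_gcd_eq_one]
      exact r.reduced
    have hrcast : (r : ℝ) = (r.num : ℝ) / s := by
      rw [hs]
      exact_mod_cast (Rat.num_div_den r).symm
    have hα : |(q : ℝ) * α - r.num / s| ≤ 1 / (s * S) := by
      rw [← hrcast]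
      refine hr1.trans (div_le_div_of_nonneg_left zero_le_one (by positivity) ?_)
      have h1 : S < ⌊S⌋₊ + 1 := Nat.lt_floor_add_one S
      rw [mul_comm]
      exact mul_le_mul_of_nonneg_right h1.le hs0.le
    have hqsB₂ : (q : ℝ) * s ≤ X / L ^ B₂ := by
      calc (q : ℝ) * s ≤ q * S := by gcongr
        _ = X / L ^ B₂ := by rw [hS]; field_simp
    by_cases hcase : (s : ℝ) ≤ L ^ B₁
    · -- major arcs
      have hsQ : s ≤ Q := by exact_mod_cast hcase.trans hQge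
      have hqsR : (q : ℝ) * s ≤ X := hqsB₂.trans (div_le_self hX0.le hLB₂)
      have hqs : q * s ≤ x := toN _ (by push_cast; exact hqsR)
      have : NeZero (q * s) := ⟨by positivity⟩
      have hkθ : (q : ℝ) * s ≤ X ^ (θ - ε) * L ^ B₁ := by gcongr
      -- the variance
      obtain ⟨Bf, β, err, hctl, herr⟩ := hxb x hxxb D0 cc hcc
      have hqL : (q : ℝ) * L ^ B₁ ≤ X := by
        have h1 : L ^ B₁ ≤ X / q := by
          calc L ^ B₁ ≤ 4 * L ^ (B₁ + B₂) := by
                have : L ^ B₁ ≤ L ^ (B₁ + B₂) := pow_le_pow_right₀ hL1 (by omega)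
                have h0 : 0 ≤ L ^ (B₁ + B₂) := by positivity
                linarith
            _ ≤ X ^ (1 - θ) := hp1
            _ ≤ X / q := hXq
        rw [le_div_iff₀ hq0] at h1
        linarith
      have hchar := hxc x hxxc q hq hqL hgood s hs1 hcase
      have hη0 : 0 < 1 / L ^ (2 * b₃) := by positivity
      have hη1 : 1 / L ^ (2 * b₃) ≤ 1 := by
        rw [div_le_one (by positivity)]
        exact one_le_pow₀ hL1
      have hηw : 2 ≤ 1 / L ^ (2 * b₃) * (w : ℝ) := by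
        rw [one_div, ← div_eq_inv_mul, le_div_iff₀ (by positivity)]
        exact hp10.trans hw1
      have hkD : ((q * s : ℕ) : ℝ) * ((D : ℝ) ^ 2 + X) ≤ X ^ 2 / L ^ (E + cv + 1) := by
        have h1 : (D : ℝ) ^ 2 + X ≤ 65 * X ^ (4 * κ + 2 - θ) := by
          have h2 : X ≤ X ^ (4 * κ + 2 - θ) := by
            calc X = X ^ (1 : ℝ) := (Real.rpow_one X).symm
              _ ≤ _ := mono _ _ (by linarith)
          linarith
        rw [le_div_iff₀ (by positivity)]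
        calc ((q * s : ℕ) : ℝ) * ((D : ℝ) ^ 2 + X) * L ^ (E + cv + 1)
            ≤ (X ^ (θ - ε) * L ^ B₁) * (65 * X ^ (4 * κ + 2 - θ)) * L ^ (E + cv + 1) := by
              push_cast
              gcongr
          _ = (65 * L ^ (B₁ + E + cv + 1)) * (X ^ (θ - ε) * X ^ (4 * κ + 2 - θ)) := by
              rw [show B₁ + E + cv + 1 = B₁ + (E + cv + 1) by ring, pow_add]
              ring
          _ ≤ X ^ (ε / 2) * (X ^ (θ - ε) * X ^ (4 * κ + 2 - θ)) := by gcongr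
          _ = X ^ (2 + 4 * κ - ε / 2) := by
              rw [← Real.rpow_add hX0, ← Real.rpow_add hX0]
              congr 1
              ring
          _ ≤ X ^ (2 : ℝ) := mono _ _ (by linarith)
          _ = X ^ 2 := by rw [← Real.rpow_natCast]; norm_num
      have hp3' : 4 * L ^ B₁ ≤ X ^ (ε / 2) := by
        refine le_trans ?_ hp3
        have : L ^ B₁ ≤ L ^ (B₁ + E + cv + 1) := pow_le_pow_right₀ hL1 (by omega)
        have h0 : 0 ≤ L ^ (B₁ + E + cv + 1) := by positivity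
        linarith
      have hw₂k : (w₂ : ℝ) * ((q * s : ℕ) : ℝ) ≤ X := by
        calc (w₂ : ℝ) * ((q * s : ℕ) : ℝ)
            ≤ (4 * X ^ (κ + 1 - θ)) * (X ^ (θ - ε) * L ^ B₁) := by
              push_cast
              gcongr
          _ = (4 * L ^ B₁) * (X ^ (κ + 1 - θ) * X ^ (θ - ε)) := by ring
          _ ≤ X ^ (ε / 2) * (X ^ (κ + 1 - θ) * X ^ (θ - ε)) := by gcongr
          _ = X ^ (1 + κ - ε / 2) := by
              rw [← Real.rpow_add hX0, ← Real.rpow_add hX0]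
              congr 1
              ring
          _ ≤ X ^ (1 : ℝ) := mono _ _ (by linarith)
          _ = X := Real.rpow_one X
      have hVb : ∀ y' ≤ x, ∑ χ ∈ (univ : Finset (DirichletCharacter ℂ (q * s))).erase 1,
          ‖∑ n ∈ Icc 1 y', ((aa cc z n : ℝ) : ℂ) * χ (n : ZMod (q * s))‖ ^ 2 ≤ X ^ 2 / L ^ E := by
        intro y' hy'
        have h1 := hvar x D w w₂ (JJ x B') (q * s) (AJ (y0 x) z w (1 / L ^ B')) Bf β err
          (aa cc z) (X / L ^ (E + cv + 1)) (1 / L ^ (2 * b₃)) (2 / L ^ (3 * b₃)) hctl herr hx3 hqs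
          hDx hw1n hww₂ hw₂x hη0 hη1 hηw (by positivity)
          ((univ : Finset (DirichletCharacter ℂ (q * s))).erase 1)
          (fun χ hχ => (mem_erase.1 hχ).1)
          (fun χ hχ j hj u hu1 hu2 => hchar χ (mem_erase.1 hχ).1 j hj u hu1 hu2) y' hy'
        refine h1.trans ?_
        rw [← hX, ← hL]
        exact SupFaux.var_arith E cv B' b₃ Cv X L ((q * s : ℕ) : ℝ) D w₂ (JJ x B')
          (X / L ^ (E + cv + 1)) (1 / L ^ (2 * b₃)) (2 / L ^ (3 * b₃)) hCv hL1000 hLCv hX1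
          (Nat.cast_nonneg _) (by push_cast; exact hqsR) (Nat.cast_nonneg _) hb₃ rfl rfl rfl
          (Nat.cast_nonneg _) (hJle B') hkD hw₂k
      have hz2n : 2 ≤ z := by
        have h1 : (4 : ℝ) ≤ z := by
          have h2 : 1 ≤ L ^ (B₁ + B₂) := one_le_pow₀ hL1
          calc (4 : ℝ) ≤ 4 * L ^ (B₁ + B₂) := by linarith
            _ ≤ X ^ (1 - θ) := hp1
            _ ≤ z := hz1
        have h2 : 4 ≤ z := by exact_mod_cast h1
        omega
      have hzK : x < z ^ K := by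
        have h1 : X < (z : ℝ) ^ K := by
          calc X = X ^ (1 : ℝ) := (Real.rpow_one X).symm
            _ < X ^ (2 : ℝ) := Real.rpow_lt_rpow_of_exponent_lt (by linarith) (by norm_num)
            _ ≤ X ^ ((1 - θ) * K) := mono _ _ hKθ
            _ = (X ^ (1 - θ)) ^ K := by rw [Real.rpow_mul hX0.le, Real.rpow_natCast]
            _ ≤ (z : ℝ) ^ K := by gcongr
        rw [hX] at h1
        exact_mod_cast h1
      have hFabs : ∀ n, n ≤ x → |aa cc z n| ≤ (2 : ℝ) ^ K := fun n hn =>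
        aa_abs x z D0 K cc hcc hz2n hzK n hn
      have hcl : ∀ y ≤ x, ∑ c ∈ range (q * s), ‖∑ n ∈ (Icc 1 y).filter
          (fun n => n ≡ c [MOD q * s]), (FA q (cut x (aa cc z)) n -
            ((v n : ℝ) : ℂ) * TM q Q n)‖ ^ 2 ≤
          G * ((X ^ 2 / L ^ E + (X / L ^ E) ^ 2 + (X / z) ^ 2) / (q * s).totient +
            X ^ 2 / (q * s * z) + (q * s) * ((q : ℝ) / q.totient * Q ^ 2) ^ 2) := by
        intro y hy
        exact class_F x z K q Q s y (X ^ 2 / L ^ E) V (X / L ^ E) (2 ^ K) (aa cc z) v hx3 hz2n hzK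
          hq hs1 hsQ hqs hy (one_le_pow₀ (by norm_num)) hFabs
          (fun n hn => aa_rough z D0 cc hcc n hn) hv hV.le hδ hVb
      have hΘ : |(q : ℝ) * α - r.num / s| ≤ 1 / S := by
        refine hα.trans ?_
        refine div_le_div_of_nonneg_left zero_le_one hS0 ?_
        exact le_mul_of_one_le_left hS0.le hsR
      have h3 := major_gen (fun n => FA q (cut x (aa cc z)) n - ((v n : ℝ) : ℂ) * TM q Q n)
        x q s hq hs1 α (1 / S) _ r.num hΘ hcl
      rw [← hX] at h3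
      have h4 : 2 * Real.pi * (1 / S) * X / q = 2 * Real.pi * L ^ B₂ := by
        rw [hS]
        field_simp
      rw [h4] at h3
      refine h3.trans ?_
      have hLE : L ^ E ≤ z := by
        rw [one_mul] at hp11
        exact hp11.trans hz1
      have hLE1 : 1 ≤ L ^ E := one_le_pow₀ hL1
      have hz1R : (1 : ℝ) ≤ z := hLE1.trans hLE
      have htot : 0 < (q * s).totient := Nat.totient_pos.2 (Nat.mul_pos (by omega) (by omega))
      refine SupFaux.major_arith B'' B₂ E G X L q s ((q * s).totient : ℝ) z (X ^ 2 / L ^ E)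
        ((X / L ^ E) ^ 2) (((q : ℝ) / q.totient * Q ^ 2) ^ 2) hG0 hL1000 hLG hX1 hqR hsR rfl hz0
        (by exact_mod_cast htot) ?_ le_rfl ?_ ?_ ?_ ?_
      · have h1 := ratio_le (q * s) (Nat.mul_pos (by omega) (by omega))
        have h2 : Real.log ((q * s : ℕ) : ℝ) ≤ L :=
          Real.log_le_log (by push_cast; positivity) (by push_cast; exact hqsR)
        push_cast at h1 h2
        linarith
      · rw [div_pow]
        refine div_le_div_of_nonneg_left (by positivity) (by positivity) ?_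
        rw [sq]
        exact le_mul_of_one_le_left (by positivity) hLE1
      · rw [div_pow]
        refine div_le_div_of_nonneg_left (by positivity) (by positivity) ?_
        rw [sq]
        exact hLE.trans (le_mul_of_one_le_left hz0.le hz1R)
      · exact div_le_div_of_nonneg_left (by positivity) (by positivity) hLE
      · rw [le_div_iff₀ (by positivity)]
        have h1 : ((q : ℝ) / q.totient * Q ^ 2) ^ 2 ≤ (4 * L * (2 * L ^ B₁) ^ 2) ^ 2 := by
          gcongr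
        have h2 : (q : ℝ) * s ≤ X ^ θ * L ^ B₁ := by gcongr
        calc (q : ℝ) * s * (q * s * ((q : ℝ) / q.totient * Q ^ 2) ^ 2) * L ^ E
            ≤ (X ^ θ * L ^ B₁) * ((X ^ θ * L ^ B₁) * (4 * L * (2 * L ^ B₁) ^ 2) ^ 2) * L ^ E := by
              gcongr
          _ = (256 * L ^ (6 * B₁ + 2 + E)) * (X ^ θ * X ^ θ) := by ring
          _ ≤ X ^ (2 - 2 * θ) * (X ^ θ * X ^ θ) := by gcongr
          _ = X ^ 2 := by
              rw [← Real.rpow_add hX0, ← Real.rpow_add hX0, ← Real.rpow_natCast]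
              congr 1
              push_cast
              ring
    · -- minor arcs
      push Not at hcase
      have hα2 : |(q : ℝ) * α - r.num / s| ≤ 1 / (s : ℝ) ^ 2 := by
        refine hα.trans ?_
        refine div_le_div_of_nonneg_left zero_le_one (by positivity) ?_
        rw [sq]
        exact mul_le_mul_of_nonneg_left hsS hs0.le
      have hLB₂' : L ^ B₁ ≤ L ^ B₂ := pow_le_pow_right₀ hL1 (by omega)
      have hqs8 : q * s ≤ x / 8 := by
        rw [Nat.le_div_iff_mul_le (by norm_num)]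
        refine toN _ ?_
        push_cast
        have h1 : (1000 : ℝ) ≤ L ^ B₂ := by
          calc (1000 : ℝ) ≤ L ^ 1 := by rw [pow_one]; exact hL1000
            _ ≤ L ^ B₂ := pow_le_pow_right₀ hL1 (by omega)
        have h2 : X / L ^ B₂ ≤ X / 1000 := by gcongr
        linarith
      have hqs : q * s ≤ x := hqs8.trans (Nat.div_le_self _ _)
      obtain ⟨Bf, β, err, hctl, herr⟩ := hxa x hxxa D0 cc hcc
      have hτ1 : 1 / (s : ℝ) ≤ 1 / L ^ B₁ :=
        div_le_div_of_nonneg_left zero_le_one (by positivity) hcase.le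
      have hτ2 : (q : ℝ) * s / X ≤ 1 / L ^ B₁ := by
        rw [div_le_iff₀ hX0]
        calc (q : ℝ) * s ≤ X / L ^ B₂ := hqsB₂
          _ ≤ X / L ^ B₁ := by gcongr
          _ = 1 / L ^ B₁ * X := by ring
      have hp3'' : 64 * L ^ B₁ ≤ X ^ (ε / 2) := by
        refine le_trans ?_ hp3
        have : L ^ B₁ ≤ L ^ (B₁ + E + cv + 1) := pow_le_pow_right₀ hL1 (by omega)
        have h0 : 0 ≤ L ^ (B₁ + E + cv + 1) := by positivity
        linarith
      have hτ3 : (q : ℝ) * (D : ℝ) ^ 2 / X ^ 2 ≤ 1 / L ^ B₁ := by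
        rw [div_le_div_iff₀ (by positivity) (by positivity), one_mul]
        calc (q : ℝ) * (D : ℝ) ^ 2 * L ^ B₁
            ≤ X ^ (θ - ε) * (64 * X ^ (4 * κ + 2 - θ)) * L ^ B₁ := by gcongr
          _ = (64 * L ^ B₁) * (X ^ (θ - ε) * X ^ (4 * κ + 2 - θ)) := by ring
          _ ≤ X ^ (ε / 2) * (X ^ (θ - ε) * X ^ (4 * κ + 2 - θ)) := by gcongr
          _ = X ^ (2 + 4 * κ - ε / 2) := by
              rw [← Real.rpow_add hX0, ← Real.rpow_add hX0]
              congr 1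
              ring
          _ ≤ X ^ (2 : ℝ) := mono _ _ (by linarith)
          _ = X ^ 2 := by rw [← Real.rpow_natCast]; norm_num
      have hτ4 : 1 / (w : ℝ) ≤ 1 / L ^ B₁ := by
        refine div_le_div_of_nonneg_left zero_le_one (by positivity) ?_
        rw [one_mul] at hp2
        exact hp2.trans hw1
      have hτ5 : (q : ℝ) * w₂ / X ≤ 1 / L ^ B₁ := by
        rw [div_le_div_iff₀ hX0 (by positivity), one_mul]
        calc (q : ℝ) * w₂ * L ^ B₁ ≤ X ^ (θ - ε) * (4 * X ^ (κ + 1 - θ)) * L ^ B₁ := by gcongr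
          _ = 4 * (L ^ B₁ * (X ^ (θ - ε) * X ^ (κ + 1 - θ))) := by ring
          _ ≤ 64 * (L ^ B₁ * (X ^ (θ - ε) * X ^ (κ + 1 - θ))) :=
              mul_le_mul_of_nonneg_right (by norm_num) (by positivity)
          _ = (64 * L ^ B₁) * (X ^ (θ - ε) * X ^ (κ + 1 - θ)) := by ring
          _ ≤ X ^ (ε / 2) * (X ^ (θ - ε) * X ^ (κ + 1 - θ)) := by gcongr
          _ = X ^ (1 + κ - ε / 2) := by
              rw [← Real.rpow_add hX0, ← Real.rpow_add hX0]
              congr 1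
              ring
          _ ≤ X ^ (1 : ℝ) := mono _ _ (by linarith)
          _ = X := Real.rpow_one X
      have hJ' : (JJ x Bp : ℝ) ≤ 3 * L ^ ((Bp + 2) + 1) := by
        refine (hJle Bp).trans ?_
        have : L ^ (Bp + 1) ≤ L ^ ((Bp + 2) + 1) := pow_le_pow_right₀ hL1 (by omega)
        linarith
      have hF : ∀ y : ℕ, 3 ≤ y → y ≤ x → q * s ≤ y →
          VV q y (FA q (aa cc z)) α ≤ 1 / 16 * (X ^ 2 / (q * L ^ B'')) := by
        intro y hy3 hyx hqsy
        have h1 := hmin x y q s D w w₂ (JJ x Bp) (AJ (y0 x) z w (1 / L ^ Bp)) Bf β err (aa cc z)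
          (X / L ^ (cm + B'' + 2)) α r.num hctl herr hy3 hyx hq hw1n hw₂x hDx hs1 hqsy hbs hα2
        refine h1.trans ?_
        rw [← hX, ← hL]
        exact SupFaux.minor_arith B'' cm (Bp + 2) (cm + B'' + 2) B₁ Cm X L q s D w w₂ (JJ x Bp)
          (X / L ^ (cm + B'' + 2)) (1 / L ^ B₁) hCm hL1000 hLCm hX1 hqR hqX rfl hB₁ rfl hτ1 hτ2 hτ3
          hτ4 hτ5 (Nat.cast_nonneg _) hJ' rfl
      have hFc : VV q x (FA q (cut x (aa cc z))) α ≤ 1 / 4 * (X ^ 2 / (q * L ^ B'')) := by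
        have h1 := SupFaux.VV_cut q x (aa cc z) α
        have h2 := hF x hx3 le_rfl hqs
        have h3 := hF (x / 8) (by omega) (Nat.div_le_self _ _) hqs8
        linarith
      have hT := SupFaux.VV_vT x q Q s V α S r.num v hv hV.le hq hQ1 hs1 hsS (by linarith) hbs hα
      have hφs : 1 / (s.totient : ℝ) ≤ 4 * L / L ^ B₁ := by
        have h1 := ratio_le s hs1
        have h2 : Real.log s ≤ L := Real.log_le_log hs0 (hsS.trans hSX)
        have h3 : 1 / (s.totient : ℝ) = (s : ℝ) / s.totient / s := by field_simp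
        rw [h3, div_le_div_iff₀ hs0 (by positivity)]
        have h4 : (s : ℝ) / s.totient ≤ 4 * L := by linarith
        calc (s : ℝ) / s.totient * L ^ B₁ ≤ 4 * L * L ^ B₁ := by gcongr
          _ ≤ 4 * L * s := by gcongr
      have hT2 := sup_minorT_arith (B'' + 1) B₁ X L q ((q : ℝ) / q.totient) (1 / s.totient) S Q
        hL1000 hX1 hqR hqX hρ0 hρ (by omega) (by positivity) hφs rfl (Nat.cast_nonneg _) hQle
      have h6 : (X / q + 1) / (s.totient : ℝ) = (X / q + 1) * (1 / s.totient) := by ring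
      rw [← hX, h6] at hT
      have hT3 : VV q x (fun n => ((v n : ℝ) : ℂ) * TM q Q n) α ≤
          1 / 4 * (X ^ 2 / (q * L ^ B'')) := by
        refine hT.trans ?_
        set Z : ℝ := (q : ℝ) / q.totient * Real.sqrt q *
          ((X / q + 1) * (1 / s.totient) + S * (Q : ℝ) ^ 2) with hZ
        have e1 : (2 * V * Z) ^ 2 = 2 * V ^ 2 * (2 * Z ^ 2) := by ring
        have e2 : X ^ 2 / (q * L ^ (B'' + 1)) = X ^ 2 / (q * L ^ B'') / L := by
          rw [div_div, pow_succ L B'', ← mul_assoc]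
        rw [e1]
        calc 2 * V ^ 2 * (2 * Z ^ 2) ≤ L * (1 / 4 * (X ^ 2 / (q * L ^ (B'' + 1)))) := by
              exact mul_le_mul hLV hT2 (by positivity) hL0.le
          _ = 1 / 4 * (X ^ 2 / (q * L ^ B'')) := by
              rw [e2]
              field_simp
      have h5 := VV_sub_le q x (FA q (cut x (aa cc z))) (fun n => ((v n : ℝ) : ℂ) * TM q Q n) α
      refine h5.trans ?_
      have h7 : 0 ≤ X ^ 2 / (q * L ^ B'') := by positivity
      linarith
  obtain ⟨x₀, hx₀⟩ := eventually_atTop.1 hev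
  exact ⟨x₀, hx₀⟩

end Pool.Agent.HS
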