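import Pool.Agent.Work.MP_92f640_nt.HS.Defs

/-! # Module Basic: elementary properties of `bb`, `aa`

`aa_rough`: for `p < z` prime, `p ∣ n`: every `d` with `cc d ≠ 0` is coprime to `p`, so `p ∣ n/d` and `rho z (n/d) = 0`.
`aa_eq`: on squarefree `z`-rough `n` every `rho` is `1`.
`aa_abs`: squarefree `z`-rough `n ≤ x < z^K` has fewer than `K` prime factors, at most `2^K` divisors.
`bb_abs`: `rho ≤ 1`. -/

namespace Pool.Agent.HS

open Finset Pool.Agent.BV Pool.Agent.HL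

theorem rho_nonneg (y n : ℕ) : 0 ≤ rho y n := by
  unfold rho
  split_ifs <;> norm_num

theorem rho_le_one (y n : ℕ) : rho y n ≤ 1 := by
  unfold rho
  split_ifs <;> norm_num

theorem rho_eq_one {y n : ℕ} (h : ∀ p : ℕ, p.Prime → p ∣ n → y ≤ p) : rho y n = 1 := by
  unfold rho
  rw [if_pos h]

theorem rho_eq_zero {y n p : ℕ} (hp : p.Prime) (hpn : p ∣ n) (h : p < y) : rho y n = 0 := by
  unfold rho
  rw [if_neg]
  intro h'
  exact absurd (h' p hp hpn) (by omega)

theorem aa_rough (z D0 : ℕ) (cc : ℕ → ℝ) (h : Wt z D0 cc) (n : ℕ) (hn : aa cc z n ≠ 0) :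
    ∀ p : ℕ, p.Prime → p ∣ n → z ≤ p := by
  intro p hp hpn
  by_contra hz
  push Not at hz
  apply hn
  unfold aa bb
  split_ifs with hs
  · refine sum_eq_zero fun d hd => ?_
    rw [Nat.mem_divisors] at hd
    by_cases hc : cc d = 0
    · rw [hc, zero_mul]
    have hpd : ¬ p ∣ d := fun h' => absurd ((h.sf d hc).2 p hp h') (by omega)
    have h1 : p ∣ d * (n / d) := by
      rw [Nat.mul_div_cancel' hd.1]
      exact hpn
    rcases (Nat.Prime.dvd_mul hp).1 h1 with h2 | h2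
    · exact absurd h2 hpd
    · rw [rho_eq_zero hp h2 hz, mul_zero]
  · rfl

theorem aa_eq (z : ℕ) (cc : ℕ → ℝ) (n : ℕ) (hs : Squarefree n)
    (hr : ∀ p : ℕ, p.Prime → p ∣ n → z ≤ p) : aa cc z n = ∑ d ∈ n.divisors, cc d := by
  unfold aa bb
  rw [if_pos hs]
  refine sum_congr rfl fun d hd => ?_
  rw [Nat.mem_divisors] at hd
  rw [rho_eq_one fun p hp h => hr p hp (h.trans (Nat.div_dvd_of_dvd hd.1)), mul_one]

theorem divisors_mul_prime {m p : ℕ} (hm : m ≠ 0) (hp : p.Prime) (hpm : ¬ p ∣ m) (f : ℕ → ℝ) :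
    ∑ d ∈ (m * p).divisors, f d = ∑ d ∈ m.divisors, (f d + f (d * p)) := by
  have hp0 : 0 < p := hp.pos
  have hdj : Disjoint m.divisors (m.divisors.image (fun d => d * p)) := by
    rw [disjoint_left]
    intro a ha hb
    rw [mem_image] at hb
    obtain ⟨b, -, rfl⟩ := hb
    exact hpm ((Dvd.intro_left b rfl).trans (Nat.dvd_of_mem_divisors ha))
  have heq : (m * p).divisors = m.divisors ∪ m.divisors.image (fun d => d * p) := by
    ext a
    rw [Nat.mem_divisors, mem_union, Nat.mem_divisors, mem_image]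
    constructor
    · rintro ⟨ha, -⟩
      by_cases hpa : p ∣ a
      · obtain ⟨b, rfl⟩ := hpa
        refine Or.inr ⟨b, ?_, mul_comm _ _⟩
        rw [Nat.mem_divisors]
        exact ⟨Nat.dvd_of_mul_dvd_mul_right hp0 (by rwa [mul_comm b p]), hm⟩
      · have hcop : Nat.Coprime a p := ((Nat.Prime.coprime_iff_not_dvd hp).2 hpa).symm
        exact Or.inl ⟨hcop.dvd_of_dvd_mul_right ha, hm⟩
    · rintro (⟨ha, -⟩ | ⟨b, hb, rfl⟩)
      · exact ⟨ha.mul_right p, mul_ne_zero hm hp0.ne'⟩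
      · exact ⟨Nat.mul_dvd_mul_right (Nat.dvd_of_mem_divisors hb) p, mul_ne_zero hm hp0.ne'⟩
  rw [heq, sum_union hdj, sum_image (fun a _ b _ h => Nat.eq_of_mul_eq_mul_right hp0 h),
    sum_add_distrib]

theorem aa_mul (z : ℕ) (V0 : ℝ) (cc : ℕ → ℝ) (E : ℕ → ℕ → ℝ) (h : WtE z V0 cc E) (m p : ℕ)
    (hs : Squarefree m) (hr : ∀ p' : ℕ, p'.Prime → p' ∣ m → z ≤ p') (hp : p.Prime) (hz : z ≤ p)
    (hpm : ¬ p ∣ m) : aa cc z (m * p) = ∑ d ∈ m.divisors, (cc d + E d p) := by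
  have hm0 : m ≠ 0 := Squarefree.ne_zero hs
  have hcop : Nat.Coprime m p := ((Nat.Prime.coprime_iff_not_dvd hp).2 hpm).symm
  rw [aa_eq z cc (m * p) ((Nat.squarefree_mul hcop).2 ⟨hs, hp.squarefree⟩), divisors_mul_prime hm0
    hp hpm]
  · refine sum_congr rfl fun d hd => ?_
    have hdm := Nat.dvd_of_mem_divisors hd
    rw [h.eq d p (Squarefree.squarefree_of_dvd hdm hs) (fun p' hp' h' => hr p' hp' (h'.trans hdm))
      hp hz (fun h' => hpm (h'.trans hdm))]
  · intro p' hp' h'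
    rcases (Nat.Prime.dvd_mul hp').1 h' with h1 | h1
    · exact hr p' hp' h1
    · rw [(Nat.prime_dvd_prime_iff_eq hp' hp).1 h1]
      exact hz

theorem aa_abs (x z D0 K : ℕ) (cc : ℕ → ℝ) (h : Wt z D0 cc) (hz : 2 ≤ z) (hK : x < z ^ K) (n : ℕ)
    (hn : n ≤ x) : |aa cc z n| ≤ 2 ^ K := by
  by_cases h0 : aa cc z n = 0
  · rw [h0, abs_zero]
    positivity
  have hr := aa_rough z D0 cc h n h0
  have hs : Squarefree n := by
    by_contra hs
    apply h0
    unfold aa
    rw [if_neg hs]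
  have hn0 : n ≠ 0 := Squarefree.ne_zero hs
  have hcard : n.primeFactors.card ≤ K := by
    have h1 : z ^ n.primeFactors.card ≤ n := by
      calc z ^ n.primeFactors.card ≤ ∏ p ∈ n.primeFactors, p := by
            refine pow_card_le_prod _ _ _ fun p hp => ?_
            exact hr p (Nat.prime_of_mem_primeFactors hp) (Nat.dvd_of_mem_primeFactors hp)
        _ ≤ n := Nat.le_of_dvd (Nat.pos_of_ne_zero hn0) (Nat.prod_primeFactors_dvd n)
    have h2 : z ^ n.primeFactors.card < z ^ K := lt_of_le_of_lt (h1.trans hn) hK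
    exact ((Nat.pow_lt_pow_iff_right (by omega)).1 h2).le
  have hd : n.divisors.card ≤ 2 ^ K := by
    rw [Nat.card_divisors hn0]
    calc ∏ p ∈ n.primeFactors, (n.factorization p + 1) ≤ ∏ _p ∈ n.primeFactors, 2 := by
          refine prod_le_prod' fun p _ => ?_
          have := hs.natFactorization_le_one p
          omega
      _ = 2 ^ n.primeFactors.card := by rw [prod_const]
      _ ≤ 2 ^ K := Nat.pow_le_pow_right (by norm_num) hcard
  rw [aa_eq z cc n hs hr]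
  calc |∑ d ∈ n.divisors, cc d| ≤ ∑ d ∈ n.divisors, |cc d| := abs_sum_le_sum_abs _ _
    _ ≤ ∑ _d ∈ n.divisors, (1 : ℝ) := sum_le_sum fun d _ => h.bd d
    _ = n.divisors.card := by rw [sum_const, nsmul_eq_mul, mul_one]
    _ ≤ 2 ^ K := by exact_mod_cast hd

theorem bb_abs (z D0 : ℕ) (cc : ℕ → ℝ) (h : Wt z D0 cc) (y n : ℕ) :
    |bb cc y n| ≤ (n.divisors.card : ℝ) := by
  unfold bb
  calc |∑ d ∈ n.divisors, cc d * rho y (n / d)| ≤ ∑ d ∈ n.divisors, |cc d * rho y (n / d)| :=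
        abs_sum_le_sum_abs _ _
    _ ≤ ∑ _d ∈ n.divisors, (1 : ℝ) := by
        refine sum_le_sum fun d _ => ?_
        rw [abs_mul, abs_of_nonneg (rho_nonneg _ _)]
        exact mul_le_one₀ (h.bd d) (rho_nonneg _ _) (rho_le_one _ _)
    _ = n.divisors.card := by rw [sum_const, nsmul_eq_mul, mul_one]

end Pool.Agent.HS
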