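import Pool.Agent.Work.MP_92f640_nt.HS.Defs

/-! # Module Ident: the sieve identity

`sieve_id`: if `n` has a prime factor `< y` all terms vanish (such a prime divides `n/c`, `c` being coprime to it, and
`rho (minFac c) (n/c) = 0` as `y ≤ minFac c`). Otherwise let `m = minFac n` (`n > 1`). If `n = 1` or `m ≥ z` only `c = 1` occurs.
If `m < z`: in the second sum `rho (minFac c) (n/c) ≠ 0` iff `minFac c = m`; pair the divisors `c` (`CC`, `m ∤ c`, `c < w`) of the
first sum with `c * m`, which is in the first sum if `c m < w`, in the second if `c m ≥ w`.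
`bb_id`: `sieve_id` at `n/d`; `d ∣ n ∧ c ∣ n/d` iff `c ∣ n ∧ d ∣ n/c`. -/

namespace Pool.Agent.HS

open Finset Pool.Agent.BV Pool.Agent.HL
open scoped ArithmeticFunction.Moebius

theorem rho_one {y n : ℕ} (h : ∀ p : ℕ, p.Prime → p ∣ n → y ≤ p) : rho y n = 1 := by
  unfold rho
  rw [if_pos h]

theorem rho_zero {y n p : ℕ} (hp : p.Prime) (hpn : p ∣ n) (h : p < y) : rho y n = 0 := by
  unfold rho
  rw [if_neg]
  intro h'
  exact absurd (h' p hp hpn) (by omega)

/-- a prime dividing `n` but not its divisor `c` divides the cofactor -/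
theorem dvd_cof {n c p : ℕ} (hp : p.Prime) (hpn : p ∣ n) (hc : c ∣ n) (hpc : ¬ p ∣ c) :
    p ∣ n / c := by
  have h : p ∣ c * (n / c) := by rw [Nat.mul_div_cancel' hc]; exact hpn
  rcases (Nat.Prime.dvd_mul hp).1 h with h | h
  · exact absurd h hpc
  · exact h

open Classical in
/-- the pairing `c ↔ c m` -/
theorem invol (y z w n m : ℕ) (hm : m.Prime) (hmn : m ∣ n) (hym : y ≤ m) (hmz : m < z)
    (hn : n ≠ 0) :
    ∑ c ∈ n.divisors.filter (fun c => CC y z c ∧ ((¬ m ∣ c ∧ c < w) ∨ (m ∣ c ∧ c / m < w))),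
      ((μ c : ℤ) : ℝ) = 0 := by
  set U := n.divisors.filter
    (fun c => CC y z c ∧ ((¬ m ∣ c ∧ c < w) ∨ (m ∣ c ∧ c / m < w))) with hU
  have hm0 : 0 < m := hm.pos
  have key : ∀ c, CC y z (c * m) → ¬ m ∣ c := by
    intro c hc hmc
    have h2 : m * m ∣ c * m := Nat.mul_dvd_mul_right hmc m
    have := hc.1 m h2
    exact hm.one_lt.ne' (Nat.isUnit_iff.1 this)
  have hmu : ∀ c, ¬ m ∣ c → ((μ (c * m) : ℤ) : ℝ) = - ((μ c : ℤ) : ℝ) := by
    intro c hc
    have hcop : Nat.Coprime c m := ((Nat.Prime.coprime_iff_not_dvd hm).2 hc).symm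
    rw [ArithmeticFunction.isMultiplicative_moebius.map_mul_of_coprime hcop,
      ArithmeticFunction.moebius_apply_prime hm]
    push_cast
    ring
  have hCC : ∀ c, ¬ m ∣ c → (CC y z (c * m) ↔ CC y z c) := by
    intro c hc
    have hcop : Nat.Coprime c m := ((Nat.Prime.coprime_iff_not_dvd hm).2 hc).symm
    constructor
    · intro h
      exact ⟨Squarefree.squarefree_of_dvd (Dvd.intro _ rfl) h.1,
        fun p hp hpc => h.2 p hp (Dvd.dvd.mul_right hpc m)⟩
    · intro h
      refine ⟨(Nat.squarefree_mul hcop).2 ⟨h.1, hm.squarefree⟩, fun p hp hpc => ?_⟩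
      rcases (Nat.Prime.dvd_mul hp).1 hpc with h1 | h1
      · exact h.2 p hp h1
      · have := (Nat.prime_dvd_prime_iff_eq hp hm).1 h1
        subst this
        exact ⟨hym, hmz⟩
  refine Finset.sum_involution (fun c _ => if m ∣ c then c / m else c * m) ?_ ?_ ?_ ?_
  · intro c hc
    rw [hU, mem_filter, Nat.mem_divisors] at hc
    by_cases h : m ∣ c
    · obtain ⟨d, rfl⟩ := h
      have hd : ¬ m ∣ d := by
        apply key d
        rw [mul_comm]; exact hc.2.1
      rw [if_pos (Dvd.intro _ rfl), Nat.mul_div_cancel_left _ hm0, mul_comm m d, hmu d hd]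
      ring
    · rw [if_neg h, hmu c h]
      ring
  · intro c hc hne heq
    rw [hU, mem_filter, Nat.mem_divisors] at hc
    by_cases h : m ∣ c
    · obtain ⟨d, rfl⟩ := h
      rw [if_pos (Dvd.intro _ rfl), Nat.mul_div_cancel_left _ hm0] at heq
      have hd : d ≠ 0 := by
        rintro rfl
        simp at hne
      have : 1 < m := hm.one_lt
      have hd0 : 0 < d := Nat.pos_of_ne_zero hd
      nlinarith
    · rw [if_neg h] at heq
      have : 1 < m := hm.one_lt
      have hc0 : 0 < c := Nat.pos_of_ne_zero (by rintro rfl; exact h (dvd_zero _))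
      nlinarith
  · intro c hc
    rw [hU, mem_filter, Nat.mem_divisors] at hc
    rw [hU, mem_filter, Nat.mem_divisors]
    by_cases h : m ∣ c
    · obtain ⟨d, rfl⟩ := h
      have hd : ¬ m ∣ d := by
        apply key d
        rw [mul_comm]; exact hc.2.1
      rw [if_pos (Dvd.intro _ rfl), Nat.mul_div_cancel_left _ hm0]
      refine ⟨⟨(Dvd.intro_left m rfl).trans hc.1.1, hn⟩, ?_, Or.inl ⟨hd, ?_⟩⟩
      · rw [← hCC d hd, mul_comm]; exact hc.2.1
      · rcases hc.2.2 with h | h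
        · exact absurd (Dvd.intro _ rfl) h.1
        · rw [Nat.mul_div_cancel_left _ hm0] at h
          exact h.2
    · rw [if_neg h]
      have hcop : Nat.Coprime c m := ((Nat.Prime.coprime_iff_not_dvd hm).2 h).symm
      refine ⟨⟨Nat.Coprime.mul_dvd_of_dvd_of_dvd hcop hc.1.1 hmn, hn⟩, (hCC c h).2 hc.2.1,
        Or.inr ⟨Dvd.intro_left c rfl, ?_⟩⟩
      rw [Nat.mul_div_cancel _ hm0]
      rcases hc.2.2 with h' | h'
      · exact h'.2
      · exact absurd h'.1 h
  · intro c hc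
    rw [hU, mem_filter, Nat.mem_divisors] at hc
    by_cases h : m ∣ c
    · obtain ⟨d, rfl⟩ := h
      have hd : ¬ m ∣ d := by
        apply key d
        rw [mul_comm]; exact hc.2.1
      simp only [if_pos (Dvd.intro d rfl : m ∣ m * d), Nat.mul_div_cancel_left _ hm0, if_neg hd]
      ring
    · simp only [if_neg h, if_pos (Dvd.intro_left c rfl : m ∣ c * m), Nat.mul_div_cancel _ hm0]

open Classical in
theorem sieve_id (y z w n : ℕ) (hy : 2 ≤ y) (hyz : y ≤ z) (hw : 2 ≤ w) (hn : 1 ≤ n) :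
    rho z n = ∑ c ∈ n.divisors.filter (fun c => CC y z c ∧ c < w), ((μ c : ℤ) : ℝ) * rho y (n / c) +
      ∑ c ∈ n.divisors.filter (fun c => CC y z c ∧ w ≤ c ∧ c / c.minFac < w),
        ((μ c : ℤ) : ℝ) * rho c.minFac (n / c) := by
  have hn0 : n ≠ 0 := by omega
  have _ := hy
  by_cases hA : ∃ p : ℕ, p.Prime ∧ p ∣ n ∧ p < y
  · obtain ⟨p, hp, hpn, hpy⟩ := hA
    rw [rho_zero hp hpn (lt_of_lt_of_le hpy hyz), sum_eq_zero, sum_eq_zero, add_zero]
    · intro c hc
      rw [mem_filter, Nat.mem_divisors] at hc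
      have hc1 : c ≠ 1 := by omega
      have hmin := hc.2.1.2 _ (Nat.minFac_prime hc1) (Nat.minFac_dvd c)
      have hpc : ¬ p ∣ c := fun h => absurd (hc.2.1.2 p hp h).1 (by omega)
      rw [rho_zero hp (dvd_cof hp hpn hc.1.1 hpc) (by omega), mul_zero]
    · intro c hc
      rw [mem_filter, Nat.mem_divisors] at hc
      have hpc : ¬ p ∣ c := fun h => absurd (hc.2.1.2 p hp h).1 (by omega)
      rw [rho_zero hp (dvd_cof hp hpn hc.1.1 hpc) hpy, mul_zero]
  push Not at hA
  by_cases hB : ∀ p : ℕ, p.Prime → p ∣ n → z ≤ p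
  · have hone : ∀ c, c ∣ n → CC y z c → c = 1 := by
      intro c hc h
      by_contra h1
      have h2 := (h.2 _ (Nat.minFac_prime h1) (Nat.minFac_dvd c)).2
      have h3 := hB _ (Nat.minFac_prime h1) ((Nat.minFac_dvd c).trans hc)
      omega
    rw [rho_one hB]
    have e1 : n.divisors.filter (fun c => CC y z c ∧ c < w) = {1} := by
      ext c
      rw [mem_filter, Nat.mem_divisors, mem_singleton]
      constructor
      · intro h
        exact hone c h.1.1 h.2.1
      · rintro rfl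
        exact ⟨⟨one_dvd _, hn0⟩, ⟨squarefree_one, fun p hp h => absurd (Nat.dvd_one.1 h)
          hp.one_lt.ne'⟩, by omega⟩
    have e2 : n.divisors.filter (fun c => CC y z c ∧ w ≤ c ∧ c / c.minFac < w) = ∅ := by
      apply filter_eq_empty_iff.2
      intro c hc h
      rw [Nat.mem_divisors] at hc
      have := hone c hc.1 h.1
      omega
    rw [e1, e2, sum_singleton, sum_empty, Nat.div_one,
      rho_one (fun p hp h => hA p hp h)]
    simp
  push Not at hB
  obtain ⟨p, hp, hpn, hpz⟩ := hB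
  rw [rho_zero hp hpn hpz]
  have hn1 : n ≠ 1 := by
    rintro rfl
    exact hp.one_lt.ne' (Nat.dvd_one.1 hpn)
  set m := n.minFac with hm
  have hmp : m.Prime := Nat.minFac_prime hn1
  have hmn : m ∣ n := Nat.minFac_dvd n
  have hmz : m < z := lt_of_le_of_lt (Nat.minFac_le_of_dvd hp.two_le hpn) hpz
  have hym : y ≤ m := hA m hmp hmn
  rw [← invol y z w n m hmp hmn hym hmz hn0, sum_filter, sum_filter, sum_filter,
    ← sum_add_distrib]
  refine sum_congr rfl fun c hc => ?_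
  rw [Nat.mem_divisors] at hc
  have hcn : c ∣ n := hc.1
  have hc0 : 0 < c := Nat.pos_of_dvd_of_pos hcn (by omega)
  by_cases hCC : CC y z c
  · have hle : ∀ p : ℕ, p.Prime → p ∣ n → m ≤ p := fun p hp h =>
      Nat.minFac_le_of_dvd hp.two_le h
    have hy1 : rho y (n / c) = 1 :=
      rho_one fun p hp h => hA p hp (h.trans (Nat.div_dvd_of_dvd hcn))
    by_cases hmc : m ∣ c
    · have hc1 : c ≠ 1 := by
        rintro rfl
        exact hmp.one_lt.ne' (Nat.dvd_one.1 hmc)
      have hmin : c.minFac = m :=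
        le_antisymm (Nat.minFac_le_of_dvd hmp.two_le hmc)
          (hle _ (Nat.minFac_prime hc1) ((Nat.minFac_dvd c).trans hcn))
      have hr : rho c.minFac (n / c) = 1 := by
        rw [hmin]
        exact rho_one fun p hp h => hle p hp (h.trans (Nat.div_dvd_of_dvd hcn))
      rw [hy1, hr, hmin]
      by_cases hcw : c < w
      · have h1 : c / m < w := lt_of_le_of_lt (Nat.div_le_self _ _) hcw
        simp [hCC, hcw, h1, hmc, not_le.2 hcw]
      · simp [hCC, hcw, hmc, not_lt.1 hcw]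
    · have hr : w ≤ c → rho c.minFac (n / c) = 0 := by
        intro hwc
        have hc1 : c ≠ 1 := by omega
        have h1 : m ∣ n / c := dvd_cof hmp hmn hcn hmc
        have h2 : m ≤ c.minFac := hle _ (Nat.minFac_prime hc1) ((Nat.minFac_dvd c).trans hcn)
        have h3 : m ≠ c.minFac := fun h => hmc (h ▸ Nat.minFac_dvd c)
        exact rho_zero hmp h1 (lt_of_le_of_ne h2 h3)
      rw [hy1]
      by_cases hcw : c < w
      · simp [hCC, hcw, hmc, not_le.2 hcw]
      · simp [hCC, hcw, hmc, hr (not_lt.1 hcw)]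
  · simp [hCC]

/-- exchange of two divisors -/
theorem swap_dc (n : ℕ) (hn : n ≠ 0) (Q : ℕ → Prop) [DecidablePred Q] (F : ℕ → ℕ → ℝ) :
    ∑ d ∈ n.divisors, ∑ c ∈ (n / d).divisors.filter Q, F c d =
      ∑ c ∈ n.divisors.filter Q, ∑ d ∈ (n / c).divisors, F c d := by
  have h0 : 0 < n := Nat.pos_of_ne_zero hn
  have hpos : ∀ d, d ∣ n → n / d ≠ 0 := fun d hd =>
    (Nat.div_pos (Nat.le_of_dvd h0 hd) (Nat.pos_of_dvd_of_pos hd h0)).ne'
  refine Finset.sum_comm' ?_
  intro d c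
  simp only [mem_filter, Nat.mem_divisors]
  constructor
  · rintro ⟨⟨hd, -⟩, ⟨hc, -⟩, hQ⟩
    have h : d * c ∣ n := (Nat.dvd_div_iff_mul_dvd hd).1 hc
    have hcn : c ∣ n := (Dvd.intro_left d rfl).trans h
    exact ⟨⟨(Nat.dvd_div_iff_mul_dvd hcn).2 (by rwa [mul_comm]), hpos c hcn⟩, ⟨hcn, hn⟩, hQ⟩
  · rintro ⟨⟨hd, -⟩, ⟨hc, -⟩, hQ⟩
    have h : c * d ∣ n := (Nat.dvd_div_iff_mul_dvd hc).1 hd
    have hdn : d ∣ n := (Dvd.intro_left c rfl).trans h
    exact ⟨⟨hdn, hn⟩, ⟨(Nat.dvd_div_iff_mul_dvd hdn).2 (by rwa [mul_comm]), hpos d hdn⟩, hQ⟩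

open Classical in
theorem bb_id (cc : ℕ → ℝ) (y z w n : ℕ) (hy : 2 ≤ y) (hyz : y ≤ z) (hw : 2 ≤ w) (hn : 1 ≤ n) :
    bb cc z n =
      ∑ c ∈ n.divisors.filter (fun c => CC y z c ∧ c < w), ((μ c : ℤ) : ℝ) * bb cc y (n / c) +
      ∑ c ∈ n.divisors.filter (fun c => CC y z c ∧ w ≤ c ∧ c / c.minFac < w),
        ((μ c : ℤ) : ℝ) * bb cc c.minFac (n / c) := by
  have hn0 : n ≠ 0 := by omega
  have e : ∀ d ∈ n.divisors, cc d * rho z (n / d) =
      ∑ c ∈ (n / d).divisors.filter (fun c => CC y z c ∧ c < w),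
        ((μ c : ℤ) : ℝ) * (cc d * rho y (n / c / d)) +
      ∑ c ∈ (n / d).divisors.filter (fun c => CC y z c ∧ w ≤ c ∧ c / c.minFac < w),
        ((μ c : ℤ) : ℝ) * (cc d * rho c.minFac (n / c / d)) := by
    intro d hd
    rw [Nat.mem_divisors] at hd
    have h1 : 1 ≤ n / d := Nat.div_pos (Nat.le_of_dvd hn hd.1) (Nat.pos_of_dvd_of_pos hd.1 hn)
    rw [sieve_id y z w (n / d) hy hyz hw h1, mul_add, mul_sum, mul_sum]
    congr 1 <;> refine sum_congr rfl fun c _ => ?_ <;> rw [Nat.div_div_eq_div_mul,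
      Nat.div_div_eq_div_mul, mul_comm d c] <;> ring
  unfold bb
  rw [sum_congr rfl e, sum_add_distrib, swap_dc n hn0, swap_dc n hn0]
  simp only [mul_sum]

end Pool.Agent.HS
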