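import Pool.Agent.Work.MP_92f640_nt.HS.Basic
import Pool.Agent.Work.MP_92f640_nt.HS.Ident

/-! # Module CtlAA1: the type I part of the minorant -/

namespace Pool.Agent.HS

open Finset Pool.Agent.BV Pool.Agent.HL
open scoped ArithmeticFunction.Moebius ArithmeticFunction.zeta

namespace CtlA

noncomputable section

open Classical in
/-- Moebius function on the squarefree integers `< w` with all primes in `[y, z)` -/
def f1 (y z w : ℕ) : ArithmeticFunction ℝ where
  toFun c := if CC y z c ∧ c < w then ((μ c : ℤ) : ℝ) else 0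
  map_zero' := by
    rw [if_neg]
    rintro ⟨h, -⟩
    exact not_squarefree_zero h.1

/-- the weights -/
def f2 (cc : ℕ → ℝ) : ArithmeticFunction ℝ where
  toFun d := if d = 0 then 0 else cc d
  map_zero' := by rw [if_pos rfl]

open Classical in
/-- Moebius function on the squarefree integers with all primes `< y` -/
def g3 (y : ℕ) : ArithmeticFunction ℝ where
  toFun e := if Squarefree e ∧ ∀ p : ℕ, p.Prime → p ∣ e → p < y then ((μ e : ℤ) : ℝ) else 0
  map_zero' := by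
    rw [if_neg]
    rintro ⟨h, -⟩
    exact not_squarefree_zero h

/-- the part `< w` of `g3` -/
def f3 (y w : ℕ) : ArithmeticFunction ℝ where
  toFun e := if e < w then g3 y e else 0
  map_zero' := by simp

/-- type I coefficients -/
def be (cc : ℕ → ℝ) (y z w : ℕ) : ArithmeticFunction ℝ := f1 y z w * (f2 cc * f3 y w)

theorem f1_apply (y z w c : ℕ) [Decidable (CC y z c ∧ c < w)] :
    f1 y z w c = if CC y z c ∧ c < w then ((μ c : ℤ) : ℝ) else 0 := by
  simp only [f1, ArithmeticFunction.coe_mk]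
  congr

theorem f2_apply (cc : ℕ → ℝ) (d : ℕ) : f2 cc d = if d = 0 then 0 else cc d := rfl

theorem g3_apply (y e : ℕ) [Decidable (Squarefree e ∧ ∀ p : ℕ, p.Prime → p ∣ e → p < y)] :
    g3 y e = if Squarefree e ∧ ∀ p : ℕ, p.Prime → p ∣ e → p < y then ((μ e : ℤ) : ℝ) else 0 := by
  simp only [g3, ArithmeticFunction.coe_mk]
  congr

theorem f3_apply (y w e : ℕ) : f3 y w e = if e < w then g3 y e else 0 := rfl

theorem mu_abs (n : ℕ) : |((μ n : ℤ) : ℝ)| ≤ 1 := by
  have := ArithmeticFunction.abs_moebius_le_one (n := n)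
  exact_mod_cast this

theorem f1_abs (y z w c : ℕ) : |f1 y z w c| ≤ 1 := by
  classical
  rw [f1_apply]
  split_ifs
  · exact mu_abs c
  · rw [abs_zero]; exact zero_le_one

theorem f2_abs (cc : ℕ → ℝ) (h : ∀ d, |cc d| ≤ 1) (d : ℕ) : |f2 cc d| ≤ 1 := by
  rw [f2_apply]
  split_ifs
  · rw [abs_zero]; exact zero_le_one
  · exact h d

theorem g3_abs (y e : ℕ) : |g3 y e| ≤ 1 := by
  classical
  rw [g3_apply]
  split_ifs
  · exact mu_abs e
  · rw [abs_zero]; exact zero_le_one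

theorem f3_abs (y w e : ℕ) : |f3 y w e| ≤ 1 := by
  rw [f3_apply]
  split_ifs
  · exact g3_abs y e
  · rw [abs_zero]; exact zero_le_one

theorem f1_supp {y z w c : ℕ} (h : f1 y z w c ≠ 0) : CC y z c ∧ c < w := by
  classical
  rw [f1_apply] at h
  by_contra hc
  rw [if_neg hc] at h
  exact h rfl

theorem f2_supp {cc : ℕ → ℝ} {d : ℕ} (h : f2 cc d ≠ 0) : cc d ≠ 0 := by
  rw [f2_apply] at h
  split_ifs at h with h1
  · exact absurd rfl h
  · exact h

theorem g3_supp {y e : ℕ} (h : g3 y e ≠ 0) : Squarefree e ∧ ∀ p : ℕ, p.Prime → p ∣ e → p < y := by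
  classical
  rw [g3_apply] at h
  by_contra hc
  rw [if_neg hc] at h
  exact h rfl

theorem f3_supp {y w e : ℕ} (h : f3 y w e ≠ 0) : e < w ∧ g3 y e ≠ 0 := by
  rw [f3_apply] at h
  split_ifs at h with h1
  · exact ⟨h1, h⟩
  · exact absurd rfl h

/-- the factors of a nonzero value of a convolution -/
theorem mul_supp {F G : ArithmeticFunction ℝ} {n : ℕ} (h : (F * G) n ≠ 0) :
    ∃ a b : ℕ, a * b = n ∧ F a ≠ 0 ∧ G b ≠ 0 ∧ n ≠ 0 := by
  rw [ArithmeticFunction.mul_apply] at h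
  obtain ⟨p, hp, hne⟩ := exists_ne_zero_of_sum_ne_zero h
  rw [Nat.mem_divisorsAntidiagonal] at hp
  exact ⟨p.1, p.2, hp.1, left_ne_zero_of_mul hne, right_ne_zero_of_mul hne, hp.2⟩

/-- convolutions with unique representation are bounded by `1` -/
theorem mul_abs_le {F G : ArithmeticFunction ℝ} (hF : ∀ n, |F n| ≤ 1) (hG : ∀ n, |G n| ≤ 1)
    (φ : ℕ → ℕ) (h : ∀ a b, F a ≠ 0 → G b ≠ 0 → a = φ (a * b)) (n : ℕ) : |(F * G) n| ≤ 1 := by
  rcases Nat.eq_zero_or_pos n with rfl | hn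
  · rw [ArithmeticFunction.map_zero, abs_zero]; exact zero_le_one
  by_cases h0 : (F * G) n = 0
  · rw [h0, abs_zero]; exact zero_le_one
  obtain ⟨a, b, hab, ha, hb, -⟩ := mul_supp h0
  have haφ := h a b ha hb
  rw [hab] at haφ
  have ha0 : 0 < a := by
    rcases Nat.eq_zero_or_pos a with rfl | h1
    · rw [zero_mul] at hab; omega
    · exact h1
  rw [ArithmeticFunction.mul_apply, sum_eq_single (a, b)]
  · rw [abs_mul]
    exact mul_le_one₀ (hF a) (abs_nonneg _) (hG b)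
  · intro p hp hne
    rw [Nat.mem_divisorsAntidiagonal] at hp
    by_contra hc
    have h1 := h p.1 p.2 (left_ne_zero_of_mul hc) (right_ne_zero_of_mul hc)
    rw [hp.1, ← haφ] at h1
    apply hne
    refine Prod.ext h1 ?_
    have h2 : a * p.2 = a * b := by rw [← h1, hp.1, h1, hab]
    exact Nat.eq_of_mul_eq_mul_left ha0 h2
  · intro hc
    exact absurd (Nat.mem_divisorsAntidiagonal.2 ⟨hab, hn.ne'⟩) hc

open Classical in
/-- the part of an integer composed of the primes in `S` -/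
def part (S : ℕ → Prop) (n : ℕ) : ℕ := ∏ p ∈ n.primeFactors.filter S, p

theorem part_eq {S : ℕ → Prop} {a b : ℕ} (ha : Squarefree a) (haS : ∀ p : ℕ, p.Prime → p ∣ a → S p)
    (hb : b ≠ 0) (hbS : ∀ p : ℕ, p.Prime → p ∣ b → ¬ S p) : a = part S (a * b) := by
  classical
  unfold part
  rw [Nat.primeFactors_mul ha.ne_zero hb]
  have h1 : (a.primeFactors ∪ b.primeFactors).filter S = a.primeFactors := by
    ext p
    simp only [mem_filter, mem_union]
    constructor
    · rintro ⟨h1 | h1, h2⟩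
      · exact h1
      · exact absurd h2 (hbS p (Nat.prime_of_mem_primeFactors h1) (Nat.dvd_of_mem_primeFactors h1))
    · intro h1
      exact ⟨Or.inl h1, haS p (Nat.prime_of_mem_primeFactors h1) (Nat.dvd_of_mem_primeFactors h1)⟩
  have h2 : (a.primeFactors ∪ b.primeFactors).filter (fun x => S x) = a.primeFactors := h1
  rw [h1]
  exact (Nat.prod_primeFactors_of_squarefree ha).symm

variable {cc : ℕ → ℝ} {D0 y z w : ℕ}

theorem inner_abs (h : Wt z D0 cc) (hyz : y ≤ z) (n : ℕ) : |(f2 cc * f3 y w) n| ≤ 1 := by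
  refine mul_abs_le (f2_abs cc h.bd) (f3_abs y w) (part (fun p => z ≤ p)) ?_ n
  intro a b ha hb
  have h1 := h.sf a (f2_supp ha)
  have h2 := g3_supp (f3_supp hb).2
  refine part_eq h1.1 h1.2 h2.1.ne_zero ?_
  intro p hp hpb
  have := h2.2 p hp hpb
  omega

theorem be_abs (h : Wt z D0 cc) (hyz : y ≤ z) (n : ℕ) : |be cc y z w n| ≤ 1 := by
  unfold be
  refine mul_abs_le (f1_abs y z w) (inner_abs h hyz) (part (fun p => y ≤ p ∧ p < z)) ?_ n
  intro a b ha hb
  have h1 := f1_supp ha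
  obtain ⟨d, e, hde, hd, he, hb0⟩ := mul_supp hb
  have h2 := h.sf d (f2_supp hd)
  have h3 := g3_supp (f3_supp he).2
  refine part_eq h1.1.1 h1.1.2 hb0 ?_
  intro p hp hpb
  rw [← hde] at hpb
  rcases (Nat.Prime.dvd_mul hp).1 hpb with h4 | h4
  · have := h2.2 p hp h4
    omega
  · have := h3.2 p hp h4
    omega

theorem be_supp (h : Wt z D0 cc) (n : ℕ) (hn : w ^ 2 * D0 < n) : be cc y z w n = 0 := by
  by_contra hc
  obtain ⟨c, b, hcb, hc1, hb1, -⟩ := mul_supp hc
  obtain ⟨d, e, hde, hd, he, -⟩ := mul_supp hb1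
  have h1 := (f1_supp hc1).2
  have h2 := h.le d (f2_supp hd)
  have h3 := (f3_supp he).1
  have h4 : n ≤ w ^ 2 * D0 := by
    rw [← hcb, ← hde]
    calc c * (d * e) ≤ w * (D0 * w) := Nat.mul_le_mul h1.le (Nat.mul_le_mul h2 h3.le)
      _ = w ^ 2 * D0 := by ring
  omega

/-- the squarefree integers with all primes `< y` are the divisors of the product of these primes -/
theorem dvd_prod_iff (y e : ℕ) : (Squarefree e ∧ ∀ p : ℕ, p.Prime → p ∣ e → p < y) ↔
    e ∣ ∏ p ∈ Nat.primesBelow y, p := by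
  constructor
  · rintro ⟨h1, h2⟩
    rw [← Nat.prod_primeFactors_of_squarefree h1]
    refine prod_dvd_prod_of_subset _ _ _ ?_
    intro p hp
    have hp1 := Nat.prime_of_mem_primeFactors hp
    exact Nat.mem_primesBelow.2 ⟨h2 p hp1 (Nat.dvd_of_mem_primeFactors hp), hp1⟩
  · intro h
    have hs : Squarefree (∏ p ∈ Nat.primesBelow y, p) := by
      refine (Finset.squarefree_prod_of_pairwise_isCoprime ?_ ?_)
      · intro p hp q hq hpq
        have h1 := (Nat.mem_primesBelow.1 hp).2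
        have h2 := (Nat.mem_primesBelow.1 hq).2
        exact Nat.coprime_iff_isRelPrime.1 ((Nat.coprime_primes h1 h2).2 hpq)
      · intro p hp
        exact (Nat.mem_primesBelow.1 hp).2.squarefree
    refine ⟨hs.squarefree_of_dvd h, fun p hp hpe => ?_⟩
    have h1 := hpe.trans h
    obtain ⟨q, hq, hpq⟩ := (Prime.dvd_finsetProd_iff hp.prime _).1 h1
    have h2 := Nat.mem_primesBelow.1 hq
    rw [(Nat.prime_dvd_prime_iff_eq hp h2.2).1 hpq]
    exact h2.1

theorem sum_g3 (y k : ℕ) (hk : k ≠ 0) : ∑ e ∈ k.divisors, g3 y e = rho y k := by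
  classical
  set P := ∏ p ∈ Nat.primesBelow y, p with hP
  have hP0 : P ≠ 0 := prod_ne_zero_iff.2 fun p hp => (Nat.mem_primesBelow.1 hp).2.ne_zero
  have h1 : ∑ e ∈ k.divisors, g3 y e = ∑ e ∈ (Nat.gcd k P).divisors, ((μ e : ℤ) : ℝ) := by
    have h2 : (Nat.gcd k P).divisors =
        k.divisors.filter (fun e => Squarefree e ∧ ∀ p : ℕ, p.Prime → p ∣ e → p < y) := by
      ext e
      rw [mem_filter, Nat.mem_divisors, Nat.mem_divisors, dvd_prod_iff, Nat.dvd_gcd_iff]
      constructor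
      · rintro ⟨⟨h1, h2⟩, -⟩
        exact ⟨⟨h1, hk⟩, h2⟩
      · rintro ⟨⟨h1, -⟩, h2⟩
        exact ⟨⟨h1, h2⟩, (Nat.gcd_pos_of_pos_left _ (Nat.pos_of_ne_zero hk)).ne'⟩
    rw [h2, sum_filter]
    refine sum_congr rfl fun e _ => ?_
    rw [g3_apply]
  have h3 : ∑ e ∈ (Nat.gcd k P).divisors, ((μ e : ℤ) : ℝ) = if Nat.gcd k P = 1 then 1 else 0 := by
    have h4 : ∑ e ∈ (Nat.gcd k P).divisors, (μ e : ℤ) = if Nat.gcd k P = 1 then 1 else 0 := by
      rw [← ArithmeticFunction.coe_mul_zeta_apply, ArithmeticFunction.moebius_mul_coe_zeta,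
        ArithmeticFunction.one_apply]
    rw [← Int.cast_sum, h4]
    split_ifs <;> simp
  rw [h1, h3]
  unfold rho
  by_cases hr : ∀ p : ℕ, p.Prime → p ∣ k → y ≤ p
  · rw [if_pos hr, if_pos]
    by_contra hg
    obtain ⟨p, hp, hpg⟩ := Nat.exists_prime_and_dvd hg
    have h5 := hr p hp (hpg.trans (Nat.gcd_dvd_left _ _))
    obtain ⟨q, hq, hpq⟩ := (Prime.dvd_finsetProd_iff hp.prime _).1 (hpg.trans (Nat.gcd_dvd_right k P))
    have h6 := Nat.mem_primesBelow.1 hq
    rw [(Nat.prime_dvd_prime_iff_eq hp h6.2).1 hpq] at h5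
    omega
  · rw [if_neg hr, if_neg]
    push Not at hr
    obtain ⟨p, hp, hpk, hpy⟩ := hr
    intro hg
    have h5 : p ∣ Nat.gcd k P :=
      Nat.dvd_gcd hpk (dvd_prod_of_mem _ (Nat.mem_primesBelow.2 ⟨hpy, hp⟩))
    rw [hg] at h5
    exact hp.one_lt.ne' (Nat.dvd_one.1 h5)

/-! ### the error -/

/-- `rho` as an arithmetic function -/
def rr (y : ℕ) : ArithmeticFunction ℝ := g3 y * (ζ : ArithmeticFunction ℝ)

theorem rr_apply (y k : ℕ) (hk : k ≠ 0) : rr y k = rho y k := by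
  unfold rr
  rw [ArithmeticFunction.coe_mul_zeta_apply, sum_g3 y k hk]

theorem bb_eq (cc : ℕ → ℝ) (y n : ℕ) (hn : n ≠ 0) : bb cc y n = (f2 cc * rr y) n := by
  unfold bb
  rw [ArithmeticFunction.mul_apply, Nat.sum_divisorsAntidiagonal (fun a b => f2 cc a * rr y b)]
  refine sum_congr rfl fun d hd => ?_
  have hd1 := Nat.dvd_of_mem_divisors hd
  have hd0 : d ≠ 0 := by
    rintro rfl
    exact hn (Nat.eq_zero_of_zero_dvd hd1)
  have hnd : n / d ≠ 0 := (Nat.div_pos (Nat.le_of_dvd (Nat.pos_of_ne_zero hn) hd1)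
    (Nat.pos_of_ne_zero hd0)).ne'
  rw [f2_apply, if_neg hd0, rr_apply y _ hnd]

open Classical in
/-- the error of the type I part -/
def e1 (cc : ℕ → ℝ) (y z w n : ℕ) : ℝ :=
  ∑ c ∈ n.divisors.filter (fun c => CC y z c ∧ c < w), ((μ c : ℤ) : ℝ) * bb cc y (n / c) -
    ∑ m ∈ n.divisors, be cc y z w m

theorem first_eq (cc : ℕ → ℝ) (y z w n : ℕ) (hn : n ≠ 0) [DecidablePred fun c => CC y z c ∧ c < w] :
    ∑ c ∈ n.divisors.filter (fun c => CC y z c ∧ c < w), ((μ c : ℤ) : ℝ) * bb cc y (n / c) =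
      (f1 y z w * (f2 cc * rr y)) n := by
  rw [sum_filter, ArithmeticFunction.mul_apply,
    Nat.sum_divisorsAntidiagonal (fun a b => f1 y z w a * (f2 cc * rr y) b)]
  refine sum_congr rfl fun d hd => ?_
  have hd1 := Nat.dvd_of_mem_divisors hd
  have hd0 : d ≠ 0 := by
    rintro rfl
    exact hn (Nat.eq_zero_of_zero_dvd hd1)
  have hnd : n / d ≠ 0 := (Nat.div_pos (Nat.le_of_dvd (Nat.pos_of_ne_zero hn) hd1)
    (Nat.pos_of_ne_zero hd0)).ne'
  rw [f1_apply, bb_eq cc y _ hnd]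
  split_ifs
  · rfl
  · rw [zero_mul]

/-- the large part of `g3` -/
def t3 (y w : ℕ) : ArithmeticFunction ℝ := g3 y - f3 y w

theorem t3_apply (y w e : ℕ) : t3 y w e = if e < w then 0 else g3 y e := by
  unfold t3
  rw [sub_eq_add_neg, ArithmeticFunction.add_apply, ArithmeticFunction.neg_apply, f3_apply]
  split_ifs
  · ring
  · ring

theorem t3_abs (y w e : ℕ) : |t3 y w e| ≤ 1 := by
  rw [t3_apply]
  split_ifs
  · rw [abs_zero]; exact zero_le_one
  · exact g3_abs y e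

theorem t3_supp {y w e : ℕ} (h : t3 y w e ≠ 0) : w ≤ e ∧ g3 y e ≠ 0 := by
  rw [t3_apply] at h
  split_ifs at h with h1
  · exact absurd rfl h
  · exact ⟨not_lt.1 h1, h⟩

theorem e1_eq (cc : ℕ → ℝ) (y z w n : ℕ) (hn : n ≠ 0) :
    e1 cc y z w n = (f1 y z w * (f2 cc * (t3 y w * (ζ : ArithmeticFunction ℝ)))) n := by
  classical
  unfold e1
  rw [← ArithmeticFunction.coe_mul_zeta_apply]
  have h1 := first_eq cc y z w n hn
  have h2 : (f1 y z w * (f2 cc * (t3 y w * (ζ : ArithmeticFunction ℝ)))) =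
      f1 y z w * (f2 cc * rr y) + -(be cc y z w * (ζ : ArithmeticFunction ℝ)) := by
    unfold t3 rr be
    ring
  rw [h2, ArithmeticFunction.add_apply, ArithmeticFunction.neg_apply, ← h1, ← sub_eq_add_neg]

theorem conv_abs {F G : ArithmeticFunction ℝ} (hF : ∀ n, |F n| ≤ 1) (k : ℕ)
    (hG : ∀ n, |G n| ≤ (n.divisors.card : ℝ) ^ k) (n : ℕ) :
    |(F * G) n| ≤ (n.divisors.card : ℝ) ^ (k + 1) := by
  rcases Nat.eq_zero_or_pos n with rfl | hn
  · rw [ArithmeticFunction.map_zero, abs_zero]; positivity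
  rw [ArithmeticFunction.mul_apply, Nat.sum_divisorsAntidiagonal (fun a b => F a * G b)]
  calc |∑ d ∈ n.divisors, F d * G (n / d)| ≤ ∑ d ∈ n.divisors, |F d * G (n / d)| :=
        abs_sum_le_sum_abs _ _
    _ ≤ ∑ _d ∈ n.divisors, (n.divisors.card : ℝ) ^ k := by
        refine sum_le_sum fun d hd => ?_
        rw [abs_mul]
        have h1 : |G (n / d)| ≤ (n.divisors.card : ℝ) ^ k := by
          refine (hG _).trans ?_
          have h2 : ((n / d).divisors.card : ℝ) ≤ (n.divisors.card : ℝ) := by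
            exact_mod_cast card_le_card (Nat.divisors_subset_of_dvd hn.ne'
              (Nat.div_dvd_of_dvd (Nat.dvd_of_mem_divisors hd)))
          exact pow_le_pow_left₀ (Nat.cast_nonneg _) h2 k
        calc |F d| * |G (n / d)| ≤ 1 * (n.divisors.card : ℝ) ^ k :=
              mul_le_mul (hF d) h1 (abs_nonneg _) zero_le_one
          _ = _ := one_mul _
    _ = (n.divisors.card : ℝ) ^ (k + 1) := by
        rw [sum_const, nsmul_eq_mul, pow_succ, mul_comm]

theorem e1_abs (h : Wt z D0 cc) (n : ℕ) (hn : n ≠ 0) :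
    |e1 cc y z w n| ≤ (n.divisors.card : ℝ) ^ 3 := by
  rw [e1_eq cc y z w n hn]
  refine conv_abs (f1_abs y z w) 2 (fun m => conv_abs (f2_abs cc h.bd) 1 (fun m => ?_) m) n
  refine conv_abs (t3_abs y w) 0 (fun m => ?_) m
  rw [pow_zero]
  rcases Nat.eq_zero_or_pos m with rfl | hm
  · rw [ArithmeticFunction.map_zero, abs_zero]; exact zero_le_one
  · rw [ArithmeticFunction.natCoe_apply, ArithmeticFunction.zeta_apply_ne hm.ne']
    norm_num

theorem e1_bad (cc : ℕ → ℝ) (y z w n : ℕ) (hn : n ≠ 0) (h0 : e1 cc y z w n ≠ 0) :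
    ∃ d : ℕ, d ∣ n ∧ Squarefree d ∧ (∀ p : ℕ, p.Prime → p ∣ d → p < y) ∧ w ≤ d := by
  rw [e1_eq cc y z w n hn] at h0
  obtain ⟨a, b, hab, -, hb, -⟩ := mul_supp h0
  obtain ⟨a', b', hab', -, hb', -⟩ := mul_supp hb
  obtain ⟨e, f, hef, he, -, -⟩ := mul_supp hb'
  have h1 := t3_supp he
  have h2 := g3_supp h1.2
  refine ⟨e, ?_, h2.1, h2.2, h1.1⟩
  rw [← hab, ← hab', ← hef]
  exact Dvd.dvd.mul_left (Dvd.dvd.mul_left (Dvd.intro _ rfl) _) _

end

end CtlA

end Pool.Agent.HS
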