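import Pool.Agent.Work.MP_92f640_nt.HS.Basic
import Pool.Agent.Work.MP_92f640_nt.HS.Ident

/-! # Module CtlAA2: the type II part of the minorant, cells for the smallest prime factor

`gr η` is monotone, `gr η 0 = 1`, so every prime `p < gr η J` lies in exactly one cell `[gr η j, gr η (j+1))`, `j < J`. Hence the first sum is
`∑_{j < J} ∑_{c ∣ n} AJ y z w η j c * bb cc c.minFac (n/c)`. The difference is `≤ ∑_{c ∣ n} τ(n/c) ≤ τ(n)²`; if it is not zero then for some `j`, `c`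
with `AJ j c ≠ 0` and `d ∣ n/c` we have `rho c.minFac (n/c/d) ≠ rho (gr η j) (n/c/d)`: a prime `p'` of `n/c/d` with `gr η j ≤ p' < c.minFac`; `p = c.minFac`. -/

namespace Pool.Agent.HS

open Finset Pool.Agent.BV Pool.Agent.HL
open scoped ArithmeticFunction.Moebius

open Classical in
/-- error of the cells -/
noncomputable def e2 (cc : ℕ → ℝ) (y z w J : ℕ) (η : ℝ) (n : ℕ) : ℝ :=
  ∑ c ∈ n.divisors.filter (fun c => CC y z c ∧ w ≤ c ∧ c / c.minFac < w),
    ((μ c : ℤ) : ℝ) * bb cc c.minFac (n / c) -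
  ∑ j ∈ range J, ∑ p ∈ n.divisorsAntidiagonal, AJ y z w η j p.1 * bb cc (gr η j) p.2

namespace CtlAA2

lemma gr0 (η : ℝ) : gr η 0 = 1 := by simp [gr]

lemma grm {η : ℝ} (hη : 0 < η) : Monotone (gr η) := by
  intro i j hij
  unfold gr
  exact Nat.floor_mono (pow_le_pow_right₀ (by linarith) hij)

/-- every `p ≥ 1` below `gr η J` lies in a cell -/
lemma cell {η : ℝ} (J p : ℕ) (h1 : 1 ≤ p) (h : p < gr η J) :
    ∃ j < J, gr η j ≤ p ∧ p < gr η (j + 1) := by
  induction J with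
  | zero => rw [gr0] at h; omega
  | succ J ih =>
    rcases Nat.lt_or_ge p (gr η J) with h2 | h2
    · obtain ⟨j, hj, h3⟩ := ih h2
      exact ⟨j, by omega, h3⟩
    · exact ⟨J, by omega, h2, h⟩

/-- the cell is unique -/
lemma cell_unique {η : ℝ} (hη : 0 < η) {i j p : ℕ} (hi : gr η i ≤ p) (hi' : p < gr η (i + 1))
    (hj : gr η j ≤ p) (hj' : p < gr η (j + 1)) : i = j := by
  rcases lt_trichotomy i j with h | h | h
  · have := grm hη (show i + 1 ≤ j from h); omega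
  · exact h
  · have := grm hη (show j + 1 ≤ i from h); omega

lemma rho_dec {g p : ℕ} (h : g ≤ p) (m : ℕ) : rho p m ≤ rho g m := by
  by_cases h1 : ∀ q : ℕ, q.Prime → q ∣ m → p ≤ q
  · rw [rho_eq_one h1, rho_eq_one (fun q hq hqm => h.trans (h1 q hq hqm))]
  · push Not at h1
    obtain ⟨q, hq, hqm, hqp⟩ := h1
    rw [rho_eq_zero hq hqm hqp]
    exact rho_nonneg _ _

/-- the sum over the cells -/
lemma sum_cells (cc : ℕ → ℝ) (y z w J : ℕ) (η : ℝ) (hw : 2 ≤ w) (hη : 0 < η)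
    (hJ : z ≤ gr η J) (n c : ℕ) (hc : CC y z c ∧ w ≤ c ∧ c / c.minFac < w) :
    ∃ j < J, gr η j ≤ c.minFac ∧ c.minFac < gr η (j + 1) ∧
      ∑ i ∈ range J, AJ y z w η i c * bb cc (gr η i) (n / c) =
        ((μ c : ℤ) : ℝ) * bb cc (gr η j) (n / c) := by
  have hc1 : c ≠ 1 := by omega
  have hp : c.minFac.Prime := Nat.minFac_prime hc1
  have hz := (hc.1.2 c.minFac hp (Nat.minFac_dvd c)).2
  obtain ⟨j, hj, h1, h2⟩ := cell (η := η) J c.minFac hp.one_lt.le (by omega)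
  refine ⟨j, hj, h1, h2, ?_⟩
  rw [sum_eq_single_of_mem j (mem_range.2 hj)]
  · unfold AJ
    rw [if_pos ⟨hc.1, hc.2.1, hc.2.2, h1, h2⟩]
  · intro i _ hij
    unfold AJ
    rw [if_neg, zero_mul]
    rintro ⟨-, -, -, h3, h4⟩
    exact hij (cell_unique hη h3 h4 h1 h2)

open Classical in
/-- the error as one sum -/
lemma e2_eq (cc : ℕ → ℝ) (y z w J : ℕ) (η : ℝ) (n : ℕ) :
    e2 cc y z w J η n =
      ∑ c ∈ n.divisors.filter (fun c => CC y z c ∧ w ≤ c ∧ c / c.minFac < w),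
        (((μ c : ℤ) : ℝ) * bb cc c.minFac (n / c) -
          ∑ j ∈ range J, AJ y z w η j c * bb cc (gr η j) (n / c)) := by
  unfold e2
  rw [sum_sub_distrib]
  congr 1
  have h1 : ∀ j ∈ range J, ∑ p ∈ n.divisorsAntidiagonal, AJ y z w η j p.1 * bb cc (gr η j) p.2 =
      ∑ c ∈ n.divisors.filter (fun c => CC y z c ∧ w ≤ c ∧ c / c.minFac < w),
        AJ y z w η j c * bb cc (gr η j) (n / c) := by
    intro j _
    rw [Nat.sum_divisorsAntidiagonal (f := fun c l => AJ y z w η j c * bb cc (gr η j) l)]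
    symm
    refine sum_subset (filter_subset _ _) fun c hc hc2 => ?_
    have : AJ y z w η j c = 0 := by
      unfold AJ
      rw [if_neg]
      rintro ⟨h1, h2, h3, -, -⟩
      exact hc2 (mem_filter.2 ⟨hc, h1, h2, h3⟩)
    rw [this, zero_mul]
  rw [sum_congr rfl h1, sum_comm]

lemma bb_diff (cc : ℕ → ℝ) (g p m : ℕ) :
    bb cc p m - bb cc g m = ∑ d ∈ m.divisors, cc d * (rho p (m / d) - rho g (m / d)) := by
  unfold bb
  rw [← sum_sub_distrib]
  exact sum_congr rfl fun d _ => by ring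

lemma mu_abs (c : ℕ) : |((μ c : ℤ) : ℝ)| ≤ 1 := by
  have := ArithmeticFunction.abs_moebius_le_one (n := c)
  rw [← Int.cast_abs]
  exact_mod_cast this

end CtlAA2

theorem e2_abs (cc : ℕ → ℝ) (D0 y z w J : ℕ) (η : ℝ) (h : Wt z D0 cc) (hw : 2 ≤ w) (hη : 0 < η)
    (hJ : z ≤ gr η J) (n : ℕ) (hn : 1 ≤ n) :
    |e2 cc y z w J η n| ≤ (n.divisors.card : ℝ) ^ 2 := by
  classical
  rw [CtlAA2.e2_eq]
  refine (abs_sum_le_sum_abs _ _).trans ?_
  have h1 : ∀ c ∈ n.divisors.filter (fun c => CC y z c ∧ w ≤ c ∧ c / c.minFac < w),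
      |((μ c : ℤ) : ℝ) * bb cc c.minFac (n / c) -
          ∑ j ∈ range J, AJ y z w η j c * bb cc (gr η j) (n / c)| ≤ (n.divisors.card : ℝ) := by
    intro c hc
    rw [mem_filter] at hc
    obtain ⟨j, hj, hj1, hj2, hj3⟩ := CtlAA2.sum_cells cc y z w J η hw hη hJ n c hc.2
    rw [hj3, ← mul_sub, abs_mul, CtlAA2.bb_diff]
    have h2 : |∑ d ∈ (n / c).divisors, cc d * (rho c.minFac (n / c / d) -
        rho (gr η j) (n / c / d))| ≤ ((n / c).divisors.card : ℝ) := by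
      refine (abs_sum_le_sum_abs _ _).trans ?_
      calc ∑ d ∈ (n / c).divisors, |cc d * (rho c.minFac (n / c / d) - rho (gr η j) (n / c / d))|
          ≤ ∑ _d ∈ (n / c).divisors, (1 : ℝ) := by
            refine sum_le_sum fun d _ => ?_
            rw [abs_mul]
            refine mul_le_one₀ (h.bd d) (abs_nonneg _) ?_
            have a1 := rho_nonneg c.minFac (n / c / d)
            have a2 := rho_le_one c.minFac (n / c / d)
            have a3 := rho_nonneg (gr η j) (n / c / d)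
            have a4 := rho_le_one (gr η j) (n / c / d)
            rw [abs_le]
            constructor <;> linarith
        _ = ((n / c).divisors.card : ℝ) := by rw [sum_const, nsmul_eq_mul, mul_one]
    have h3 : ((n / c).divisors.card : ℝ) ≤ (n.divisors.card : ℝ) := by
      have : (n / c).divisors ⊆ n.divisors :=
        Nat.divisors_subset_of_dvd (by omega) (Nat.div_dvd_of_dvd (Nat.dvd_of_mem_divisors hc.1))
      exact_mod_cast card_le_card this
    calc |((μ c : ℤ) : ℝ)| * |∑ d ∈ (n / c).divisors, cc d * (rho c.minFac (n / c / d) -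
        rho (gr η j) (n / c / d))| ≤ 1 * ((n / c).divisors.card : ℝ) :=
          mul_le_mul (CtlAA2.mu_abs c) h2 (abs_nonneg _) zero_le_one
      _ ≤ _ := by rw [one_mul]; exact h3
  refine (sum_le_sum h1).trans ?_
  rw [sum_const, nsmul_eq_mul, sq]
  refine mul_le_mul_of_nonneg_right ?_ (Nat.cast_nonneg _)
  exact_mod_cast card_le_card (filter_subset _ _)

set_option linter.unusedVariables false in
theorem e2_bad (cc : ℕ → ℝ) (D0 y z w J : ℕ) (η : ℝ) (h : Wt z D0 cc) (hw : 2 ≤ w) (hη : 0 < η)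
    (hJ : z ≤ gr η J) (n : ℕ) (hn : 1 ≤ n) (h0 : e2 cc y z w J η n ≠ 0) :
    ∃ j p p' : ℕ, p.Prime ∧ p'.Prime ∧ p ≠ p' ∧ p * p' ∣ n ∧ y ≤ p ∧
      gr η j ≤ p ∧ p < gr η (j + 1) ∧ gr η j ≤ p' ∧ p' < gr η (j + 1) := by
  classical
  rw [CtlAA2.e2_eq] at h0
  obtain ⟨c, hc, hc0⟩ := exists_ne_zero_of_sum_ne_zero h0
  rw [mem_filter] at hc
  obtain ⟨j, hj, hj1, hj2, hj3⟩ := CtlAA2.sum_cells cc y z w J η hw hη hJ n c hc.2
  rw [hj3, ← mul_sub, CtlAA2.bb_diff] at hc0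
  obtain ⟨d, hd, hd0⟩ := exists_ne_zero_of_sum_ne_zero (right_ne_zero_of_mul hc0)
  have hr := right_ne_zero_of_mul hd0
  have hcn : c ∣ n := Nat.dvd_of_mem_divisors hc.1
  have hc1 : c ≠ 1 := by omega
  have hp : c.minFac.Prime := Nat.minFac_prime hc1
  have hdn : d ∣ n / c := Nat.dvd_of_mem_divisors hd
  -- a prime of `n / c / d` below `c.minFac`
  have h1 : ¬ ∀ q : ℕ, q.Prime → q ∣ n / c / d → c.minFac ≤ q := by
    intro h1
    apply hr
    rw [rho_eq_one h1, rho_eq_one (fun q hq hqm => hj1.trans (h1 q hq hqm)), sub_self]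
  push Not at h1
  obtain ⟨q, hq, hqm, hqp⟩ := h1
  have h2 : gr η j ≤ q := by
    by_contra h2
    push Not at h2
    apply hr
    rw [rho_eq_zero hq hqm hqp, rho_eq_zero hq hqm h2, sub_self]
  refine ⟨j, c.minFac, q, hp, hq, by omega, ?_, (hc.2.1.2 _ hp (Nat.minFac_dvd c)).1, hj1, hj2, h2,
    by omega⟩
  have h3 : q ∣ n / c := hqm.trans (Nat.div_dvd_of_dvd hdn)
  have h4 := mul_dvd_mul (Nat.minFac_dvd c) h3
  rwa [Nat.mul_div_cancel' hcn] at h4

theorem AJ_abs (y z w : ℕ) (η : ℝ) (j c : ℕ) : |AJ y z w η j c| ≤ 1 := by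
  unfold AJ
  split_ifs
  · exact CtlAA2.mu_abs c
  · simp

theorem AJ_supp (y z w : ℕ) (hw : 2 ≤ w) (η : ℝ) (j c : ℕ) (h : AJ y z w η j c ≠ 0) :
    w ≤ c ∧ c ≤ w * z := by
  unfold AJ at h
  have h1 : CC y z c ∧ w ≤ c ∧ c / c.minFac < w ∧ gr η j ≤ c.minFac ∧ c.minFac < gr η (j + 1) := by
    by_contra h2
    exact h (if_neg h2)
  obtain ⟨h2, h3, h4, -, -⟩ := h1
  have hc1 : c ≠ 1 := by omega
  have hp : c.minFac.Prime := Nat.minFac_prime hc1
  have hz := (h2.2 c.minFac hp (Nat.minFac_dvd c)).2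
  refine ⟨h3, ?_⟩
  calc c = c / c.minFac * c.minFac := (Nat.div_mul_cancel (Nat.minFac_dvd c)).symm
    _ ≤ w * z := Nat.mul_le_mul h4.le hz.le

end Pool.Agent.HS
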