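import Pool.Agent.Work.MP_92f640_nt.HS.Defs
import Pool.Agent.Work.MP_92f640_nt.HL.Evt
import Pool.Agent.Work.MP_e4117e_nt.Mertens2

/-! # Module Rankin: few integers have a large divisor made of primes `< y0 x = exp (√(log x))`

Number `≤ ∑_{d > x^κ, d y0-smooth squarefree} x/d ≤ x x^(-κ δ) ∏_{p < y0} (1 + p^(δ-1))`, `δ = 1/√(log x)`, `p^δ ≤ 3`, and
`∏ (1 + 3/p) ≤ exp (3 ∑_{p < y0} 1/p) ≤ (log x)^C` (Mertens). `x^(-κδ) = exp (-κ √(log x))`. -/

namespace Pool.Agent.HS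

open Finset Pool.Agent.BV Pool.Agent.HL

namespace RankinAux

lemma card_mult (x d : ℕ) (s : Finset ℕ) (hs : s ⊆ Icc 1 x) (h : ∀ n ∈ s, d ∣ n) :
    (s.card : ℝ) ≤ (x : ℝ) / d := by
  have h1 : s ⊆ (Ioc 0 x).filter (fun n => d ∣ n) := by
    intro n hn
    have := mem_Icc.1 (hs hn)
    exact mem_filter.2 ⟨mem_Ioc.2 ⟨by omega, this.2⟩, h n hn⟩
  have h2 := card_le_card h1
  rw [Nat.Ioc_filter_dvd_card_eq_div] at h2
  calc (s.card : ℝ) ≤ ((x / d : ℕ) : ℝ) := by exact_mod_cast h2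
    _ ≤ (x : ℝ) / d := Nat.cast_div_le

/-- Rankin's trick -/
lemma trick (x : ℕ) (S : Finset ℕ) (hS : ∀ p ∈ S, 0 < p) (R δ : ℝ) (hR : 0 < R) (hδ : 0 ≤ δ) :
    ∑ T ∈ S.powerset.filter (fun T => R ≤ ((∏ p ∈ T, p : ℕ) : ℝ)), (x : ℝ) / ((∏ p ∈ T, p : ℕ) : ℝ) ≤
      x * R ^ (-δ) * ∏ p ∈ S, (1 + (p : ℝ) ^ (δ - 1)) := by
  rw [prod_one_add, mul_sum]
  have h1 : ∑ T ∈ S.powerset.filter (fun T => R ≤ ((∏ p ∈ T, p : ℕ) : ℝ)),
      x * R ^ (-δ) * ∏ i ∈ T, (i : ℝ) ^ (δ - 1) ≤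
      ∑ T ∈ S.powerset, x * R ^ (-δ) * ∏ i ∈ T, (i : ℝ) ^ (δ - 1) := by
    refine sum_le_sum_of_subset_of_nonneg (filter_subset _ _) ?_
    intro T _ _
    have : 0 ≤ ∏ i ∈ T, (i : ℝ) ^ (δ - 1) := prod_nonneg fun i _ => by positivity
    positivity
  refine le_trans ?_ h1
  · refine sum_le_sum fun T hT => ?_
    obtain ⟨hT1, hT2⟩ := mem_filter.1 hT
    have hpos : ∀ p ∈ T, (0 : ℝ) < p := fun p hp => by exact_mod_cast hS p (mem_powerset.1 hT1 hp)
    have hd : (0 : ℝ) < ((∏ p ∈ T, p : ℕ) : ℝ) := hR.trans_le hT2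
    have e1 : ∏ i ∈ T, (i : ℝ) ^ (δ - 1) = ((∏ p ∈ T, p : ℕ) : ℝ) ^ (δ - 1) := by
      rw [Real.finsetProd_rpow _ _ (fun i hi => (hpos i hi).le)]
      push_cast
      rfl
    rw [e1]
    set D : ℝ := ((∏ p ∈ T, p : ℕ) : ℝ) with hD
    have e2 : D ^ (δ - 1) = D ^ δ / D := by
      rw [Real.rpow_sub hd, Real.rpow_one]
    have e3 : R ^ δ ≤ D ^ δ := Real.rpow_le_rpow hR.le hT2 hδ
    have e4 : 1 ≤ R ^ (-δ) * D ^ δ := by
      rw [Real.rpow_neg hR.le]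
      have : 0 < R ^ δ := Real.rpow_pos_of_pos hR δ
      rw [inv_mul_eq_div, le_div_iff₀ this, one_mul]
      exact e3
    rw [e2]
    calc (x : ℝ) / D = x * 1 / D := by ring
      _ ≤ x * (R ^ (-δ) * D ^ δ) / D := by gcongr
      _ = x * R ^ (-δ) * (D ^ δ / D) := by ring

lemma log_pow_exp (κ : ℝ) (hκ : 0 < κ) (c : ℝ) (B : ℕ) : ∃ x₁ : ℕ, ∀ x : ℕ, x₁ ≤ x →
    c * (Real.log x) ^ B * Real.exp (-(κ * Real.sqrt (Real.log x))) ≤ 1 := by
  set M : ℝ := max 1 (|c| * (2 * B + 2).factorial / κ ^ (2 * B + 2)) with hM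
  obtain ⟨x₁, hx₁⟩ := Filter.eventually_atTop.1 (evt_log M)
  refine ⟨x₁, fun x hx => ?_⟩
  have hL := hx₁ x hx
  set L : ℝ := Real.log x with hLdef
  have hL1 : 1 ≤ L := (le_max_left _ _).trans hL
  have hL2 : |c| * (2 * B + 2).factorial / κ ^ (2 * B + 2) ≤ L := (le_max_right _ _).trans hL
  set u : ℝ := Real.sqrt L with hu
  have hu2 : u ^ 2 = L := Real.sq_sqrt (by linarith)
  have hu0 : 0 ≤ u := Real.sqrt_nonneg L
  have h1 : (κ * u) ^ (2 * B + 2) / (2 * B + 2).factorial ≤ Real.exp (κ * u) :=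
    Real.pow_div_factorial_le_exp _ (by positivity) _
  have h2 : (κ * u) ^ (2 * B + 2) = κ ^ (2 * B + 2) * L ^ (B + 1) := by
    rw [mul_pow, ← hu2, ← pow_mul]
    ring_nf
  have hf : (0 : ℝ) < (2 * B + 2).factorial := by exact_mod_cast Nat.factorial_pos _
  have hk : 0 < κ ^ (2 * B + 2) := by positivity
  rw [div_le_iff₀ hk] at hL2
  have h3 : |c| * L ^ B ≤ Real.exp (κ * u) := by
    refine le_trans ?_ h1
    rw [h2, le_div_iff₀ hf]
    calc |c| * L ^ B * (2 * B + 2).factorial = (|c| * (2 * B + 2).factorial) * L ^ B := by ring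
      _ ≤ (L * κ ^ (2 * B + 2)) * L ^ B := by gcongr
      _ = κ ^ (2 * B + 2) * L ^ (B + 1) := by ring
  rw [Real.exp_neg, ← div_eq_mul_inv, div_le_one (Real.exp_pos _)]
  refine le_trans ?_ h3
  gcongr
  exact le_abs_self c

end RankinAux

open Classical in
theorem rankin (κ : ℝ) (hκ : 0 < κ) (B : ℕ) : ∃ x₁ : ℕ, ∀ x : ℕ, x₁ ≤ x →
    (((Icc 1 x).filter (fun n => ∃ d : ℕ, d ∣ n ∧ Squarefree d ∧ (∀ p : ℕ, p.Prime → p ∣ d → p < y0 x) ∧
      (x : ℝ) ^ κ ≤ d)).card : ℝ) ≤ (x : ℝ) / (Real.log x) ^ B := by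
  obtain ⟨C, hC0, hC⟩ := Work.MP_e4117e_nt.mertens2
  obtain ⟨x₁, hx₁⟩ := RankinAux.log_pow_exp κ hκ (Real.exp (3 * (C + 1))) (B + 3)
  obtain ⟨x₂, hx₂⟩ := Filter.eventually_atTop.1 (evt_log 4)
  refine ⟨max x₁ (max x₂ 1), fun x hx => ?_⟩
  have h1 := hx₁ x ((le_max_left _ _).trans hx)
  have hL4 := hx₂ x (((le_max_left _ _).trans (le_max_right _ _)).trans hx)
  have hxpos : 1 ≤ x := ((le_max_right _ _).trans (le_max_right _ _)).trans hx
  have hx0 : (0 : ℝ) < x := by exact_mod_cast hxpos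
  set L : ℝ := Real.log x with hL
  set u : ℝ := Real.sqrt L with hu
  have hL0 : 0 < L := by linarith
  have hu2 : u ^ 2 = L := Real.sq_sqrt hL0.le
  have hu0 : 2 ≤ u := by
    rw [hu]
    exact Real.le_sqrt_of_sq_le (by linarith)
  set S : Finset ℕ := (Icc 0 (y0 x - 1)).filter Nat.Prime with hS
  set R : ℝ := (x : ℝ) ^ κ with hR
  have hR0 : 0 < R := Real.rpow_pos_of_pos hx0 κ
  -- step 1: the covering
  have hcov : ((Icc 1 x).filter (fun n => ∃ d : ℕ, d ∣ n ∧ Squarefree d ∧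
      (∀ p : ℕ, p.Prime → p ∣ d → p < y0 x) ∧ R ≤ d)) ⊆
      (S.powerset.filter (fun T => R ≤ ((∏ p ∈ T, p : ℕ) : ℝ))).biUnion
        (fun T => (Icc 1 x).filter (fun n => (∏ p ∈ T, p) ∣ n)) := by
    intro n hn
    obtain ⟨hn1, d, hdn, hd2, hd3, hd4⟩ := mem_filter.1 hn
    have hd : ∏ p ∈ d.primeFactors, p = d := Nat.prod_primeFactors_of_squarefree hd2
    rw [mem_biUnion]
    refine ⟨d.primeFactors, mem_filter.2 ⟨mem_powerset.2 ?_, ?_⟩, mem_filter.2 ⟨hn1, ?_⟩⟩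
    · intro p hp
      have hp1 := Nat.prime_of_mem_primeFactors hp
      have := hd3 p hp1 (Nat.dvd_of_mem_primeFactors hp)
      exact mem_filter.2 ⟨mem_Icc.2 ⟨Nat.zero_le _, by omega⟩, hp1⟩
    · rw [hd]
      exact hd4
    · rw [hd]
      exact hdn
  have h2 : (((Icc 1 x).filter (fun n => ∃ d : ℕ, d ∣ n ∧ Squarefree d ∧
      (∀ p : ℕ, p.Prime → p ∣ d → p < y0 x) ∧ R ≤ d)).card : ℝ) ≤
      ∑ T ∈ S.powerset.filter (fun T => R ≤ ((∏ p ∈ T, p : ℕ) : ℝ)),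
        (x : ℝ) / ((∏ p ∈ T, p : ℕ) : ℝ) := by
    calc _ ≤ (((S.powerset.filter (fun T => R ≤ ((∏ p ∈ T, p : ℕ) : ℝ))).biUnion
        (fun T => (Icc 1 x).filter (fun n => (∏ p ∈ T, p) ∣ n))).card : ℝ) := by
          exact_mod_cast card_le_card hcov
      _ ≤ ((∑ T ∈ S.powerset.filter (fun T => R ≤ ((∏ p ∈ T, p : ℕ) : ℝ)),
        ((Icc 1 x).filter (fun n => (∏ p ∈ T, p) ∣ n)).card : ℕ) : ℝ) := by
          exact_mod_cast card_biUnion_le
      _ ≤ _ := by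
          push_cast
          refine sum_le_sum fun T _ => ?_
          have := RankinAux.card_mult x (∏ p ∈ T, p) ((Icc 1 x).filter (fun n => (∏ p ∈ T, p) ∣ n))
            (filter_subset _ _) (fun n hn => (mem_filter.1 hn).2)
          push_cast at this
          exact this
  -- step 2: Rankin
  have hu1 : 0 < u := by linarith
  have h3 := RankinAux.trick x S (fun p hp => (mem_filter.1 hp).2.pos) R (1 / u) hR0
    (by positivity)
  -- step 3: the product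
  have hlogp : ∀ p ∈ S, Real.log p ≤ u := by
    intro p hp
    obtain ⟨hp1, hp2⟩ := mem_filter.1 hp
    have hp3 : p < y0 x := by
      have := (mem_Icc.1 hp1).2
      have := hp2.pos
      omega
    unfold y0 at hp3
    rw [Nat.lt_ceil] at hp3
    have hp0 : (0 : ℝ) < p := by exact_mod_cast hp2.pos
    rw [Real.log_le_iff_le_exp hp0]
    exact hp3.le
  have h4 : ∏ p ∈ S, (1 + (p : ℝ) ^ (1 / u - 1)) ≤ Real.exp (3 * ∑ p ∈ S, (1 : ℝ) / p) := by
    rw [mul_sum, Real.exp_sum]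
    refine prod_le_prod (fun p _ => by positivity) fun p hp => ?_
    have hp0 : (0 : ℝ) < p := by exact_mod_cast (mem_filter.1 hp).2.pos
    have e1 : (p : ℝ) ^ (1 / u) ≤ 3 := by
      rw [Real.rpow_def_of_pos hp0]
      have e2 : Real.log p * (1 / u) ≤ 1 := by
        rw [mul_one_div, div_le_one hu1]
        exact hlogp p hp
      calc Real.exp (Real.log p * (1 / u)) ≤ Real.exp 1 := Real.exp_le_exp.2 e2
        _ ≤ 3 := by have := Real.exp_one_lt_d9; linarith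
    have e3 : (p : ℝ) ^ (1 / u - 1) ≤ 3 * (1 / p) := by
      rw [Real.rpow_sub hp0, Real.rpow_one, mul_one_div]
      gcongr
    have e4 := Real.add_one_le_exp (3 * (1 / (p : ℝ)))
    linarith
  -- step 4: Mertens
  have hy : (y0 x : ℝ) ≤ Real.exp u + 1 := (Nat.ceil_lt_add_one (Real.exp_pos _).le).le
  have hyge : Real.exp u ≤ y0 x := Nat.le_ceil _
  have hexp2 : (3 : ℝ) ≤ Real.exp u := by
    have := Real.add_one_le_exp u
    linarith
  have hy3 : 3 ≤ y0 x := by exact_mod_cast hexp2.trans hyge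
  have h5 : ∑ p ∈ S, (1 : ℝ) / p ≤ C + 1 + Real.log u := by
    have e1 := hC (y0 x - 1) (by omega)
    have e2 := (abs_le.1 e1).2
    have e3 : ((y0 x - 1 : ℕ) : ℝ) ≤ Real.exp u := by
      rw [Nat.cast_sub (by omega)]
      push_cast
      linarith
    have e4 : (1 : ℝ) < ((y0 x - 1 : ℕ) : ℝ) := by
      have : 1 < y0 x - 1 := by omega
      exact_mod_cast this
    have e5 : Real.log ((y0 x - 1 : ℕ) : ℝ) ≤ u := by
      rw [Real.log_le_iff_le_exp (by linarith)]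
      exact e3
    have e6 : Real.log (Real.log ((y0 x - 1 : ℕ) : ℝ)) ≤ Real.log u :=
      Real.log_le_log (Real.log_pos e4) e5
    rw [hS]
    linarith
  have h6 : Real.exp (3 * ∑ p ∈ S, (1 : ℝ) / p) ≤ Real.exp (3 * (C + 1)) * L ^ 3 := by
    calc Real.exp (3 * ∑ p ∈ S, (1 : ℝ) / p) ≤ Real.exp (3 * (C + 1) + 3 * Real.log u) :=
          Real.exp_le_exp.2 (by linarith)
      _ = Real.exp (3 * (C + 1)) * u ^ 3 := by
          rw [Real.exp_add]
          congr 1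
          have : (3 : ℝ) * Real.log u = ((3 : ℕ) : ℝ) * Real.log u := by norm_num
          rw [this, Real.exp_nat_mul, Real.exp_log hu1]
      _ ≤ Real.exp (3 * (C + 1)) * L ^ 3 := by
          have : u ≤ L := by nlinarith
          gcongr
  -- step 5
  have h7 : R ^ (-(1 / u)) = Real.exp (-(κ * u)) := by
    rw [hR, ← Real.rpow_mul hx0.le, Real.rpow_def_of_pos hx0, ← hL]
    congr 1
    field_simp
    linarith [hu2]
  refine h2.trans (h3.trans ?_)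
  rw [h7, le_div_iff₀ (by positivity)]
  calc ((x : ℝ) * Real.exp (-(κ * u)) * ∏ p ∈ S, (1 + (p : ℝ) ^ (1 / u - 1))) * L ^ B
      ≤ (x : ℝ) * Real.exp (-(κ * u)) * (Real.exp (3 * (C + 1)) * L ^ 3) * L ^ B := by
        gcongr
        exact h4.trans h6
    _ = (x : ℝ) * (Real.exp (3 * (C + 1)) * L ^ (B + 3) * Real.exp (-(κ * u))) := by ring
    _ ≤ (x : ℝ) * 1 := by gcongr
    _ = x := mul_one _

namespace RankinAux

lemma gr_mono {η : ℝ} (hη : 0 < η) {i j : ℕ} (h : i ≤ j) : gr η i ≤ gr η j := by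
  unfold gr
  refine Nat.floor_le_floor ?_
  exact pow_le_pow_right₀ (by linarith) h

lemma gr_step {η : ℝ} (hη : 0 < η) (hη1 : η ≤ 1) (a j Y : ℕ) (hY : 1 ≤ η * Y) (ha : gr η j ≤ a)
    (haY : Y ≤ a) : ∑ n ∈ Ico a (gr η (j + 1)), (1 : ℝ) / n ≤ 3 * η := by
  have haYR : (Y : ℝ) ≤ a := by exact_mod_cast haY
  have h1 : 1 ≤ η * a := hY.trans (by gcongr)
  have ha0 : (0 : ℝ) < a := by
    by_contra h
    push Not at h
    nlinarith
  rcases le_total (gr η (j + 1)) a with h | h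
  · rw [Ico_eq_empty_of_le h, sum_empty]
    positivity
  have h2 : ((gr η (j + 1) : ℕ) : ℝ) ≤ (a + 1) * (1 + η) := by
    have e1 : ((gr η (j + 1) : ℕ) : ℝ) ≤ (1 + η) ^ (j + 1) := Nat.floor_le (by positivity)
    have e2 : (1 + η) ^ j < (gr η j : ℝ) + 1 := Nat.lt_floor_add_one _
    have e3 : ((gr η j : ℕ) : ℝ) ≤ a := by exact_mod_cast ha
    calc _ ≤ (1 + η) ^ (j + 1) := e1
      _ = (1 + η) ^ j * (1 + η) := pow_succ _ _
      _ ≤ (a + 1) * (1 + η) := by gcongr; linarith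
  calc ∑ n ∈ Ico a (gr η (j + 1)), (1 : ℝ) / n ≤ ∑ n ∈ Ico a (gr η (j + 1)), (1 : ℝ) / a := by
        refine sum_le_sum fun n hn => ?_
        have : (a : ℝ) ≤ n := by exact_mod_cast (mem_Ico.1 hn).1
        exact one_div_le_one_div_of_le ha0 this
    _ = ((gr η (j + 1) : ℕ) - a : ℝ) * (1 / a) := by
        rw [sum_const, Nat.card_Ico, nsmul_eq_mul, Nat.cast_sub h]
    _ ≤ (3 * η * a) * (1 / a) := by
        gcongr
        nlinarith
    _ = 3 * η := by field_simp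

end RankinAux

open Classical in
/-- few integers have two prime factors in one cell -/
theorem two_cell : ∃ C : ℝ, 0 < C ∧ ∀ (x Y : ℕ) (η : ℝ), 3 ≤ x → 0 < η → η ≤ 1 → 1 ≤ η * Y →
    (((Icc 1 x).filter (fun n => ∃ j p p' : ℕ, p.Prime ∧ p'.Prime ∧ p ≠ p' ∧ p * p' ∣ n ∧ Y ≤ p ∧ Y ≤ p' ∧
      gr η j ≤ p ∧ p < gr η (j + 1) ∧ gr η j ≤ p' ∧ p' < gr η (j + 1))).card : ℝ) ≤
      C * x * Real.log x * η := by
  refine ⟨6, by norm_num, ?_⟩
  intro x Y η hx hη hη1 hY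
  set P : ℕ → Finset ℕ := fun p => (Icc 1 x).filter (fun p' => ∃ j, Y ≤ p' ∧
    gr η j ≤ p ∧ p < gr η (j + 1) ∧ gr η j ≤ p' ∧ p' < gr η (j + 1)) with hP
  have hP1 : ∀ p, ∑ p' ∈ P p, (1 : ℝ) / p' ≤ 3 * η := by
    intro p
    rcases (P p).eq_empty_or_nonempty with h | ⟨p₁, h₁⟩
    · rw [h, sum_empty]
      positivity
    · obtain ⟨_, j, _, hj1, hj2, _, _⟩ := mem_filter.1 h₁
      have hsub : P p ⊆ Ico (max (gr η j) Y) (gr η (j + 1)) := by
        intro p' hp'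
        obtain ⟨_, i, hi0, hi1, hi2, hi3, hi4⟩ := mem_filter.1 hp'
        have hij : i = j := by
          rcases lt_trichotomy i j with h | h | h
          · have := RankinAux.gr_mono hη (show i + 1 ≤ j from h)
            omega
          · exact h
          · have := RankinAux.gr_mono hη (show j + 1 ≤ i from h)
            omega
        subst hij
        exact mem_Ico.2 ⟨max_le hi3 hi0, hi4⟩
      exact (sum_le_sum_of_subset_of_nonneg hsub fun _ _ _ => by positivity).trans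
        (RankinAux.gr_step hη hη1 _ j Y hY (le_max_left _ _) (le_max_right _ _))
  have hcov : ((Icc 1 x).filter (fun n => ∃ j p p' : ℕ, p.Prime ∧ p'.Prime ∧ p ≠ p' ∧ p * p' ∣ n ∧
      Y ≤ p ∧ Y ≤ p' ∧ gr η j ≤ p ∧ p < gr η (j + 1) ∧ gr η j ≤ p' ∧ p' < gr η (j + 1))) ⊆
      (Icc 1 x).biUnion (fun p => (P p).biUnion (fun p' => (Icc 1 x).filter
        (fun n => p * p' ∣ n))) := by
    intro n hn
    obtain ⟨hn1, j, p, p', hp, hp', hne, hdvd, h1, h2, h3, h4, h5, h6⟩ := mem_filter.1 hn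
    have hn2 := mem_Icc.1 hn1
    have hle : ∀ d, d ∣ n → d ≤ x := fun d hd => (Nat.le_of_dvd (by omega) hd).trans hn2.2
    rw [mem_biUnion]
    refine ⟨p, mem_Icc.2 ⟨hp.pos, hle p ((dvd_mul_right p p').trans hdvd)⟩, ?_⟩
    rw [mem_biUnion]
    exact ⟨p', mem_filter.2 ⟨mem_Icc.2 ⟨hp'.pos, hle p' ((dvd_mul_left p' p).trans hdvd)⟩,
      j, h2, h3, h4, h5, h6⟩, mem_filter.2 ⟨hn1, hdvd⟩⟩
  have hcard : (((Icc 1 x).filter (fun n => ∃ j p p' : ℕ, p.Prime ∧ p'.Prime ∧ p ≠ p' ∧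
      p * p' ∣ n ∧ Y ≤ p ∧ Y ≤ p' ∧ gr η j ≤ p ∧ p < gr η (j + 1) ∧ gr η j ≤ p' ∧
      p' < gr η (j + 1))).card : ℝ) ≤ ∑ p ∈ Icc 1 x, ∑ p' ∈ P p, (x : ℝ) / (p * p' : ℕ) := by
    have e1 : ((Icc 1 x).biUnion (fun p => (P p).biUnion (fun p' => (Icc 1 x).filter
        (fun n => p * p' ∣ n)))).card ≤ ∑ p ∈ Icc 1 x, ∑ p' ∈ P p,
        ((Icc 1 x).filter (fun n => p * p' ∣ n)).card :=
      card_biUnion_le.trans (sum_le_sum fun p _ => card_biUnion_le)
    calc _ ≤ ((∑ p ∈ Icc 1 x, ∑ p' ∈ P p,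
        ((Icc 1 x).filter (fun n => p * p' ∣ n)).card : ℕ) : ℝ) := by
          exact_mod_cast (card_le_card hcov).trans e1
      _ ≤ _ := by
          push_cast
          refine sum_le_sum fun p _ => sum_le_sum fun p' _ => ?_
          have := RankinAux.card_mult x (p * p') ((Icc 1 x).filter (fun n => p * p' ∣ n))
            (filter_subset _ _) (fun n hn => (mem_filter.1 hn).2)
          push_cast at this
          exact this
  have hx3 : (3 : ℝ) ≤ x := by exact_mod_cast hx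
  have hlog : 1 ≤ Real.log x := by
    rw [Real.le_log_iff_exp_le (by linarith)]
    have := Real.exp_one_lt_d9
    linarith
  calc _ ≤ ∑ p ∈ Icc 1 x, ∑ p' ∈ P p, (x : ℝ) / (p * p' : ℕ) := hcard
    _ = ∑ p ∈ Icc 1 x, (x : ℝ) / p * ∑ p' ∈ P p, (1 : ℝ) / p' := by
        refine sum_congr rfl fun p _ => ?_
        rw [mul_sum]
        refine sum_congr rfl fun p' _ => ?_
        push_cast
        rw [div_mul_div_comm, mul_one]
    _ ≤ ∑ p ∈ Icc 1 x, (x : ℝ) / p * (3 * η) :=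
        sum_le_sum fun p _ => mul_le_mul_of_nonneg_left (hP1 p) (by positivity)
    _ = 3 * η * x * ∑ p ∈ Icc 1 x, ((p : ℝ))⁻¹ := by
        rw [mul_sum]
        refine sum_congr rfl fun p _ => ?_
        ring
    _ ≤ 3 * η * x * (1 + Real.log x) := by
        have h1 := harmonic_le_one_add_log x
        have h2 : ((harmonic x : ℚ) : ℝ) = ∑ p ∈ Icc 1 x, ((p : ℝ))⁻¹ := by
          rw [harmonic_eq_sum_Icc]
          push_cast
          rfl
        rw [h2] at h1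
        gcongr
    _ ≤ 3 * η * x * (2 * Real.log x) := by
        gcongr
        linarith
    _ = 6 * x * Real.log x * η := by ring

end Pool.Agent.HS
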