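import Pool.Agent.Work.MP_92f640_nt.HS.Basic
import Pool.Agent.Work.MP_92f640_nt.HS.Rankin
import Pool.Agent.Work.MP_92f640_nt.HT.Coef

/-! # Module CtlAA3: few exceptional integers, mean squares -/

namespace Pool.Agent.HS

open Finset Pool.Agent.BV Pool.Agent.HL Pool.Agent.HT
open scoped ArithmeticFunction.Moebius ArithmeticFunction.zeta

namespace CtlA

noncomputable section

variable {cc : ℕ → ℝ} {D0 y z w : ℕ}

/-- `aa - bb` -/
def e3 (cc : ℕ → ℝ) (z n : ℕ) : ℝ := aa cc z n - bb cc z n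

theorem e3_abs (h : Wt z D0 cc) (n : ℕ) : |e3 cc z n| ≤ (n.divisors.card : ℝ) := by
  unfold e3 aa
  split_ifs
  · rw [sub_self, abs_zero]; positivity
  · rw [zero_sub, abs_neg]
    exact bb_abs z D0 cc h z n

theorem e3_bad (h : Wt z D0 cc) (n : ℕ) (hn : n ≠ 0) (h0 : e3 cc z n ≠ 0) :
    ∃ m : ℕ, z ≤ m ∧ m * m ∣ n := by
  unfold e3 aa at h0
  split_ifs at h0 with hs
  · exact absurd (sub_self _) h0
  have hb : bb cc z n ≠ 0 := by
    intro hb
    apply h0
    rw [hb, sub_zero]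
  unfold bb at hb
  obtain ⟨d, hd, hne⟩ := exists_ne_zero_of_sum_ne_zero hb
  have hcc := h.sf d (left_ne_zero_of_mul hne)
  have hr : ∀ p : ℕ, p.Prime → p ∣ n / d → z ≤ p := by
    by_contra hc
    apply right_ne_zero_of_mul hne
    unfold rho
    rw [if_neg hc]
  have hrn : ∀ p : ℕ, p.Prime → p ∣ n → z ≤ p := by
    intro p hp hpn
    rw [← Nat.mul_div_cancel' (Nat.dvd_of_mem_divisors hd)] at hpn
    rcases (Nat.Prime.dvd_mul hp).1 hpn with h1 | h1
    · exact hcc.2 p hp h1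
    · exact hr p hp h1
  rw [Nat.squarefree_iff_prime_squarefree] at hs
  push Not at hs
  obtain ⟨p, hp, hpp⟩ := hs
  exact ⟨p, hrn p hp ((Dvd.intro _ rfl).trans hpp), hpp⟩

open Classical in
theorem sq_count (x z : ℕ) (hz : 1 ≤ z) :
    (((Icc 1 x).filter (fun n => ∃ m : ℕ, z ≤ m ∧ m * m ∣ n)).card : ℝ) ≤ 2 * x / z := by
  have h1 : ((Icc 1 x).filter (fun n => ∃ m : ℕ, z ≤ m ∧ m * m ∣ n)) ⊆
      (Ioo (z - 1) (x + 1)).biUnion (fun m => (Icc 1 x).filter (fun n => m * m ∣ n)) := by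
    intro n hn
    obtain ⟨hn1, m, hm, hmn⟩ := mem_filter.1 hn
    refine mem_biUnion.2 ⟨m, mem_Ioo.2 ⟨by omega, ?_⟩, mem_filter.2 ⟨hn1, hmn⟩⟩
    have h2 := mem_Icc.1 hn1
    have h3 := Nat.le_of_dvd (by omega) hmn
    nlinarith
  calc (((Icc 1 x).filter (fun n => ∃ m : ℕ, z ≤ m ∧ m * m ∣ n)).card : ℝ)
      ≤ ∑ m ∈ Ioo (z - 1) (x + 1), (((Icc 1 x).filter (fun n => m * m ∣ n)).card : ℝ) := by
        exact_mod_cast (card_le_card h1).trans card_biUnion_le
    _ ≤ ∑ m ∈ Ioo (z - 1) (x + 1), (x : ℝ) * ((m : ℝ) ^ 2)⁻¹ := by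
        refine sum_le_sum fun m _ => ?_
        have h2 := RankinAux.card_mult x (m * m) ((Icc 1 x).filter (fun n => m * m ∣ n))
          (filter_subset _ _) (fun n hn => (mem_filter.1 hn).2)
        refine h2.trans (le_of_eq ?_)
        push_cast
        rw [div_eq_mul_inv, pow_two]
    _ = x * ∑ m ∈ Ioo (z - 1) (x + 1), ((m : ℝ) ^ 2)⁻¹ := by rw [mul_sum]
    _ ≤ x * (2 / ((z - 1 : ℕ) + 1 : ℝ)) := by
        refine mul_le_mul_of_nonneg_left ?_ (Nat.cast_nonneg _)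
        exact sum_Ioo_inv_sq_le (z - 1) (x + 1)
    _ = 2 * x / z := by
        have : ((z - 1 : ℕ) : ℝ) + 1 = z := by
          rw [Nat.cast_sub hz]; push_cast; ring
        rw [this]; ring

/-- mean squares of a function which is `≤ τ³` and supported on few integers -/
theorem mean_sq (B : ℕ) : ∃ B2 x₁ : ℕ, ∀ x : ℕ, x₁ ≤ x → ∀ (T : Finset ℕ) (e : ℕ → ℝ), T ⊆ Icc 1 x →
    (T.card : ℝ) ≤ (x : ℝ) / (Real.log x) ^ B2 →
    (∀ n ∈ Icc 1 x, |e n| ≤ (n.divisors.card : ℝ) ^ 3) → (∀ n ∈ Icc 1 x, e n ≠ 0 → n ∈ T) →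
    ∑ n ∈ Icc 1 x, (e n) ^ 2 ≤ (x : ℝ) / (9 * (Real.log x) ^ B) := by
  obtain ⟨C, hC, hτ⟩ := tau_sum 12
  obtain ⟨x₁, hx₁⟩ := Filter.eventually_atTop.1 (evt_log (81 * C + 1))
  refine ⟨2 * B + 2 ^ 12 + 1, max x₁ 3, fun x hx T e hT hcard he hs => ?_⟩
  have hx3 : 3 ≤ x := (le_max_right _ _).trans hx
  have hL := hx₁ x ((le_max_left _ _).trans hx)
  set L : ℝ := Real.log x with hLdef
  have hL1 : 1 ≤ L := by linarith [mul_pos (by norm_num : (0 : ℝ) < 81) hC]
  have hL0 : 0 < L := by linarith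
  have hx0 : (0 : ℝ) < x := by
    have : 0 < x := by omega
    exact_mod_cast this
  have h1 : ∑ n ∈ Icc 1 x, (e n) ^ 2 ≤ ∑ n ∈ T, (n.divisors.card : ℝ) ^ 6 := by
    calc ∑ n ∈ Icc 1 x, (e n) ^ 2 = ∑ n ∈ T, (e n) ^ 2 := by
          symm
          refine sum_subset hT fun n hn hnT => ?_
          have : e n = 0 := by
            by_contra hc
            exact hnT (hs n hn hc)
          rw [this]; ring
      _ ≤ ∑ n ∈ T, (n.divisors.card : ℝ) ^ 6 := by
          refine sum_le_sum fun n hn => ?_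
          have h2 := he n (hT hn)
          calc (e n) ^ 2 = |e n| ^ 2 := (sq_abs _).symm
            _ ≤ ((n.divisors.card : ℝ) ^ 3) ^ 2 := pow_le_pow_left₀ (abs_nonneg _) h2 2
            _ = _ := by ring
  have h2 : (∑ n ∈ T, (n.divisors.card : ℝ) ^ 6) ^ 2 ≤
      ((x : ℝ) / (9 * L ^ B)) ^ 2 := by
    calc (∑ n ∈ T, (n.divisors.card : ℝ) ^ 6) ^ 2
        ≤ T.card * ∑ n ∈ T, ((n.divisors.card : ℝ) ^ 6) ^ 2 := sq_sum_le_card_mul_sum_sq
      _ ≤ ((x : ℝ) / L ^ (2 * B + 2 ^ 12 + 1)) * ∑ n ∈ Icc 1 x, (n.divisors.card : ℝ) ^ 12 := by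
          refine mul_le_mul hcard ?_ (sum_nonneg fun n _ => by positivity) (by positivity)
          calc ∑ n ∈ T, ((n.divisors.card : ℝ) ^ 6) ^ 2 = ∑ n ∈ T, (n.divisors.card : ℝ) ^ 12 := by
                refine sum_congr rfl fun n _ => by ring
            _ ≤ _ := sum_le_sum_of_subset_of_nonneg hT fun n _ _ => by positivity
      _ ≤ ((x : ℝ) / L ^ (2 * B + 2 ^ 12 + 1)) * (C * x * L ^ (2 ^ 12)) := by
          refine mul_le_mul_of_nonneg_left (hτ x x hx3 le_rfl) (by positivity)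
      _ = (C / L) * (x ^ 2 / L ^ (2 * B)) := by
          generalize 2 ^ 12 = M
          rw [show 2 * B + M + 1 = 2 * B + (M + 1) by ring, pow_add L (2 * B), pow_succ L M]
          field_simp
      _ ≤ (1 / 81) * (x ^ 2 / L ^ (2 * B)) := by
          refine mul_le_mul_of_nonneg_right ?_ (by positivity)
          rw [div_le_div_iff₀ hL0 (by norm_num)]
          linarith
      _ = _ := by rw [div_pow, mul_pow, ← pow_mul, mul_comm B 2]; ring
  have h3 : 0 ≤ ∑ n ∈ T, (n.divisors.card : ℝ) ^ 6 := sum_nonneg fun n _ => by positivity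
  have h4 := (pow_le_pow_iff_left₀ h3 (by positivity) two_ne_zero).1 h2
  exact h1.trans h4

/-- the cells exhaust the primes up to `x` -/
theorem gr_JJ (B' : ℕ) (x : ℕ) (hx : 3 ≤ x) : x ≤ gr (1 / (Real.log x) ^ B') (JJ x B') := by
  have hL1 : 1 ≤ Real.log x := by
    rw [Real.le_log_iff_exp_le (by positivity)]
    have h1 : Real.exp 1 < 3 := Real.exp_one_lt_d9.trans (by norm_num)
    have h2 : (3 : ℝ) ≤ x := by exact_mod_cast hx
    linarith
  set L : ℝ := Real.log x with hL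
  set η : ℝ := 1 / L ^ B' with hη
  have hη0 : 0 < η := by rw [hη]; positivity
  have hη1 : η ≤ 1 := by
    rw [hη, div_le_one (by positivity)]
    exact one_le_pow₀ hL1
  unfold gr
  refine Nat.le_floor ?_
  have hx0 : (0 : ℝ) < x := by
    have : 0 < x := by omega
    exact_mod_cast this
  have h1 : L ≤ JJ x B' * Real.log (1 + η) := by
    have h2 : 2 * L ^ (B' + 1) ≤ JJ x B' := by
      unfold JJ
      exact Nat.le_ceil _
    have h3 : η / 2 ≤ Real.log (1 + η) := by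
      have h4 := Real.le_log_one_add_of_nonneg hη0.le
      refine le_trans ?_ h4
      rw [div_le_div_iff₀ (by norm_num) (by linarith)]
      nlinarith
    calc L = (2 * L ^ (B' + 1)) * (η / 2) := by
          rw [hη, pow_succ]; field_simp
      _ ≤ JJ x B' * Real.log (1 + η) := mul_le_mul h2 h3 (by positivity) (by positivity)
  calc (x : ℝ) = Real.exp L := (Real.exp_log hx0).symm
    _ ≤ Real.exp (JJ x B' * Real.log (1 + η)) := Real.exp_le_exp.2 h1
    _ = (1 + η) ^ JJ x B' := by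
        rw [mul_comm, Real.exp_mul, Real.exp_log (by linarith), Real.rpow_natCast]

end

end CtlA

end Pool.Agent.HS
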