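import Pool.Agent.Work.MP_92f640_nt.HS.Basic
import Pool.Agent.Work.MP_92f640_nt.HS.Ident
import Pool.Agent.Work.MP_92f640_nt.HS.Rankin
import Pool.Agent.Work.MP_92f640_nt.HS.CtlAA1
import Pool.Agent.Work.MP_92f640_nt.HS.CtlAA2
import Pool.Agent.Work.MP_92f640_nt.HS.CtlAA3
import Pool.Agent.Work.MP_92f640_nt.HT.Coef

/-! # Module CtlAA: the minorant is a controlled function

`bb_id` with `y = y0 x`, `z = zx θ x`, `w = wk κ x`. First sum: `bb cc y m = ∑_{d ∣ m} cc(d) ∑_{e ∣ m/d, e squarefree, primes < y} μ(e)`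
(Moebius); keep `e ≤ w`: `β(c d e) = μ(c) cc(d) μ(e)`: unique representation (`e` = part with primes `< y`, `c` = part with primes in `[y,z)`,
`d` = part with primes `≥ z`): `|β| ≤ 1`, `c d e ≤ w² D0`. Error: `≤ τ(n)³` on the `n` having such a divisor `e > w` (`rankin`).
Second sum: cell of `minFac c` (`gr η j ≤ minFac c < gr η (j+1)`, `j < JJ x B'`: `gr η (JJ) ≥ x`; the first cell may start below `y0`): replace `bb cc c.minFac` by
`bb cc (gr η j)`; error `≤ τ(n)³` on the `n` with two primes in one cell (`η y ≥ 1`; `two_cell`; for a non-squarefree `n`, `p² ∣ n` with `p ≥ y0`: few).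
`aa` and `bb` differ on the `z`-rough `n` divisible by `p²`, `p ≥ z`: at most `2x/z`. Mean squares: Cauchy-Schwarz, `tau_sum` (HT/Coef),
`rankin`, `two_cell`: `x L^(c - B'/2)`, choose `B'`. (`B j l := bb cc (gr η j) l`, `|.| ≤ τ(l)` (`bb_abs`).) -/

namespace Pool.Agent.HS

open Finset Pool.Agent.BV Pool.Agent.HL
open scoped ArithmeticFunction.Moebius

/-- the parameters for large `x` -/
theorem ctl_par (θ κ : ℝ) (hθ : 1 / 2 ≤ θ) (hθ1 : θ < 1) (hκ : 0 < κ) (B' B2 : ℕ) (C : ℝ) :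
    ∃ x₁ : ℕ, ∀ x : ℕ, x₁ ≤ x → 3 ≤ x ∧ 1 ≤ Real.log x ∧ C ≤ Real.log x ∧ 3 ≤ y0 x ∧ y0 x ≤ zx θ x ∧
      2 ≤ wk κ x ∧ zx θ x ≤ x ∧ 4 * (Real.log x) ^ B' ≤ (y0 x : ℝ) ∧
      2 * (Real.log x) ^ B2 ≤ (zx θ x : ℝ) := by
  obtain ⟨x₁, h₁⟩ := Filter.eventually_atTop.1 (evt_log (max (max C 1) (1 / (1 - θ) ^ 2)))
  obtain ⟨x₂, h₂⟩ := RankinAux.log_pow_exp 1 one_pos 4 B'
  obtain ⟨x₃, h₃⟩ := Filter.eventually_atTop.1 (evt_pow 2 B2 (1 - θ) (by linarith))
  obtain ⟨x₄, h₄⟩ := Filter.eventually_atTop.1 (evt_pow 2 0 κ hκ)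
  refine ⟨max (max x₁ x₂) (max (max x₃ x₄) 3), fun x hx => ?_⟩
  simp only [max_le_iff] at hx
  obtain ⟨⟨hx1, hx2⟩, ⟨hx3, hx4⟩, hx5⟩ := hx
  have g1 := h₁ x hx1
  have g2 := h₂ x hx2
  have g3 := h₃ x hx3
  have g4 := h₄ x hx4
  simp only [max_le_iff] at g1
  obtain ⟨⟨hC, hL1⟩, hθL⟩ := g1
  set L : ℝ := Real.log x with hL
  have hx0 : (0 : ℝ) < x := by
    have : 0 < x := by omega
    exact_mod_cast this
  have hx1' : (1 : ℝ) ≤ x := by
    have : 1 ≤ x := by omega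
    exact_mod_cast this
  set u : ℝ := Real.sqrt L with hu
  have hu2 : u ^ 2 = L := Real.sq_sqrt (by linarith)
  have hu1 : 1 ≤ u := by
    rw [hu]
    exact Real.one_le_sqrt.2 hL1
  have hy0 : Real.exp u ≤ y0 x := Nat.le_ceil _
  refine ⟨hx5, hL1, hC, ?_, ?_, ?_, ?_, ?_, ?_⟩
  · have h1 : (2 : ℝ) < y0 x := by
      refine lt_of_lt_of_le ?_ hy0
      have h2 : Real.exp 1 ≤ Real.exp u := Real.exp_le_exp.2 hu1
      have h3 := Real.exp_one_gt_d9
      linarith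
    have h4 : 2 < y0 x := by exact_mod_cast h1
    omega
  · unfold y0 zx
    refine Nat.ceil_le_ceil ?_
    rw [Real.rpow_def_of_pos hx0, ← hL, ← hu]
    refine Real.exp_le_exp.2 ?_
    have h1 : 1 / (1 - θ) ≤ u := by
      rw [hu]
      refine Real.le_sqrt_of_sq_le ?_
      rw [div_pow, one_pow]
      exact hθL
    rw [div_le_iff₀ (by linarith)] at h1
    rw [← hu2]
    nlinarith
  · rw [pow_zero, mul_one] at g4
    have h1 : ((2 : ℕ) : ℝ) ≤ wk κ x := by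
      push_cast
      exact g4.trans (Nat.le_ceil _)
    exact_mod_cast h1
  · unfold zx
    refine Nat.ceil_le.2 ?_
    calc (x : ℝ) ^ (1 - θ) ≤ (x : ℝ) ^ (1 : ℝ) := Real.rpow_le_rpow_of_exponent_le hx1' (by linarith)
      _ = x := Real.rpow_one _
  · refine le_trans ?_ hy0
    rw [one_mul, Real.exp_neg, ← div_eq_mul_inv, div_le_one (Real.exp_pos _)] at g2
    exact g2
  · exact g3.trans (Nat.le_ceil _)

/-- a prime in the same cell as a prime `≥ y` -/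
theorem cell_half (η : ℝ) (hη0 : 0 < η) (hη1 : η ≤ 1) (y j p : ℕ) (hy : y ≤ p) (hp : p < gr η (j + 1)) :
    (y - 1) / 2 ≤ gr η j := by
  have h1 : gr η (j + 1) ≤ 2 * (gr η j + 1) := by
    unfold gr
    have h2 := Nat.lt_floor_add_one ((1 + η) ^ j)
    have h3 : (1 + η) ^ (j + 1) ≤ ((2 * (⌊(1 + η) ^ j⌋₊ + 1) : ℕ) : ℝ) := by
      push_cast
      rw [pow_succ]
      have h4 : 0 < (1 + η) ^ j := by positivity
      nlinarith
    exact Nat.floor_le_of_le h3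
  omega

open CtlA in
theorem aa_ctl (θ κ : ℝ) (hθ : 1 / 2 ≤ θ) (hθ1 : θ < 1) (hκ : 0 < κ) (hκ1 : κ ≤ 1 / 8) (B : ℕ) :
    ∃ B' : ℕ, ∃ x₁ : ℕ, ∀ x : ℕ, x₁ ≤ x → ∀ (D0 : ℕ) (cc : ℕ → ℝ), Wt (zx θ x) D0 cc →
    ∃ (Bf : ℕ → ℕ → ℝ) (β err : ℕ → ℝ),
      Ctl x (wk κ x ^ 2 * D0) (wk κ x) (wk κ x * zx θ x) (JJ x B')
        (AJ (y0 x) (zx θ x) (wk κ x) (1 / (Real.log x) ^ B')) Bf β err (aa cc (zx θ x)) ∧
      ∑ n ∈ Icc 1 x, (err n) ^ 2 ≤ (x : ℝ) / (Real.log x) ^ B := by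
  classical
  obtain ⟨B2, x₁, hms⟩ := mean_sq B
  obtain ⟨C2, hC2, htc⟩ := two_cell
  obtain ⟨x₂, hrk⟩ := rankin κ hκ B2
  obtain ⟨x₃, hpar⟩ := ctl_par θ κ hθ hθ1 hκ (B2 + 2) B2 C2
  refine ⟨B2 + 2, max x₁ (max x₂ x₃), fun x hx D0 cc hW => ?_⟩
  simp only [max_le_iff] at hx
  obtain ⟨hx3, hL1, hCL, hy3, hyz, hw2, hzx, hyL, hzL⟩ := hpar x hx.2.2
  have hms := hms x hx.1
  have hrk := hrk x hx.2.1
  have hJ : zx θ x ≤ gr (1 / (Real.log x) ^ (B2 + 2)) (JJ x (B2 + 2)) :=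
    hzx.trans (gr_JJ (B2 + 2) x hx3)
  set L : ℝ := Real.log x with hL
  set y : ℕ := y0 x with hy
  set z : ℕ := zx θ x with hz
  set w : ℕ := wk κ x with hw
  set η : ℝ := 1 / L ^ (B2 + 2) with hη
  set J : ℕ := JJ x (B2 + 2) with hJd
  have hL0 : 0 < L := by linarith
  have hη0 : 0 < η := by rw [hη]; positivity
  have hη1 : η ≤ 1 := by
    rw [hη, div_le_one (by positivity)]
    exact one_le_pow₀ hL1
  have hx0 : (0 : ℝ) < x := by
    have : 0 < x := by omega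
    exact_mod_cast this
  refine ⟨fun j l => bb cc (gr η j) l, fun m => be cc y z w m,
    fun n => aa cc z n - ∑ m ∈ n.divisors, be cc y z w m -
      ∑ j ∈ range J, ∑ p ∈ n.divisorsAntidiagonal, AJ y z w η j p.1 * bb cc (gr η j) p.2, ?_, ?_⟩
  · refine ⟨be_abs hW hyz, fun m hm => be_supp hW m hm, fun j c => AJ_abs y z w η j c,
      fun j c h => AJ_supp y z w hw2 η j c h, fun j l => ?_, fun n _ _ => by ring⟩
    refine (bb_abs z D0 cc hW (gr η j) l).trans ?_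
    have h1 : l.divisors.card ≤ l.divisors.card ^ 2 := Nat.le_self_pow two_ne_zero _
    exact_mod_cast h1
  · -- the three errors
    have hsplit : ∀ n ∈ Icc 1 x, aa cc z n - ∑ m ∈ n.divisors, be cc y z w m -
        ∑ j ∈ range J, ∑ p ∈ n.divisorsAntidiagonal, AJ y z w η j p.1 * bb cc (gr η j) p.2 =
        e1 cc y z w n + e2 cc y z w J η n + e3 cc z n := by
      intro n hn
      have h1 := bb_id cc y z w n (by omega) hyz hw2 (mem_Icc.1 hn).1
      unfold e1 e2 e3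
      rw [h1]
      ring
    have hone : ∀ n ∈ Icc 1 x, (1 : ℝ) ≤ (n.divisors.card : ℝ) := by
      intro n hn
      have h1 : 0 < n.divisors.card := by
        rw [card_pos]
        exact ⟨1, Nat.one_mem_divisors.2 (by have := (mem_Icc.1 hn).1; omega)⟩
      exact_mod_cast h1
    -- first error
    have hE1 : ∑ n ∈ Icc 1 x, (e1 cc y z w n) ^ 2 ≤ (x : ℝ) / (9 * L ^ B) := by
      refine hms ((Icc 1 x).filter (fun n => ∃ d : ℕ, d ∣ n ∧ Squarefree d ∧
        (∀ p : ℕ, p.Prime → p ∣ d → p < y0 x) ∧ (x : ℝ) ^ κ ≤ d)) _ (filter_subset _ _) hrk ?_ ?_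
      · intro n hn
        exact e1_abs hW n (by have := (mem_Icc.1 hn).1; omega)
      · intro n hn h0
        obtain ⟨d, h1, h2, h3, h4⟩ := e1_bad cc y z w n (by have := (mem_Icc.1 hn).1; omega) h0
        refine mem_filter.2 ⟨hn, d, h1, h2, h3, ?_⟩
        have h5 : (x : ℝ) ^ κ ≤ w := Nat.le_ceil _
        have h6 : (w : ℝ) ≤ d := by exact_mod_cast h4
        exact h5.trans h6
    -- second error
    have hE2 : ∑ n ∈ Icc 1 x, (e2 cc y z w J η n) ^ 2 ≤ (x : ℝ) / (9 * L ^ B) := by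
      refine hms ((Icc 1 x).filter (fun n => ∃ j p p' : ℕ, p.Prime ∧ p'.Prime ∧ p ≠ p' ∧
        p * p' ∣ n ∧ (y - 1) / 2 ≤ p ∧ (y - 1) / 2 ≤ p' ∧
        gr η j ≤ p ∧ p < gr η (j + 1) ∧ gr η j ≤ p' ∧ p' < gr η (j + 1))) _ (filter_subset _ _) ?_ ?_ ?_
      · refine (htc x ((y - 1) / 2) η hx3 hη0 hη1 ?_).trans ?_
        · have h1 : (y : ℝ) - 2 ≤ 2 * (((y - 1) / 2 : ℕ) : ℝ) := by
            have h2 : y ≤ 2 * ((y - 1) / 2) + 2 := by omega
            have h3 : (y : ℝ) ≤ ((2 * ((y - 1) / 2) + 2 : ℕ) : ℝ) := by exact_mod_cast h2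
            push_cast at h3
            linarith
          have h4 : 1 ≤ L ^ (B2 + 2) := one_le_pow₀ hL1
          rw [hη, one_div_mul_eq_div, le_div_iff₀ (by positivity)]
          linarith
        · rw [hη, le_div_iff₀ (by positivity)]
          have e : C2 * x * L * (1 / L ^ (B2 + 2)) * L ^ B2 = (C2 / L) * x := by
            rw [pow_add L B2 2]
            field_simp
          rw [e]
          have h1 : C2 / L ≤ 1 := (div_le_one hL0).2 hCL
          calc (C2 / L) * x ≤ 1 * x := mul_le_mul_of_nonneg_right h1 hx0.le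
            _ = x := one_mul _
      · intro n hn
        refine (e2_abs cc D0 y z w J η hW hw2 hη0 hJ n (mem_Icc.1 hn).1).trans ?_
        exact pow_le_pow_right₀ (hone n hn) (by norm_num)
      · intro n hn h0
        obtain ⟨j, p, p', hp, hp', hne, hdv, hyp, h1, h2, h3, h4⟩ :=
          e2_bad cc D0 y z w J η hW hw2 hη0 hJ n (mem_Icc.1 hn).1 h0
        have h5 := cell_half η hη0 hη1 y j p hyp h2
        exact mem_filter.2 ⟨hn, j, p, p', hp, hp', hne, hdv, h5.trans h1, h5.trans h3, h1, h2, h3, h4⟩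
    -- third error
    have hE3 : ∑ n ∈ Icc 1 x, (e3 cc z n) ^ 2 ≤ (x : ℝ) / (9 * L ^ B) := by
      refine hms ((Icc 1 x).filter (fun n => ∃ m : ℕ, z ≤ m ∧ m * m ∣ n)) _ (filter_subset _ _) ?_ ?_ ?_
      · refine (sq_count x z (by omega)).trans ?_
        have hz0 : (0 : ℝ) < z := by
          have : 0 < z := by omega
          exact_mod_cast this
        rw [div_le_div_iff₀ hz0 (by positivity)]
        nlinarith
      · intro n hn
        refine (e3_abs hW n).trans ?_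
        exact le_self_pow₀ (hone n hn) (by norm_num)
      · intro n hn h0
        obtain ⟨m, h1, h2⟩ := e3_bad hW n (by have := (mem_Icc.1 hn).1; omega) h0
        exact mem_filter.2 ⟨hn, m, h1, h2⟩
    calc ∑ n ∈ Icc 1 x, (aa cc z n - ∑ m ∈ n.divisors, be cc y z w m -
          ∑ j ∈ range J, ∑ p ∈ n.divisorsAntidiagonal, AJ y z w η j p.1 * bb cc (gr η j) p.2) ^ 2
        ≤ ∑ n ∈ Icc 1 x, 3 * ((e1 cc y z w n) ^ 2 + (e2 cc y z w J η n) ^ 2 + (e3 cc z n) ^ 2) := by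
          refine sum_le_sum fun n hn => ?_
          rw [hsplit n hn]
          nlinarith [sq_nonneg (e1 cc y z w n - e2 cc y z w J η n),
            sq_nonneg (e1 cc y z w n - e3 cc z n), sq_nonneg (e2 cc y z w J η n - e3 cc z n)]
      _ = 3 * (∑ n ∈ Icc 1 x, (e1 cc y z w n) ^ 2 + ∑ n ∈ Icc 1 x, (e2 cc y z w J η n) ^ 2 +
          ∑ n ∈ Icc 1 x, (e3 cc z n) ^ 2) := by
          rw [← mul_sum, sum_add_distrib, sum_add_distrib]
      _ ≤ 3 * ((x : ℝ) / (9 * L ^ B) + (x : ℝ) / (9 * L ^ B) + (x : ℝ) / (9 * L ^ B)) := by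
          gcongr
      _ = (x : ℝ) / L ^ B := by
          field_simp
          ring

end Pool.Agent.HS
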