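import Pool.Agent.Work.MP_92f640_nt.HS.Rankin
import Pool.Agent.Work.MP_92f640_nt.HT.Coef

/-! # Module CtlErr: the mean square of the error in the controlled decomposition

An error bounded by a power of the divisor function, supported on the integers which have a large
divisor made of primes `< y0 x`, or two prime factors in one cell, or a square `p²` with `p ≥ y0 x`,
is small in mean square (`rankin`, `two_cell`, Cauchy-Schwarz, `tau_sum`). -/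

namespace Pool.Agent.HS

open Finset Pool.Agent.BV Pool.Agent.HL

/-- Cauchy-Schwarz: an error supported on `S`, bounded by a power of the divisor function -/
theorem err_sq (c : ℕ) (C0 : ℝ) : ∃ C : ℝ, 0 < C ∧ ∀ (x : ℕ) (S : Finset ℕ) (err : ℕ → ℝ), 3 ≤ x →
    (∀ n, 1 ≤ n → n ≤ x → |err n| ≤ C0 * (n.divisors.card : ℝ) ^ c) →
    (∀ n, 1 ≤ n → n ≤ x → err n ≠ 0 → n ∈ S) →
    ∑ n ∈ Icc 1 x, (err n) ^ 2 ≤
      C * Real.sqrt (S.card * x) * (Real.log x) ^ (2 ^ (4 * c)) := by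
  obtain ⟨C, hC, h⟩ := HT.tau_sum (4 * c)
  refine ⟨(C0 ^ 2 + 1) * Real.sqrt (C + 1), by positivity, ?_⟩
  intro x S err hx hb hS
  have hl : 1 ≤ Real.log x := DivSum_log x hx
  have hl0 : (0 : ℝ) ≤ (Real.log x) ^ (2 ^ (4 * c)) := by positivity
  have h0 := h x x hx le_rfl
  -- restrict to `S`
  have h1 : ∑ n ∈ Icc 1 x, (err n) ^ 2 ≤
      ∑ n ∈ (Icc 1 x).filter (fun n => n ∈ S), C0 ^ 2 * (n.divisors.card : ℝ) ^ (2 * c) := by
    rw [← sum_filter_add_sum_filter_not (Icc 1 x) (fun n => n ∈ S)]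
    have h2 : ∑ n ∈ (Icc 1 x).filter (fun n => ¬ n ∈ S), (err n) ^ 2 = 0 := by
      refine sum_eq_zero fun n hn => ?_
      rw [mem_filter, mem_Icc] at hn
      have h3 : err n = 0 := by
        by_contra h4
        exact hn.2 (hS n hn.1.1 hn.1.2 h4)
      rw [h3]
      norm_num
    rw [h2, add_zero]
    refine sum_le_sum fun n hn => ?_
    rw [mem_filter, mem_Icc] at hn
    have h3 := hb n hn.1.1 hn.1.2
    rw [← sq_abs]
    calc |err n| ^ 2 ≤ (C0 * (n.divisors.card : ℝ) ^ c) ^ 2 := by gcongr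
      _ = C0 ^ 2 * (n.divisors.card : ℝ) ^ (2 * c) := by
          rw [mul_pow, ← pow_mul, mul_comm c 2]
  refine h1.trans ?_
  rw [← mul_sum]
  set T := (Icc 1 x).filter (fun n => n ∈ S) with hT
  have hTc : (T.card : ℝ) ≤ S.card := by
    have : T ⊆ S := fun n hn => (mem_filter.1 hn).2
    exact_mod_cast card_le_card this
  have h4 : ∑ n ∈ T, ((n.divisors.card : ℝ) ^ (2 * c)) ^ 2 ≤
      C * x * (Real.log x) ^ (2 ^ (4 * c)) := by
    refine le_trans ?_ h0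
    calc ∑ n ∈ T, ((n.divisors.card : ℝ) ^ (2 * c)) ^ 2
        = ∑ n ∈ T, (n.divisors.card : ℝ) ^ (4 * c) := by
          refine sum_congr rfl fun n _ => ?_
          rw [← pow_mul]
          congr 1
          ring
      _ ≤ ∑ n ∈ Icc 1 x, (n.divisors.card : ℝ) ^ (4 * c) :=
          sum_le_sum_of_subset_of_nonneg (filter_subset _ _)
            (fun _ _ _ => pow_nonneg (Nat.cast_nonneg _) _)
  have h3 : (∑ n ∈ T, (n.divisors.card : ℝ) ^ (2 * c)) ^ 2 ≤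
      T.card * ∑ n ∈ T, ((n.divisors.card : ℝ) ^ (2 * c)) ^ 2 := sq_sum_le_card_mul_sum_sq
  have hW1 : 1 ≤ (Real.log x) ^ (2 ^ (4 * c)) := one_le_pow₀ hl
  have hP0 : 0 ≤ ∑ n ∈ T, (n.divisors.card : ℝ) ^ (2 * c) :=
    sum_nonneg fun _ _ => pow_nonneg (Nat.cast_nonneg _) _
  have hQ0 : 0 ≤ ∑ n ∈ T, ((n.divisors.card : ℝ) ^ (2 * c)) ^ 2 :=
    sum_nonneg fun _ _ => sq_nonneg _
  generalize (Real.log x) ^ (2 ^ (4 * c)) = W at *
  generalize ∑ n ∈ T, ((n.divisors.card : ℝ) ^ (2 * c)) ^ 2 = Q at *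
  generalize ∑ n ∈ T, (n.divisors.card : ℝ) ^ (2 * c) = P at *
  have hC1 : 0 ≤ C + 1 := by linarith
  have hSx : (0 : ℝ) ≤ (S.card : ℝ) * x := mul_nonneg (Nat.cast_nonneg _) (Nat.cast_nonneg _)
  have hsc : (0 : ℝ) ≤ (S.card : ℝ) := Nat.cast_nonneg _
  have hx0 : (0 : ℝ) ≤ (x : ℝ) := Nat.cast_nonneg _
  have h2 : P ≤ Real.sqrt (C + 1) * Real.sqrt (S.card * x) * W := by
    have h5 : P ^ 2 ≤ (Real.sqrt (C + 1) * Real.sqrt (S.card * x) * W) ^ 2 := by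
      rw [mul_pow, mul_pow, Real.sq_sqrt hC1, Real.sq_sqrt hSx]
      have h6 : W ≤ W ^ 2 := by nlinarith
      calc P ^ 2 ≤ T.card * Q := h3
        _ ≤ S.card * (C * x * W ^ 2) := by
            refine mul_le_mul hTc (h4.trans ?_) hQ0 hsc
            exact mul_le_mul_of_nonneg_left h6 (mul_nonneg hC.le hx0)
        _ ≤ S.card * ((C + 1) * x * W ^ 2) := by
            refine mul_le_mul_of_nonneg_left ?_ hsc
            refine mul_le_mul_of_nonneg_right ?_ (sq_nonneg _)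
            exact mul_le_mul_of_nonneg_right (by linarith) hx0
        _ = (C + 1) * (S.card * x) * W ^ 2 := by ring
    refine le_of_sq_le_sq h5 ?_
    exact mul_nonneg (mul_nonneg (Real.sqrt_nonneg _) (Real.sqrt_nonneg _)) (by linarith)
  calc C0 ^ 2 * P ≤ (C0 ^ 2 + 1) * (Real.sqrt (C + 1) * Real.sqrt (S.card * x) * W) :=
        mul_le_mul (by linarith) h2 hP0 (by positivity)
    _ = _ := by ring

open Classical in
/-- few integers are divisible by `p²`, `p ≥ y0 x` -/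
theorem few_square (B : ℕ) : ∃ x₁ : ℕ, ∀ x : ℕ, x₁ ≤ x →
    (((Icc 1 x).filter (fun n => ∃ p : ℕ, p.Prime ∧ y0 x ≤ p ∧ p ^ 2 ∣ n)).card : ℝ) ≤
      (x : ℝ) / (Real.log x) ^ B := by
  obtain ⟨x₁, hx₁⟩ := RankinAux.log_pow_exp 1 one_pos 2 B
  obtain ⟨x₂, hx₂⟩ := Filter.eventually_atTop.1 (evt_log 4)
  refine ⟨max x₁ (max x₂ 1), fun x hx => ?_⟩
  have h1 := hx₁ x ((le_max_left _ _).trans hx)
  have hL4 := hx₂ x (((le_max_left _ _).trans (le_max_right _ _)).trans hx)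
  have hx1 : 1 ≤ x := ((le_max_right _ _).trans (le_max_right _ _)).trans hx
  set L : ℝ := Real.log x with hL
  set y : ℝ := Real.exp (Real.sqrt L) with hy
  have hs2 : 2 ≤ Real.sqrt L := by
    rw [show (2 : ℝ) = Real.sqrt 4 by
      rw [show (4 : ℝ) = 2 ^ 2 by norm_num, Real.sqrt_sq (by norm_num)]]
    exact Real.sqrt_le_sqrt hL4
  have hy2 : 2 ≤ y := by
    have := Real.add_one_le_exp (Real.sqrt L)
    linarith
  have hyy : y ≤ y0 x := Nat.le_ceil _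
  have hy0 : 2 ≤ y0 x := by
    have : (2 : ℝ) ≤ y0 x := hy2.trans hyy
    exact_mod_cast this
  -- union bound
  have h2 : ((Icc 1 x).filter (fun n => ∃ p : ℕ, p.Prime ∧ y0 x ≤ p ∧ p ^ 2 ∣ n)) ⊆
      (Ico (y0 x) (x + 1)).biUnion (fun p => (Icc 1 x).filter (fun n => p ^ 2 ∣ n)) := by
    intro n hn
    rw [mem_filter, mem_Icc] at hn
    obtain ⟨hn1, p, hp, hyp, hpn⟩ := hn
    rw [mem_biUnion]
    refine ⟨p, mem_Ico.2 ⟨hyp, ?_⟩, mem_filter.2 ⟨mem_Icc.2 hn1, hpn⟩⟩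
    have h3 : p ≤ p ^ 2 := Nat.le_self_pow two_ne_zero p
    have h4 := Nat.le_of_dvd (by omega) hpn
    omega
  have h3 : (((Icc 1 x).filter (fun n => ∃ p : ℕ, p.Prime ∧ y0 x ≤ p ∧ p ^ 2 ∣ n)).card : ℝ) ≤
      ∑ p ∈ Ico (y0 x) (x + 1), (x : ℝ) / ((p : ℝ) ^ 2) := by
    calc (((Icc 1 x).filter (fun n => ∃ p : ℕ, p.Prime ∧ y0 x ≤ p ∧ p ^ 2 ∣ n)).card : ℝ)
        ≤ (((Ico (y0 x) (x + 1)).biUnion
            (fun p => (Icc 1 x).filter (fun n => p ^ 2 ∣ n))).card : ℝ) := by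
          exact_mod_cast card_le_card h2
      _ ≤ ((∑ p ∈ Ico (y0 x) (x + 1), ((Icc 1 x).filter (fun n => p ^ 2 ∣ n)).card : ℕ) : ℝ) := by
          exact_mod_cast card_biUnion_le
      _ ≤ ∑ p ∈ Ico (y0 x) (x + 1), (x : ℝ) / ((p : ℝ) ^ 2) := by
          push_cast
          refine sum_le_sum fun p _ => ?_
          have := RankinAux.card_mult x (p ^ 2) ((Icc 1 x).filter (fun n => p ^ 2 ∣ n))
            (filter_subset _ _) (fun n hn => (mem_filter.1 hn).2)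
          push_cast at this
          exact this
  -- telescoping
  have h4 : ∀ a b : ℕ, 2 ≤ a → a ≤ b →
      ∑ p ∈ Ico a b, (1 : ℝ) / ((p : ℝ) ^ 2) ≤ 1 / ((a : ℝ) - 1) - 1 / ((b : ℝ) - 1) := by
    intro a b ha hab
    induction b, hab using Nat.le_induction with
    | base => simp
    | succ b hab ih =>
      rw [sum_Ico_succ_top hab]
      have hb : (2 : ℝ) ≤ b := by exact_mod_cast (ha.trans hab)
      have h5 : (1 : ℝ) / ((b : ℝ) ^ 2) ≤ 1 / ((b : ℝ) - 1) - 1 / (((b + 1 : ℕ) : ℝ) - 1) := by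
        push_cast
        rw [add_sub_cancel_right, div_sub_div _ _ (by linarith) (by linarith),
          div_le_div_iff₀ (by positivity) (by nlinarith)]
        nlinarith
      linarith
  have hyx : y0 x ≤ x + 1 ∨ x + 1 < y0 x := le_or_gt _ _
  have h5 : ∑ p ∈ Ico (y0 x) (x + 1), (x : ℝ) / ((p : ℝ) ^ 2) ≤ x * (2 / y) := by
    rcases hyx with h6 | h6
    · have h7 := h4 (y0 x) (x + 1) hy0 h6
      have h8 : ∑ p ∈ Ico (y0 x) (x + 1), (x : ℝ) / ((p : ℝ) ^ 2) =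
          x * ∑ p ∈ Ico (y0 x) (x + 1), (1 : ℝ) / ((p : ℝ) ^ 2) := by
        rw [mul_sum]
        refine sum_congr rfl fun p _ => ?_
        ring
      rw [h8]
      refine mul_le_mul_of_nonneg_left (h7.trans ?_) (Nat.cast_nonneg x)
      have h9 : (0 : ℝ) ≤ 1 / (((x + 1 : ℕ) : ℝ) - 1) := by
        push_cast
        rw [add_sub_cancel_right]
        positivity
      have h10 : 1 / ((y0 x : ℝ) - 1) ≤ 2 / y := by
        rw [div_le_div_iff₀ (by linarith) (by linarith)]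
        linarith
      linarith
    · rw [Ico_eq_empty (by omega), sum_empty]
      positivity
  refine h3.trans (h5.trans ?_)
  have hLB : 0 < L ^ B := by positivity
  rw [le_div_iff₀ hLB]
  rw [one_mul, Real.exp_neg] at h1
  have h6 : 2 * L ^ B * y⁻¹ ≤ 1 := h1
  calc (x : ℝ) * (2 / y) * L ^ B = x * (2 * L ^ B * y⁻¹) := by
        rw [div_eq_mul_inv]
        ring
    _ ≤ x * 1 := by gcongr
    _ = x := mul_one _

open Classical in
/-- the mean square of the error -/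
theorem err_total (κ : ℝ) (hκ : 0 < κ) (c B : ℕ) (C0 : ℝ) : ∃ B₀ : ℕ, ∀ B' : ℕ, B₀ ≤ B' →
    ∃ x₁ : ℕ, ∀ x : ℕ, x₁ ≤ x → ∀ (Y : ℕ) (err : ℕ → ℝ), y0 x ≤ 4 * Y →
    (∀ n, 1 ≤ n → n ≤ x → |err n| ≤ C0 * (n.divisors.card : ℝ) ^ c) →
    (∀ n, 1 ≤ n → n ≤ x → err n ≠ 0 →
      (∃ d : ℕ, d ∣ n ∧ Squarefree d ∧ (∀ p : ℕ, p.Prime → p ∣ d → p < y0 x) ∧ (x : ℝ) ^ κ ≤ d) ∨
      (∃ j p p' : ℕ, p.Prime ∧ p'.Prime ∧ p ≠ p' ∧ p * p' ∣ n ∧ Y ≤ p ∧ Y ≤ p' ∧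
        gr (1 / (Real.log x) ^ B') j ≤ p ∧ p < gr (1 / (Real.log x) ^ B') (j + 1) ∧
        gr (1 / (Real.log x) ^ B') j ≤ p' ∧ p' < gr (1 / (Real.log x) ^ B') (j + 1)) ∨
      (∃ p : ℕ, p.Prime ∧ y0 x ≤ p ∧ p ^ 2 ∣ n)) →
    ∑ n ∈ Icc 1 x, (err n) ^ 2 ≤ (x : ℝ) / (Real.log x) ^ B := by
  obtain ⟨C, hC, hsq⟩ := err_sq c C0
  obtain ⟨C2, hC2, htc⟩ := two_cell
  set k : ℕ := 2 ^ (4 * c) with hk
  refine ⟨2 * (B + k) + 3, ?_⟩
  intro B' hB'
  obtain ⟨x₁, hx₁⟩ := rankin κ hκ (2 * (B + k) + 2)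
  obtain ⟨x₂, hx₂⟩ := few_square (2 * (B + k) + 2)
  obtain ⟨x₃, hx₃⟩ := Filter.eventually_atTop.1 (evt_log (max 1 (C * Real.sqrt (2 + C2))))
  obtain ⟨x₄, hx₄⟩ := RankinAux.log_pow_exp 1 one_pos 4 B'
  refine ⟨max (max x₁ x₂) (max (max x₃ x₄) 3), ?_⟩
  intro x hx Y err hY hb hs
  have g1 := hx₁ x (((le_max_left _ _).trans (le_max_left _ _)).trans hx)
  have g2 := hx₂ x (((le_max_right _ _).trans (le_max_left _ _)).trans hx)
  have g3 := hx₃ x ((((le_max_left _ _).trans (le_max_left _ _)).trans (le_max_right _ _)).trans hx)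
  have g4 := hx₄ x ((((le_max_right _ _).trans (le_max_left _ _)).trans (le_max_right _ _)).trans hx)
  have hx3 : 3 ≤ x := ((le_max_right _ _).trans (le_max_right _ _)).trans hx
  set L : ℝ := Real.log x with hL
  have hL1 : 1 ≤ L := (le_max_left _ _).trans g3
  have hL0 : 0 < L := by linarith
  have hLC : C * Real.sqrt (2 + C2) ≤ L := (le_max_right _ _).trans g3
  have hx0 : (0 : ℝ) < x := by exact_mod_cast (by omega : 0 < x)
  set η : ℝ := 1 / L ^ B' with hη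
  have hη0 : 0 < η := by positivity
  have hη1 : η ≤ 1 := by
    rw [hη, div_le_one (by positivity)]
    exact one_le_pow₀ hL1
  have hηY : 1 ≤ η * Y := by
    have h1 : Real.exp (Real.sqrt L) ≤ y0 x := Nat.le_ceil _
    have h2 : (y0 x : ℝ) ≤ 4 * Y := by exact_mod_cast hY
    rw [one_mul, Real.exp_neg, ← div_eq_mul_inv, div_le_one (Real.exp_pos _)] at g4
    rw [hη, one_div, ← div_eq_inv_mul, one_le_div (by positivity)]
    linarith
  have g5 := htc x Y η hx3 hη0 hη1 hηY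
  set E₁ := (Icc 1 x).filter (fun n => ∃ d : ℕ, d ∣ n ∧ Squarefree d ∧
    (∀ p : ℕ, p.Prime → p ∣ d → p < y0 x) ∧ (x : ℝ) ^ κ ≤ d) with hE₁
  set E₂ := (Icc 1 x).filter (fun n => ∃ p : ℕ, p.Prime ∧ y0 x ≤ p ∧ p ^ 2 ∣ n) with hE₂
  set E₃ := (Icc 1 x).filter (fun n => ∃ j p p' : ℕ, p.Prime ∧ p'.Prime ∧ p ≠ p' ∧ p * p' ∣ n ∧
    Y ≤ p ∧ Y ≤ p' ∧ gr η j ≤ p ∧ p < gr η (j + 1) ∧ gr η j ≤ p' ∧ p' < gr η (j + 1)) with hE₃
  have h1 := hsq x (E₁ ∪ E₂ ∪ E₃) err hx3 hb (fun n hn1 hnx hne => by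
    have hn : n ∈ Icc 1 x := mem_Icc.2 ⟨hn1, hnx⟩
    rcases hs n hn1 hnx hne with h | h | h
    · exact mem_union_left _ (mem_union_left _ (mem_filter.2 ⟨hn, h⟩))
    · exact mem_union_right _ (mem_filter.2 ⟨hn, h⟩)
    · exact mem_union_left _ (mem_union_right _ (mem_filter.2 ⟨hn, h⟩)))
  refine h1.trans ?_
  have h2 : ((E₁ ∪ E₂ ∪ E₃).card : ℝ) ≤ (2 + C2) * x / L ^ (2 * (B + k) + 2) := by
    have h3 : ((E₁ ∪ E₂ ∪ E₃).card : ℝ) ≤ E₁.card + E₂.card + E₃.card := by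
      exact_mod_cast (card_union_le _ _).trans (Nat.add_le_add_right (card_union_le _ _) _)
    have h4 : C2 * x * L * η ≤ C2 * x / L ^ (2 * (B + k) + 2) := by
      rw [hη, mul_one_div, div_le_div_iff₀ (by positivity) (by positivity)]
      calc C2 * x * L * L ^ (2 * (B + k) + 2) = C2 * x * L ^ (2 * (B + k) + 3) := by ring
        _ ≤ C2 * x * L ^ B' := by gcongr
    calc ((E₁ ∪ E₂ ∪ E₃).card : ℝ) ≤ x / L ^ (2 * (B + k) + 2) + x / L ^ (2 * (B + k) + 2) +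
          C2 * x / L ^ (2 * (B + k) + 2) := by
          have := g5.trans h4
          linarith
      _ = (2 + C2) * x / L ^ (2 * (B + k) + 2) := by ring
  have h3 : Real.sqrt ((E₁ ∪ E₂ ∪ E₃).card * x) ≤ Real.sqrt (2 + C2) * x / L ^ (B + k + 1) := by
    have h4 : ((E₁ ∪ E₂ ∪ E₃).card : ℝ) * x ≤
        (Real.sqrt (2 + C2) * x / L ^ (B + k + 1)) ^ 2 := by
      rw [div_pow, mul_pow, Real.sq_sqrt (by linarith)]
      calc ((E₁ ∪ E₂ ∪ E₃).card : ℝ) * x ≤ (2 + C2) * x / L ^ (2 * (B + k) + 2) * x := by gcongr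
        _ = (2 + C2) * x ^ 2 / (L ^ (B + k + 1)) ^ 2 := by
            rw [← pow_mul]
            ring_nf
    rw [← Real.sqrt_sq (show (0 : ℝ) ≤ Real.sqrt (2 + C2) * x / L ^ (B + k + 1) by positivity)]
    exact Real.sqrt_le_sqrt h4
  rw [le_div_iff₀ (by positivity)]
  calc C * Real.sqrt ((E₁ ∪ E₂ ∪ E₃).card * x) * L ^ k * L ^ B
      ≤ C * (Real.sqrt (2 + C2) * x / L ^ (B + k + 1)) * L ^ k * L ^ B := by gcongr
    _ = (C * Real.sqrt (2 + C2)) * x * (L ^ k * L ^ B / L ^ (B + k + 1)) := by ring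
    _ = (C * Real.sqrt (2 + C2)) * x * L⁻¹ := by
        congr 1
        rw [← pow_add, show B + k + 1 = (k + B) + 1 by ring, pow_succ]
        field_simp
    _ ≤ L * x * L⁻¹ := by gcongr
    _ = x := by field_simp

end Pool.Agent.HS
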