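import Pool.Agent.Work.MP_92f640_nt.HL.Defs

/-! # Level theta: definitions (plan note LevelTheta on MP_92f640_nt) -/

namespace Pool.Agent.HS

open Finset Pool.Agent.BV Pool.Agent.HL
open scoped ArithmeticFunction.vonMangoldt ArithmeticFunction.Moebius

noncomputable section

open Classical in
/-- indicator of the integers all of whose prime factors are `≥ y` -/
def rho (y n : ℕ) : ℝ := if ∀ p : ℕ, p.Prime → p ∣ n → y ≤ p then 1 else 0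

/-- sifted function with sieve weights `cc` -/
def bb (cc : ℕ → ℝ) (y n : ℕ) : ℝ := ∑ d ∈ n.divisors, cc d * rho y (n / d)

open Classical in
/-- the minorant of the indicator of the primes -/
def aa (cc : ℕ → ℝ) (z n : ℕ) : ℝ := if Squarefree n then bb cc z n else 0

/-- sieve weights: supported on squarefree `z`-rough integers `≤ D0`, bounded by `1` -/
structure Wt (z D0 : ℕ) (cc : ℕ → ℝ) : Prop where
  sf : ∀ d, cc d ≠ 0 → Squarefree d ∧ ∀ p : ℕ, p.Prime → p ∣ d → z ≤ p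
  le : ∀ d, cc d ≠ 0 → d ≤ D0
  bd : ∀ d, |cc d| ≤ 1

/-- `E d t` interpolates `cc (d * p)` at `p = t`, with bounded variation in `t` -/
structure WtE (z : ℕ) (V0 : ℝ) (cc : ℕ → ℝ) (E : ℕ → ℕ → ℝ) : Prop where
  bd : ∀ d t, |E d t| ≤ 1
  eq : ∀ d p : ℕ, Squarefree d → (∀ p' : ℕ, p'.Prime → p' ∣ d → z ≤ p') → p.Prime → z ≤ p → ¬ p ∣ d →
    E d p = cc (d * p)
  tv : ∀ d N : ℕ, ∑ t ∈ range N, |E d (t + 1) - E d t| ≤ V0

open Classical in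
/-- the density of `aa cc z n * log n` -/
def KK (cc : ℕ → ℝ) (E : ℕ → ℕ → ℝ) (z n : ℕ) : ℝ :=
  ∑ m ∈ (Icc 1 (n / z)).filter (fun m => Squarefree m ∧ ∀ p : ℕ, p.Prime → p ∣ m → z ≤ p),
    (1 / (m : ℝ)) * ∑ d ∈ m.divisors, (cc d + E d (n / m))

/-- squarefree integers with all prime factors in `[y, z)` -/
def CC (y z c : ℕ) : Prop := Squarefree c ∧ ∀ p : ℕ, p.Prime → p ∣ c → y ≤ p ∧ p < z

open Classical in
/-- coefficient of the short variable: smallest prime factor in the `j`-th cell -/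
def AJ (y z w : ℕ) (η : ℝ) (j c : ℕ) : ℝ :=
  if CC y z c ∧ w ≤ c ∧ c / c.minFac < w ∧ gr η j ≤ c.minFac ∧ c.minFac < gr η (j + 1) then
    ((μ c : ℤ) : ℝ) else 0

/-- `exp (√(log x))`, rounded up -/
def y0 (x : ℕ) : ℕ := ⌈Real.exp (Real.sqrt (Real.log x))⌉₊

/-- `x^(1-θ)`, rounded up -/
def zx (θ : ℝ) (x : ℕ) : ℕ := ⌈(x : ℝ) ^ (1 - θ)⌉₊

/-- `x^κ`, rounded up -/
def wk (κ : ℝ) (x : ℕ) : ℕ := ⌈(x : ℝ) ^ κ⌉₊

/-- number of cells for the smallest prime factor -/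
def JJ (x B : ℕ) : ℕ := ⌈2 * (Real.log x) ^ (B + 1)⌉₊

/-- controlled functions: type I part of level `D`, `J` type II parts with a short variable in
`[w₁, w₂]`, and an error -/
structure Ctl (x D w₁ w₂ J : ℕ) (A B : ℕ → ℕ → ℝ) (β err f : ℕ → ℝ) : Prop where
  hβ : ∀ m, |β m| ≤ 1
  hβD : ∀ m, D < m → β m = 0
  hA : ∀ j c, |A j c| ≤ 1
  hAs : ∀ j c, A j c ≠ 0 → w₁ ≤ c ∧ c ≤ w₂
  hB : ∀ j l, |B j l| ≤ (l.divisors.card : ℝ) ^ 2
  eq : ∀ n, 1 ≤ n → n ≤ x → f n = ∑ m ∈ n.divisors, β m +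
    ∑ j ∈ range J, ∑ p ∈ n.divisorsAntidiagonal, A j p.1 * B j p.2 + err n

/-- the values of a function on the integers coprime to `q` -/
def FA (q : ℕ) (f : ℕ → ℝ) (n : ℕ) : ℂ := if n.Coprime q then ((f n : ℝ) : ℂ) else 0

/-- restriction to `(x/8, x]` -/
def cut (x : ℕ) (f : ℕ → ℝ) (n : ℕ) : ℝ := if x / 8 < n ∧ n ≤ x then f n else 0

/-- functions of bounded variation on `[0, x]` -/
structure BVar (x : ℕ) (V : ℝ) (v : ℕ → ℝ) : Prop where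
  bd : ∀ n, |v n| ≤ V
  tv : ∑ n ∈ range x, |v (n + 1) - v n| ≤ V

/-- a character is bad for the family `A` -/
def BadF (x w₁ w₂ J B9 : ℕ) (A : ℕ → ℕ → ℝ) {r : ℕ} (χ : DirichletCharacter ℂ r) : Prop :=
  ∃ j < J, ∃ u : ℕ, w₁ ≤ u ∧ u ≤ w₂ ∧
    (u : ℝ) / (Real.log x) ^ B9 < ‖∑ c ∈ Icc 1 u, ((A j c : ℝ) : ℂ) * χ (c : ZMod r)‖

/-- `q` is good for the family `A`: no bad primitive character of conductor `> R0` dividing `q s`,
`s ≤ S1` -/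
def GoodF (x w₁ w₂ J B9 : ℕ) (A : ℕ → ℕ → ℝ) (R0 S1 : ℝ) (q : ℕ) : Prop :=
  ∀ s : ℕ, 1 ≤ s → (s : ℝ) ≤ S1 → ∀ r : ℕ, r ∣ q * s → R0 < r → ∀ χ ∈ prim r,
    ¬ BadF x w₁ w₂ J B9 A χ

/-- admissible weights: level `x^(1-θ/2)`, minorant of the primes, density `≥ c₀ / log` -/
structure Adm (θ c₀ V0 : ℝ) (x : ℕ) (cc : ℕ → ℝ) (E : ℕ → ℕ → ℝ) : Prop where
  wt : Wt (zx θ x) ⌈(x : ℝ) ^ (1 - θ / 2)⌉₊ cc
  wte : WtE (zx θ x) V0 cc E
  minor : ∀ n : ℕ, x / 8 < n → n ≤ x → aa cc (zx θ x) n ≤ if n.Prime then 1 else 0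
  dens : ∀ n : ℕ, x / 8 < n → n ≤ x → c₀ ≤ KK cc E (zx θ x) n

/-- existence of admissible weights for all large `x` -/
def VLow (θ c₀ V0 : ℝ) : Prop := ∃ x₁ : ℕ, ∀ x : ℕ, x₁ ≤ x → ∃ (cc : ℕ → ℝ) (E : ℕ → ℕ → ℝ),
  Adm θ c₀ V0 x cc E

end

end Pool.Agent.HS
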