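import Pool.Agent.Work.MP_92f640_nt.HL.Defs
import Pool.Agent.Work.BV.Primes

/-! # Module DensK: extraction of a prime

`a` is supported on squarefree `z`-rough integers and `a (p m) = H m p` for primes `p ≥ z`, `p ∤ m`.
Since `log n = ∑_{c ∣ n} Λ c`, the sum of `a n log n f n` is a sum over `m` of prime sums
(`prime_out`). `KH` is the density. -/

namespace Pool.Agent.HS

open Finset Pool.Agent.BV
open scoped ArithmeticFunction.vonMangoldt

noncomputable section

open Classical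

/-- all prime factors are at least `z` -/
def Rh (z n : ℕ) : Prop := ∀ p, p.Prime → p ∣ n → z ≤ p

/-- data of a lower bound function: `H m t` extends `p ↦ a (p m)` -/
structure WTd (x z : ℕ) (B : ℝ) (a : ℕ → ℝ) (H : ℕ → ℕ → ℝ) : Prop where
  supp : ∀ n, a n ≠ 0 → 1 ≤ n ∧ Rh z n ∧ Squarefree n
  ext : ∀ p m, p.Prime → z ≤ p → 1 ≤ m → Rh z m → Squarefree m → ¬ p ∣ m → p * m ≤ x →
    a (p * m) = H m p
  bd : ∀ m t, |H m t| ≤ B
  tv : ∀ m, ∑ t ∈ Ico z x, |H m (t + 1) - H m t| ≤ B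

/-- the `m` that occur -/
def Ms (z M : ℕ) : Finset ℕ := (Icc 1 M).filter (fun m => Rh z m ∧ Squarefree m)

/-- the density times `log n` -/
def KH (z : ℕ) (H : ℕ → ℕ → ℝ) (n : ℕ) : ℝ := ∑ m ∈ Ms z (n / z), H m (n / m) / m

/-- the main term: `c = p` a prime `≥ z`, `m` rough and squarefree -/
def F0 (z : ℕ) (H : ℕ → ℕ → ℝ) (f : ℕ → ℂ) (c m : ℕ) : ℂ :=
  if c.Prime ∧ z ≤ c ∧ 1 ≤ m ∧ Rh z m ∧ Squarefree m then
    ((Real.log c * H m c : ℝ) : ℂ) * (f c * f m) else 0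

theorem dk_swap {E : Type*} [AddCommMonoid E] (N : ℕ) (F : ℕ → ℕ → E) :
    ∑ n ∈ Icc 1 N, ∑ p ∈ n.divisorsAntidiagonal, F p.1 p.2 =
      ∑ m ∈ Icc 1 N, ∑ c ∈ Icc 1 (N / m), F c m := by
  rw [sum_sigma', sum_sigma']
  refine sum_bij' (fun a _ => ⟨a.2.2, a.2.1⟩) (fun b _ => ⟨b.2 * b.1, (b.2, b.1)⟩) ?_ ?_ ?_ ?_ ?_
  · rintro ⟨n, c, m⟩ h
    simp only [mem_sigma, mem_Icc, Nat.mem_divisorsAntidiagonal] at h ⊢
    obtain ⟨⟨h1, h2⟩, h3, h4⟩ := h
    have hc : 1 ≤ c := by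
      rcases Nat.eq_zero_or_pos c with h | h
      · rw [h] at h3; omega
      · exact h
    have hm : 1 ≤ m := by
      rcases Nat.eq_zero_or_pos m with h | h
      · rw [h] at h3; omega
      · exact h
    refine ⟨⟨hm, ?_⟩, hc, ?_⟩
    · calc m = 1 * m := (one_mul m).symm
        _ ≤ c * m := Nat.mul_le_mul_right m hc
        _ ≤ N := by rw [h3]; exact h2
    · rw [Nat.le_div_iff_mul_le hm, h3]
      exact h2
  · rintro ⟨m, c⟩ h
    simp only [mem_sigma, mem_Icc, Nat.mem_divisorsAntidiagonal] at h ⊢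
    obtain ⟨⟨h1, h2⟩, h3, h4⟩ := h
    have h5 : 0 < c * m := Nat.mul_pos h3 h1
    refine ⟨⟨h5, ?_⟩, trivial, by omega⟩
    rw [Nat.le_div_iff_mul_le h1] at h4
    exact h4
  · rintro ⟨n, c, m⟩ h
    simp only [mem_sigma, Nat.mem_divisorsAntidiagonal] at h
    obtain ⟨_, h3, _⟩ := h
    simp only [h3]
  · rintro ⟨m, c⟩ _
    rfl
  · rintro ⟨n, c, m⟩ _
    rfl

/-- one `n`: exact identity, with the condition `¬ c ∣ m` -/
theorem per_n {x z : ℕ} {B : ℝ} {a : ℕ → ℝ} {H : ℕ → ℕ → ℝ} (h : WTd x z B a H) (f : ℕ → ℂ)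
    (hf : ∀ a b, f (a * b) = f a * f b) {n : ℕ} (hn : 1 ≤ n) (hnx : n ≤ x) :
    ((a n * Real.log n : ℝ) : ℂ) * f n =
      ∑ p ∈ n.divisorsAntidiagonal, (if p.1 ∣ p.2 then 0 else F0 z H f p.1 p.2) := by
  have h1 : Real.log n = ∑ p ∈ n.divisorsAntidiagonal, Λ p.1 := by
    rw [Nat.sum_divisorsAntidiagonal (fun c _ => (Λ c : ℝ))]
    exact (ArithmeticFunction.vonMangoldt_sum).symm
  rw [h1, mul_sum]
  push_cast
  rw [sum_mul]
  refine sum_congr rfl ?_
  rintro ⟨c, m⟩ hcm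
  rw [Nat.mem_divisorsAntidiagonal] at hcm
  obtain ⟨hcm, hn0⟩ := hcm
  simp only at hcm ⊢
  have hm0 : m ≠ 0 := by
    rintro rfl
    simp at hcm
    omega
  by_cases hc : c.Prime
  · by_cases hcm2 : c ∣ m
    · rw [if_pos hcm2]
      have : a n = 0 := by
        by_contra hne
        have h2 := (h.supp n hne).2.2
        rw [← hcm] at h2
        obtain ⟨t, rfl⟩ := hcm2
        have h3 : c * c ∣ c * (c * t) := ⟨t, by ring⟩
        have h4 := h2 c h3
        exact hc.one_lt.ne' (Nat.isUnit_iff.1 h4)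
      rw [this]
      simp
    · rw [if_neg hcm2]
      unfold F0
      by_cases hr : z ≤ c ∧ Rh z m ∧ Squarefree m
      · rw [if_pos (show c.Prime ∧ z ≤ c ∧ 1 ≤ m ∧ Rh z m ∧ Squarefree m from
          ⟨hc, hr.1, Nat.one_le_iff_ne_zero.2 hm0, hr.2.1, hr.2.2⟩)]
        rw [ArithmeticFunction.vonMangoldt_apply_prime hc, ← h.ext c m hc hr.1
          (Nat.one_le_iff_ne_zero.2 hm0) hr.2.1 hr.2.2 hcm2 (by rw [hcm]; exact hnx), hcm]
        have h5 : f n = f c * f m := by rw [← hf, hcm]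
        rw [h5]
        push_cast
        ring
      · rw [if_neg (show ¬ (c.Prime ∧ z ≤ c ∧ 1 ≤ m ∧ Rh z m ∧ Squarefree m) from
          fun h' => hr ⟨h'.2.1, h'.2.2.2.1, h'.2.2.2.2⟩)]
        have : a n = 0 := by
          by_contra hne
          have h2 := h.supp n hne
          apply hr
          refine ⟨h2.2.1 c hc ⟨m, hcm.symm⟩, ?_, ?_⟩
          · intro r hr' hrm
            exact h2.2.1 r hr' (hcm ▸ hrm.mul_left c)
          · exact h2.2.2.squarefree_of_dvd ⟨c, by rw [← hcm]; ring⟩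
        rw [this]
        simp
  · have hz : F0 z H f c m = 0 := by
      unfold F0
      rw [if_neg (fun h' => hc h'.1)]
    rw [hz, ite_self]
    by_cases hL : Λ c = 0
    · rw [hL]; simp
    · have hpp : IsPrimePow c := ArithmeticFunction.vonMangoldt_ne_zero_iff.1 hL
      rw [isPrimePow_nat_iff] at hpp
      obtain ⟨p, k, hp, hk, rfl⟩ := hpp
      have : a n = 0 := by
        by_contra hne
        have h2 := (h.supp n hne).2.2
        have hk2 : 2 ≤ k := by
          by_contra hlt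
          have : k = 1 := by omega
          rw [this, pow_one] at hc
          exact hc hp
        have h3 : p * p ∣ n := by
          rw [← sq, ← hcm]
          exact (pow_dvd_pow p hk2).mul_right m
        have h4 := h2 p h3
        exact hp.one_lt.ne' (Nat.isUnit_iff.1 h4)
      rw [this]
      simp

theorem F0_norm_le {z : ℕ} {B : ℝ} {H : ℕ → ℕ → ℝ} (hB : ∀ m t, |H m t| ≤ B) {f : ℕ → ℂ}
    (hf1 : ∀ n, ‖f n‖ ≤ 1) {L : ℝ} {c m : ℕ} (hc : Real.log c ≤ L) (hL : 0 ≤ L) :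
    ‖F0 z H f c m‖ ≤ L * B := by
  have hB0 : 0 ≤ B := (abs_nonneg _).trans (hB 0 0)
  unfold F0
  split_ifs
  · rw [norm_mul, norm_mul, Complex.norm_real, Real.norm_eq_abs, abs_mul,
      abs_of_nonneg (Real.log_natCast_nonneg c)]
    calc Real.log c * |H m c| * (‖f c‖ * ‖f m‖) ≤ L * B * (1 * 1) := by
          have := Real.log_natCast_nonneg c
          gcongr
          · exact hB m c
          · exact hf1 c
          · exact hf1 m
      _ = L * B := by ring
  · rw [norm_zero]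
    positivity

/-- the number of pairs `(c, m)`, `c ≥ z`, `c ∣ m`, `c m ≤ N` -/
theorem dk_pairs (z N : ℕ) (hz : 2 ≤ z) :
    (∑ m ∈ Icc 1 N, ∑ c ∈ Icc 1 (N / m), if z ≤ c ∧ c ∣ m then (1 : ℝ) else 0) ≤ 2 * N / z := by
  have hz0 : (0 : ℝ) < z := by exact_mod_cast (by omega : 0 < z)
  have h1 : (∑ m ∈ Icc 1 N, ∑ c ∈ Icc 1 (N / m), if z ≤ c ∧ c ∣ m then (1 : ℝ) else 0) ≤
      ∑ c ∈ Icc z N, ∑ m ∈ Icc 1 N, if c ∣ m ∧ c * m ≤ N then (1 : ℝ) else 0 := by
    refine le_trans ?_ (le_of_eq sum_comm)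
    apply sum_le_sum
    intro m hm
    rw [mem_Icc] at hm
    rw [← sum_filter, ← sum_filter]
    apply sum_le_sum_of_subset_of_nonneg
    · intro c hc
      rw [mem_filter, mem_Icc] at hc ⊢
      have h2 : c * m ≤ N := by
        have := hc.1.2
        rwa [Nat.le_div_iff_mul_le (by omega)] at this
      refine ⟨⟨hc.2.1, ?_⟩, hc.2.2, h2⟩
      exact (Nat.le_mul_of_pos_right c (by omega)).trans h2
    · intro _ _ _
      exact zero_le_one
  refine h1.trans ?_
  have h2 : ∀ c ∈ Icc z N, (∑ m ∈ Icc 1 N, if c ∣ m ∧ c * m ≤ N then (1 : ℝ) else 0) ≤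
      N * ((c : ℝ) ^ 2)⁻¹ := by
    intro c hc
    rw [mem_Icc] at hc
    have hc0 : 0 < c := by omega
    have hc0' : (0 : ℝ) < c := by exact_mod_cast hc0
    rw [← sum_filter, sum_const, nsmul_eq_mul, mul_one]
    have h3 : (Icc 1 N).filter (fun m => c ∣ m ∧ c * m ≤ N) ⊆
        (Icc 1 (N / c ^ 2)).image (fun t => c * t) := by
      intro m hm
      rw [mem_filter, mem_Icc] at hm
      obtain ⟨t, rfl⟩ := hm.2.1
      rw [mem_image]
      refine ⟨t, ?_, rfl⟩
      rw [mem_Icc, Nat.le_div_iff_mul_le (by positivity)]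
      constructor
      · rcases Nat.eq_zero_or_pos t with h | h
        · rw [h] at hm; omega
        · exact h
      · calc t * c ^ 2 = c * (c * t) := by ring
          _ ≤ N := hm.2.2
    have h4 : ((Icc 1 N).filter (fun m => c ∣ m ∧ c * m ≤ N)).card ≤ N / c ^ 2 := by
      refine (card_le_card h3).trans (card_image_le.trans ?_)
      simp
    calc (((Icc 1 N).filter (fun m => c ∣ m ∧ c * m ≤ N)).card : ℝ) ≤ ((N / c ^ 2 : ℕ) : ℝ) := by
          exact_mod_cast h4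
      _ ≤ (N : ℝ) / ((c ^ 2 : ℕ) : ℝ) := Nat.cast_div_le
      _ = N * ((c : ℝ) ^ 2)⁻¹ := by push_cast; rw [div_eq_mul_inv]
  refine (sum_le_sum h2).trans ?_
  rw [← mul_sum]
  have h3 : ∑ c ∈ Icc z N, ((c : ℝ) ^ 2)⁻¹ ≤ 2 / z := by
    have h4 := sum_Ioo_inv_sq_le (α := ℝ) (z - 1) (N + 1)
    have h5 : Icc z N = Ioo (z - 1) (N + 1) := by
      ext c; simp only [mem_Icc, mem_Ioo]; omega
    rw [h5]
    refine h4.trans (le_of_eq ?_)
    have : ((z - 1 : ℕ) : ℝ) + 1 = z := by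
      have : z - 1 + 1 = z := by omega
      exact_mod_cast this
    rw [this]
  calc (N : ℝ) * ∑ c ∈ Icc z N, ((c : ℝ) ^ 2)⁻¹ ≤ N * (2 / z) :=
        mul_le_mul_of_nonneg_left h3 (Nat.cast_nonneg N)
    _ = _ := by ring

/-- extraction of a prime -/
theorem prime_out {x z : ℕ} {B : ℝ} {a : ℕ → ℝ} {H : ℕ → ℕ → ℝ} (h : WTd x z B a H) (f : ℕ → ℂ)
    (hf : ∀ a b, f (a * b) = f a * f b) (hf1 : ∀ n, ‖f n‖ ≤ 1) (hz : 2 ≤ z) {N : ℕ} (hN : N ≤ x) :
    ‖∑ n ∈ Icc 1 N, ((a n * Real.log n : ℝ) : ℂ) * f n -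
      ∑ m ∈ Ms z (N / z), f m * ∑ p ∈ (Icc z (N / m)).filter Nat.Prime,
        ((Real.log p * H m p : ℝ) : ℂ) * f p‖ ≤ 2 * B * Real.log x * N / z := by
  have hB0 : 0 ≤ B := (abs_nonneg _).trans (h.bd 0 0)
  have h1 : ∑ n ∈ Icc 1 N, ((a n * Real.log n : ℝ) : ℂ) * f n =
      ∑ m ∈ Icc 1 N, ∑ c ∈ Icc 1 (N / m), (if c ∣ m then 0 else F0 z H f c m) := by
    rw [← dk_swap N (fun c m => if c ∣ m then 0 else F0 z H f c m)]
    refine sum_congr rfl fun n hn => ?_
    rw [mem_Icc] at hn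
    exact per_n h f hf hn.1 (hn.2.trans hN)
  have h2 : ∑ m ∈ Ms z (N / z), f m * ∑ p ∈ (Icc z (N / m)).filter Nat.Prime,
        ((Real.log p * H m p : ℝ) : ℂ) * f p =
      ∑ m ∈ Icc 1 N, ∑ c ∈ Icc 1 (N / m), F0 z H f c m := by
    have e1 : ∀ m ∈ Icc 1 N, ∑ c ∈ Icc 1 (N / m), F0 z H f c m =
        if Rh z m ∧ Squarefree m ∧ m ≤ N / z then
          f m * ∑ p ∈ (Icc z (N / m)).filter Nat.Prime,
            ((Real.log p * H m p : ℝ) : ℂ) * f p else 0 := by
      intro m hm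
      rw [mem_Icc] at hm
      by_cases hr : Rh z m ∧ Squarefree m ∧ m ≤ N / z
      · rw [if_pos hr, mul_sum, sum_filter]
        symm
        apply sum_subset_zero_on_sdiff
        · intro c hc
          rw [mem_Icc] at hc ⊢
          omega
        · intro c hc
          rw [mem_sdiff, mem_Icc, mem_Icc] at hc
          unfold F0
          rw [if_neg]
          rintro ⟨_, h3, _⟩
          apply hc.2
          omega
        · intro c hc
          rw [mem_Icc] at hc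
          unfold F0
          by_cases hp : c.Prime
          · rw [if_pos hp, if_pos ⟨hp, hc.1, hm.1, hr.1, hr.2.1⟩]
            ring
          · rw [if_neg hp, if_neg (fun h' => hp h'.1)]
      · rw [if_neg hr]
        apply sum_eq_zero
        intro c hc
        rw [mem_Icc] at hc
        unfold F0
        rw [if_neg]
        rintro ⟨_, h3, _, h4, h5⟩
        apply hr
        refine ⟨h4, h5, ?_⟩
        rw [Nat.le_div_iff_mul_le (by omega)]
        have := hc.2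
        rw [Nat.le_div_iff_mul_le hm.1] at this
        calc m * z ≤ m * c := Nat.mul_le_mul_left m h3
          _ = c * m := mul_comm _ _
          _ ≤ N := this
    rw [sum_congr rfl e1, ← sum_filter]
    apply sum_congr _ (fun _ _ => rfl)
    unfold Ms
    ext m
    simp only [mem_filter, mem_Icc]
    have : N / z ≤ N := Nat.div_le_self N z
    constructor
    · rintro ⟨⟨h3, h4⟩, h5, h6⟩
      exact ⟨⟨h3, h4.trans this⟩, h5, h6, h4⟩
    · rintro ⟨⟨h3, h4⟩, h5, h6, h7⟩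
      exact ⟨⟨h3, h7⟩, h5, h6⟩
  rw [h1, h2, ← sum_sub_distrib]
  have h3 : ∀ m ∈ Icc 1 N, ‖∑ c ∈ Icc 1 (N / m), (if c ∣ m then 0 else F0 z H f c m) -
      ∑ c ∈ Icc 1 (N / m), F0 z H f c m‖ ≤
      ∑ c ∈ Icc 1 (N / m), (Real.log x * B) * (if z ≤ c ∧ c ∣ m then (1 : ℝ) else 0) := by
    intro m hm
    rw [mem_Icc] at hm
    rw [← sum_sub_distrib]
    refine (norm_sum_le _ _).trans ?_
    apply sum_le_sum
    intro c hc
    rw [mem_Icc] at hc
    have hcx : c ≤ x := (hc.2.trans (Nat.div_le_self N m)).trans hN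
    have hlc : Real.log c ≤ Real.log x :=
      Real.log_le_log (by exact_mod_cast hc.1) (by exact_mod_cast hcx)
    have hlx : 0 ≤ Real.log x := Real.log_natCast_nonneg x
    by_cases hcm : c ∣ m
    · rw [if_pos hcm]
      by_cases hzc : z ≤ c
      · rw [if_pos ⟨hzc, hcm⟩, zero_sub, norm_neg, mul_one]
        exact F0_norm_le h.bd hf1 hlc hlx
      · rw [if_neg (by tauto)]
        unfold F0
        rw [if_neg (by tauto)]
        simp
    · rw [if_neg hcm, sub_self, norm_zero]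
      split_ifs <;> positivity
  refine (norm_sum_le _ _).trans ((sum_le_sum h3).trans ?_)
  simp_rw [← mul_sum]
  have h4 := dk_pairs z N hz
  have hlx : 0 ≤ Real.log x := Real.log_natCast_nonneg x
  calc (Real.log x * B) *
        ∑ m ∈ Icc 1 N, ∑ c ∈ Icc 1 (N / m), (if z ≤ c ∧ c ∣ m then (1 : ℝ) else 0)
      ≤ (Real.log x * B) * (2 * N / z) := mul_le_mul_of_nonneg_left h4 (by positivity)
    _ = _ := by ring

end

end Pool.Agent.HS
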