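import Pool.Agent.Work.MP_92f640_nt.HS.DensK
import Pool.Agent.Work.MP_92f640_nt.HL.VarC
import Pool.Agent.Work.MP_92f640_nt.HL.Evt
import Pool.Agent.Work.BV.L_TypeI
import Pool.Agent.Work.BV.L_Tau
import Pool.Agent.Work.BV.SW

/-! # Module DensP: asymptotic formulas for the lower bound function

`dens_log`: `∑_{n ≤ N} a n log n = ∑_{n ≤ N} KH n + O(B x / L^A)`; `dens_log_chi`: twisted by a
primitive character of small conductor. -/

namespace Pool.Agent.HS

open Finset Pool.Agent.BV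
open scoped ArithmeticFunction.vonMangoldt

noncomputable section

open Classical

/-- prime number theorem for `theta` -/
theorem theta_pnt (A : ℕ) : ∃ C : ℝ, 0 < C ∧ ∀ y : ℕ, 3 ≤ y →
    |theta y - y| ≤ C * y / (Real.log y) ^ A := by
  obtain ⟨C, hC, h⟩ := Pool.Agent.HL.psi_pnt A
  obtain ⟨C', hC', h'⟩ := primes_logpow (A + 1) (1 / 2) (by norm_num)
  refine ⟨C + 2 * C', by positivity, fun y hy => ?_⟩
  have hy0 : (0 : ℝ) < y := by exact_mod_cast (by omega : 0 < y)
  have hy1 : (1 : ℝ) ≤ y := by exact_mod_cast (by omega : 1 ≤ y)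
  have hl : 0 < Real.log y := Real.log_pos (by exact_mod_cast (by omega : 1 < y))
  have h1 := h y (by omega)
  have h2 := primes_sub_le hy (le_refl y)
  have h3 : 0 ≤ psi y - theta y := by
    rw [primes_psi_eq, primes_theta_eq, sub_nonneg]
    exact Chebyshev.theta_le_psi _
  have h4 : 2 * Real.sqrt y * Real.log y ≤ 2 * C' * y / (Real.log y) ^ A := by
    rw [le_div_iff₀ (by positivity)]
    have h5 := h' y hy1
    rw [← Real.sqrt_eq_rpow] at h5
    calc 2 * Real.sqrt y * Real.log y * (Real.log y) ^ A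
        = 2 * Real.sqrt y * (Real.log y) ^ (A + 1) := by ring
      _ ≤ 2 * Real.sqrt y * (C' * Real.sqrt y) := by gcongr
      _ = 2 * C' * (Real.sqrt y * Real.sqrt y) := by ring
      _ = 2 * C' * y := by rw [Real.mul_self_sqrt hy0.le]
  have h6 : theta y - y = (psi y - y) - (psi y - theta y) := by ring
  rw [h6]
  refine (abs_sub _ _).trans ?_
  rw [abs_of_nonneg h3]
  calc |psi y - y| + (psi y - theta y) ≤ C * y / (Real.log y) ^ A + 2 * C' * y / (Real.log y) ^ A :=
        add_le_add h1 (h2.trans h4)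
    _ = _ := by ring

/-- Abel summation against a weight of bounded variation on `[z, x]` -/
theorem abel_tv {x z T : ℕ} {B E : ℝ} (g : ℕ → ℝ) (hg : ∀ t, |g t| ≤ B)
    (htv : ∑ t ∈ Ico z x, |g (t + 1) - g t| ≤ B) (hT : T ≤ x) (hz : 1 ≤ z)
    (b : ℕ → ℂ)
    (hb : ∀ T', T' ≤ T → ‖∑ t ∈ Icc z T', b t‖ ≤ E) :
    ‖∑ t ∈ Icc z T, b t * ((g t : ℝ) : ℂ)‖ ≤ 2 * B * E := by
  set f : ℕ → ℂ := fun t => if z ≤ t ∧ t ≤ T then b t else 0 with hf
  set φ : ℕ → ℝ := fun t => g (max t z) with hφ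
  have hE : 0 ≤ E := (norm_nonneg _).trans (hb 0 (by omega))
  have hB0 : 0 ≤ B := (abs_nonneg _).trans (hg 0)
  have h1 : ∀ n, ‖∑ k ∈ Icc 1 n, f k‖ ≤ E := by
    intro n
    have h2 : ∑ k ∈ Icc 1 n, f k = ∑ k ∈ Icc z (min n T), b k := by
      rw [hf]
      simp only []
      rw [← sum_filter]
      apply sum_congr _ (fun _ _ => rfl)
      ext k
      simp only [mem_filter, mem_Icc, le_min_iff]
      omega
    rw [h2]
    exact hb _ (min_le_right _ _)
  have h2 := Pool.Agent.Work.BV.abel_le h1 φ T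
  have h3 : ∑ t ∈ Icc z T, b t * ((g t : ℝ) : ℂ) = ∑ n ∈ Icc 1 T, f n * ((φ n : ℝ) : ℂ) := by
    have e1 : ∀ n ∈ Icc 1 T, f n * ((φ n : ℝ) : ℂ) =
        if z ≤ n then b n * ((g n : ℝ) : ℂ) else 0 := by
      intro n hn
      rw [mem_Icc] at hn
      simp only [hf, hφ]
      by_cases h : z ≤ n
      · rw [if_pos ⟨h, hn.2⟩, if_pos h, max_eq_left h]
      · rw [if_neg (by tauto), if_neg h, zero_mul]
    rw [sum_congr rfl e1, ← sum_filter]
    apply sum_congr _ (fun _ _ => rfl)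
    ext k
    simp only [mem_filter, mem_Icc]
    omega
  rw [h3]
  refine h2.trans ?_
  have h4 : ∑ n ∈ Ico 1 T, |φ (n + 1) - φ n| ≤ B := by
    refine le_trans ?_ htv
    have e2 : ∑ n ∈ Ico 1 T, |φ (n + 1) - φ n| = ∑ n ∈ (Ico 1 T).filter (fun n => z ≤ n),
        |g (n + 1) - g n| := by
      rw [sum_filter]
      refine sum_congr rfl fun n hn => ?_
      simp only [hφ]
      by_cases h : z ≤ n
      · rw [if_pos h, max_eq_left h, max_eq_left (by omega)]
      · rw [if_neg h, max_eq_right (by omega), max_eq_right (by omega), sub_self, abs_zero]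
    rw [e2]
    apply sum_le_sum_of_subset_of_nonneg
    · intro n hn
      simp only [mem_filter, mem_Ico] at hn ⊢
      omega
    · intro _ _ _
      exact abs_nonneg _
  calc E * (|φ T| + ∑ n ∈ Ico 1 T, |φ (n + 1) - φ n|) ≤ E * (B + B) := by
        apply mul_le_mul_of_nonneg_left _ hE
        exact add_le_add (hg _) h4
    _ = _ := by ring

/-- regrouping `n` by `n / m` -/
theorem sum_div_block (g : ℕ → ℝ) (m z : ℕ) (hm : 1 ≤ m) : ∀ T : ℕ, z ≤ T →
    ∑ n ∈ Ico (m * z) (m * T), g (n / m) = m * ∑ t ∈ Ico z T, g t := by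
  intro T hT
  induction T, hT using Nat.le_induction with
  | base => simp
  | succ T hT ih =>
    rw [sum_Ico_succ_top hT, mul_add (m : ℝ), ← ih,
      ← sum_Ico_consecutive _ (Nat.mul_le_mul_left m hT) (Nat.mul_le_mul_left m (Nat.le_succ T))]
    congr 1
    have h1 : ∀ n ∈ Ico (m * T) (m * (T + 1)), g (n / m) = g T := by
      intro n hn
      rw [mem_Ico] at hn
      have : n / m = T := by
        rw [Nat.div_eq_iff (by omega)]
        constructor
        · rw [mul_comm]; exact hn.1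
        · have := hn.2
          rw [mul_add, mul_one] at this
          rw [mul_comm T m]
          omega
      rw [this]
    rw [sum_congr rfl h1, sum_const, Nat.card_Ico, nsmul_eq_mul]
    congr 1
    have : m * (T + 1) - m * T = m := by rw [mul_add, mul_one]; omega
    exact_mod_cast this

theorem KH_sum {z : ℕ} {B : ℝ} {H : ℕ → ℕ → ℝ} (hB : ∀ m t, |H m t| ≤ B) (hz : 1 ≤ z) (N : ℕ) :
    |∑ n ∈ Icc 1 N, KH z H n - ∑ m ∈ Ms z (N / z), ∑ t ∈ Icc z (N / m), H m t| ≤ B * N / z := by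
  have hB0 : 0 ≤ B := (abs_nonneg _).trans (hB 0 0)
  have h1 : ∑ n ∈ Icc 1 N, KH z H n =
      ∑ m ∈ Ms z (N / z), ∑ n ∈ Icc (m * z) N, H m (n / m) / m := by
    unfold KH
    apply sum_comm'
    intro n m
    unfold Ms
    simp only [mem_Icc, mem_filter]
    rw [Nat.le_div_iff_mul_le (by omega), Nat.le_div_iff_mul_le (by omega)]
    constructor
    · rintro ⟨⟨h2, h3⟩, ⟨h4, h5⟩, h6⟩
      exact ⟨⟨h5, h3⟩, ⟨h4, h5.trans h3⟩, h6⟩
    · rintro ⟨⟨h2, h3⟩, ⟨h4, h5⟩, h6⟩
      exact ⟨⟨(Nat.mul_pos h4 hz).trans_le h2, h3⟩, ⟨h4, h2⟩, h6⟩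
  rw [h1, ← sum_sub_distrib]
  have h2 : ∀ m ∈ Ms z (N / z), |∑ n ∈ Icc (m * z) N, H m (n / m) / m -
      ∑ t ∈ Icc z (N / m), H m t| ≤ B := by
    intro m hm
    unfold Ms at hm
    rw [mem_filter, mem_Icc, Nat.le_div_iff_mul_le (by omega)] at hm
    have hm1 := hm.1.1
    have hm0 : (0 : ℝ) < m := by exact_mod_cast hm1
    set T := N / m with hT
    have hzT : z ≤ T := by
      rw [hT, Nat.le_div_iff_mul_le hm1, mul_comm]
      exact hm.1.2
    have hNT : N < m * (T + 1) := by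
      have := Nat.lt_div_mul_add hm1 (a := N)
      rw [← hT] at this
      calc N < T * m + m := this
        _ = m * (T + 1) := by ring
    have hTN : m * T ≤ N := by rw [hT]; exact Nat.mul_div_le N m
    have h3 := sum_div_block (fun t => H m t) m z hm1 (T + 1) (by omega)
    have h4 : ∑ n ∈ Ico (m * z) (m * (T + 1)), H m (n / m) =
        ∑ n ∈ Icc (m * z) N, H m (n / m) + ∑ n ∈ Ico (N + 1) (m * (T + 1)), H m (n / m) := by
      have e1 : Icc (m * z) N = Ico (m * z) (N + 1) := by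
        ext n
        rw [mem_Icc, mem_Ico]
        omega
      rw [e1, sum_Ico_consecutive _ (by omega) (by omega)]
    have e2 : Icc z T = Ico z (T + 1) := by
      ext n
      rw [mem_Icc, mem_Ico]
      omega
    rw [e2, ← sum_div]
    have h5 : ∑ n ∈ Icc (m * z) N, H m (n / m) / (m : ℝ) =
        ∑ t ∈ Ico z (T + 1), H m t - (∑ n ∈ Ico (N + 1) (m * (T + 1)), H m (n / m)) / m := by
      rw [← sum_div]
      have : ∑ n ∈ Icc (m * z) N, H m (n / m) = m * ∑ t ∈ Ico z (T + 1), H m t -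
          ∑ n ∈ Ico (N + 1) (m * (T + 1)), H m (n / m) := by linarith
      rw [this, sub_div, mul_div_cancel_left₀ _ hm0.ne']
    rw [← sum_div] at h5
    rw [h5]
    have h6 : |∑ n ∈ Ico (N + 1) (m * (T + 1)), H m (n / m)| ≤ m * B := by
      refine (abs_sum_le_sum_abs _ _).trans ?_
      refine (sum_le_sum fun n _ => hB m (n / m)).trans ?_
      rw [sum_const, Nat.card_Ico, nsmul_eq_mul]
      apply mul_le_mul_of_nonneg_right _ hB0
      have : m * (T + 1) - (N + 1) ≤ m := by rw [mul_add, mul_one]; omega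
      exact_mod_cast this
    have h7 : ∑ t ∈ Ico z (T + 1), H m t - (∑ n ∈ Ico (N + 1) (m * (T + 1)), H m (n / m)) / m -
        ∑ t ∈ Ico z (T + 1), H m t = -((∑ n ∈ Ico (N + 1) (m * (T + 1)), H m (n / m)) / m) := by
      ring
    rw [h7, abs_neg, abs_div, abs_of_pos hm0, div_le_iff₀ hm0]
    linarith
  refine (abs_sum_le_sum_abs _ _).trans ((sum_le_sum h2).trans ?_)
  rw [sum_const, nsmul_eq_mul]
  have h3 : ((Ms z (N / z)).card : ℝ) ≤ (N : ℝ) / z := by
    have h4 : (Ms z (N / z)).card ≤ N / z := by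
      unfold Ms
      refine (card_filter_le _ _).trans ?_
      simp
    calc ((Ms z (N / z)).card : ℝ) ≤ ((N / z : ℕ) : ℝ) := by exact_mod_cast h4
      _ ≤ _ := Nat.cast_div_le
  calc ((Ms z (N / z)).card : ℝ) * B ≤ (N : ℝ) / z * B := mul_le_mul_of_nonneg_right h3 hB0
    _ = _ := by ring

theorem Ms_inv_le (z M : ℕ) : ∑ m ∈ Ms z M, 1 / (m : ℝ) ≤ 1 + Real.log M := by
  have h := Pool.Agent.Work.BV.sum_inv_le M
  refine le_trans ?_ h
  apply sum_le_sum_of_subset_of_nonneg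
  · intro m hm
    unfold Ms at hm
    rw [mem_filter, mem_Icc] at hm
    rw [mem_Ioc]
    omega
  · intro _ _ _
    positivity

theorem Ms_card_le (z M : ℕ) : (Ms z M).card ≤ M := by
  unfold Ms
  refine (card_filter_le _ _).trans ?_
  simp

/-- abstract form: from bounds for the prime sums `∑_{z ≤ p ≤ T} log p f p - main` -/
theorem dens_abs {x z : ℕ} {B : ℝ} {a : ℕ → ℝ} {H : ℕ → ℕ → ℝ} (h : WTd x z B a H) (f : ℕ → ℂ)
    (hf : ∀ a b, f (a * b) = f a * f b) (hf1 : ∀ n, ‖f n‖ ≤ 1) (hz : 2 ≤ z) {N : ℕ} (hN : N ≤ x)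
    (g : ℂ) (E : ℝ) (hE : 0 ≤ E)
    (hp : ∀ T, z ≤ T → T ≤ x →
      ‖∑ t ∈ Icc z T, ((if t.Prime then ((Real.log t : ℝ) : ℂ) * f t else 0) - g)‖ ≤ E * T) :
    ‖∑ n ∈ Icc 1 N, ((a n * Real.log n : ℝ) : ℂ) * f n -
      ∑ m ∈ Ms z (N / z), f m * (g * ((∑ t ∈ Icc z (N / m), H m t : ℝ) : ℂ))‖ ≤
      2 * B * Real.log x * N / z + 2 * B * E * N * (1 + Real.log x) := by
  have hB0 : 0 ≤ B := (abs_nonneg _).trans (h.bd 0 0)
  have h1 := prime_out h f hf hf1 hz hN
  have h2 : ‖∑ m ∈ Ms z (N / z), f m * ∑ p ∈ (Icc z (N / m)).filter Nat.Prime,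
        ((Real.log p * H m p : ℝ) : ℂ) * f p -
      ∑ m ∈ Ms z (N / z), f m * (g * ((∑ t ∈ Icc z (N / m), H m t : ℝ) : ℂ))‖ ≤
      2 * B * E * N * (1 + Real.log x) := by
    rw [← sum_sub_distrib]
    have h3 : ∀ m ∈ Ms z (N / z), ‖f m * ∑ p ∈ (Icc z (N / m)).filter Nat.Prime,
        ((Real.log p * H m p : ℝ) : ℂ) * f p -
        f m * (g * ((∑ t ∈ Icc z (N / m), H m t : ℝ) : ℂ))‖ ≤ (2 * B * E * N) * (1 / m) := by
      intro m hm
      unfold Ms at hm
      rw [mem_filter, mem_Icc, Nat.le_div_iff_mul_le (by omega)] at hm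
      have hm1 := hm.1.1
      have hm0 : (0 : ℝ) < m := by exact_mod_cast hm1
      have hzT : z ≤ N / m := by
        rw [Nat.le_div_iff_mul_le hm1, mul_comm]
        exact hm.1.2
      have hTx : N / m ≤ x := (Nat.div_le_self N m).trans hN
      rw [← mul_sub, norm_mul]
      have e1 : ∑ p ∈ (Icc z (N / m)).filter Nat.Prime, ((Real.log p * H m p : ℝ) : ℂ) * f p -
          g * ((∑ t ∈ Icc z (N / m), H m t : ℝ) : ℂ) =
          ∑ t ∈ Icc z (N / m), ((if t.Prime then ((Real.log t : ℝ) : ℂ) * f t else 0) - g) *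
            ((H m t : ℝ) : ℂ) := by
        rw [sum_filter]
        push_cast
        rw [mul_sum, ← sum_sub_distrib]
        refine sum_congr rfl fun t _ => ?_
        split_ifs <;> ring
      rw [e1]
      have h4 := abel_tv (T := N / m) (E := E * ((N / m : ℕ) : ℝ)) (fun t => H m t) (h.bd m) (h.tv m) hTx
        (by omega) (fun t => (if t.Prime then ((Real.log t : ℝ) : ℂ) * f t else 0) - g) (by
          intro T' hT'
          rcases le_or_gt z T' with h5 | h5
          · refine (hp T' h5 (hT'.trans hTx)).trans ?_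
            apply mul_le_mul_of_nonneg_left _ hE
            exact_mod_cast hT'
          · rw [Icc_eq_empty (by omega), sum_empty, norm_zero]
            positivity)
      have h5 : ((N / m : ℕ) : ℝ) ≤ (N : ℝ) / m := Nat.cast_div_le
      calc ‖f m‖ * ‖∑ t ∈ Icc z (N / m), ((if t.Prime then ((Real.log t : ℝ) : ℂ) * f t else 0) - g) *
            ((H m t : ℝ) : ℂ)‖ ≤ 1 * (2 * B * (E * ((N / m : ℕ) : ℝ))) :=
            mul_le_mul (hf1 m) h4 (norm_nonneg _) zero_le_one
        _ ≤ 1 * (2 * B * (E * ((N : ℝ) / m))) := by gcongr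
        _ = _ := by ring
    refine (norm_sum_le _ _).trans ((sum_le_sum h3).trans ?_)
    rw [← mul_sum]
    apply mul_le_mul_of_nonneg_left _ (by positivity)
    refine (Ms_inv_le z (N / z)).trans ?_
    have : Real.log ((N / z : ℕ) : ℝ) ≤ Real.log x := by
      rcases Nat.eq_zero_or_pos (N / z) with h5 | h5
      · rw [h5]; simp [Real.log_natCast_nonneg]
      · apply Real.log_le_log (by exact_mod_cast h5)
        exact_mod_cast (Nat.div_le_self N z).trans hN
    linarith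
  have h3 : ∑ n ∈ Icc 1 N, ((a n * Real.log n : ℝ) : ℂ) * f n -
      ∑ m ∈ Ms z (N / z), f m * (g * ((∑ t ∈ Icc z (N / m), H m t : ℝ) : ℂ)) =
      (∑ n ∈ Icc 1 N, ((a n * Real.log n : ℝ) : ℂ) * f n -
      ∑ m ∈ Ms z (N / z), f m * ∑ p ∈ (Icc z (N / m)).filter Nat.Prime,
        ((Real.log p * H m p : ℝ) : ℂ) * f p) +
      (∑ m ∈ Ms z (N / z), f m * ∑ p ∈ (Icc z (N / m)).filter Nat.Prime,
        ((Real.log p * H m p : ℝ) : ℂ) * f p -
      ∑ m ∈ Ms z (N / z), f m * (g * ((∑ t ∈ Icc z (N / m), H m t : ℝ) : ℂ))) := by ring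
  rw [h3]
  exact (norm_add_le _ _).trans (add_le_add h1 h2)

end

end Pool.Agent.HS
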