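import Pool.Agent.Work.MP_92f640_nt.HS.SwFA
import Pool.Agent.Work.BV.SW
import Pool.Agent.Work.BV.Primes

/-! # Module SwFB: character sums over primes in intervals, and decomposition by the largest prime factor (part of SwF) -/

namespace Pool.Agent.HS

open Finset Pool.Agent.BV Pool.Agent.HL Filter
open scoped ArithmeticFunction.vonMangoldt ArithmeticFunction.Moebius

noncomputable section

/-- the sum of `χ(p) log p` over the primes up to `n` -/
def thC {r : ℕ} (χ : DirichletCharacter ℂ r) (n : ℕ) : ℂ :=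
  ∑ p ∈ (Icc 1 n).filter Nat.Prime, ((Real.log p : ℝ) : ℂ) * χ (p : ZMod r)

theorem thC_sub {r : ℕ} (χ : DirichletCharacter ℂ r) (n N : ℕ) (hn : n ≤ N) (hN : 3 ≤ N) :
    ‖psiC χ n - thC χ n‖ ≤ 2 * Real.sqrt N * Real.log N := by
  refine le_trans ?_ (primes_sub_le hN hn)
  have e1 : psiC χ n - thC χ n =
      ∑ k ∈ Icc 1 n, (((if k.Prime then 0 else Λ k : ℝ) : ℝ) : ℂ) * χ (k : ZMod r) := by
    unfold psiC thC
    rw [sum_filter, ← sum_sub_distrib]
    refine sum_congr rfl fun k _ => ?_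
    by_cases h2 : k.Prime
    · simp [h2, ArithmeticFunction.vonMangoldt_apply_prime h2]
    · simp [h2]
  have e2 : psi n - theta n = ∑ k ∈ Icc 1 n, (if k.Prime then 0 else Λ k : ℝ) := by
    unfold psi theta
    rw [sum_filter, ← sum_sub_distrib]
    refine sum_congr rfl fun k _ => ?_
    by_cases h2 : k.Prime
    · simp [h2, ArithmeticFunction.vonMangoldt_apply_prime h2]
    · simp [h2]
  rw [e1, e2]
  refine (norm_sum_le _ _).trans (sum_le_sum fun k _ => ?_)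
  have h0 : 0 ≤ (if k.Prime then 0 else Λ k : ℝ) := by
    split_ifs
    · exact le_rfl
    · exact ArithmeticFunction.vonMangoldt_nonneg
  rw [norm_mul, Complex.norm_real, Real.norm_of_nonneg h0]
  exact mul_le_of_le_one_right h0 (DirichletCharacter.norm_le_one _ _)

/-- Abel's inequality -/
theorem abelC (f : ℕ → ℂ) (g : ℕ → ℝ) (a b : ℕ) (M : ℝ) (hab : a ≤ b)
    (hM : ∀ k, a ≤ k → k ≤ b → ‖∑ i ∈ Ico a k, f i‖ ≤ M)
    (hg : ∀ i, a ≤ i → g (i + 1) ≤ g i) (hg0 : ∀ i, a ≤ i → 0 ≤ g i) :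
    ‖∑ i ∈ Ico a b, ((g i : ℝ) : ℂ) * f i‖ ≤ M * g a := by
  have key : ∀ N, a ≤ N → N ≤ b →
      ‖∑ i ∈ Ico a N, ((g i : ℝ) : ℂ) * f i - ((g N : ℝ) : ℂ) * ∑ i ∈ Ico a N, f i‖ ≤
        M * (g a - g N) := by
    intro N hN
    induction N, hN using Nat.le_induction with
    | base => intro _; simp
    | succ N hN ih =>
      intro hb
      have ih' := ih (by omega)
      have h3 : 0 ≤ g N - g (N + 1) := by have := hg N hN; linarith
      have e : ∑ i ∈ Ico a (N + 1), ((g i : ℝ) : ℂ) * f i -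
          ((g (N + 1) : ℝ) : ℂ) * ∑ i ∈ Ico a (N + 1), f i =
          (∑ i ∈ Ico a N, ((g i : ℝ) : ℂ) * f i - ((g N : ℝ) : ℂ) * ∑ i ∈ Ico a N, f i) +
          ((g N - g (N + 1) : ℝ) : ℂ) * ∑ i ∈ Ico a (N + 1), f i := by
        rw [sum_Ico_succ_top hN, sum_Ico_succ_top hN]
        push_cast
        ring
      rw [e]
      refine (norm_add_le _ _).trans ?_
      have h4 : ‖((g N - g (N + 1) : ℝ) : ℂ) * ∑ i ∈ Ico a (N + 1), f i‖ ≤
          (g N - g (N + 1)) * M := by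
        rw [norm_mul, Complex.norm_real, Real.norm_of_nonneg h3]
        exact mul_le_mul_of_nonneg_left (hM _ (by omega) hb) h3
      linarith
  have h1 := key b hab le_rfl
  have h2 := hM b hab le_rfl
  have h3 : ‖((g b : ℝ) : ℂ) * ∑ i ∈ Ico a b, f i‖ ≤ g b * M := by
    rw [norm_mul, Complex.norm_real, Real.norm_of_nonneg (hg0 b hab)]
    exact mul_le_mul_of_nonneg_left h2 (hg0 b hab)
  calc ‖∑ i ∈ Ico a b, ((g i : ℝ) : ℂ) * f i‖
      = ‖(∑ i ∈ Ico a b, ((g i : ℝ) : ℂ) * f i - ((g b : ℝ) : ℂ) * ∑ i ∈ Ico a b, f i) +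
        ((g b : ℝ) : ℂ) * ∑ i ∈ Ico a b, f i‖ := by rw [sub_add_cancel]
    _ ≤ _ := norm_add_le _ _
    _ ≤ M * g a := by linarith

/-- the sum over the primes in an interval -/
theorem prime_sum_aux {r : ℕ} (χ : DirichletCharacter ℂ r) (a b N : ℕ) (T : ℝ) (ha : 3 ≤ a)
    (hb : b ≤ N + 1) (hT : ∀ n, a - 1 ≤ n → n ≤ N → ‖thC χ n‖ ≤ T) (hT0 : 0 ≤ T) :
    ‖∑ p ∈ (Ico a b).filter Nat.Prime, χ (p : ZMod r)‖ ≤ 2 * T := by
  rcases Nat.lt_or_ge b a with hba | hab
  · rw [Ico_eq_empty (by omega)]; simpa using hT0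
  rcases Nat.eq_or_lt_of_le hab with hab' | hab'
  · rw [← hab']; simpa using hT0
  set f : ℕ → ℂ := fun i => if i.Prime then ((Real.log i : ℝ) : ℂ) * χ (i : ZMod r) else 0 with hf
  have hS : ∀ k, a ≤ k → ∑ i ∈ Ico a k, f i = thC χ (k - 1) - thC χ (a - 1) := by
    intro k hk
    have h1 : ∀ n, thC χ n = ∑ i ∈ Ico 1 (n + 1), f i := by
      intro n
      unfold thC
      rw [sum_filter]
      rfl
    rw [h1, h1, show k - 1 + 1 = k by omega, show a - 1 + 1 = a by omega,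
      ← sum_Ico_consecutive f (by omega : 1 ≤ a) hk]
    ring
  have hM : ∀ k, a ≤ k → k ≤ b → ‖∑ i ∈ Ico a k, f i‖ ≤ 2 * T := by
    intro k hk hkb
    rw [hS k hk]
    have h1 := hT (k - 1) (by omega) (by omega)
    have h2 := hT (a - 1) le_rfl (by omega)
    exact (norm_sub_le _ _).trans (by linarith)
  have hlog : ∀ i : ℕ, a ≤ i → 1 ≤ Real.log i := by
    intro i hi
    have h3 : (3 : ℝ) ≤ i := by exact_mod_cast ha.trans hi
    rw [Real.le_log_iff_exp_le (by linarith)]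
    have := Real.exp_one_lt_d9
    linarith
  have h := abelC f (fun i => 1 / Real.log i) a b (2 * T) hab hM
    (fun i hi => by
      have h1 := hlog i hi
      apply one_div_le_one_div_of_le (by linarith)
      apply Real.log_le_log
      · have : 0 < i := by omega
        exact_mod_cast this
      · push_cast; linarith)
    (fun i hi => by
      have h1 := hlog i hi
      positivity)
  have e : ∑ p ∈ (Ico a b).filter Nat.Prime, χ (p : ZMod r) =
      ∑ i ∈ Ico a b, ((1 / Real.log i : ℝ) : ℂ) * f i := by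
    rw [sum_filter]
    refine sum_congr rfl fun i hi => ?_
    have h1 := hlog i (mem_Ico.1 hi).1
    simp only [hf]
    split_ifs
    · rw [← mul_assoc, ← Complex.ofReal_mul, one_div_mul_cancel (by linarith), Complex.ofReal_one,
        one_mul]
    · simp
  rw [e]
  refine h.trans ?_
  have h1 := hlog a le_rfl
  have h2 : 1 / Real.log a ≤ 1 := by
    rw [div_le_one (by linarith)]; exact h1
  calc 2 * T * (1 / Real.log a) ≤ 2 * T * 1 := by gcongr
    _ = 2 * T := by ring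

/-- Siegel-Walfisz for the primes in intervals `[a, b)`, `y0 x ≤ a` -/
theorem prime_sum_char (A₁ A : ℕ) : ∀ᶠ x : ℕ in atTop, ∀ r : ℕ, 1 < r →
    (r : ℝ) ≤ (Real.log x) ^ A₁ → ∀ χ ∈ prim r, ∀ N a b : ℕ, y0 x ≤ a → b ≤ N + 1 → y0 x ≤ N →
    ‖∑ p ∈ (Ico a b).filter Nat.Prime, χ (p : ZMod r)‖ ≤ N / (Real.log x) ^ A := by
  obtain ⟨C, hC, hSW⟩ := siegel_walfisz (2 * (A + 1)) (2 * A₁ + 1)
  have hs : Tendsto (fun x : ℕ => Real.sqrt (Real.log (x : ℝ))) atTop atTop :=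
    Real.tendsto_sqrt_atTop.comp (Real.tendsto_log_atTop.comp tendsto_natCast_atTop_atTop)
  filter_upwards [hs.eventually_ge_atTop (2 * (2 ^ (2 * A₁) + 2)), evt_log 1,
    evt_log (4 * C * 4 ^ (A + 1)), evt_y0 (32 ^ 4) (4 * A)] with x hx1 hL1 hL2 hy
  intro r hr hrL χ hχ N a b ha hb hN
  set L : ℝ := Real.log x with hL
  set s : ℝ := Real.sqrt L / 2 with hsd
  have hL0 : 0 < L := by linarith
  have hsq : Real.sqrt L * Real.sqrt L = L := Real.mul_self_sqrt hL0.le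
  have hs2 : 2 ^ (2 * A₁) + 2 ≤ s := by rw [hsd]; linarith
  have hp1 : (1 : ℝ) ≤ 2 ^ (2 * A₁) := one_le_pow₀ (by norm_num)
  have hs3 : 3 ≤ s := by linarith
  have hsL : Real.sqrt L = 2 * s := by rw [hsd]; ring
  have hLs : L = 4 * s ^ 2 := by rw [← hsq, hsL]; ring
  -- `y0 - 1 ≥ exp s`
  have hy1 : Real.exp s + 1 ≤ y0 x := by
    have h1 : Real.exp (Real.sqrt L) ≤ y0 x := Nat.le_ceil _
    rw [hsL, two_mul, Real.exp_add] at h1
    have h2 : s + 1 ≤ Real.exp s := Real.add_one_le_exp s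
    nlinarith
  have hes : s + 1 ≤ Real.exp s := Real.add_one_le_exp s
  have hy3 : 5 ≤ y0 x := by
    have : (5 : ℝ) ≤ y0 x := by linarith
    exact_mod_cast this
  have hNx : (y0 x : ℝ) ≤ N := by exact_mod_cast hN
  have hN0 : (0 : ℝ) < N := by linarith
  have hlogn : ∀ n : ℕ, a - 1 ≤ n → s ≤ Real.log n ∧ 3 ≤ n := by
    intro n hn
    have h1 : y0 x ≤ n + 1 := by omega
    have h2 : (y0 x : ℝ) ≤ n + 1 := by exact_mod_cast h1
    have h3 : Real.exp s ≤ n := by linarith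
    refine ⟨?_, by omega⟩
    rw [Real.le_log_iff_exp_le (by linarith [Real.exp_pos s])]
    exact h3
  -- the bound for `psiC`
  have hpsi : ∀ n : ℕ, a - 1 ≤ n → n ≤ N → ‖psiC χ n‖ ≤ (N : ℝ) / (4 * L ^ A) := by
    intro n hn hnN
    obtain ⟨hln, hn3⟩ := hlogn n hn
    have hr' : (r : ℝ) ≤ (Real.log n) ^ (2 * A₁ + 1) := by
      calc (r : ℝ) ≤ L ^ A₁ := hrL
        _ = 2 ^ (2 * A₁) * s ^ (2 * A₁) := by
          rw [hLs, mul_pow, pow_mul, pow_mul]; norm_num
        _ ≤ s * s ^ (2 * A₁) := by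
          have : (2 : ℝ) ^ (2 * A₁) ≤ s := by linarith
          gcongr
        _ = s ^ (2 * A₁ + 1) := by ring
        _ ≤ (Real.log n) ^ (2 * A₁ + 1) := by gcongr
    have h := hSW n hn3 r hr hr' χ hχ
    refine h.trans ?_
    have hnN' : (n : ℝ) ≤ N := by exact_mod_cast hnN
    have h5 : (L / 4) ^ (A + 1) ≤ (Real.log n) ^ (2 * (A + 1)) := by
      rw [pow_mul]
      have : L / 4 = s ^ 2 := by rw [hLs]; ring
      rw [this]
      gcongr
    calc C * n / (Real.log n) ^ (2 * (A + 1)) ≤ C * N / (L / 4) ^ (A + 1) := by gcongr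
      _ = (4 * C * 4 ^ (A + 1)) * (N / (4 * L ^ (A + 1))) := by
        rw [div_pow]; field_simp
      _ ≤ L * (N / (4 * L ^ (A + 1))) := by gcongr
      _ = N / (4 * L ^ A) := by rw [pow_succ]; field_simp
  -- the prime powers
  have hpp : 2 * Real.sqrt N * Real.log N ≤ (N : ℝ) / (4 * L ^ A) := by
    have h1 : (32 * L ^ A) ^ 4 ≤ (N : ℝ) := by
      calc (32 * L ^ A) ^ 4 = 32 ^ 4 * L ^ (4 * A) := by rw [mul_pow, ← pow_mul, mul_comm A 4]
        _ ≤ (y0 x : ℝ) := hy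
        _ ≤ (N : ℝ) := hNx
    set v : ℝ := (N : ℝ) ^ (1 / 4 : ℝ) with hv
    have hv0 : 0 < v := by positivity
    have hv4 : v ^ 4 = N := by
      rw [hv, ← Real.rpow_natCast, ← Real.rpow_mul hN0.le]; norm_num
    have hv2 : Real.sqrt N = v ^ 2 := by
      rw [← hv4, show v ^ 4 = (v ^ 2) ^ 2 by ring, Real.sqrt_sq (by positivity)]
    have h2 : 32 * L ^ A ≤ v := by
      have : (32 * L ^ A) ^ 4 ≤ v ^ 4 := by rw [hv4]; exact h1
      exact le_of_pow_le_pow_left₀ (by norm_num) hv0.le this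
    have h3 : Real.log N ≤ 4 * v := by
      have := Real.log_le_rpow_div hN0.le (by norm_num : (0 : ℝ) < 1 / 4)
      rw [← hv] at this
      linarith
    rw [le_div_iff₀ (by positivity), hv2]
    have hLA : 0 < L ^ A := by positivity
    calc 2 * v ^ 2 * Real.log N * (4 * L ^ A) ≤ 2 * v ^ 2 * (4 * v) * (4 * L ^ A) := by gcongr
      _ = v ^ 3 * (32 * L ^ A) := by ring
      _ ≤ v ^ 3 * v := by gcongr
      _ = N := by rw [← hv4]; ring
  have hT : ∀ n, a - 1 ≤ n → n ≤ N → ‖thC χ n‖ ≤ (N : ℝ) / (2 * L ^ A) := by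
    intro n hn hnN
    have h1 := hpsi n hn hnN
    have h2 := (thC_sub χ n N hnN (by omega)).trans hpp
    calc ‖thC χ n‖ = ‖psiC χ n - (psiC χ n - thC χ n)‖ := by rw [sub_sub_cancel]
      _ ≤ ‖psiC χ n‖ + ‖psiC χ n - thC χ n‖ := norm_sub_le _ _
      _ ≤ (N : ℝ) / (4 * L ^ A) + (N : ℝ) / (4 * L ^ A) := add_le_add h1 h2
      _ = (N : ℝ) / (2 * L ^ A) := by field_simp; norm_num
  have h := prime_sum_aux χ a b N _ (by omega) hb hT (by positivity)
  calc ‖∑ p ∈ (Ico a b).filter Nat.Prime, χ (p : ZMod r)‖ ≤ 2 * ((N : ℝ) / (2 * L ^ A)) := h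
    _ = N / L ^ A := by field_simp

end

end Pool.Agent.HS
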