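import Pool.Agent.Work.MP_92f640_nt.HL.VDiff2

/-! # Module VDiff3: type I sums, mean square over the non trivial characters mod `k`, all `k`

`VDiff2.typeI_chars` loses a factor `k ^ 3`. Here `t / k` is replaced by its Dirichlet approximation
`a / r`, `r ≤ 2 D`: the `d ≤ D` not divisible by `r` contribute `≪ D log D`, the other ones
`(1 + log D) gm (Y / r) (t r / k)`, and they only occur if `(r, k) = 1`. The sum over `t` of the squares
is then `≪ k (D ^ 2 + Y)` up to logarithms. -/

namespace Pool.Agent.HL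

open Finset Pool.Agent.BV

namespace VDiff3

lemma round_mul {β : ℝ} {e : ℕ} (h : (e : ℝ) * |β - round β| < 1 / 2) :
    round (β * e) = e * round β := by
  have h1 : |β * e - ((e * round β : ℤ) : ℝ)| < 1 / 2 := by
    have : β * e - ((e * round β : ℤ) : ℝ) = e * (β - round β) := by
      push_cast
      ring
    rw [this, abs_mul, Nat.abs_cast]
    exact h
  have h2 := abs_sub_round (β * e)
  have h3 : |((round (β * e) - e * round β : ℤ) : ℝ)| < 1 := by
    push_cast
    push_cast at h1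
    have h4 : ((round (β * e) : ℤ) : ℝ) - e * round β =
        (β * e - e * round β) - (β * e - round (β * e)) := by ring
    rw [h4]
    refine (abs_sub _ _).trans_lt ?_
    linarith
  have h5 : |round (β * e) - e * round β| < 1 := by exact_mod_cast h3
  have h6 := Int.abs_lt_one_iff.1 h5
  omega

lemma gm_mul {β Y : ℝ} {e : ℕ} (he : 1 ≤ e) (h : (e : ℝ) * |β - round β| < 1 / 2) :
    gm (Y / e) (β * e) = gm Y β / e := by
  have he0 : (0 : ℝ) < e := by exact_mod_cast he
  have h1 : |β * e - round (β * e)| = e * |β - round β| := by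
    rw [round_mul h]
    have : β * e - ((e * round β : ℤ) : ℝ) = e * (β - round β) := by
      push_cast
      ring
    rw [this, abs_mul, Nat.abs_cast]
  unfold gm
  rw [h1]
  have h2 : 2 * (Y / e) * (e * |β - round β|) = 2 * Y * |β - round β| := by
    field_simp
  rw [h2]
  split_ifs with h3
  · rfl
  · rw [div_div]
    congr 1
    ring

lemma dist_ge' {b k d : ℕ} (hk : 0 < k) (h : ¬ k ∣ b * d) (m : ℤ) :
    1 / (k : ℝ) ≤ |((b : ℝ) / k) * d - m| := by
  have hr0 : (0 : ℝ) < k := by exact_mod_cast hk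
  have h1 : ((b * d : ℕ) : ℤ) - k * m ≠ 0 := by
    intro h1
    apply h
    have h2 : (k : ℤ) ∣ ((b * d : ℕ) : ℤ) := ⟨m, by linarith⟩
    exact_mod_cast h2
  have h2 : (1 : ℝ) ≤ |(((b * d : ℕ) : ℤ) - k * m : ℤ)| := by
    exact_mod_cast Int.one_le_abs h1
  have h3 : ((b : ℝ) / k) * d - m = ((((b * d : ℕ) : ℤ) - k * m : ℤ) : ℝ) / k := by
    push_cast
    field_simp
  rw [h3, abs_div, abs_of_pos hr0]
  exact div_le_div_of_nonneg_right (by exact_mod_cast h2) hr0.le

/-- the sum over `t` -/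
lemma sum_t {k r : ℕ} (hk : 1 < k) (hr : r.Coprime k) {Z : ℝ} (hZ : 0 ≤ Z) :
    ∑ t ∈ Ioo 0 k, gm Z (((t : ℝ) / k) * r) ^ 2 ≤ 16 * Z * k * (2 + Real.log k) := by
  have hk0 : (0 : ℝ) < k := by exact_mod_cast (by omega : 0 < k)
  have h1 := gm_block ((r : ℝ) / k) 0 r k (by omega) (by exact_mod_cast Nat.isCoprime_iff_coprime.mpr hr)
    (by simp) 0 k k hk0.le
  calc ∑ t ∈ Ioo 0 k, gm Z (((t : ℝ) / k) * r) ^ 2
      ≤ ∑ t ∈ Ioo 0 k, Z * gm k (((r : ℝ) / k) * t + 0) := by
        refine sum_le_sum fun t ht => ?_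
        rw [mem_Ioo] at ht
        have h2 : ((t : ℝ) / k) * r = ((r : ℝ) / k) * t := by ring
        have hnd : ¬ k ∣ r * t := by
          intro h
          have h3 : k ∣ t := Nat.Coprime.dvd_of_dvd_mul_left hr.symm h
          have h4 := Nat.le_of_dvd ht.1 h3
          omega
        have h3 : gm Z (((r : ℝ) / k) * t) ≤ gm k (((r : ℝ) / k) * t) := by
          refine VDiff2.gm_le_gm ?_
          have h4 := dist_ge' (by omega) hnd (round (((r : ℝ) / k) * t))
          have h5 : (1 : ℝ) < 2 * (k * (1 / k)) := by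
            rw [mul_one_div_cancel hk0.ne']
            norm_num
          calc (1 : ℝ) < 2 * (k * (1 / k)) := h5
            _ ≤ 2 * (k * |((r : ℝ) / k) * t - round (((r : ℝ) / k) * t)|) := by gcongr
            _ = _ := by ring
        rw [h2, add_zero, sq]
        exact mul_le_mul (gm_le hZ _) h3 (gm_nonneg hZ _) hZ
    _ = Z * ∑ t ∈ Ioo 0 k, gm k (((r : ℝ) / k) * t + 0) := by rw [mul_sum]
    _ ≤ Z * ∑ t ∈ Ioc 0 (0 + k), gm k (((r : ℝ) / k) * t + 0) := by
        refine mul_le_mul_of_nonneg_left ?_ hZ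
        refine sum_le_sum_of_subset_of_nonneg ?_ (fun d _ _ => gm_nonneg hk0.le _)
        intro t ht
        rw [mem_Ioo] at ht
        rw [mem_Ioc]
        omega
    _ ≤ Z * (8 * ((k : ℝ) / k + 1) * (k + k * (1 + Real.log k))) :=
        mul_le_mul_of_nonneg_left h1 hZ
    _ = 16 * Z * k * (2 + Real.log k) := by
        rw [div_self hk0.ne']
        ring

lemma sum_inv_le (n : ℕ) : ∑ e ∈ Icc 1 n, (1 : ℝ) / e ≤ 1 + Real.log n := by
  have h := harmonic_le_one_add_log n
  have h2 : ((harmonic n : ℚ) : ℝ) = ∑ e ∈ Icc 1 n, (1 : ℝ) / e := by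
    rw [harmonic_eq_sum_Icc]
    push_cast
    exact sum_congr rfl fun e _ => by rw [one_div]
  rw [← h2]
  exact h

/-- the multiples of `r` -/
lemma sum_mult {β Y : ℝ} {D r : ℕ} (hr : 1 ≤ r) (hr2 : r ≤ 2 * D)
    (hβ : |β * r - round (β * r)| ≤ 1 / (2 * D + 1)) (hY : 0 ≤ Y) :
    ∑ d ∈ (Icc 1 D).filter (fun d => r ∣ d), gm (Y / d) (β * d) ≤
      (1 + Real.log D) * gm (Y / r) (β * r) := by
  have hD : 1 ≤ D := by omega
  have hr0 : (0 : ℝ) < r := by exact_mod_cast hr
  have hD0 : (0 : ℝ) < D := by exact_mod_cast hD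
  have himg : (Icc 1 D).filter (fun d => r ∣ d) ⊆ (Icc 1 (D / r)).image (fun e => r * e) := by
    intro d hd
    rw [mem_filter, mem_Icc] at hd
    obtain ⟨⟨h1, h2⟩, e, rfl⟩ := hd
    rw [mem_image]
    refine ⟨e, ?_, rfl⟩
    rw [mem_Icc]
    refine ⟨?_, ?_⟩
    · rcases Nat.eq_zero_or_pos e with h | h
      · subst h
        omega
      · exact h
    · rw [Nat.le_div_iff_mul_le (by omega)]
      rw [mul_comm]
      exact h2
  have hg0 : 0 ≤ gm (Y / r) (β * r) := gm_nonneg (by positivity) _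
  calc ∑ d ∈ (Icc 1 D).filter (fun d => r ∣ d), gm (Y / d) (β * d)
      ≤ ∑ d ∈ (Icc 1 (D / r)).image (fun e => r * e), gm (Y / d) (β * d) :=
        sum_le_sum_of_subset_of_nonneg himg (fun d _ _ => gm_nonneg (by positivity) _)
    _ = ∑ e ∈ Icc 1 (D / r), gm (Y / ((r * e : ℕ) : ℝ)) (β * ((r * e : ℕ) : ℝ)) := by
        rw [sum_image]
        intro a _ b _ h
        exact Nat.eq_of_mul_eq_mul_left (by omega) h
    _ = ∑ e ∈ Icc 1 (D / r), 1 / (e : ℝ) * gm (Y / r) (β * r) := by
        refine sum_congr rfl fun e he => ?_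
        rw [mem_Icc] at he
        have he0 : (0 : ℝ) < e := by exact_mod_cast he.1
        have h1 : (e : ℝ) * |β * r - round (β * r)| < 1 / 2 := by
          have h2 : (e : ℝ) ≤ D := by
            exact_mod_cast he.2.trans (Nat.div_le_self _ _)
          calc (e : ℝ) * |β * r - round (β * r)| ≤ D * (1 / (2 * D + 1)) := by gcongr
            _ < 1 / 2 := by
                rw [mul_one_div, div_lt_div_iff₀ (by positivity) (by norm_num)]
                linarith
        have h2 := gm_mul (Y := Y / r) he.1 h1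
        have h3 : Y / ((r * e : ℕ) : ℝ) = Y / r / e := by
          push_cast
          rw [div_div]
        have h4 : β * ((r * e : ℕ) : ℝ) = β * r * e := by
          push_cast
          ring
        rw [h3, h4, h2]
        ring
    _ = (∑ e ∈ Icc 1 (D / r), 1 / (e : ℝ)) * gm (Y / r) (β * r) := by rw [sum_mul]
    _ ≤ (1 + Real.log D) * gm (Y / r) (β * r) := by
        refine mul_le_mul_of_nonneg_right ?_ hg0
        calc ∑ e ∈ Icc 1 (D / r), 1 / (e : ℝ) ≤ ∑ e ∈ Icc 1 D, 1 / (e : ℝ) := by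
              refine sum_le_sum_of_subset_of_nonneg ?_ (fun _ _ _ => by positivity)
              exact Icc_subset_Icc_right (Nat.div_le_self _ _)
          _ ≤ 1 + Real.log D := sum_inv_le D

/-- the other integers -/
lemma sum_nonmult {β : ℝ} {D r : ℕ} {a : ℤ} (hr : 1 ≤ r) (hr2 : r ≤ 2 * D)
    (hcop : IsCoprime a (r : ℤ)) (hβ : |β - a / r| ≤ 1 / ((2 * D + 1) * r)) (Y : ℕ → ℝ)
    (hY : ∀ d, 0 ≤ Y d) :
    ∑ d ∈ (Icc 1 D).filter (fun d => ¬ r ∣ d), gm (Y d) (β * d) ≤
      48 * (D : ℝ) * (2 + Real.log (2 * D)) := by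
  have hD : 1 ≤ D := by omega
  have hr0 : (0 : ℝ) < r := by exact_mod_cast hr
  have hD0 : (0 : ℝ) < D := by exact_mod_cast hD
  have h1 := gm_block ((a : ℝ) / r) 0 a r hr hcop (by simp) 0 D r hr0.le
  have hI : Icc 1 D = Ioc 0 (0 + D) := by
    ext n
    simp only [mem_Icc, mem_Ioc]
    omega
  rw [← hI] at h1
  have hlog : Real.log r ≤ Real.log (2 * D) := Real.log_le_log hr0 (by exact_mod_cast hr2)
  have hlog0 : 0 ≤ Real.log r := Real.log_natCast_nonneg r
  have hrD : (r : ℝ) ≤ 2 * D := by exact_mod_cast hr2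
  calc ∑ d ∈ (Icc 1 D).filter (fun d => ¬ r ∣ d), gm (Y d) (β * d)
      ≤ ∑ d ∈ (Icc 1 D).filter (fun d => ¬ r ∣ d), 2 * gm r (((a : ℝ) / r) * d + 0) := by
        refine sum_le_sum fun d hd => ?_
        rw [mem_filter, mem_Icc] at hd
        obtain ⟨⟨hd1, hd2⟩, hd3⟩ := hd
        have hdD : (d : ℝ) ≤ D := by exact_mod_cast hd2
        have hd0 : (0 : ℝ) < d := by exact_mod_cast hd1
        rw [add_zero]
        set γ : ℝ := ((a : ℝ) / r) * d with hγ
        have hγd : ∀ m : ℤ, 1 / (r : ℝ) ≤ |γ - m| := by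
          intro m
          have h2 : a * d - r * m ≠ 0 := by
            intro h2
            apply hd3
            have h3 : (r : ℤ) ∣ a * d := ⟨m, by linarith⟩
            have h4 : (r : ℤ) ∣ d := hcop.symm.dvd_of_dvd_mul_left h3
            exact_mod_cast h4
          have h3 : (1 : ℝ) ≤ |((a * d - r * m : ℤ) : ℝ)| := by
            exact_mod_cast Int.one_le_abs h2
          have h4 : γ - m = ((a * d - r * m : ℤ) : ℝ) / r := by
            rw [hγ]
            push_cast
            field_simp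
          rw [h4, abs_div, abs_of_pos hr0]
          exact div_le_div_of_nonneg_right h3 hr0.le
        have hβγ : |β * d - γ| ≤ 1 / (2 * r) := by
          have h2 : β * d - γ = (β - a / r) * d := by
            rw [hγ]
            ring
          rw [h2, abs_mul, Nat.abs_cast]
          calc |β - a / r| * d ≤ 1 / ((2 * D + 1) * r) * D := by gcongr
            _ = (D / (2 * D + 1)) * (1 / r) := by
                field_simp
            _ ≤ (1 / 2) * (1 / r) := by
                refine mul_le_mul_of_nonneg_right ?_ (by positivity)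
                rw [div_le_div_iff₀ (by positivity) (by norm_num)]
                linarith
            _ = 1 / (2 * r) := by
                field_simp
        -- the distance of `β d` to the integers
        have h5 : |γ - round γ| / 2 ≤ |β * d - round (β * d)| := by
          have h6 : |γ - round γ| ≤ |γ - round (β * d)| := round_le γ (round (β * d))
          have h7 : |γ - round (β * d)| ≤ |β * d - round (β * d)| + |β * d - γ| := by
            have h8 : γ - round (β * d) = (β * d - round (β * d)) - (β * d - γ) := by ring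
            rw [h8]
            exact abs_sub _ _
          have h8 := hγd (round γ)
          have h9 : 1 / (2 * (r : ℝ)) = (1 / r) / 2 := by
            field_simp
          have h10 : |β * d - γ| ≤ |γ - round γ| / 2 := by
            refine hβγ.trans ?_
            rw [h9]
            linarith
          linarith
        have h11 := hγd (round γ)
        have h12 : 0 < |γ - round γ| := lt_of_lt_of_le (by positivity) h11
        have h13 : gm (r : ℝ) γ = 1 / (2 * |γ - round γ|) := by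
          unfold gm
          rw [if_neg]
          rw [not_le]
          calc (1 : ℝ) < 2 * (r * (1 / r)) := by
                rw [mul_one_div_cancel hr0.ne']
                norm_num
            _ ≤ 2 * (r * |γ - round γ|) := by gcongr
            _ = _ := by ring
        have h14 := gm_le_of_dist (hY d) (by positivity) h5
        refine h14.trans ?_
        rw [h13]
        have : 2 * (|γ - round γ| / 2) = |γ - round γ| := by ring
        rw [this, one_div, one_div, mul_inv, ← mul_assoc]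
        norm_num
    _ = 2 * ∑ d ∈ (Icc 1 D).filter (fun d => ¬ r ∣ d), gm r (((a : ℝ) / r) * d + 0) := by
        rw [mul_sum]
    _ ≤ 2 * ∑ d ∈ Icc 1 D, gm r (((a : ℝ) / r) * d + 0) := by
        refine mul_le_mul_of_nonneg_left ?_ (by norm_num)
        exact sum_le_sum_of_subset_of_nonneg (filter_subset _ _) (fun d _ _ => gm_nonneg hr0.le _)
    _ ≤ 2 * (8 * ((D : ℝ) / r + 1) * (r + r * (1 + Real.log r))) := by gcongr
    _ = 16 * ((D : ℝ) + r) * (2 + Real.log r) := by
        field_simp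
        ring
    _ ≤ 16 * ((D : ℝ) + 2 * D) * (2 + Real.log (2 * D)) := by gcongr
    _ = _ := by ring

/-- pointwise bound -/
lemma pointwise {k D : ℕ} (hD : 1 ≤ D) {t : ℕ} {Y : ℝ} (hY : 0 ≤ Y) :
    (∑ d ∈ (Icc 1 D).filter (fun d => d.Coprime k), gm (Y / d) (((t : ℝ) / k) * d)) ^ 2 ≤
      2 * (48 * (D : ℝ) * (2 + Real.log (2 * D))) ^ 2 + 2 * (1 + Real.log D) ^ 2 *
        ∑ r ∈ (Icc 1 (2 * D)).filter (fun r => r.Coprime k), gm (Y / r) (((t : ℝ) / k) * r) ^ 2 := by
  classical
  have hD0 : (0 : ℝ) < D := by exact_mod_cast hD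
  have hlogD : 0 ≤ Real.log D := Real.log_natCast_nonneg D
  have hlog2D : 0 ≤ Real.log (2 * D) := by
    have := Real.log_natCast_nonneg (2 * D)
    push_cast at this
    exact this
  set β : ℝ := (t : ℝ) / k with hβ
  obtain ⟨ξ, hξ1, hξ2⟩ := Real.exists_rat_abs_sub_le_and_den_le β (n := 2 * D) (by omega)
  set r := ξ.den with hr
  set a := ξ.num with ha
  have hr1 : 1 ≤ r := ξ.den_pos
  have hr0 : (0 : ℝ) < r := by exact_mod_cast hr1
  have hcop : IsCoprime a (r : ℤ) := by
    rw [Int.isCoprime_iff_gcd_eq_one]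
    exact ξ.reduced
  have hξ : (ξ : ℝ) = (a : ℝ) / r := Rat.cast_def ξ
  have happ : |β - a / r| ≤ 1 / ((2 * D + 1) * r) := by
    rw [← hξ]
    convert hξ1 using 2
    push_cast
    ring
  have happ2 : |β * r - round (β * r)| ≤ 1 / (2 * D + 1) := by
    have h1 := round_le (β * r) a
    refine h1.trans ?_
    have h2 : β * r - a = (β - a / r) * r := by
      field_simp
    rw [h2, abs_mul, Nat.abs_cast]
    calc |β - a / r| * r ≤ 1 / ((2 * D + 1) * r) * r := by gcongr
      _ = 1 / (2 * D + 1) := by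
          field_simp
  have hY' : ∀ d : ℕ, 0 ≤ Y / d := fun d => by positivity
  set A : ℝ := 48 * (D : ℝ) * (2 + Real.log (2 * D)) with hA
  have hA0 : 0 ≤ A := by positivity
  have hS1 : ∑ d ∈ (Icc 1 D).filter (fun d => ¬ r ∣ d), gm (Y / d) (β * d) ≤ A :=
    sum_nonmult hr1 hξ2 hcop happ (fun d => Y / d) hY'
  have hsplit : ∑ d ∈ (Icc 1 D).filter (fun d => d.Coprime k), gm (Y / d) (β * d) ≤
      A + ∑ d ∈ (Icc 1 D).filter (fun d => d.Coprime k ∧ r ∣ d), gm (Y / d) (β * d) := by
    have h1 := sum_filter_add_sum_filter_not ((Icc 1 D).filter (fun d => d.Coprime k))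
      (fun d => r ∣ d) (fun d => gm (Y / d) (β * d))
    rw [filter_filter, filter_filter] at h1
    rw [← h1]
    have h2 : ∑ d ∈ (Icc 1 D).filter (fun d => d.Coprime k ∧ ¬ r ∣ d), gm (Y / d) (β * d) ≤
        ∑ d ∈ (Icc 1 D).filter (fun d => ¬ r ∣ d), gm (Y / d) (β * d) := by
      refine sum_le_sum_of_subset_of_nonneg ?_ (fun d _ _ => gm_nonneg (hY' d) _)
      intro d hd
      rw [mem_filter] at hd ⊢
      exact ⟨hd.1, hd.2.2⟩
    linarith
  set S : ℝ := ∑ d ∈ (Icc 1 D).filter (fun d => d.Coprime k), gm (Y / d) (β * d) with hS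
  have hS0 : 0 ≤ S := sum_nonneg fun d _ => gm_nonneg (hY' d) _
  set R : ℝ := ∑ r ∈ (Icc 1 (2 * D)).filter (fun r => r.Coprime k), gm (Y / r) (β * r) ^ 2 with hR
  have hR0 : 0 ≤ R := sum_nonneg fun _ _ => by positivity
  by_cases hrk : r.Coprime k
  · have h1 : ∑ d ∈ (Icc 1 D).filter (fun d => d.Coprime k ∧ r ∣ d), gm (Y / d) (β * d) ≤
        (1 + Real.log D) * gm (Y / r) (β * r) := by
      refine le_trans ?_ (sum_mult hr1 hξ2 happ2 hY)
      refine sum_le_sum_of_subset_of_nonneg ?_ (fun d _ _ => gm_nonneg (hY' d) _)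
      intro d hd
      rw [mem_filter] at hd ⊢
      exact ⟨hd.1, hd.2.2⟩
    set g : ℝ := gm (Y / r) (β * r) with hg
    have h2 : g ^ 2 ≤ R := by
      refine single_le_sum (f := fun r : ℕ => gm (Y / r) (β * r) ^ 2) (fun _ _ => by positivity) ?_
      rw [mem_filter, mem_Icc]
      exact ⟨⟨hr1, hξ2⟩, hrk⟩
    have h3 : S ≤ A + (1 + Real.log D) * g := by linarith
    have h4 : S ^ 2 ≤ (A + (1 + Real.log D) * g) ^ 2 := pow_le_pow_left₀ hS0 h3 2
    have h5 : (A + (1 + Real.log D) * g) ^ 2 ≤ 2 * A ^ 2 + 2 * ((1 + Real.log D) * g) ^ 2 := by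
      nlinarith [sq_nonneg (A - (1 + Real.log D) * g)]
    have h6 : (1 + Real.log D) ^ 2 * g ^ 2 ≤ (1 + Real.log D) ^ 2 * R :=
      mul_le_mul_of_nonneg_left h2 (by positivity)
    nlinarith
  · have h1 : ∑ d ∈ (Icc 1 D).filter (fun d => d.Coprime k ∧ r ∣ d), gm (Y / d) (β * d) = 0 := by
      refine sum_eq_zero fun d hd => ?_
      rw [mem_filter] at hd
      exact absurd (Nat.Coprime.coprime_dvd_left hd.2.2 hd.2.1) hrk
    rw [h1, add_zero] at hsplit
    have h2 : S ^ 2 ≤ A ^ 2 := pow_le_pow_left₀ hS0 hsplit 2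
    have h3 : 0 ≤ 2 * (1 + Real.log D) ^ 2 * R := by positivity
    nlinarith [sq_nonneg A]

end VDiff3

open VDiff2 VDiff3 in
open Classical in
/-- Type I sums, mean square over the non trivial characters mod `k`, without loss for large `k` -/
theorem typeI_chars3 (k : ℕ) [NeZero k] (D : ℕ) (hD : 1 ≤ D) (w g : ℕ → ℂ) (N : ℕ → ℕ) (Y G W : ℝ)
    (hY0 : 0 ≤ Y) (hG0 : 0 ≤ G) (hW0 : 0 ≤ W) (hw : ∀ d ∈ Icc 1 D, ‖w d‖ ≤ W)
    (hN : ∀ d ∈ Icc 1 D, (N d : ℝ) + 1 ≤ Y / d)
    (hG : ∀ d ∈ Icc 1 D, ∀ β : ℝ, ‖∑ j ∈ Icc 1 (N d), g j * e (j * β)‖ ≤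
      G * gm ((N d : ℝ) + 1) β) :
    ∑ χ ∈ (univ : Finset (DirichletCharacter ℂ k)).erase 1,
      ‖∑ d ∈ Icc 1 D, w d * χ (d : ZMod k) * ∑ j ∈ Icc 1 (N d), g j * χ (j : ZMod k)‖ ^ 2 ≤
      (G * W) ^ 2 * (5000 * k * ((D : ℝ) ^ 2 + Y) * ((2 + Real.log (2 * D)) ^ 3 *
        (2 + Real.log k))) := by
  have hD0 : (0 : ℝ) < D := by exact_mod_cast hD
  have hlogD : 0 ≤ Real.log D := Real.log_natCast_nonneg D
  have hlogk : 0 ≤ Real.log k := Real.log_natCast_nonneg k
  have hlogD2 : Real.log D ≤ Real.log (2 * D) := Real.log_le_log hD0 (by linarith)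
  have hk0 : (0 : ℝ) ≤ k := Nat.cast_nonneg k
  set F : ZMod k → ℂ := fun a => ∑ d ∈ (Icc 1 D).filter (fun d => d.Coprime k),
    ∑ j ∈ Icc 1 (N d), if ((d * j : ℕ) : ZMod k) = a then w d * g j else 0 with hF
  have hsum : ∀ φ : ZMod k → ℂ, ∑ a, φ a * F a = ∑ d ∈ (Icc 1 D).filter (fun d => d.Coprime k),
      ∑ j ∈ Icc 1 (N d), w d * g j * φ ((d * j : ℕ) : ZMod k) := by
    intro φ
    simp only [hF, mul_sum]
    rw [sum_comm]
    refine sum_congr rfl fun d _ => ?_
    rw [sum_comm]
    refine sum_congr rfl fun j _ => ?_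
    rw [Finset.sum_eq_single (((d * j : ℕ) : ZMod k))]
    · rw [if_pos rfl]
      ring
    · intro a _ ha
      rw [if_neg (Ne.symm ha), mul_zero]
    · intro h
      exact absurd (mem_univ _) h
  have h1 : ∀ χ : DirichletCharacter ℂ k, ∑ d ∈ Icc 1 D, w d * χ (d : ZMod k) *
      ∑ j ∈ Icc 1 (N d), g j * χ (j : ZMod k) = ∑ a, χ a * F a := by
    intro χ
    rw [hsum, sum_filter]
    refine sum_congr rfl fun d _ => ?_
    split_ifs with hd
    · rw [mul_sum]
      refine sum_congr rfl fun j _ => ?_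
      rw [Nat.cast_mul, map_mul]
      ring
    · have : χ (d : ZMod k) = 0 := by
        apply MulChar.map_nonunit
        rw [ZMod.isUnit_iff_coprime]
        exact hd
      rw [this]
      ring
  set f : ℕ → ℝ := fun t => (∑ d ∈ (Icc 1 D).filter (fun d => d.Coprime k),
    gm (Y / d) (((t : ℝ) / k) * d)) ^ 2 with hf
  have hf0 : ∀ t, 0 ≤ f t := fun t => sq_nonneg _
  have h2 : ∀ t ∈ (univ : Finset (ZMod k)).erase 0, ‖∑ a, F a * ZMod.stdAddChar (t * a)‖ ^ 2 ≤
      (G * W) ^ 2 * f t.val := by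
    intro t ht
    have h3 : ∑ a, F a * ZMod.stdAddChar (t * a) = ∑ d ∈ (Icc 1 D).filter (fun d => d.Coprime k),
        w d * ∑ j ∈ Icc 1 (N d), g j * e (j * (((t.val : ℝ) / k) * d)) := by
      have := hsum (fun a => ZMod.stdAddChar (t * a))
      rw [sum_congr rfl fun a _ => mul_comm (F a) _, this]
      refine sum_congr rfl fun d _ => ?_
      rw [mul_sum]
      refine sum_congr rfl fun j _ => ?_
      have h4 := gaussLS_e (q := k) (d * j) t.val
      rw [ZMod.natCast_zmod_val t, mul_comm ((d * j : ℕ) : ZMod k)] at h4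
      rw [← h4, mul_assoc]
      congr 3
      push_cast
      ring
    rw [h3, hf, ← mul_pow]
    refine pow_le_pow_left₀ (norm_nonneg _) ?_ 2
    calc ‖∑ d ∈ (Icc 1 D).filter (fun d => d.Coprime k),
          w d * ∑ j ∈ Icc 1 (N d), g j * e (j * (((t.val : ℝ) / k) * d))‖
        ≤ ∑ d ∈ (Icc 1 D).filter (fun d => d.Coprime k),
          W * (G * gm (Y / d) (((t.val : ℝ) / k) * d)) := by
          refine (norm_sum_le _ _).trans (sum_le_sum fun d hd => ?_)
          rw [norm_mul]
          have hd' := (mem_filter.1 hd).1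
          refine mul_le_mul (hw d hd') ?_ (norm_nonneg _) hW0
          refine (hG d hd' _).trans ?_
          exact mul_le_mul_of_nonneg_left (gm_mono (by positivity) (hN d hd') _) hG0
      _ = G * W * ∑ d ∈ (Icc 1 D).filter (fun d => d.Coprime k),
          gm (Y / d) (((t.val : ℝ) / k) * d) := by
          rw [mul_sum]
          exact sum_congr rfl fun d _ => by ring
  have h3 : ∑ t ∈ (univ : Finset (ZMod k)).erase 0, f t.val ≤ ∑ t ∈ Ioo 0 k, f t := by
    have h4 : ∑ t ∈ ((univ : Finset (ZMod k)).erase 0).image ZMod.val, f t =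
        ∑ t ∈ (univ : Finset (ZMod k)).erase 0, f t.val :=
      sum_image fun a _ b _ h => ZMod.val_injective k h
    rw [← h4]
    refine sum_le_sum_of_subset_of_nonneg ?_ (fun t _ _ => hf0 t)
    intro t ht
    rw [mem_image] at ht
    obtain ⟨u, hu, rfl⟩ := ht
    have hu0 : u ≠ 0 := ne_of_mem_erase hu
    rw [mem_Ioo]
    exact ⟨Nat.pos_of_ne_zero (by rwa [Ne, ZMod.val_eq_zero]), ZMod.val_lt u⟩
  have h4 : ∑ t ∈ Ioo 0 k, f t ≤ 5000 * k * ((D : ℝ) ^ 2 + Y) * ((2 + Real.log (2 * D)) ^ 3 *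
        (2 + Real.log k)) := by
    rcases Nat.lt_or_ge 1 k with hk | hk
    · set A : ℝ := 48 * (D : ℝ) * (2 + Real.log (2 * D)) with hA
      set E : Finset ℕ := (Icc 1 (2 * D)).filter (fun r => r.Coprime k) with hE
      have h5 : ∑ t ∈ Ioo 0 k, f t ≤ ∑ t ∈ Ioo 0 k, (2 * A ^ 2 + 2 * (1 + Real.log D) ^ 2 *
          ∑ r ∈ E, gm (Y / r) (((t : ℝ) / k) * r) ^ 2) :=
        sum_le_sum fun t _ => pointwise hD hY0
      have h6 : ∑ t ∈ Ioo 0 k, ∑ r ∈ E, gm (Y / r) (((t : ℝ) / k) * r) ^ 2 ≤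
          16 * Y * k * (2 + Real.log k) * (2 + Real.log (2 * D)) := by
        rw [sum_comm]
        calc ∑ r ∈ E, ∑ t ∈ Ioo 0 k, gm (Y / r) (((t : ℝ) / k) * r) ^ 2
            ≤ ∑ r ∈ E, 16 * (Y / r) * k * (2 + Real.log k) :=
              sum_le_sum fun r hr => sum_t hk (mem_filter.1 hr).2 (by positivity)
          _ ≤ ∑ r ∈ Icc 1 (2 * D), 16 * (Y / r) * k * (2 + Real.log k) :=
              sum_le_sum_of_subset_of_nonneg (filter_subset _ _) (fun _ _ _ => by positivity)
          _ = 16 * Y * k * (2 + Real.log k) * ∑ r ∈ Icc 1 (2 * D), 1 / (r : ℝ) := by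
              rw [mul_sum]
              exact sum_congr rfl fun r _ => by ring
          _ ≤ 16 * Y * k * (2 + Real.log k) * (2 + Real.log (2 * D)) := by
              refine mul_le_mul_of_nonneg_left ?_ (by positivity)
              have h7 := sum_inv_le (2 * D)
              push_cast at h7
              linarith
      have h7 : ∑ t ∈ Ioo 0 k, (2 * A ^ 2 + 2 * (1 + Real.log D) ^ 2 *
          ∑ r ∈ E, gm (Y / r) (((t : ℝ) / k) * r) ^ 2) ≤ k * (2 * A ^ 2) +
          2 * (1 + Real.log D) ^ 2 * (16 * Y * k * (2 + Real.log k) * (2 + Real.log (2 * D))) := by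
        rw [sum_add_distrib, sum_const, Nat.card_Ioo, nsmul_eq_mul]
        refine add_le_add ?_ ((le_of_eq (mul_sum _ _ _).symm).trans
          (mul_le_mul_of_nonneg_left h6 (by positivity)))
        refine mul_le_mul_of_nonneg_right ?_ (by positivity)
        exact_mod_cast (by omega : k - 0 - 1 ≤ k)
      refine (h5.trans h7).trans ?_
      set l : ℝ := 2 + Real.log (2 * D) with hl
      set m : ℝ := 2 + Real.log k with hm
      have hl2 : 2 ≤ l := by linarith
      have hm2 : 2 ≤ m := by linarith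
      have h8 : (1 + Real.log D) ^ 2 ≤ l ^ 2 := pow_le_pow_left₀ (by linarith) (by linarith) 2
      have h9 : l ^ 2 ≤ l ^ 3 * m := by
        have : 1 ≤ l * m := by nlinarith
        calc l ^ 2 = l ^ 2 * 1 := by ring
          _ ≤ l ^ 2 * (l * m) := by gcongr
          _ = _ := by ring
      have h10 : k * (2 * A ^ 2) ≤ 5000 * k * (D : ℝ) ^ 2 * (l ^ 3 * m) := by
        calc k * (2 * A ^ 2) = 4608 * k * (D : ℝ) ^ 2 * l ^ 2 := by
              rw [hA]
              ring
          _ ≤ 5000 * k * (D : ℝ) ^ 2 * (l ^ 3 * m) := by gcongr; norm_num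
      have h11 : 2 * (1 + Real.log D) ^ 2 * (16 * Y * k * m * l) ≤
          5000 * k * Y * (l ^ 3 * m) := by
        calc 2 * (1 + Real.log D) ^ 2 * (16 * Y * k * m * l)
            ≤ 2 * l ^ 2 * (16 * Y * k * m * l) := by gcongr
          _ = 32 * (k * Y * (l ^ 3 * m)) := by ring
          _ ≤ 5000 * (k * Y * (l ^ 3 * m)) := by gcongr; norm_num
          _ = _ := by ring
      calc k * (2 * A ^ 2) + 2 * (1 + Real.log D) ^ 2 * (16 * Y * k * m * l)
          ≤ 5000 * k * (D : ℝ) ^ 2 * (l ^ 3 * m) + 5000 * k * Y * (l ^ 3 * m) :=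
            add_le_add h10 h11
        _ = _ := by ring
    · have : Ioo 0 k = ∅ := by
        rw [Finset.eq_empty_iff_forall_notMem]
        intro t ht
        rw [mem_Ioo] at ht
        omega
      rw [this, sum_empty]
      have h5 : 0 ≤ 2 + Real.log (2 * D) := by linarith
      positivity
  rw [sum_congr rfl fun χ _ => by rw [h1 χ]]
  refine (chars_le k F).trans ((sum_le_sum h2).trans ?_)
  rw [← mul_sum]
  exact mul_le_mul_of_nonneg_left (h3.trans h4) (by positivity)

end Pool.Agent.HL
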