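import Pool.Agent.Work.MP_92f640_nt.HS.Basic
import Pool.Agent.Work.MP_92f640_nt.HL.Evt
import Pool.Agent.Work.MP_b30479_gt.Mertens

/-! # Module VLow: Mertens' theorem on intervals -/

namespace Pool.Agent.HS

open Finset Pool.Agent.BV Pool.Agent.HL

/-- `∑_{p ≤ n} log p / p - log n` -/
noncomputable def RM (n : ℕ) : ℝ :=
  ∑ k ∈ Icc 0 n, Pool.Agent.Work.MP_b30479_gt.Mertens.lc k - Real.log n

theorem RM_bound : ∃ C : ℝ, 0 < C ∧ ∀ n : ℕ, 1 ≤ n → |RM n| ≤ C := by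
  obtain ⟨C, hC, h⟩ := Pool.Agent.Work.MP_b30479_gt.Mertens.mertens_first
  refine ⟨C, hC, fun n hn => ?_⟩
  have h1 := h n (by exact_mod_cast hn)
  unfold Pool.Agent.Work.MP_b30479_gt.Mertens.A at h1
  rw [Nat.floor_natCast] at h1
  exact h1

theorem RM_succ (n : ℕ) : Pool.Agent.Work.MP_b30479_gt.Mertens.lc (n + 1) =
    (Real.log (n + 1 : ℕ) - Real.log n) + RM (n + 1) - RM n := by
  unfold RM
  rw [Finset.sum_Icc_succ_top (by omega)]
  ring

theorem step_bound {n : ℕ} (hn : 2 ≤ n) :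
    |(Real.log (n + 1 : ℕ) - Real.log n) * (Real.log (n + 1 : ℕ))⁻¹ -
      (Real.log (Real.log (n + 1 : ℕ)) - Real.log (Real.log n))| ≤
      (Real.log n)⁻¹ - (Real.log (n + 1 : ℕ))⁻¹ := by
  have hn1 : (1 : ℝ) < n := by exact_mod_cast (by omega : 1 < n)
  have hn2 : (1 : ℝ) < (n + 1 : ℕ) := by exact_mod_cast (by omega : 1 < n + 1)
  have hu : 0 < Real.log n := Real.log_pos hn1
  have hv : 0 < Real.log (n + 1 : ℕ) := Real.log_pos hn2
  have hle : Real.log n ≤ Real.log (n + 1 : ℕ) :=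
    Real.log_le_log (by linarith) (by push_cast; linarith)
  have hd : Real.log (n + 1 : ℕ) - Real.log n ≤ 1 := by
    rw [← Real.log_div (by positivity) (by positivity)]
    have h1 : (((n + 1 : ℕ) : ℝ)) / n ≤ 2 := by
      rw [div_le_iff₀ (by linarith)]
      push_cast
      linarith
    have h2 := Real.log_le_sub_one_of_pos (show (0 : ℝ) < ((n + 1 : ℕ) : ℝ) / n by positivity)
    linarith
  generalize Real.log (n + 1 : ℕ) = v at hv hle hd
  generalize Real.log n = u at hu hle hd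
  have h1 : 1 - u / v ≤ Real.log v - Real.log u := by
    have h := Real.log_le_sub_one_of_pos (show (0 : ℝ) < u / v by positivity)
    rw [Real.log_div hu.ne' hv.ne'] at h
    linarith
  have h2 : Real.log v - Real.log u ≤ v / u - 1 := by
    have h := Real.log_le_sub_one_of_pos (show (0 : ℝ) < v / u by positivity)
    rw [Real.log_div hv.ne' hu.ne'] at h
    linarith
  have e1 : (v - u) * v⁻¹ = 1 - u / v := by
    field_simp
  have e2 : v / u - 1 - (v - u) * v⁻¹ = (v - u) * (u⁻¹ - v⁻¹) := by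
    field_simp
  have h3 : 0 ≤ u⁻¹ - v⁻¹ := sub_nonneg.2 (inv_anti₀ hu hle)
  have h4 : (v - u) * (u⁻¹ - v⁻¹) ≤ 1 * (u⁻¹ - v⁻¹) := mul_le_mul_of_nonneg_right hd h3
  rw [abs_le]
  constructor <;> linarith

theorem mertens_inv {C : ℝ} (hR : ∀ n : ℕ, 1 ≤ n → |RM n| ≤ C) {M : ℕ} (hM : 2 ≤ M)
    {N : ℕ} (hN : M ≤ N) :
    |∑ p ∈ (Ioc M N).filter Nat.Prime, (1 : ℝ) / p -
      (Real.log (Real.log N) - Real.log (Real.log M)) - RM N * (Real.log N)⁻¹ +
        RM M * (Real.log M)⁻¹| ≤ (C + 1) * ((Real.log M)⁻¹ - (Real.log N)⁻¹) := by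
  induction N, hN using Nat.le_induction with
  | base => simp
  | succ n hn ih =>
    have hs : ∑ p ∈ (Ioc M (n + 1)).filter Nat.Prime, (1 : ℝ) / p =
        ∑ p ∈ (Ioc M n).filter Nat.Prime, (1 : ℝ) / p +
          Pool.Agent.Work.MP_b30479_gt.Mertens.lc (n + 1) * (Real.log (n + 1 : ℕ))⁻¹ := by
      rw [Finset.sum_filter, Finset.sum_filter, Finset.sum_Ioc_succ_top (by omega)]
      congr 1
      unfold Pool.Agent.Work.MP_b30479_gt.Mertens.lc
      have hv : Real.log (n + 1 : ℕ) ≠ 0 :=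
        (Real.log_pos (by exact_mod_cast (by omega : 1 < n + 1))).ne'
      split_ifs with h
      · field_simp
      · simp
    have h1 := step_bound (show 2 ≤ n by omega)
    have h2 := hR n (by omega)
    have hn1 : (1 : ℝ) < n := by exact_mod_cast (by omega : 1 < n)
    have hu : 0 < Real.log n := Real.log_pos hn1
    have hle : Real.log n ≤ Real.log (n + 1 : ℕ) :=
      Real.log_le_log (by linarith) (by push_cast; linarith)
    have h3 : 0 ≤ (Real.log n)⁻¹ - (Real.log (n + 1 : ℕ))⁻¹ := sub_nonneg.2 (inv_anti₀ hu hle)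
    have h4 : |RM n * ((Real.log n)⁻¹ - (Real.log (n + 1 : ℕ))⁻¹)| ≤
        C * ((Real.log n)⁻¹ - (Real.log (n + 1 : ℕ))⁻¹) := by
      rw [abs_mul, abs_of_nonneg h3]
      exact mul_le_mul_of_nonneg_right h2 h3
    rw [hs, RM_succ n]
    rw [abs_le] at h1 h4 ih ⊢
    constructor
    · linarith [h1.1, h4.1, ih.1]
    · linarith [h1.2, h4.2, ih.2]

theorem mertens_two : ∃ C : ℝ, 0 < C ∧ ∀ M N : ℕ, 2 ≤ M → M ≤ N →
    |∑ p ∈ (Ioc M N).filter Nat.Prime, (1 : ℝ) / p -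
      (Real.log (Real.log N) - Real.log (Real.log M))| ≤ C * (Real.log M)⁻¹ := by
  obtain ⟨C, hC, hR⟩ := RM_bound
  refine ⟨2 * C + 1, by linarith, fun M N hM hN => ?_⟩
  have h1 := mertens_inv hR hM hN
  have hu : 0 < (Real.log M)⁻¹ :=
    inv_pos.2 (Real.log_pos (by exact_mod_cast (by omega : 1 < M)))
  have hv : 0 < (Real.log N)⁻¹ :=
    inv_pos.2 (Real.log_pos (by exact_mod_cast (by omega : 1 < N)))
  have h2 : |RM N * (Real.log N)⁻¹| ≤ C * (Real.log N)⁻¹ := by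
    rw [abs_mul, abs_of_pos hv]
    exact mul_le_mul_of_nonneg_right (hR N (by omega)) hv.le
  have h3 : |RM M * (Real.log M)⁻¹| ≤ C * (Real.log M)⁻¹ := by
    rw [abs_mul, abs_of_pos hu]
    exact mul_le_mul_of_nonneg_right (hR M (by omega)) hu.le
  rw [abs_le] at h1 h2 h3 ⊢
  constructor
  · linarith [h1.1, h2.1, h3.1]
  · linarith [h1.2, h2.2, h3.2]

/-- comparison of iterated logarithms -/
theorem loglog_close {u t : ℝ} (ht : 4 ≤ t) (h1 : t - 1 ≤ u) (h2 : u ≤ t) :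
    |Real.log u - Real.log t| ≤ 2 / t := by
  have hu : 0 < u := by linarith
  have ht0 : 0 < t := by linarith
  have a1 : Real.log u ≤ Real.log t := Real.log_le_log hu h2
  have a2 := Real.log_le_sub_one_of_pos (show (0 : ℝ) < t / u by positivity)
  rw [Real.log_div ht0.ne' hu.ne'] at a2
  have a3 : t / u - 1 ≤ 2 / t := by
    rw [div_sub_one hu.ne', div_le_div_iff₀ hu ht0]
    nlinarith
  rw [abs_le]
  constructor <;> linarith [div_pos (show (0:ℝ) < 2 by norm_num) ht0]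

/-- Mertens on intervals of the logarithmic scale -/
theorem mertens_int (a b : ℝ) (ha : 0 < a) (hab : a ≤ b) (_hb : b ≤ 1) (δ : ℝ) (hδ : 0 < δ) :
    ∃ x₁ : ℕ, ∀ x : ℕ, x₁ ≤ x → |∑ p ∈ (Icc ⌈(x : ℝ) ^ a⌉₊ ⌊(x : ℝ) ^ b⌋₊).filter Nat.Prime,
      (1 : ℝ) / p - Real.log (b / a)| ≤ δ := by
  obtain ⟨C, hC, h⟩ := mertens_two
  have hb0 : 0 < b := by linarith
  have ev := evt_log (max (8 / a) ((8 + 2 * C) / (a * δ)))
  obtain ⟨x₁, hx₁⟩ := Filter.eventually_atTop.1 ev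
  refine ⟨max x₁ 2, fun x hx => ?_⟩
  have hL := hx₁ x ((le_max_left _ _).trans hx)
  have hx2 : 2 ≤ x := (le_max_right _ _).trans hx
  have hx0 : (0 : ℝ) < x := by exact_mod_cast (by omega : 0 < x)
  have hx1 : (1 : ℝ) ≤ x := by exact_mod_cast (by omega : 1 ≤ x)
  have hL1 : 8 / a ≤ Real.log x := (le_max_left _ _).trans hL
  have hL2 : (8 + 2 * C) / (a * δ) ≤ Real.log x := (le_max_right _ _).trans hL
  rw [div_le_iff₀ ha] at hL1
  rw [div_le_iff₀ (by positivity)] at hL2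
  have hlx : 0 < Real.log x := by
    by_contra hcon
    nlinarith
  have haL : 8 ≤ a * Real.log x := by linarith
  have hbL : 8 ≤ b * Real.log x := by nlinarith
  have ela : Real.log ((x : ℝ) ^ a) = a * Real.log x := Real.log_rpow hx0 a
  have elb : Real.log ((x : ℝ) ^ b) = b * Real.log x := Real.log_rpow hx0 b
  have hxa : (4 : ℝ) ≤ (x : ℝ) ^ a := by
    have h1 := Real.add_one_le_exp (a * Real.log x)
    rw [← ela, Real.exp_log (by positivity), ela] at h1
    linarith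
  have hxab : (x : ℝ) ^ a ≤ (x : ℝ) ^ b := Real.rpow_le_rpow_of_exponent_le hx1 hab
  have hc1 : (x : ℝ) ^ a ≤ ⌈(x : ℝ) ^ a⌉₊ := Nat.le_ceil _
  have hc2 : (⌈(x : ℝ) ^ a⌉₊ : ℝ) < (x : ℝ) ^ a + 1 := Nat.ceil_lt_add_one (by linarith)
  have hf1 : (⌊(x : ℝ) ^ b⌋₊ : ℝ) ≤ (x : ℝ) ^ b := Nat.floor_le (by linarith)
  have hf2 : (x : ℝ) ^ b < ⌊(x : ℝ) ^ b⌋₊ + 1 := Nat.lt_floor_add_one _
  obtain ⟨M, hM⟩ : ∃ M, ⌈(x : ℝ) ^ a⌉₊ = M + 1 := by
    have : 0 < ⌈(x : ℝ) ^ a⌉₊ := Nat.ceil_pos.2 (by linarith)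
    exact ⟨⌈(x : ℝ) ^ a⌉₊ - 1, by omega⟩
  obtain ⟨N, hN⟩ : ∃ N, N = ⌊(x : ℝ) ^ b⌋₊ := ⟨_, rfl⟩
  rw [hM] at hc1 hc2 ⊢
  rw [← hN] at hf1 hf2 ⊢
  push_cast at hc1 hc2
  have hM2 : 2 ≤ M := by
    have : (2 : ℝ) < M := by linarith
    have h2 : 2 < M := by exact_mod_cast this
    omega
  have hMN : M ≤ N := by
    have : (M : ℝ) < N + 1 := by linarith
    have h2 : M < N + 1 := by exact_mod_cast this
    omega
  have hset : Icc (M + 1) N = Ioc M N := by
    ext k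
    simp only [mem_Icc, mem_Ioc]
    omega
  rw [hset]
  have hmain := h M N hM2 hMN
  have hM0 : (0 : ℝ) < M := by exact_mod_cast (by omega : 0 < M)
  have hN0 : (0 : ℝ) < N := by exact_mod_cast (by omega : 0 < N)
  -- logarithms
  have hexp : (2 : ℝ) ≤ Real.exp 1 := by
    have := Real.add_one_le_exp (1 : ℝ)
    linarith
  have hlog2 : Real.log 2 ≤ 1 := by
    rw [Real.log_le_iff_le_exp (by norm_num)]
    exact hexp
  have m1 : a * Real.log x - 1 ≤ Real.log M := by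
    have h1 : (x : ℝ) ^ a ≤ 2 * M := by linarith
    have h2 := Real.log_le_log (by linarith) h1
    rw [ela, Real.log_mul (by norm_num) hM0.ne'] at h2
    linarith
  have m2 : Real.log M ≤ a * Real.log x := by
    rw [← ela]
    exact Real.log_le_log hM0 (by linarith)
  have n1 : b * Real.log x - 1 ≤ Real.log N := by
    have h1 : (x : ℝ) ^ b ≤ 2 * N := by linarith
    have h2 := Real.log_le_log (by linarith) h1
    rw [elb, Real.log_mul (by norm_num) hN0.ne'] at h2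
    linarith
  have n2 : Real.log N ≤ b * Real.log x := by
    rw [← elb]
    exact Real.log_le_log hN0 hf1
  have l1 := loglog_close (by linarith) m1 m2
  have l2 := loglog_close (by linarith) n1 n2
  have e1 : Real.log (b * Real.log x) - Real.log (a * Real.log x) = Real.log (b / a) := by
    rw [Real.log_mul hb0.ne' hlx.ne', Real.log_mul ha.ne' hlx.ne', Real.log_div hb0.ne' ha.ne']
    ring
  have haLp : 0 < a * Real.log x := by linarith
  have l3 : 2 / (b * Real.log x) ≤ 2 / (a * Real.log x) := by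
    apply div_le_div_of_nonneg_left (by norm_num) haLp
    exact mul_le_mul_of_nonneg_right hab hlx.le
  have l4 : C * (Real.log M)⁻¹ ≤ (2 * C) / (a * Real.log x) := by
    rw [← div_eq_mul_inv, div_le_div_iff₀ (by linarith) haLp]
    nlinarith
  have l5 : (4 + 2 * C) / (a * Real.log x) ≤ δ := by
    rw [div_le_iff₀ haLp]
    nlinarith
  have l6 : (4 + 2 * C) / (a * Real.log x) = 2 / (a * Real.log x) + 2 / (a * Real.log x) +
      (2 * C) / (a * Real.log x) := by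
    rw [← add_div, ← add_div]
    ring
  rw [abs_le] at hmain l1 l2 ⊢
  constructor
  · linarith [hmain.1, l1.1, l2.1]
  · linarith [hmain.2, l1.2, l2.2, hmain.1, l1.1, l2.1]

end Pool.Agent.HS
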